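import Pool.Agent.MP_71ac24_nt.H14.Defs

/-! A set of integers of dimension at most one half is not invariant under the ring generated by a
half-dimensional set of dilates (after Guth, Katz and Zahl). -/

set_option autoImplicit false

namespace Pool.Agent.MP_71ac24_nt.H14

open Finset

open Classical in
noncomputable def coreInd (P : Prop) : ℝ := if P then 1 else 0

lemma core_ind_nonneg (P : Prop) : 0 ≤ coreInd P := by unfold coreInd; split_ifs <;> norm_num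

lemma core_ind_pos {P : Prop} (h : P) : coreInd P = 1 := if_pos h

lemma core_ind_neg {P : Prop} (h : ¬ P) : coreInd P = 0 := if_neg h

lemma core_ind_mono {P Q : Prop} (h : P → Q) : coreInd P ≤ coreInd Q := by
  by_cases hP : P
  · rw [core_ind_pos hP, core_ind_pos (h hP)]
  · rw [core_ind_neg hP]; exact core_ind_nonneg Q

lemma core_card {α : Type*} (s : Finset α) (p : α → Prop) [DecidablePred p] :
    (#(s.filter p) : ℝ) = ∑ x ∈ s, coreInd (p x) := by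
  rw [card_filter]
  push_cast
  refine sum_congr rfl fun x _ => ?_
  by_cases h : p x
  · rw [if_pos h, core_ind_pos h]
  · rw [if_neg h, core_ind_neg h]

lemma core_col (X : Finset ℤ) (μ ν : ℝ) : (Col X μ ν : ℝ) = ∑ q ∈ X ×ˢ X, ∑ p ∈ X ×ˢ X,
    coreInd (|μ * ((p.1 : ℝ) - p.2) + ν * ((q.1 : ℝ) - q.2)| ≤ 1) := by
  unfold Col
  rw [core_card, sum_product_right]

lemma core_pair {X : Finset ℤ} {K : ℝ}
    (hα : ∀ z r : ℝ, 1 ≤ r → (#(X.filter (fun x : ℤ => z ≤ (x : ℝ) ∧ (x : ℝ) ≤ z + r)) : ℝ) ≤ K * √r)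
    (w r : ℝ) (hr : 1 ≤ 2 * r) :
    ∑ p ∈ X ×ˢ X, coreInd (|(p.1 : ℝ) - p.2 + w| ≤ r) ≤ #X * (K * √(2 * r)) := by
  rw [sum_product_right, ← nsmul_eq_mul]
  refine sum_le_card_nsmul _ _ _ fun y _ => ?_
  refine le_trans ?_ (hα (y - w - r) (2 * r) hr)
  rw [core_card]
  refine sum_le_sum fun x _ => core_ind_mono fun h => ?_
  obtain ⟨h1, h2⟩ := abs_le.1 h
  constructor <;> linarith

lemma core_split {X : Finset ℤ} {K r0 A D : ℝ} (hK : 0 < K) (hA : 0 ≤ A) (hD : 0 ≤ D)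
    (hβ : K ^ 10 * #{p ∈ X ×ˢ X | |(p.1 : ℝ) - p.2| ≤ r0} ≤ (#X : ℝ) ^ 2) (f : ℤ × ℤ → ℝ)
    (h1 : ∀ q ∈ X ×ˢ X, f q ≤ A) (h2 : ∀ q ∈ X ×ˢ X, r0 < |(q.1 : ℝ) - q.2| → f q ≤ D) :
    ∑ q ∈ X ×ˢ X, f q ≤ (A / K ^ 10 + D) * (#X : ℝ) ^ 2 := by
  have h3 : ∑ q ∈ X ×ˢ X, f q ≤ ∑ q ∈ X ×ˢ X, (A * coreInd (|(q.1 : ℝ) - q.2| ≤ r0) + D) := by
    refine sum_le_sum fun q hq => ?_
    by_cases h : |(q.1 : ℝ) - q.2| ≤ r0
    · rw [core_ind_pos h]; linarith [h1 q hq]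
    · rw [core_ind_neg h]; linarith [h2 q hq (not_le.1 h)]
  rw [sum_add_distrib, ← mul_sum, ← core_card, sum_const, card_product, nsmul_eq_mul] at h3
  have h4 : (#{p ∈ X ×ˢ X | |(p.1 : ℝ) - p.2| ≤ r0} : ℝ) ≤ (#X : ℝ) ^ 2 / K ^ 10 := by
    rw [le_div_iff₀ (by positivity)]; linarith
  have h5 := mul_le_mul_of_nonneg_left h4 hA
  push_cast at h3
  calc _ ≤ A * ((#X : ℝ) ^ 2 / K ^ 10) + #X * #X * D := by linarith
    _ = _ := by ring

lemma core_fr {ι : Type*} {J : Finset ι} {l : ι → ℝ} {K B : ℝ}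
    (hFr : ∀ z r : ℝ, 1 / (16 * B) ≤ r → (#{a ∈ J | z ≤ l a ∧ l a ≤ z + r} : ℝ) ≤ K * √r * #J)
    (z r : ℝ) (hr : 1 / (16 * B) ≤ 2 * r) :
    ∑ a ∈ J, coreInd (|l a - z| ≤ r) ≤ K * √(2 * r) * #J := by
  refine le_trans ?_ (hFr (z - r) (2 * r) hr)
  rw [core_card]
  refine sum_le_sum fun x _ => core_ind_mono fun h => ?_
  obtain ⟨h1, h2⟩ := abs_le.1 h
  constructor <;> linarith

lemma core_sqrt {a b : ℝ} (hb : 0 ≤ b) (h : a ≤ b ^ 2) : √a ≤ b := Real.sqrt_le_iff.2 ⟨hb, h⟩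

def CoreRat {ι : Type*} (J : Finset ι) (l : ι → ℝ) (g b : ℝ) : Prop :=
  ∃ c ∈ J, ∃ d ∈ J, ∃ e ∈ J, ∃ f ∈ J, 1 / g ≤ |l c - l d| ∧ b = (l e - l f) / (l c - l d)

lemma core_chain {R : ℝ → Prop} {s : ℝ} (hs0 : 0 ≤ s) (hs : s ≤ 1 / 8) (h0 : R 0) (h1 : R 1)
    (h : ∀ b, R b → |b| ≤ 2 → ∀ i : ℝ, (i = 0 ∨ i = 1) → ∃ b', R b' ∧ |(b + i) / 2 - b'| ≤ s)
    (i : ℕ) : ∀ k : ℕ, k ≤ 2 ^ i → ∃ b, R b ∧ |b - k / 2 ^ i| ≤ 2 * s := by
  induction i with
  | zero =>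
    intro k hk
    obtain rfl | rfl : k = 0 ∨ k = 1 := by omega
    · exact ⟨0, h0, by simpa using hs0⟩
    · exact ⟨1, h1, by simpa using hs0⟩
  | succ i ih =>
    have key : ∀ k : ℕ, k ≤ 2 ^ i → ∀ j : ℝ, (j = 0 ∨ j = 1) →
        ∃ b, R b ∧ |b - (k / 2 ^ i + j) / 2| ≤ 2 * s := by
      intro k hk j hj
      obtain ⟨b, hb, hb'⟩ := ih k hk
      have a0 : (0 : ℝ) ≤ k / 2 ^ i := by positivity
      have a1 : (k : ℝ) / 2 ^ i ≤ 1 := by
        rw [div_le_one (by positivity)]; exact_mod_cast hk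
      obtain ⟨b1, b2⟩ := abs_le.1 hb'
      obtain ⟨b', hR, hc⟩ := h b hb (abs_le.2 ⟨by linarith, by linarith⟩) j hj
      obtain ⟨c1, c2⟩ := abs_le.1 hc
      exact ⟨b', hR, abs_le.2 ⟨by linarith, by linarith⟩⟩
    intro k hk
    by_cases hk' : k ≤ 2 ^ i
    · obtain ⟨b, hb, hb'⟩ := key k hk' 0 (Or.inl rfl)
      refine ⟨b, hb, ?_⟩
      rwa [show (k : ℝ) / 2 ^ (i + 1) = (k / 2 ^ i + 0) / 2 by field_simp; ring]
    · obtain ⟨j, rfl⟩ : ∃ j, k = j + 2 ^ i := ⟨k - 2 ^ i, by omega⟩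
      obtain ⟨b, hb, hb'⟩ := key j (by rw [pow_succ] at hk; omega) 1 (Or.inr rfl)
      refine ⟨b, hb, ?_⟩
      rwa [show ((j + 2 ^ i : ℕ) : ℝ) / 2 ^ (i + 1) = (j / 2 ^ i + 1) / 2 by
        push_cast; field_simp; ring]

lemma core_dense {X : Finset ℤ} (hX : X.Nonempty) {K B r0 : ℝ} (hK : 10 ^ 4 ≤ K) (hB : 1 ≤ B)
    (hr1 : √B * K ^ 27 ≤ r0) (hN : (#X : ℝ) ≤ K * √B)
    (hα : ∀ z r : ℝ, 1 ≤ r → (#(X.filter (fun x : ℤ => z ≤ (x : ℝ) ∧ (x : ℝ) ≤ z + r)) : ℝ) ≤ K * √r)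
    (hβ : K ^ 10 * #{p ∈ X ×ˢ X | |(p.1 : ℝ) - p.2| ≤ r0} ≤ (#X : ℝ) ^ 2)
    (n : ℕ) (hn0 : r0 < 16 * K ^ 24 * n) (hn1 : 8 * K ^ 24 * n ≤ r0) (b : ℕ → ℝ)
    (hb : ∀ k < n, |b k - k / n| ≤ 2 * (K ^ 24 / r0))
    (hC : ∀ k < n, (#X : ℝ) ^ 3 ≤ K * ∑ q ∈ X ×ˢ X, ∑ p ∈ X ×ˢ X,
      coreInd (|(p.1 : ℝ) - p.2 + b k * ((q.1 : ℝ) - q.2)| ≤ K ^ 12)) : False := by
  have K1 : 1 ≤ K := by linarith
  have K0 : 0 < K := by linarith
  have hs : 1 ≤ √B := Real.one_le_sqrt.2 hB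
  have N0 : (0 : ℝ) < #X := by exact_mod_cast hX.card_pos
  have g1 : 1 ≤ K ^ 12 := one_le_pow₀ K1
  have r00 : 0 < r0 := lt_of_lt_of_le (by positivity) hr1
  have n0 : (0 : ℝ) < n := by
    by_contra h
    have : (n : ℝ) = 0 := le_antisymm (not_lt.1 h) (Nat.cast_nonneg n)
    rw [this] at hn0; linarith
  have h1 : (n : ℝ) * (#X : ℝ) ^ 3 ≤ K * ∑ q ∈ X ×ˢ X, ∑ k ∈ range n, ∑ p ∈ X ×ˢ X,
      coreInd (|(p.1 : ℝ) - p.2 + b k * ((q.1 : ℝ) - q.2)| ≤ K ^ 12) := by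
    rw [sum_comm, mul_sum]
    have := sum_le_sum fun k (hk : k ∈ range n) => hC k (mem_range.1 hk)
    rwa [sum_const, card_range, nsmul_eq_mul] at this
  have h2 := core_split (A := n * (#X * (K * (2 * K ^ 6)))) (D := (#X : ℝ) ^ 2) K0
    (by positivity) (by positivity) hβ (fun q => ∑ k ∈ range n, ∑ p ∈ X ×ˢ X,
      coreInd (|(p.1 : ℝ) - p.2 + b k * ((q.1 : ℝ) - q.2)| ≤ K ^ 12)) (fun q _ => by
      have := sum_le_card_nsmul (range n) _ _ fun k _ =>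
        core_pair hα (b k * ((q.1 : ℝ) - q.2)) (K ^ 12) (by linarith)
      rw [card_range, nsmul_eq_mul] at this
      refine this.trans ?_
      gcongr
      exact core_sqrt (by positivity) (by rw [show (2 * K ^ 6) ^ 2 = 4 * K ^ 12 by ring]; linarith))
    (fun q _ hq => by
      rw [sum_comm]
      have : ((#X : ℝ)) ^ 2 = #(X ×ˢ X) • (1 : ℝ) := by
        rw [card_product, nsmul_eq_mul]; push_cast; ring
      rw [this]
      refine sum_le_card_nsmul _ _ _ fun p _ => ?_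
      rw [← core_card]
      refine Nat.cast_le_one.2 (card_le_one.2 fun k hk k' hk' => ?_)
      rw [mem_filter, mem_range] at hk hk'
      set ρ := (q.1 : ℝ) - q.2
      have e1 : |b k - b k'| * |ρ| ≤ 2 * K ^ 12 := by
        rw [← abs_mul]
        obtain ⟨a1, a2⟩ := abs_le.1 hk.2
        obtain ⟨a3, a4⟩ := abs_le.1 hk'.2
        exact abs_le.2 ⟨by linarith, by linarith⟩
      have e2 : |b k - b k'| ≤ 2 * (K ^ 24 / r0) := by
        have := mul_le_mul_of_nonneg_left hq.le (abs_nonneg (b k - b k'))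
        have g2 : K ^ 12 ≤ K ^ 24 := pow_le_pow_right₀ K1 (by norm_num)
        rw [← mul_div_assoc, le_div_iff₀ r00]
        linarith
      have e3 : K ^ 24 / r0 ≤ 1 / (8 * n) := by
        rw [div_le_div_iff₀ r00 (by positivity)]; linarith
      have e4 : |(k : ℝ) / n - k' / n| ≤ 6 * (1 / (8 * n)) := by
        obtain ⟨a1, a2⟩ := abs_le.1 (hb k hk.1)
        obtain ⟨a3, a4⟩ := abs_le.1 (hb k' hk'.1)
        obtain ⟨a5, a6⟩ := abs_le.1 e2
        exact abs_le.2 ⟨by linarith, by linarith⟩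
      rw [← sub_div, abs_div, abs_of_pos n0, div_le_iff₀ n0,
        show 6 * (1 / (8 * (n : ℝ))) * n = 3 / 4 by field_simp; norm_num] at e4
      obtain ⟨a1, a2⟩ := abs_le.1 e4
      have a3 : k < k' + 1 := by exact_mod_cast (show (k : ℝ) < k' + 1 by linarith)
      have a4 : k' < k + 1 := by exact_mod_cast (show (k' : ℝ) < k + 1 by linarith)
      omega)
  have h3 := h1.trans (mul_le_mul_of_nonneg_left h2 K0.le)
  have h4 : (n : ℝ) ≤ 2 * n / K ^ 2 + K * #X := by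
    refine le_of_mul_le_mul_right (h3.trans (le_of_eq ?_)) (pow_pos N0 3)
    field_simp
  have h5 : K * #X ≤ 16 * n / K := by
    rw [le_div_iff₀ K0]
    refine le_of_mul_le_mul_right ?_ (pow_pos K0 24)
    have := mul_le_mul_of_nonneg_left hN (pow_pos K0 26).le
    calc K * #X * K * K ^ 24 = K ^ 26 * #X := by ring
      _ ≤ √B * K ^ 27 := by linarith [show K ^ 26 * (K * √B) = √B * K ^ 27 by ring]
      _ ≤ 16 * n * K ^ 24 := by linarith
  have h6 : 2 * n / K ^ 2 ≤ 2 * n / 10 ^ 4 :=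
    div_le_div_of_nonneg_left (by positivity) (by norm_num) (hK.trans (le_self_pow₀ K1 two_ne_zero))
  have h7 : 16 * n / K ≤ 16 * n / 10 ^ 4 :=
    div_le_div_of_nonneg_left (by positivity) (by norm_num) hK
  linarith

lemma core_gap {ι : Type*} {X : Finset ℤ} (hX : X.Nonempty) {J : Finset ι} (hJ : J.Nonempty)
    {l : ι → ℝ} {K B r0 : ℝ} (hK : 10 ^ 4 ≤ K) (hg : K ^ 12 ≤ r0) (hr0 : r0 ≤ B)
    (hXB : ∀ q ∈ X ×ˢ X, |(q.1 : ℝ) - q.2| ≤ B) (hl : ∀ a ∈ J, 0 ≤ l a ∧ l a ≤ 16)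
    (hα : ∀ z r : ℝ, 1 ≤ r → (#(X.filter (fun x : ℤ => z ≤ (x : ℝ) ∧ (x : ℝ) ≤ z + r)) : ℝ) ≤ K * √r)
    (hβ : K ^ 10 * #{p ∈ X ×ˢ X | |(p.1 : ℝ) - p.2| ≤ r0} ≤ (#X : ℝ) ^ 2)
    (hFr : ∀ z r : ℝ, 1 / (16 * B) ≤ r → (#{a ∈ J | z ≤ l a ∧ l a ≤ z + r} : ℝ) ≤ K * √r * #J)
    {d t : ℝ} (hd0 : 2 / K ^ 12 ≤ |d|) (hd1 : |d| ≤ 32) (ht : |t| ≤ 3 / 2)
    (hgap : ∀ b', CoreRat J l (K ^ 12) b' → K ^ 24 / r0 < |t - b'|)
    (hC : ∀ a ∈ J, ∀ a' ∈ J, (#X : ℝ) ^ 3 ≤ K * Col X 1 (d * (l a + t * l a'))) : False := by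
  have K1 : 1 ≤ K := by linarith
  have K0 : 0 < K := by linarith
  have N0 : (0 : ℝ) < #X := by exact_mod_cast hX.card_pos
  have M0 : (0 : ℝ) < #J := by exact_mod_cast hJ.card_pos
  have g0 : 0 < K ^ 12 := by positivity
  have r00 : 0 < r0 := by linarith
  have B0 : 0 < B := by linarith
  have h1 : (#J : ℝ) ^ 2 * (#X : ℝ) ^ 3 ≤ K * ∑ q ∈ X ×ˢ X, ∑ α ∈ J ×ˢ J, ∑ p ∈ X ×ˢ X,
      coreInd (|(p.1 : ℝ) - p.2 + d * (l α.1 + t * l α.2) * ((q.1 : ℝ) - q.2)| ≤ 1) := by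
    rw [sum_comm, mul_sum]
    have := sum_le_sum fun α (hα : α ∈ J ×ˢ J) =>
      hC α.1 (mem_product.1 hα).1 α.2 (mem_product.1 hα).2
    simp only [core_col, one_mul] at this
    rw [sum_const, card_product, nsmul_eq_mul] at this
    push_cast at this
    rwa [sq]
  have h2 := core_split (A := (#J : ℝ) ^ 2 * (#X * (K * 2)))
    (D := #X * (#J : ℝ) ^ 2 * (40 / K ^ 3)) K0
    (by positivity) (by positivity) hβ (fun q => ∑ α ∈ J ×ˢ J, ∑ p ∈ X ×ˢ X,
      coreInd (|(p.1 : ℝ) - p.2 + d * (l α.1 + t * l α.2) * ((q.1 : ℝ) - q.2)| ≤ 1)) (fun q _ => by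
      have := sum_le_card_nsmul (J ×ˢ J) _ _ fun α _ =>
        core_pair hα (d * (l α.1 + t * l α.2) * ((q.1 : ℝ) - q.2)) 1 (by norm_num)
      rw [card_product, nsmul_eq_mul] at this
      push_cast at this
      rw [sq]
      refine this.trans ?_
      gcongr
      exact core_sqrt (by positivity) (by norm_num))
    (fun q hq hq' => by
      rw [sum_comm]
      have hqB := hXB q hq
      set ρ := (q.1 : ℝ) - q.2
      set w := d * ρ with hw
      have w0 : 2 * r0 / K ^ 12 ≤ |w| := by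
        rw [hw, abs_mul, show 2 * r0 / K ^ 12 = 2 / K ^ 12 * r0 by ring]
        exact mul_le_mul hd0 hq'.le r00.le (abs_nonneg d)
      have w1 : 1 ≤ |w| := le_trans (by rw [le_div_iff₀ g0]; linarith) w0
      have w2 : |w| ≤ 32 * B := by
        rw [hw, abs_mul]; exact mul_le_mul hd1 hqB (abs_nonneg _) (by norm_num)
      have wp : 0 < |w| := by linarith
      have key : ∀ u : ℝ, ∑ α ∈ J ×ˢ J, coreInd (|u + d * (l α.1 + t * l α.2) * ρ| ≤ 1) ≤
          coreInd (|u + 0| ≤ 41 * |w|) *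
            (K * √(2 * (1 / K ^ 12)) * #J * (K * √(2 * (1 / |w|)) * #J)) := by
        intro u
        have e : ∀ α : ι × ι, d * (l α.1 + t * l α.2) * ρ = w * (l α.1 + t * l α.2) :=
          fun α => by rw [hw]; ring
        simp only [e]
        by_cases hex : ∃ β ∈ J ×ˢ J, |u + w * (l β.1 + t * l β.2)| ≤ 1
        swap
        · rw [sum_eq_zero fun α hα => core_ind_neg fun h => hex ⟨α, hα, h⟩]
          exact mul_nonneg (core_ind_nonneg _) (by positivity)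
        obtain ⟨β, hβ1, hβ2⟩ := hex
        obtain ⟨b1, b2⟩ := mem_product.1 hβ1
        have u1 : |u + 0| ≤ 41 * |w| := by
          have a1 : |l β.1 + t * l β.2| ≤ 40 := by
            refine (abs_add_le _ _).trans ?_
            rw [abs_mul, abs_of_nonneg (hl _ b1).1, abs_of_nonneg (hl _ b2).1]
            have := mul_le_mul ht (hl _ b2).2 (hl _ b2).1 (by norm_num)
            linarith [(hl _ b1).2]
          have a2 := abs_sub (u + w * (l β.1 + t * l β.2)) (w * (l β.1 + t * l β.2))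
          rw [add_sub_cancel_right, abs_mul] at a2
          have a3 := mul_le_mul_of_nonneg_left a1 wp.le
          rw [add_zero]
          linarith
        rw [core_ind_pos u1, one_mul, sum_product_right]
        refine le_trans ?_ (mul_le_mul_of_nonneg_right (core_fr hFr (l β.2) (1 / K ^ 12) ?_)
          (by positivity))
        · rw [sum_mul]
          refine sum_le_sum fun a' ha' => ?_
          by_cases hc : |l a' - l β.2| ≤ 1 / K ^ 12
          · rw [core_ind_pos hc, one_mul]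
            refine le_trans (sum_le_sum fun a _ => core_ind_mono fun h => ?_)
              (core_fr hFr (-u / w - t * l a') (1 / |w|) ?_)
            · have : l a - (-u / w - t * l a') = (u + w * (l a + t * l a')) / w := by
                have := abs_pos.1 wp
                field_simp; ring
              rw [this, abs_div]
              exact div_le_div_of_nonneg_right h wp.le
            · rw [show 1 / (16 * B) = 2 * (1 / (32 * B)) by field_simp; norm_num]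
              gcongr
          · rw [core_ind_neg hc, zero_mul]
            refine le_of_eq (sum_eq_zero fun a ha => core_ind_neg fun h => ?_)
            have hc' := not_le.1 hc
            have c0 : 0 < |l a' - l β.2| := lt_trans (by positivity) hc'
            have := hgap _ ⟨a', ha', β.2, b2, β.1, b1, a, ha, hc'.le, rfl⟩
            have e1 : t - (l β.1 - l a) / (l a' - l β.2) =
                ((u + w * (l a + t * l a')) - (u + w * (l β.1 + t * l β.2))) /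
                  (w * (l a' - l β.2)) := by
              have := abs_pos.1 wp
              have := abs_pos.1 c0
              field_simp; ring
            have e2 := (abs_sub (u + w * (l a + t * l a')) (u + w * (l β.1 + t * l β.2))).trans
              (add_le_add h hβ2)
            rw [e1, abs_div, abs_mul, lt_div_iff₀ (by positivity)] at this
            have e3 : K ^ 24 / r0 * (2 * r0 / K ^ 12 * (1 / K ^ 12)) ≤
                K ^ 24 / r0 * (|w| * |l a' - l β.2|) :=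
              mul_le_mul_of_nonneg_left (mul_le_mul w0 hc'.le (by positivity) wp.le)
                (by positivity)
            rw [show K ^ 24 / r0 * (2 * r0 / K ^ 12 * (1 / K ^ 12)) = 2 by field_simp] at e3
            linarith
        · rw [mul_one_div, div_le_div_iff₀ (by positivity) g0]; linarith
      refine (sum_le_sum fun p _ => key _).trans ?_
      rw [← sum_mul]
      refine (mul_le_mul_of_nonneg_right (core_pair hα 0 _ (by linarith)) (by positivity)).trans ?_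
      have s1 : √(2 * (1 / K ^ 12)) ≤ 2 / K ^ 6 :=
        core_sqrt (by positivity) (by
          rw [show (2 / K ^ 6) ^ 2 = 4 * (1 / K ^ 12) by ring]; gcongr; norm_num)
      have s2 : √(2 * (41 * |w|)) * √(2 * (1 / |w|)) ≤ 20 := by
        rw [← Real.sqrt_mul (by positivity)]
        exact core_sqrt (by norm_num) (by
          rw [show 2 * (41 * |w|) * (2 * (1 / |w|)) = 164 by field_simp; norm_num]; norm_num)
      have s3 := mul_le_mul s1 s2 (by positivity) (by positivity)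
      calc _ = #X * (#J : ℝ) ^ 2 * (K ^ 3 * (√(2 * (1 / K ^ 12)) *
            (√(2 * (41 * |w|)) * √(2 * (1 / |w|))))) := by ring
        _ ≤ #X * (#J : ℝ) ^ 2 * (K ^ 3 * (2 / K ^ 6 * 20)) := by gcongr
        _ = _ := by field_simp; norm_num)
  have h3 := h1.trans (mul_le_mul_of_nonneg_left h2 K0.le)
  have h4 : 1 ≤ 2 / K ^ 8 + 40 / K ^ 2 := by
    refine le_of_mul_le_mul_right ?_ (mul_pos (pow_pos M0 2) (pow_pos N0 3))
    rw [one_mul]
    refine h3.trans (le_of_eq ?_)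
    field_simp
  have h6 : 2 / K ^ 8 ≤ 2 / 10 ^ 4 :=
    div_le_div_of_nonneg_left (by positivity) (by norm_num) (hK.trans (le_self_pow₀ K1 (by norm_num)))
  have h7 : 40 / K ^ 2 ≤ 40 / 10 ^ 4 :=
    div_le_div_of_nonneg_left (by positivity) (by norm_num) (hK.trans (le_self_pow₀ K1 two_ne_zero))
  linarith

/-- The gap or dense dichotomy of Guth, Katz and Zahl. -/
theorem core {ι : Type*} (X : Finset ℤ) (hX : X.Nonempty) (J : Finset ι) (hJ : J.Nonempty)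
    (l : ι → ℝ) (K B r0 : ℝ) (hK : 10 ^ 4 ≤ K) (hB : 1 ≤ B) (hr0 : r0 ≤ B)
    (hr1 : √B * K ^ 27 ≤ r0) (x0 : ℝ) (hXB : ∀ x ∈ X, x0 ≤ (x : ℝ) ∧ (x : ℝ) ≤ x0 + B)
    (hl : ∀ a ∈ J, 0 ≤ l a ∧ l a ≤ 16)
    (hα : ∀ z r : ℝ, 1 ≤ r → (#(X.filter (fun x : ℤ => z ≤ (x : ℝ) ∧ (x : ℝ) ≤ z + r)) : ℝ) ≤ K * √r)
    (hβ : K ^ 10 * #{p ∈ X ×ˢ X | |(p.1 : ℝ) - p.2| ≤ r0} ≤ (#X : ℝ) ^ 2)
    (hFr : ∀ z r : ℝ, 1 / (16 * B) ≤ r → (#{a ∈ J | z ≤ l a ∧ l a ≤ z + r} : ℝ) ≤ K * √r * #J)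
    (hC1 : ∀ a ∈ J, ∀ a' ∈ J, ∀ c ∈ J, ∀ d ∈ J, ∀ e ∈ J, ∀ f ∈ J, ∀ i : ℝ, (i = 0 ∨ i = 1) →
      (#X : ℝ) ^ 3 ≤ K * Col X 1 (2 * (l c - l d) * l a + (l e - l f + i * (l c - l d)) * l a'))
    (hC2 : ∀ c ∈ J, ∀ d ∈ J, ∀ e ∈ J, ∀ f ∈ J,
      (#X : ℝ) ^ 3 ≤ K * Col X (l c - l d) (l e - l f)) : False := by
  have K1 : 1 ≤ K := by linarith
  have K0 : 0 < K := by linarith
  have hs : 1 ≤ √B := Real.one_le_sqrt.2 hB
  have M0 : (0 : ℝ) < #J := by exact_mod_cast hJ.card_pos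
  have g0 : 0 < K ^ 12 := by positivity
  have r27 : K ^ 27 ≤ r0 := (le_mul_of_one_le_left (by positivity) hs).trans hr1
  have r00 : 0 < r0 := lt_of_lt_of_le (by positivity) r27
  have hg : K ^ 12 ≤ r0 := (pow_le_pow_right₀ K1 (by norm_num)).trans r27
  have r8 : 8 * K ^ 24 ≤ r0 := by
    refine le_trans ?_ ((pow_le_pow_right₀ K1 (show 25 ≤ 27 by norm_num)).trans r27)
    rw [show K ^ 25 = K * K ^ 24 by ring]
    exact mul_le_mul_of_nonneg_right (by linarith) (by positivity)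
  have hN : (#X : ℝ) ≤ K * √B := by
    have := hα x0 B hB
    rwa [filter_true_of_mem hXB] at this
  obtain ⟨c, hc, d, hd, hcd⟩ : ∃ c ∈ J, ∃ d ∈ J, 1 / K ^ 12 ≤ |l c - l d| := by
    by_contra hcon
    push Not at hcon
    obtain ⟨a0, ha0⟩ := hJ
    have h1 := core_fr hFr (l a0) (1 / K ^ 12) (by
      rw [mul_one_div, div_le_div_iff₀ (by positivity) g0]; linarith)
    rw [sum_congr rfl fun a ha => core_ind_pos (hcon a ha a0 ha0).le, sum_const, nsmul_eq_mul,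
      mul_one] at h1
    have s1 : √(2 * (1 / K ^ 12)) ≤ 2 / K ^ 6 :=
      core_sqrt (by positivity) (by
        rw [show (2 / K ^ 6) ^ 2 = 4 * (1 / K ^ 12) by ring]; gcongr; norm_num)
    have h2 : 1 ≤ K * √(2 * (1 / K ^ 12)) := le_of_mul_le_mul_right (by linarith) M0
    have h3 := mul_le_mul_of_nonneg_left s1 K0.le
    rw [show K * (2 / K ^ 6) = 2 / K ^ 5 by field_simp] at h3
    have h6 : 2 / K ^ 5 ≤ 2 / 10 ^ 4 := div_le_div_of_nonneg_left (by positivity) (by norm_num)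
      (hK.trans (le_self_pow₀ K1 (by norm_num)))
    linarith
  have ne : ∀ {c d : ι}, 1 / K ^ 12 ≤ |l c - l d| → l c - l d ≠ 0 := fun h =>
    abs_pos.1 (lt_of_lt_of_le (by positivity) h)
  by_cases hden : ∀ b, CoreRat J l (K ^ 12) b → |b| ≤ 2 → ∀ i : ℝ, (i = 0 ∨ i = 1) →
      ∃ b', CoreRat J l (K ^ 12) b' ∧ |(b + i) / 2 - b'| ≤ K ^ 24 / r0
  · have ch := core_chain (by positivity) (by rw [div_le_div_iff₀ r00 (by norm_num)]; linarith)
      ⟨c, hc, d, hd, c, hc, c, hc, hcd, by simp⟩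
      ⟨c, hc, d, hd, c, hc, d, hd, hcd, (div_self (ne hcd)).symm⟩ hden
    obtain ⟨i, hi1, hi2⟩ := exists_nat_pow_near (x := r0 / (8 * K ^ 24)) (y := 2)
      (by rw [le_div_iff₀ (by positivity)]; linarith) one_lt_two
    rw [le_div_iff₀ (by positivity)] at hi1
    rw [div_lt_iff₀ (by positivity), pow_succ] at hi2
    choose! b hb1 hb2 using ch i
    refine core_dense hX hK hB hr1 hN hα hβ (2 ^ i) (by push_cast; linarith)
      (by push_cast; linarith) b (fun k hk => by push_cast; exact hb2 k hk.le) fun k hk => ?_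
    obtain ⟨c, hc, d, hd, e, he, f, hf, h1, h2⟩ := hb1 k hk.le
    refine (hC2 c hc d hd e he f hf).trans (mul_le_mul_of_nonneg_left ?_ K0.le)
    rw [core_col]
    refine sum_le_sum fun q _ => sum_le_sum fun p _ => core_ind_mono fun h => ?_
    have e1 : (p.1 : ℝ) - p.2 + b k * ((q.1 : ℝ) - q.2) = ((l c - l d) * ((p.1 : ℝ) - p.2) +
        (l e - l f) * ((q.1 : ℝ) - q.2)) / (l c - l d) := by
      have := ne h1
      rw [h2]; field_simp
    rw [e1, abs_div, div_le_iff₀ (abs_pos.2 (ne h1))]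
    rw [div_le_iff₀ g0] at h1
    linarith
  · push Not at hden
    obtain ⟨b, ⟨c, hc, d, hd, e, he, f, hf, h1, h2⟩, hb, i, hi, hgap⟩ := hden
    refine core_gap hX hJ hK hg hr0 (fun q hq => ?_) hl hα hβ hFr (d := 2 * (l c - l d))
      (t := (b + i) / 2) ?_ ?_ ?_ hgap fun a ha a' ha' => ?_
    · obtain ⟨q1, q2⟩ := mem_product.1 hq
      obtain ⟨a1, a2⟩ := hXB _ q1
      obtain ⟨a3, a4⟩ := hXB _ q2
      exact abs_le.2 ⟨by linarith, by linarith⟩
    · rw [abs_mul, abs_two, show 2 / K ^ 12 = 2 * (1 / K ^ 12) by ring]; linarith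
    · obtain ⟨a1, a2⟩ := hl c hc
      obtain ⟨a3, a4⟩ := hl d hd
      exact abs_le.2 ⟨by linarith, by linarith⟩
    · obtain ⟨a1, a2⟩ := abs_le.1 hb
      rcases hi with rfl | rfl <;> exact abs_le.2 ⟨by linarith, by linarith⟩
    · have := hC1 a ha a' ha' c hc d hd e he f hf i hi
      have e1 : 2 * (l c - l d) * (l a + (b + i) / 2 * l a') =
          2 * (l c - l d) * l a + (l e - l f + i * (l c - l d)) * l a' := by
        have := ne h1
        rw [h2]; field_simp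
      rwa [e1]

end Pool.Agent.MP_71ac24_nt.H14
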