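import Pool.Agent.MP_71ac24_nt.H14.Dilate

/-! Good dilates from large energies. -/

set_option autoImplicit false

namespace Pool.Agent.MP_71ac24_nt.H14

open Finset Pointwise
open scoped Combinatorics.Additive

lemma dilb_shift {β : Type*} [DecidableEq β] (P : Finset β) (f : β → ℤ) (h : ℤ) :
    #{x ∈ P ×ˢ P | f x.1 = f x.2 + h} ≤ #{x ∈ P ×ˢ P | f x.1 = f x.2} := by
  set U := P.image f with hU
  set r : ℤ → ℕ := fun c => #{p ∈ P | f p = c} with hr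
  have key : ∀ h : ℤ, #{x ∈ P ×ˢ P | f x.1 = f x.2 + h} = ∑ c ∈ U, r c * r (c - h) := by
    intro h
    rw [card_eq_sum_card_fiberwise (f := fun x : β × β => f x.1) (t := U)]
    · refine sum_congr rfl fun c _ => ?_
      rw [hr]
      simp only
      rw [← card_product]
      congr 1
      ext x
      simp only [mem_filter, mem_product]
      constructor
      · rintro ⟨⟨⟨h1, h2⟩, h3⟩, h4⟩
        exact ⟨⟨h1, h4⟩, h2, by omega⟩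
      · rintro ⟨⟨h1, h4⟩, h2, h3⟩
        exact ⟨⟨⟨h1, h2⟩, by omega⟩, h4⟩
    · intro x hx
      simp only [coe_filter, mem_product, Set.mem_ofPred_eq] at hx
      exact mem_coe.2 (mem_image_of_mem f hx.1.1)
  have h0 : #{x ∈ P ×ˢ P | f x.1 = f x.2} = ∑ c ∈ U, r c * r c := by
    have := key 0
    simpa using this
  have h1 : ∑ c ∈ U, r (c - h) * r (c - h) ≤ ∑ c ∈ U, r c * r c := by
    rw [← sum_image (s := U) (g := fun c => c - h) (f := fun c => r c * r c)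
      (fun a _ b _ hab => by simpa using hab)]
    refine sum_le_sum_of_ne_zero fun c _ hc => ?_
    have : r c ≠ 0 := fun h => hc (by simp [h])
    obtain ⟨p, hp⟩ := card_pos.1 (Nat.pos_of_ne_zero this)
    rw [mem_filter] at hp
    exact mem_image.2 ⟨p, hp.1, hp.2⟩
  rw [key, h0]
  have h2 : 2 * ∑ c ∈ U, r c * r (c - h) ≤
      ∑ c ∈ U, r c * r c + ∑ c ∈ U, r (c - h) * r (c - h) := by
    rw [mul_sum, ← sum_add_distrib]
    refine sum_le_sum fun c _ => ?_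
    nlinarith [sq_nonneg ((r c : ℤ) - r (c - h))]
  omega

lemma dilb_shift_energy (A B : Finset ℤ) (h : ℤ) :
    #{x ∈ (A ×ˢ A) ×ˢ (B ×ˢ B) | x.1.1 + x.2.1 = x.1.2 + x.2.2 + h} ≤ E[A, B] := by
  have e : ∀ h : ℤ, #{x ∈ (A ×ˢ A) ×ˢ (B ×ˢ B) | x.1.1 + x.2.1 = x.1.2 + x.2.2 + h} =
      #{x ∈ (A ×ˢ B) ×ˢ (A ×ˢ B) | x.1.1 + x.1.2 = x.2.1 + x.2.2 + h} := by
    intro h
    refine card_nbij' (fun x => ((x.1.1, x.2.1), (x.1.2, x.2.2)))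
      (fun x => ((x.1.1, x.2.1), (x.1.2, x.2.2))) ?_ ?_ ?_ ?_
    · intro x hx
      simp only [coe_filter, mem_product, Set.mem_ofPred_eq] at hx ⊢
      tauto
    · intro x hx
      simp only [coe_filter, mem_product, Set.mem_ofPred_eq] at hx ⊢
      tauto
    · intro x _; rfl
    · intro x _; rfl
  have e0 := e 0
  simp only [add_zero] at e0
  unfold Finset.addEnergy
  rw [e h, e0]
  exact dilb_shift (A ×ˢ B) (fun p => p.1 + p.2) h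

/-- location of the integers `y` with `-θ y ∈ [m, m + w)` -/
lemma dilb_loc (θ : ℝ) (hθ : 1 / 4 ≤ θ) (y m : ℤ) (w : ℕ) (h1 : (m : ℝ) ≤ -θ * y)
    (h2 : -θ * y ≤ m + w) : y ∈ Icc (⌊-(m : ℝ) / θ⌋ - 4 * w) ⌊-(m : ℝ) / θ⌋ := by
  have hθ0 : 0 < θ := by linarith
  rw [mem_Icc]
  constructor
  · have h3 : (⌊-(m : ℝ) / θ⌋ : ℝ) ≤ -(m : ℝ) / θ := Int.floor_le _
    have h4 : -(m : ℝ) / θ ≤ y + 4 * w := by
      rw [div_le_iff₀ hθ0]
      have : (0 : ℝ) ≤ w := Nat.cast_nonneg w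
      nlinarith
    have : ((⌊-(m : ℝ) / θ⌋ - 4 * w : ℤ) : ℝ) ≤ y := by push_cast; linarith
    exact_mod_cast this
  · rw [Int.le_floor, le_div_iff₀ hθ0]
    linarith

lemma dilb_fibre (θ : ℝ) (hθ : 1 / 4 ≤ θ) (A' : Finset ℤ) (m : ℤ) :
    #{y ∈ A' | ⌊-θ * ((y : ℤ) : ℝ)⌋ = m} ≤ 5 := by
  have : {y ∈ A' | ⌊-θ * ((y : ℤ) : ℝ)⌋ = m} ⊆ Icc (⌊-(m : ℝ) / θ⌋ - 4 * (1 : ℕ)) ⌊-(m : ℝ) / θ⌋ := by
    intro y hy
    rw [mem_filter] at hy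
    obtain ⟨-, rfl⟩ := hy
    refine dilb_loc θ hθ y _ 1 (Int.floor_le _) ?_
    have := Int.lt_floor_add_one (-θ * y)
    push_cast
    linarith
  refine (card_le_card this).trans ?_
  rw [Int.card_Icc]
  omega

lemma dilb_energy (A A' : Finset ℤ) (θ ρ : ℝ) (hρ : 1 ≤ ρ) (hθ : 1 / 4 ≤ θ) :
    (#{z ∈ (A ×ˢ A) ×ˢ (A' ×ˢ A') |
      |((z.1.1 : ℝ) - z.1.2) - θ * ((z.2.1 : ℝ) - z.2.2)| ≤ ρ} : ℝ) ≤
      125 * ρ * E[A, A'.image fun y : ℤ => ⌊-θ * y⌋] := by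
  set b : ℤ → ℤ := fun y : ℤ => ⌊-θ * y⌋ with hb
  set B := A'.image b with hB
  set Q := {z ∈ (A ×ˢ A) ×ˢ (A' ×ˢ A') |
      |((z.1.1 : ℝ) - z.1.2) - θ * ((z.2.1 : ℝ) - z.2.2)| ≤ ρ} with hQ
  set R : ℤ := ⌊ρ + 1⌋ with hR
  set W := (Icc (-R) R).biUnion fun h =>
    {x ∈ (A ×ˢ A) ×ˢ (B ×ˢ B) | x.1.1 + x.2.1 = x.1.2 + x.2.2 + h} with hW
  have h1 : #Q ≤ 25 * #W := by
    refine card_le_mul_card_image_of_maps_to
      (f := fun z : (ℤ × ℤ) × (ℤ × ℤ) => (z.1, (b z.2.1, b z.2.2))) ?_ 25 ?_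
    · intro z hz
      rw [hQ, mem_filter] at hz
      obtain ⟨hz1, hz2⟩ := hz
      simp only [mem_product] at hz1
      rw [hW, mem_biUnion]
      refine ⟨z.1.1 + b z.2.1 - z.1.2 - b z.2.2, ?_, ?_⟩
      · rw [mem_Icc, ← abs_le, hR, Int.le_floor]
        have a1 := Int.floor_le (-θ * z.2.1)
        have a2 := Int.lt_floor_add_one (-θ * z.2.1)
        have a3 := Int.floor_le (-θ * z.2.2)
        have a4 := Int.lt_floor_add_one (-θ * z.2.2)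
        rw [abs_le] at hz2
        push_cast
        rw [abs_le, hb]
        constructor <;> simp only <;> linarith [hz2.1, hz2.2]
      · simp only [mem_filter, mem_product]
        exact ⟨⟨hz1.1, mem_image_of_mem _ hz1.2.1, mem_image_of_mem _ hz1.2.2⟩, by ring⟩
    · intro w _
      have : {z ∈ Q | (z.1, (b z.2.1, b z.2.2)) = w} ⊆
          {w.1} ×ˢ ({y ∈ A' | b y = w.2.1} ×ˢ {y ∈ A' | b y = w.2.2}) := by
        intro z hz
        rw [mem_filter, hQ, mem_filter] at hz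
        obtain ⟨⟨hz1, -⟩, rfl⟩ := hz
        simp only [mem_product] at hz1
        simp only [mem_product, mem_singleton, mem_filter, and_true, true_and]
        exact hz1.2
      refine (card_le_card this).trans ?_
      rw [card_product, card_product, card_singleton, one_mul]
      exact Nat.mul_le_mul (dilb_fibre θ hθ A' _) (dilb_fibre θ hθ A' _)
  have h2 : #W ≤ #(Icc (-R) R) * E[A, B] :=
    card_biUnion_le_card_mul _ _ _ fun h _ => dilb_shift_energy A B h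
  have h3 : (#(Icc (-R) R) : ℝ) ≤ 5 * ρ := by
    have hR0 : 0 ≤ R := Int.floor_nonneg.2 (by linarith)
    have hR1 : (R : ℝ) ≤ ρ + 1 := Int.floor_le _
    have : (#(Icc (-R) R) : ℤ) = R + 1 - -R := Int.card_Icc_of_le _ _ (by omega)
    have : (#(Icc (-R) R) : ℝ) = R + 1 - -R := by exact_mod_cast this
    rw [this]; linarith
  have h1' : (#Q : ℝ) ≤ 25 * #W := by exact_mod_cast h1
  have h2' : (#W : ℝ) ≤ #(Icc (-R) R) * E[A, B] := by exact_mod_cast h2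
  calc (#Q : ℝ) ≤ 25 * (#(Icc (-R) R) * E[A, B]) := by linarith
    _ ≤ 25 * (5 * ρ * E[A, B]) := by gcongr
    _ = _ := by ring

lemma dilb_sum_card (θ : ℝ) (hθ : 1 / 4 ≤ θ) (Y B : Finset ℤ) (hY : ∀ y ∈ Y, ⌊-θ * y⌋ ∈ B) :
    #(Y + Y) ≤ 9 * #(B + B) := by
  have : Y + Y ⊆ (B + B).biUnion fun m =>
      Icc (⌊-(m : ℝ) / θ⌋ - 4 * (2 : ℕ)) ⌊-(m : ℝ) / θ⌋ := by
    intro z hz
    obtain ⟨y, hy, y', hy', rfl⟩ := mem_add.1 hz
    rw [mem_biUnion]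
    refine ⟨_, add_mem_add (hY y hy) (hY y' hy'), ?_⟩
    have a1 := Int.floor_le (-θ * y)
    have a2 := Int.lt_floor_add_one (-θ * y)
    have a3 := Int.floor_le (-θ * y')
    have a4 := Int.lt_floor_add_one (-θ * y')
    refine dilb_loc θ hθ _ _ 2 ?_ ?_
    · push_cast; linarith
    · push_cast; linarith
  refine (card_le_card this).trans ?_
  rw [mul_comm 9]
  refine card_biUnion_le_card_mul (B + B) _ 9 fun m _ => ?_
  rw [Int.card_Icc]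
  omega

lemma dilb_pigeon {ι β : Type*} [DecidableEq β] (J0 : Finset ι) (hJ : J0.Nonempty) (Ω : Finset β)
    (S : ι → Finset β) (M L : ℝ) (hM : 0 < M) (hL : 0 < L) (hΩ : (#Ω : ℝ) ≤ M)
    (hS : ∀ i ∈ J0, S i ⊆ Ω) (hc : ∀ i ∈ J0, M ≤ L * #(S i)) :
    ∃ i0 ∈ J0, ∃ J ⊆ J0, (#J0 : ℝ) ≤ 2 * L ^ 2 * #J ∧
      ∀ j ∈ J, M ≤ 2 * L ^ 2 * #(S j ∩ S i0) := by
  classical
  set n : ℝ := (#J0 : ℝ) with hn
  have hn0 : 0 < n := by rw [hn]; exact_mod_cast hJ.card_pos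
  set d : β → ℝ := fun ω => ∑ i ∈ J0, if ω ∈ S i then (1 : ℝ) else 0 with hd
  have ind : ∀ T : Finset β, T ⊆ Ω → ∑ ω ∈ Ω, (if ω ∈ T then (1 : ℝ) else 0) = #T := by
    intro T hT
    rw [sum_ite_mem, inter_eq_right.2 hT]
    simp
  have h1 : ∑ ω ∈ Ω, d ω = ∑ i ∈ J0, (#(S i) : ℝ) := by
    rw [hd, sum_comm]
    exact sum_congr rfl fun i hi => ind _ (hS i hi)
  have h2 : ∑ ω ∈ Ω, d ω ^ 2 = ∑ i ∈ J0, ∑ j ∈ J0, (#(S j ∩ S i) : ℝ) := by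
    have : ∀ ω, d ω ^ 2 = ∑ i ∈ J0, ∑ j ∈ J0, if ω ∈ S j ∩ S i then (1 : ℝ) else 0 := by
      intro ω
      rw [sq, hd, sum_mul_sum]
      refine sum_congr rfl fun i _ => sum_congr rfl fun j _ => ?_
      by_cases a : ω ∈ S i <;> by_cases b : ω ∈ S j <;> simp [a, b]
    simp_rw [this]
    rw [sum_comm]
    refine sum_congr rfl fun i hi => ?_
    rw [sum_comm]
    exact sum_congr rfl fun j _ => ind _ (inter_subset_right.trans (hS i hi))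
  have h3 : n * M ≤ L * ∑ ω ∈ Ω, d ω := by
    rw [h1, mul_sum]
    calc n * M = ∑ i ∈ J0, M := by simp [hn]
      _ ≤ _ := sum_le_sum hc
  have h4 : (∑ ω ∈ Ω, d ω) ^ 2 ≤ M * ∑ ω ∈ Ω, d ω ^ 2 :=
    (sq_sum_le_card_mul_sum_sq).trans
      (mul_le_mul_of_nonneg_right hΩ (sum_nonneg fun _ _ => sq_nonneg _))
  have h5 : ∑ i ∈ J0, n * M ≤ ∑ i ∈ J0, L ^ 2 * ∑ j ∈ J0, (#(S j ∩ S i) : ℝ) := by
    have : ∑ i ∈ J0, n * M = n * (n * M) := by simp [hn]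
    rw [this, ← mul_sum, ← h2]
    have h6 : (n * M) ^ 2 ≤ (L * ∑ ω ∈ Ω, d ω) ^ 2 := by gcongr
    refine le_of_mul_le_mul_left ?_ hM
    calc M * (n * (n * M)) = (n * M) ^ 2 := by ring
      _ ≤ L ^ 2 * (∑ ω ∈ Ω, d ω) ^ 2 := by rw [← mul_pow]; exact h6
      _ ≤ L ^ 2 * (M * ∑ ω ∈ Ω, d ω ^ 2) := by gcongr
      _ = _ := by ring
  obtain ⟨i0, hi0, h6⟩ := exists_le_of_sum_le hJ h5
  refine ⟨i0, hi0, {j ∈ J0 | M ≤ 2 * L ^ 2 * #(S j ∩ S i0)}, filter_subset _ _, ?_,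
    fun j hj => (mem_filter.1 hj).2⟩
  set J := {j ∈ J0 | M ≤ 2 * L ^ 2 * #(S j ∩ S i0)} with hJd
  have h7 : L ^ 2 * ∑ j ∈ J0, (#(S j ∩ S i0) : ℝ) ≤
      ∑ j ∈ J0, (M / 2 + if j ∈ J then L ^ 2 * M else 0) := by
    rw [mul_sum]
    refine sum_le_sum fun j hj => ?_
    split_ifs with h
    · have : (#(S j ∩ S i0) : ℝ) ≤ M := by
        refine le_trans ?_ hΩ
        exact_mod_cast card_le_card (inter_subset_left.trans (hS j hj))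
      have : L ^ 2 * (#(S j ∩ S i0) : ℝ) ≤ L ^ 2 * M := by gcongr
      linarith
    · have : ¬ M ≤ 2 * L ^ 2 * #(S j ∩ S i0) := fun h' => h (mem_filter.2 ⟨hj, h'⟩)
      linarith
  rw [sum_add_distrib, sum_ite_mem, inter_eq_right.2 (filter_subset _ _)] at h7
  simp only [sum_const, nsmul_eq_mul] at h7
  refine le_of_mul_le_mul_left ?_ hM
  rw [← hn] at h7
  linarith


lemma dilb_pr (A B : Finset ℤ) (hA : A.Nonempty) (C : ℝ) (h : (#(A + B) : ℝ) ≤ C * #A)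
    (m n : ℕ) : (#(m • B - n • B) : ℝ) ≤ C ^ (m + n) * #A := by
  have h0 : (0 : ℝ) < #A := by exact_mod_cast hA.card_pos
  have h1 := pluennecke_ruzsa_inequality_nsmul_sub_nsmul_add hA B m n
  have h2 : ((#(m • B - n • B) : ℚ≥0) : ℝ) ≤
      (((#(A + B) / #A : ℚ≥0) ^ (m + n) * #A : ℚ≥0) : ℝ) := by exact_mod_cast h1
  push_cast at h2
  refine h2.trans ?_
  have : (#(A + B) : ℝ) / #A ≤ C := by rwa [div_le_iff₀ h0]
  gcongr

lemma dilb_neg_mem (X : Finset ℤ) (k : ℕ) (d : ℤ) (hd : d ∈ k • (X - X)) : -d ∈ k • (X - X) := by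
  have : -(k • (X - X)) = k • (X - X) := by rw [← neg_nsmul, neg_sub]
  rw [← this]
  exact neg_mem_neg hd

lemma dilb_add_mem (D : Finset ℤ) (k l : ℕ) (d e : ℤ) (hd : d ∈ k • D) (he : e ∈ l • D) :
    d + e ∈ (k + l) • D := by
  rw [add_nsmul]
  exact add_mem_add hd he

/-- covering of the dilate of `Y` -/
lemma dilb_covY (X Z B Y W : Finset ℤ) (θ Ka Kb : ℝ) (hZX : Z ⊆ X) (hZ : Z.Nonempty)
    (hW : W.Nonempty) (hWB : ∀ y ∈ W, ⌊-θ * y⌋ ∈ B) (ha : (#(B + Z) : ℝ) ≤ Ka * #Z)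
    (hb : (#(Y + W) : ℝ) ≤ Kb * #W) :
    ∃ T : Finset ℝ, (#T : ℝ) ≤ Kb * Ka * Ka ∧
      ∀ y ∈ Y, ∃ t ∈ T, ∃ d ∈ 2 • (X - X), |θ * y - t - (d : ℝ)| ≤ 1 := by
  classical
  obtain ⟨Ta, -, hTa, hBa⟩ := ruzsa_covering_add hZ ha
  obtain ⟨Tb, -, hTb, hYb⟩ := ruzsa_covering_add hW hb
  refine ⟨((Tb ×ˢ Ta) ×ˢ Ta).image fun p => θ * p.1.1 - p.1.2 + p.2, ?_, ?_⟩
  · have : (#(((Tb ×ˢ Ta) ×ˢ Ta).image fun p => θ * p.1.1 - p.1.2 + (p.2 : ℝ)) : ℝ) ≤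
        #Tb * #Ta * #Ta := by
      have := card_image_le (s := (Tb ×ˢ Ta) ×ˢ Ta)
        (f := fun p => θ * p.1.1 - p.1.2 + (p.2 : ℝ))
      rw [card_product, card_product] at this
      exact_mod_cast this
    refine this.trans ?_
    have h0 : (0 : ℝ) ≤ Kb := (Nat.cast_nonneg _).trans hTb
    have h1 : (0 : ℝ) ≤ Ka := (Nat.cast_nonneg _).trans hTa
    gcongr
  · intro y hy
    obtain ⟨tb, htb, w, hw, rfl⟩ := mem_add.1 (hYb hy)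
    obtain ⟨w1, hw1, w2, hw2, rfl⟩ := mem_sub.1 hw
    obtain ⟨t1, ht1, d1, hd1, e1⟩ := mem_add.1 (hBa (hWB w1 hw1))
    obtain ⟨t2, ht2, d2, hd2, e2⟩ := mem_add.1 (hBa (hWB w2 hw2))
    have hs : Z - Z ⊆ 1 • (X - X) := by
      rw [one_nsmul]
      exact sub_subset_sub hZX hZX
    refine ⟨_, mem_image.2 ⟨((tb, t1), t2), by simp [htb, ht1, ht2], rfl⟩, -d1 + d2,
      dilb_add_mem _ 1 1 _ _ (dilb_neg_mem X 1 _ (hs hd1)) (hs hd2), ?_⟩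
    have a1 := Int.floor_le (-θ * w1)
    have a2 := Int.lt_floor_add_one (-θ * w1)
    have a3 := Int.floor_le (-θ * w2)
    have a4 := Int.lt_floor_add_one (-θ * w2)
    rw [← e1] at a1 a2
    rw [← e2] at a3 a4
    push_cast at a1 a2 a3 a4 ⊢
    rw [abs_le]
    constructor <;> linarith

/-- covering of the dilate of `X - X` -/
lemma dilb_good (X B Y : Finset ℤ) (θ θ0 Kc K1 : ℝ) (hθ : 1 / 4 ≤ θ ∧ θ ≤ 4) (hθ0 : 1 / 4 ≤ θ0)
    (hB : B.Nonempty) (hBY : ∀ m ∈ B, ∃ y ∈ Y, ⌊-θ0 * y⌋ = m) (hc : (#(X + B) : ℝ) ≤ Kc * #B)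
    (T1 : Finset ℝ) (hT1 : (#T1 : ℝ) ≤ K1)
    (hY : ∀ y ∈ Y, ∃ t ∈ T1, ∃ d ∈ 2 • (X - X), |θ * y - t - (d : ℝ)| ≤ 1) :
    Good (X - X) (θ / θ0) 8 (Kc ^ 2 * K1 ^ 4) 36 := by
  classical
  obtain ⟨Tc, -, hTc, hXc⟩ := ruzsa_covering_add hB hc
  set l := θ / θ0 with hl
  have hθ0' : 0 < θ0 := by linarith
  have hl0 : 0 ≤ l := div_nonneg (by linarith [hθ.1]) hθ0'.le
  have hl1 : l ≤ 16 := by rw [hl, div_le_iff₀ hθ0']; linarith [hθ.2]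
  have hlθ : l * θ0 = θ := div_mul_cancel₀ _ hθ0'.ne'
  -- one point of `X`
  have one : ∀ x ∈ X, ∃ t ∈ Tc, ∃ s1 ∈ T1, ∃ s2 ∈ T1, ∃ d ∈ 4 • (X - X),
      |l * x - (l * t - s1 + s2) - (d : ℝ)| ≤ 18 := by
    intro x hx
    obtain ⟨t, ht, w, hw, rfl⟩ := mem_add.1 (hXc hx)
    obtain ⟨m1, hm1, m2, hm2, rfl⟩ := mem_sub.1 hw
    obtain ⟨y1, hy1, rfl⟩ := hBY m1 hm1
    obtain ⟨y2, hy2, rfl⟩ := hBY m2 hm2
    obtain ⟨s1, hs1, d1, hd1, e1⟩ := hY y1 hy1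
    obtain ⟨s2, hs2, d2, hd2, e2⟩ := hY y2 hy2
    refine ⟨t, ht, s1, hs1, s2, hs2, -d1 + d2,
      dilb_add_mem _ 2 2 _ _ (dilb_neg_mem X 2 _ hd1) hd2, ?_⟩
    have a1 := Int.floor_le (-θ0 * y1)
    have a2 := Int.lt_floor_add_one (-θ0 * y1)
    have a3 := Int.floor_le (-θ0 * y2)
    have a4 := Int.lt_floor_add_one (-θ0 * y2)
    set u1 : ℝ := (⌊-θ0 * y1⌋ : ℝ) with hu1
    set u2 : ℝ := (⌊-θ0 * y2⌋ : ℝ) with hu2
    have b1 : |(u1 + θ0 * y1) - (u2 + θ0 * y2)| ≤ 1 := by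
      rw [abs_le]; constructor <;> linarith
    have b2 : |l * ((u1 + θ0 * y1) - (u2 + θ0 * y2))| ≤ 16 := by
      rw [abs_mul, abs_of_nonneg hl0]
      calc _ ≤ l * 1 := by gcongr
        _ ≤ 16 := by linarith
    have b3 : l * ((u1 + θ0 * y1) - (u2 + θ0 * y2)) = l * u1 - l * u2 + θ * y1 - θ * y2 := by
      rw [← hlθ]; ring
    rw [b3, abs_le] at b2
    rw [abs_le] at e1 e2 ⊢
    push_cast
    rw [← hu1, ← hu2]
    constructor <;> linarith [b2.1, b2.2, e1.1, e1.2, e2.1, e2.2]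
  set T2 : Finset ℝ := ((Tc ×ˢ T1) ×ˢ T1).image fun p => l * p.1.1 - p.1.2 + p.2 with hT2
  have hK1 : (0 : ℝ) ≤ K1 := (Nat.cast_nonneg _).trans hT1
  have hKc : (0 : ℝ) ≤ Kc := (Nat.cast_nonneg _).trans hTc
  have hT2c : (#T2 : ℝ) ≤ Kc * K1 * K1 := by
    have : (#T2 : ℝ) ≤ #Tc * #T1 * #T1 := by
      have := card_image_le (s := (Tc ×ˢ T1) ×ˢ T1) (f := fun p => l * p.1.1 - p.1.2 + p.2)
      rw [card_product, card_product] at this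
      exact_mod_cast this
    refine this.trans ?_
    gcongr
  refine ⟨T2 - T2, ?_, ?_⟩
  · have : (#(T2 - T2) : ℝ) ≤ #T2 * #T2 := by exact_mod_cast card_sub_le
    calc (#(T2 - T2) : ℝ) ≤ (Kc * K1 * K1) * (Kc * K1 * K1) := this.trans (by gcongr)
      _ = _ := by ring
  · rintro _ ⟨d, hd, rfl⟩
    obtain ⟨x1, hx1, x2, hx2, rfl⟩ := mem_sub.1 hd
    obtain ⟨t, ht, s1, hs1, s2, hs2, d1, hd1, e1⟩ := one x1 hx1
    obtain ⟨t', ht', s3, hs3, s4, hs4, d2, hd2, e2⟩ := one x2 hx2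
    refine ⟨(l * t - s1 + s2) - (l * t' - s3 + s4), sub_mem_sub
      (mem_image.2 ⟨((t, s1), s2), by simp [ht, hs1, hs2], rfl⟩)
      (mem_image.2 ⟨((t', s3), s4), by simp [ht', hs3, hs4], rfl⟩), d1 + -d2,
      dilb_add_mem _ 4 4 _ _ hd1 (dilb_neg_mem X 4 _ hd2), ?_⟩
    rw [abs_le] at e1 e2 ⊢
    push_cast
    constructor <;> linarith [e1.1, e1.2, e2.1, e2.2]

/-- HINT. `b i a' = ⌊-θ i * a'⌋`, `B i = A'.image (b i)`, fibres of `b i` have at most 5 points. A counted quadruple has `|(a + b a') - (ã + b ã')| ≤ ρ + 1`; so (AM-GM on the representation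
function, at most `2 ρ + 3 ≤ 5 ρ` shifts) the count is `≤ 125 ρ E[A, B i]`. `bsg` gives `X i ⊆ A`, `B' i ⊆ B i`, put `Y i = {a' ∈ A' | b i a' ∈ B' i}`; `#X i, #Y i, #B' i ≥ α / K ^ 2`, `#(X i + B' i) ≤ K ^ 9 α`.
Cauchy-Schwarz for the sets `X i ×ˢ Y i ⊆ A ×ˢ A'` gives `i0` and `J` with `#J0 ≤ K ^ 9 #J` and `#(X i ∩ X), #(Y i ∩ Y) ≥ α / K ^ 9` on `J` (`X = X i0`, `Y = Y i0`, `B' = B' i0`).
`pluennecke_ruzsa_inequality_nsmul_sub_nsmul_add` with base `B'` gives the bound for `k • X - k • X`, with base `X` gives `#(B' + B') ≤ K ^ 22 α`, hence `#(Y + Y) ≤ 9 K ^ 22 α`. Three uses of `ruzsa_covering_add`: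
(a) `b i (Y ∩ Y i) ⊆ Ta + (X - X)`, `#Ta ≤ K ^ 18`; (b) `Y ⊆ Tb + (Y ∩ Y i) - (Y ∩ Y i)`, `#Tb ≤ K ^ 32`; (c) `X ⊆ Tc + B' - B'`, `#Tc ≤ K ^ 11`. For `d ∈ X - X` write
`(θ i / θ i0) d = (θ i / θ i0) (t - t') - θ i (y1 - y2 - y3 + y4) + error ≤ 32`, each `θ i y ∈ θ i Tb + (Ta - Ta) + 2 • (X - X) + [-1,1]`; `2 * 11 + 4 * 32 + 8 * 18 = 294`. -/
theorem good_of_energy {ι : Type*} (A A' : Finset ℤ) (J0 : Finset ι) (hJ : J0.Nonempty) (θ : ι → ℝ)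
    (α ρ K : ℝ) (hα : 0 < α) (hρ : 1 ≤ ρ) (hK : 10 ^ 9 ≤ K) (hA : (#A : ℝ) ≤ α)
    (hA' : (#A' : ℝ) ≤ α) (hθ : ∀ i ∈ J0, 1 / 4 ≤ θ i ∧ θ i ≤ 4)
    (hE : ∀ i ∈ J0, 125 * ρ * α ^ 3 ≤ K * #{z ∈ (A ×ˢ A) ×ˢ (A' ×ˢ A') |
      |((z.1.1 : ℝ) - z.1.2) - θ i * ((z.2.1 : ℝ) - z.2.2)| ≤ ρ}) :
    ∃ X ⊆ A, ∃ J ⊆ J0, ∃ i0 ∈ J0, α ≤ K ^ 2 * #X ∧ (#J0 : ℝ) ≤ K ^ 9 * #J ∧
      (∀ k : ℕ, (#(k • X - k • X) : ℝ) ≤ K ^ (22 * k + 2) * #X) ∧
      ∀ i ∈ J, Good (X - X) (θ i / θ i0) 8 (K ^ 294) 36 := by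
  classical
  have hK1 : (1 : ℝ) ≤ K := le_trans (by norm_num) hK
  have hK0 : (0 : ℝ) < K := by linarith
  have hK12 : (12 : ℝ) ≤ K := le_trans (by norm_num) hK
  have hK6 : (10 : ℝ) ^ 6 ≤ K := le_trans (by norm_num) hK
  -- the structured pieces
  have main : ∀ i ∈ J0, ∃ X ⊆ A, ∃ B : Finset ℤ, ∃ Y ⊆ A', α ≤ K ^ 2 * #X ∧ α ≤ K ^ 2 * #B ∧
      α ≤ K ^ 2 * #Y ∧ (#B : ℝ) ≤ α ∧ (#(X + B) : ℝ) ≤ K ^ 9 * α ∧
      (∀ y ∈ Y, ⌊-θ i * y⌋ ∈ B) ∧ ∀ m ∈ B, ∃ y ∈ Y, ⌊-θ i * y⌋ = m := by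
    intro i hi
    have hBc : (#(A'.image fun y : ℤ => ⌊-θ i * y⌋) : ℝ) ≤ α :=
      le_trans (by exact_mod_cast card_image_le) hA'
    have hEn : α ^ 3 ≤ K * E[A, A'.image fun y : ℤ => ⌊-θ i * y⌋] := by
      have h1 := (hE i hi).trans
        (mul_le_mul_of_nonneg_left (dilb_energy A A' (θ i) ρ hρ (hθ i hi).1) hK0.le)
      have h2 : (0 : ℝ) < 125 * ρ := by linarith
      refine le_of_mul_le_mul_left (h1.trans_eq ?_) h2
      ring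
    obtain ⟨X, hX, B, hB, h1, h2, h3⟩ := bsg A _ α K hα hK1 hA hBc hEn
    have hsurj : ∀ m ∈ B, ∃ y ∈ ({y ∈ A' | ⌊-θ i * ((y : ℤ) : ℝ)⌋ ∈ B} : Finset ℤ),
        ⌊-θ i * y⌋ = m := by
      intro m hm
      obtain ⟨y, hy, rfl⟩ := mem_image.1 (hB hm)
      exact ⟨y, mem_filter.2 ⟨hy, hm⟩, rfl⟩
    have hsq : ∀ c : ℝ, 0 ≤ c → 12 * K * c ≤ K ^ 2 * c := fun c hc => by
      rw [sq]; gcongr
    have hBY : #B ≤ #({y ∈ A' | ⌊-θ i * ((y : ℤ) : ℝ)⌋ ∈ B} : Finset ℤ) :=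
      card_le_card_of_surjOn (fun y : ℤ => ⌊-θ i * y⌋) fun m hm => by
        obtain ⟨y, hy, e⟩ := hsurj m hm
        exact ⟨y, hy, e⟩
    refine ⟨X, hX, B, {y ∈ A' | ⌊-θ i * ((y : ℤ) : ℝ)⌋ ∈ B}, filter_subset _ _,
      h1.trans (hsq _ (Nat.cast_nonneg _)), h2.trans (hsq _ (Nat.cast_nonneg _)), ?_, ?_, ?_,
      fun y hy => (mem_filter.1 hy).2, hsurj⟩
    · refine (h2.trans (hsq _ (Nat.cast_nonneg _))).trans ?_
      gcongr
    · exact le_trans (by exact_mod_cast card_le_card hB) hBc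
    · refine h3.trans ?_
      rw [pow_succ' K 8]
      gcongr
  choose! X hXA B Y hYA hX hB hY hBα hXB hYB hBY using main
  have hXα : ∀ i ∈ J0, (#(X i) : ℝ) ≤ α := fun i hi =>
    le_trans (by exact_mod_cast card_le_card (hXA i hi)) hA
  have hYα : ∀ i ∈ J0, (#(Y i) : ℝ) ≤ α := fun i hi =>
    le_trans (by exact_mod_cast card_le_card (hYA i hi)) hA'
  have ne : ∀ (S : Finset ℤ) (k : ℕ), α ≤ K ^ k * #S → S.Nonempty := by
    intro S k h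
    rw [nonempty_iff_ne_empty]
    rintro rfl
    simp at h
    linarith
  obtain ⟨i0, hi0, J, hJ0, hJc, hJ⟩ := dilb_pigeon J0 hJ (A ×ˢ A') (fun i => X i ×ˢ Y i) (α * α)
    (K ^ 4) (by positivity) (by positivity)
    (by rw [card_product]; push_cast; gcongr)
    (fun i hi => product_subset_product (hXA i hi) (hYA i hi))
    (fun i hi => by
      rw [card_product]; push_cast
      calc α * α ≤ (K ^ 2 * #(X i)) * (K ^ 2 * #(Y i)) := by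
            gcongr
            exacts [hX i hi, hY i hi]
        _ = _ := by ring)
  have h29 : 2 * (K ^ 4) ^ 2 ≤ K ^ 9 := by
    rw [← pow_mul, pow_succ' K 8]
    gcongr
    linarith
  have hXB0 : (#(B i0 + X i0) : ℝ) ≤ K ^ 11 * #(B i0) := by
    rw [add_comm]
    calc _ ≤ K ^ 9 * α := hXB i0 hi0
      _ ≤ K ^ 9 * (K ^ 2 * #(B i0)) := by gcongr; exact hB i0 hi0
      _ = _ := by ring
  have hXB1 : (#(X i0 + B i0) : ℝ) ≤ K ^ 11 * #(X i0) := by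
    calc _ ≤ K ^ 9 * α := hXB i0 hi0
      _ ≤ K ^ 9 * (K ^ 2 * #(X i0)) := by gcongr; exact hX i0 hi0
      _ = _ := by ring
  have hYY : (#(Y i0 + Y i0) : ℝ) ≤ K ^ 23 * α := by
    have h1 := dilb_pr (X i0) (B i0) (ne _ _ (hX i0 hi0)) _ hXB1 2 0
    have h2 : (2 • B i0 - 0 • B i0 : Finset ℤ) = B i0 + B i0 := by
      rw [zero_nsmul, sub_zero, two_nsmul]
    rw [h2, ← pow_mul] at h1
    have h3 : (#(Y i0 + Y i0) : ℝ) ≤ 9 * #(B i0 + B i0) := by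
      exact_mod_cast dilb_sum_card (θ i0) (hθ i0 hi0).1 _ _ (hYB i0 hi0)
    calc _ ≤ 9 * (K ^ (11 * (2 + 0)) * #(X i0)) := by linarith
      _ ≤ K * (K ^ (11 * (2 + 0)) * α) := by
          gcongr
          exacts [by linarith, hXα i0 hi0]
      _ = _ := by ring
  refine ⟨X i0, hXA i0 hi0, J, hJ0, i0, hi0, hX i0 hi0, hJc.trans (by gcongr), fun k => ?_,
    fun i hi => ?_⟩
  · calc _ ≤ (K ^ 11) ^ (k + k) * #(B i0) := dilb_pr _ _ (ne _ _ (hB i0 hi0)) _ hXB0 k k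
      _ ≤ (K ^ 11) ^ (k + k) * (K ^ 2 * #(X i0)) := by
          gcongr
          exact (hBα i0 hi0).trans (hX i0 hi0)
      _ = _ := by rw [← pow_mul, ← mul_assoc, ← pow_add]; congr 2; omega
  · have hi' := hJ0 hi
    have h1 := hJ i hi
    simp only [product_inter_product, card_product] at h1
    push_cast at h1
    have hZα : (#(X i ∩ X i0) : ℝ) ≤ α :=
      le_trans (by exact_mod_cast card_le_card inter_subset_left) (hXα i hi')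
    have hWα : (#(Y i ∩ Y i0) : ℝ) ≤ α :=
      le_trans (by exact_mod_cast card_le_card inter_subset_left) (hYα i hi')
    have hZ : α ≤ K ^ 9 * #(X i ∩ X i0) := by
      refine le_of_mul_le_mul_right (h1.trans ?_) hα
      rw [mul_assoc (K ^ 9)]
      gcongr
    have hW : α ≤ K ^ 9 * #(Y i ∩ Y i0) := by
      refine le_of_mul_le_mul_left (h1.trans ?_) hα
      rw [mul_left_comm α]
      gcongr
    obtain ⟨T1, hT1, hcov⟩ := dilb_covY (X i0) (X i ∩ X i0) (B i) (Y i0) (Y i ∩ Y i0) (θ i)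
      (K ^ 18) (K ^ 32) inter_subset_right (ne _ _ hZ) (ne _ _ hW)
      (fun y hy => hYB i hi' y (inter_subset_left hy))
      (by
        have : (#(B i + X i ∩ X i0) : ℝ) ≤ #(X i + B i) := by
          rw [add_comm (X i)]
          exact_mod_cast card_le_card (add_subset_add_left inter_subset_left)
        calc _ ≤ K ^ 9 * α := this.trans (hXB i hi')
          _ ≤ K ^ 9 * (K ^ 9 * #(X i ∩ X i0)) := by gcongr
          _ = _ := by ring)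
      (by
        have : (#(Y i0 + Y i ∩ Y i0) : ℝ) ≤ #(Y i0 + Y i0) := by
          exact_mod_cast card_le_card (add_subset_add_left inter_subset_right)
        calc _ ≤ K ^ 23 * α := this.trans hYY
          _ ≤ K ^ 23 * (K ^ 9 * #(Y i ∩ Y i0)) := by gcongr
          _ = _ := by ring)
    have := dilb_good (X i0) (B i0) (Y i0) (θ i) (θ i0) (K ^ 11) _ (hθ i hi') (hθ i0 hi0).1
      (ne _ _ (hB i0 hi0)) (hBY i0 hi0) (by rw [add_comm]; exact hXB0) T1 hT1 hcov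
    simp only [← pow_mul, ← pow_add] at this
    exact this

end Pool.Agent.MP_71ac24_nt.H14
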