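import Pool.Agent.MP_71ac24_nt.H14.Rect
import Pool.Agent.MP_71ac24_nt.H14.Core
import Pool.Agent.MP_71ac24_nt.H14.DilB

/-! Choice of the window of scales, and the contradiction. -/

set_option autoImplicit false

namespace Pool.Agent.MP_71ac24_nt.H14

open Finset

theorem select (θ : ℕ) (hθ : 1 ≤ θ) (f : ℕ → ℝ)
    (m2 : ∀ j d, j + d ≤ 6000 * θ → f (j + d) ≤ f j + d + 1)
    (F1 : f (4800 * θ) ≤ 2400 * θ + 2) (F2 : (3000 * θ : ℝ) - 5 ≤ f (6000 * θ))
    (R1 : ∀ a b d, a + d = 3000 * θ → b = 3000 * θ + d → 5 ≤ a → f b ≤ f a + d + 11)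
    (R2 : ∀ a b d, a + d = 3000 * θ → b = 3000 * θ + d → f a + d ≤ f b + 16) :
    ∃ j1 w : ℕ, 40 * θ ≤ w ∧ w ≤ 260 * θ ∧ 2870 * θ ≤ j1 ∧ j1 + w ≤ 5700 * θ ∧
      (∀ i ≤ w, f (j1 + i) ≤ f j1 + i / 2 + 11) ∧
      (∀ u, u + 10 * θ = j1 + w → f u + θ ≤ f (j1 + w)) ∧
      ∀ i' j, j1 + w + i' = 6000 * θ → j + j1 = 6000 * θ → f j1 + f i' + w ≤ f (j1 + w) + f j + 32 := by
  have hθ' : (1 : ℝ) ≤ θ := by exact_mod_cast hθ
  have sym : ∀ a b : ℕ, a + b = 6000 * θ → 5 ≤ a → 5 ≤ b → b / 2 - f b ≤ a / 2 - f a + 16 := by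
    intro a b hab ha hb
    have e : (a : ℝ) + b = 6000 * θ := by exact_mod_cast hab
    rcases le_total a (3000 * θ) with h | h
    · obtain ⟨d, hd⟩ := Nat.exists_eq_add_of_le h
      have e2 : (3000 * θ : ℝ) = a + d := by exact_mod_cast hd
      have := R2 a b d hd.symm (by omega)
      linarith
    · obtain ⟨d, hd⟩ := Nat.exists_eq_add_of_le h
      have e2 : (a : ℝ) = 3000 * θ + d := by exact_mod_cast hd
      have := R1 b a d (by omega) hd hb
      linarith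
  have ex : ∃ u, 3030 * θ ≤ u ∧ u + 10 * θ ≤ 5700 * θ ∧ f u + θ ≤ f (u + 10 * θ) := by
    by_contra hc
    push Not at hc
    have st : ∀ t ≤ 90, f (4800 * θ + t * (10 * θ)) ≤ f (4800 * θ) + t * θ := by
      intro t ht
      induction t with
      | zero => simp
      | succ t ih =>
        have h1 := ih (by omega)
        have h3 : (t + 1) * (10 * θ) ≤ 90 * (10 * θ) := Nat.mul_le_mul_right _ ht
        have h2 := hc (4800 * θ + t * (10 * θ)) (by omega) (by rw [add_mul] at h3; omega)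
        rw [add_mul, one_mul, ← add_assoc]
        push_cast
        linarith
    have h1 := st 90 le_rfl
    have h2 := m2 (4800 * θ + 90 * (10 * θ)) (300 * θ) (by omega)
    rw [show 4800 * θ + 90 * (10 * θ) + 300 * θ = 6000 * θ by omega] at h2
    push_cast at h1 h2
    linarith
  classical
  obtain ⟨u1, u2, u3⟩ := Nat.find_spec ex
  have umin : ∀ v < Nat.find ex, 3030 * θ ≤ v → f (v + 10 * θ) < f v + θ := by
    intro v hv h1
    have := Nat.find_min ex hv
    push Not at this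
    exact this h1 (by omega)
  generalize Nat.find ex = u at *
  suffices H : ∃ j1, 2870 * θ ≤ j1 ∧ j1 + 30 * θ ≤ u ∧ u ≤ j1 + 250 * θ ∧
      ∀ j : ℕ, j1 ≤ j → j ≤ u + 10 * θ → j1 / 2 - f j1 ≤ j / 2 - f j + 11 by
    obtain ⟨j1, a1, a2, a3, a4⟩ := H
    obtain ⟨w, hw⟩ : ∃ w, u + 10 * θ = j1 + w := ⟨u + 10 * θ - j1, by omega⟩
    refine ⟨j1, w, by omega, by omega, a1, by omega, fun i hi => ?_, fun v hv => ?_,
      fun i' j h1 h2 => ?_⟩
    · have := a4 (j1 + i) (by omega) (by omega)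
      push_cast at this
      linarith
    · rw [← hw, show v = u by omega]; exact u3
    · have b1 := sym i' (j1 + w) (by omega) (by omega) (by omega)
      have b2 := sym j1 j (by omega) (by omega) (by omega)
      have e1 : (j1 : ℝ) + w + i' = 6000 * θ := by exact_mod_cast h1
      have e2 : (j : ℝ) + j1 = 6000 * θ := by exact_mod_cast h2
      push_cast at b1
      linarith
  rcases le_total (3070 * θ) u with hu | hu
  · obtain ⟨j1, b1, b2⟩ := Finset.exists_min_image (Icc (u - 40 * θ) (u + 10 * θ))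
      (fun j : ℕ => (j : ℝ) / 2 - f j) ⟨u, Finset.mem_Icc.mpr ⟨by omega, by omega⟩⟩
    simp only [Finset.mem_Icc] at b1 b2
    refine ⟨j1, by omega, ?_, by omega, fun j h1 h2 => ?_⟩
    · by_contra hc
      rcases Nat.lt_or_ge j1 (u + 10 * θ) with h | h
      · obtain ⟨v, rfl⟩ : ∃ v, j1 = v + 10 * θ := ⟨j1 - 10 * θ, by omega⟩
        have c1 := umin v (by omega) (by omega)
        have c2 := b2 v ⟨by omega, by omega⟩
        push_cast at c2
        linarith
      · obtain ⟨v, rfl⟩ : ∃ v, u = v + 1 := ⟨u - 1, by omega⟩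
        obtain rfl : j1 = v + 10 * θ + 1 := by omega
        have c1 := umin v (by omega) (by omega)
        have c2 := b2 v ⟨by omega, by omega⟩
        have c3 := m2 (v + 10 * θ) 1 (by omega)
        push_cast at c2 c3
        linarith
    · have := b2 j ⟨by omega, h2⟩
      linarith
  · obtain ⟨j2, b1, b2⟩ := Finset.exists_min_image (Icc (2920 * θ) (3080 * θ))
      (fun j : ℕ => (j : ℝ) / 2 - f j) ⟨3000 * θ, Finset.mem_Icc.mpr ⟨by omega, by omega⟩⟩
    simp only [Finset.mem_Icc] at b1 b2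
    rcases le_total j2 (3000 * θ) with h | h
    · refine ⟨j2, by omega, by omega, by omega, fun j h1 h2 => ?_⟩
      have := b2 j ⟨by omega, by omega⟩
      linarith
    · obtain ⟨d, hd⟩ := Nat.exists_eq_add_of_le h
      obtain ⟨a, ha⟩ : ∃ a, a + d = 3000 * θ := ⟨3000 * θ - d, by omega⟩
      refine ⟨a, by omega, by omega, by omega, fun j h1 h2 => ?_⟩
      have c1 := b2 j ⟨by omega, by omega⟩
      have c2 := R1 a j2 d ha hd (by omega)
      have e1 : (a : ℝ) + d = 3000 * θ := by exact_mod_cast ha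
      have e2 : (j2 : ℝ) = 3000 * θ + d := by exact_mod_cast hd
      linarith

variable {Δ θ : ℕ} {W : Finset ℝ} {n : ℕ → ℝ} {Λ : ℝ}

lemma World.occ_top {s : ℕ} (h : World Δ s W n Λ) :
    (#(occ W ((Δ : ℝ) ^ (20 * s))) : ℝ) ≤ (Δ : ℝ) ^ 2 + 1 := by
  have hD1 := h.D1
  have : occ W ((Δ : ℝ) ^ (20 * s)) ⊆ Icc 0 ((Δ : ℤ) ^ 2) := by
    intro k hk
    obtain ⟨t, ht, rfl⟩ := Finset.mem_image.mp hk
    obtain ⟨h1, h2⟩ := h.rng t ht
    refine Finset.mem_Icc.mpr ⟨Int.floor_nonneg.mpr (by positivity), ?_⟩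
    have h3 : t / (Δ : ℝ) ^ (20 * s) ≤ (((Δ : ℤ) ^ 2 : ℤ) : ℝ) := by
      rw [div_le_iff₀ (by positivity)]; push_cast; rw [← pow_add, add_comm]; exact h2
    exact (Int.floor_le_floor h3).trans_eq (Int.floor_intCast _)
  have h2 := Finset.card_le_card this
  rw [Int.card_Icc] at h2
  have h3 : ((Δ : ℤ) ^ 2 + 1 - 0).toNat = Δ ^ 2 + 1 := by
    rw [sub_zero]; exact_mod_cast Int.toNat_natCast (Δ ^ 2 + 1)
  rw [h3] at h2
  exact_mod_cast h2

lemma World.scales (hθ : 1 ≤ θ) (h : World Δ (300 * θ) W n Λ) :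
    ∃ j1 w : ℕ, 40 * θ ≤ w ∧ w ≤ 260 * θ ∧ 2870 * θ ≤ j1 ∧ j1 + w ≤ 5700 * θ ∧
      (∀ i ≤ w, n (j1 + i) ^ 2 ≤ (Δ : ℝ) ^ (i + 22) * n j1 ^ 2) ∧
      (∀ u, u + 10 * θ = j1 + w → (Δ : ℝ) ^ θ * n u ≤ n (j1 + w)) ∧
      ∀ i' j, j1 + w + i' = 6000 * θ → j + j1 = 6000 * θ →
        (Δ : ℝ) ^ w * (n j1 * n i') ≤ (Δ : ℝ) ^ 32 * (n (j1 + w) * n j) := by
  have hD := h.D9
  have hD1 : (1 : ℝ) < Δ := by linarith
  have hD0 : (0 : ℝ) < Δ := by linarith
  have pos : ∀ j ≤ 6000 * θ, 0 < n j := fun j hj => lt_of_lt_of_le one_pos (h.unif.pos j (by omega))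
  have lg : ∀ {x y : ℝ} (a b : ℕ), 0 < x → 0 < y →
      ((Δ : ℝ) ^ a * x ≤ (Δ : ℝ) ^ b * y ↔ a + Real.logb Δ x ≤ b + Real.logb Δ y) := by
    intro x y a b hx hy
    rw [← Real.logb_le_logb hD1 (by positivity) (by positivity), Real.logb_mul (by positivity) hx.ne',
      Real.logb_mul (by positivity) hy.ne', Real.logb_pow, Real.logb_pow, Real.logb_self_eq_one hD1,
      mul_one, mul_one]
  have lm : ∀ a b, a ≤ 6000 * θ → b ≤ 6000 * θ →
      Real.logb Δ (n a * n b) = Real.logb Δ (n a) + Real.logb Δ (n b) :=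
    fun a b ha hb => Real.logb_mul (pos a ha).ne' (pos b hb).ne'
  have F2 : (3000 * θ : ℝ) - 5 ≤ Real.logb Δ (n (6000 * θ)) := by
    have a1 := h.card_lo
    have a2 := h.unif.le_occ (j := 20 * (300 * θ)) le_rfl
    have a3 := h.occ_top
    rw [show 20 * (300 * θ) = 6000 * θ by omega] at a2 a3
    have p := pos _ le_rfl
    have a4 : (Δ : ℝ) ^ (3000 * θ) * 1 ≤ (Δ : ℝ) ^ 5 * n (6000 * θ) := by
      rw [show 10 * (300 * θ) = 3000 * θ by omega] at a1
      have a5 : 2 * ((Δ : ℝ) ^ 2 + 1) ≤ (Δ : ℝ) ^ 3 := by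
        have b1 : (1 : ℝ) ≤ (Δ : ℝ) ^ 2 := one_le_pow₀ hD1.le
        have b2 := mul_le_mul_of_nonneg_right hD (show 0 ≤ (Δ : ℝ) ^ 2 by positivity)
        have b3 : (Δ : ℝ) ^ 3 = Δ * (Δ : ℝ) ^ 2 := by ring
        linarith
      have a6 := mul_le_mul_of_nonneg_left a3 (show 0 ≤ 2 * n (6000 * θ) by positivity)
      have a7 := mul_le_mul_of_nonneg_left a5 p.le
      calc _ ≤ (Δ : ℝ) ^ 2 * #W := by rw [mul_one]; exact a1
        _ ≤ (Δ : ℝ) ^ 2 * (n (6000 * θ) * (Δ : ℝ) ^ 3) :=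
            mul_le_mul_of_nonneg_left (by linarith) (by positivity)
        _ = _ := by ring
    rw [lg _ _ one_pos p, Real.logb_one] at a4
    push_cast at a4
    linarith
  obtain ⟨j1, w, b1, b2, b3, b4, b5, b6, b7⟩ := select θ hθ (fun j => Real.logb Δ (n j)) (by
      intro j d hj
      have a1 := h.unif.lip h.one_le h.ne (j := j) (i := j + d) (by omega) (by omega)
      rw [Nat.add_sub_cancel_left] at a1
      have p := pos j (by omega)
      have a2 : (Δ : ℝ) ^ 0 * n (j + d) ≤ (Δ : ℝ) ^ (d + 1) * n j := by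
        rw [pow_zero, one_mul, pow_succ']
        exact a1.trans (mul_le_mul_of_nonneg_right
          (mul_le_mul_of_nonneg_right (by linarith) (by positivity)) p.le)
      rw [lg _ _ (pos _ hj) p] at a2
      push_cast at a2
      linarith) (by
      have a1 := h.fro (4800 * θ) (by omega) (by omega)
      have p := pos (4800 * θ) (by omega)
      have a2 : (Δ : ℝ) ^ (20 * (300 * θ)) * (n (4800 * θ) * n (4800 * θ)) ≤
          (Δ : ℝ) ^ ((10 * (300 * θ) + 1) * 2 + (4800 * θ + 2)) * 1 := by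
        rw [mul_one, pow_add, pow_mul _ _ 2]
        refine le_of_eq_of_le (by ring) (a1.trans (mul_le_mul_of_nonneg_right ?_ (by positivity)))
        exact pow_le_pow_left₀ (by positivity) h.card 2
      rw [lg _ _ (by positivity) one_pos, lm _ _ (by omega) (by omega), Real.logb_one] at a2
      push_cast at a2
      linarith) F2 (by
      intro a b d h1 h2 h3
      have a1 := h.rect (i := b) (j := 3000 * θ) (i' := a) (j' := 3000 * θ) (w := d) (by omega)
        (by omega) h2 (by omega) (by omega)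
      have p1 := pos a (by omega)
      have p2 := pos b (by omega)
      have p3 := pos (3000 * θ) (by omega)
      rw [← one_mul (n b * _), ← pow_zero (Δ : ℝ), lg _ _ (by positivity) (by positivity),
        lm _ _ (by omega) (by omega), lm _ _ (by omega) (by omega)] at a1
      push_cast at a1
      linarith) (by
      intro a b d h1 h2
      have p1 := pos a (by omega)
      have p2 := pos b (by omega)
      rcases Nat.lt_or_ge d 3 with hd | hd
      · have a1 := h.unif.mono h.one_le h.ne (j := a) (i := b) (by omega) (by omega)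
        have a2 : (Δ : ℝ) ^ 0 * n a ≤ (Δ : ℝ) ^ 1 * n b := by
          rw [pow_zero, one_mul, pow_one]
          exact a1.trans (mul_le_mul_of_nonneg_right (by linarith) p2.le)
        rw [lg _ _ p1 p2] at a2
        have a3 : (d : ℝ) ≤ 3 := by exact_mod_cast hd.le
        push_cast at a2
        linarith
      · have a1 := h.rect (i := 6000 * θ) (j := a) (i' := 0) (j' := b) (w := a) (by omega)
          (by omega) (by omega) (by omega) (by omega)
        have p3 := pos (6000 * θ) le_rfl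
        have p4 := pos 0 (by omega)
        rw [← one_mul (n (6000 * θ) * _), ← pow_zero (Δ : ℝ), lg _ _ (by positivity) (by positivity),
          lm _ _ (by omega) (by omega), lm _ _ (by omega) (by omega)] at a1
        have a2 := Real.logb_nonpos hD1 p4.le (h.unif.zero_le h.sep h.ne)
        have e1 : (a : ℝ) + d = 3000 * θ := by exact_mod_cast h1
        push_cast at a1
        linarith)
  have p1 := pos j1 (by omega)
  refine ⟨j1, w, b1, b2, b3, b4, fun i hi => ?_, fun u hu => ?_, fun i' j h1 h2 => ?_⟩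
  · have p2 := pos (j1 + i) (by omega)
    rw [← one_mul (n (j1 + i) ^ 2), ← pow_zero (Δ : ℝ), lg _ _ (by positivity) (by positivity), sq, sq,
      lm _ _ (by omega) (by omega), lm _ _ (by omega) (by omega)]
    have := b5 i hi
    push_cast
    linarith
  · rw [← one_mul (n (j1 + w)), ← pow_zero (Δ : ℝ), lg _ _ (pos _ (by omega)) (pos _ (by omega))]
    have := b6 u hu
    push_cast
    linarith
  · have p2 := pos (j1 + w) (by omega)
    have p3 := pos i' (by omega)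
    have p4 := pos j (by omega)
    rw [lg _ _ (by positivity) (by positivity), lm _ _ (by omega) (by omega), lm _ _ (by omega) (by omega)]
    have := b7 i' j h1 h2
    push_cast
    linarith

lemma quad_le (W : Finset ℝ) {U ν t ρ : ℝ} (hU : 0 < U) (hν : ∀ k, (#(inC W U k) : ℝ) ≤ ν)
    (P P' : Finset ℝ) (hP : P ⊆ W) (hP' : P' ⊆ W) (h0 : 0 ≤ t) (h4 : t ≤ 4) :
    (#{z ∈ (P ×ˢ P) ×ˢ (P' ×ˢ P') | |(z.1.1 - z.1.2) - t * (z.2.1 - z.2.2)| ≤ ρ * U} : ℝ) ≤
      ν ^ 4 * #{z ∈ (P.image (cel U) ×ˢ P.image (cel U)) ×ˢ (P'.image (cel U) ×ˢ P'.image (cel U)) |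
        |((z.1.1 : ℝ) - z.1.2) - t * ((z.2.1 : ℝ) - z.2.2)| ≤ ρ + 5} := by
  have ν0 : 0 ≤ ν := le_trans (by positivity) (hν 0)
  rw [Finset.card_eq_sum_card_fiberwise
    (f := fun z : (ℝ × ℝ) × ℝ × ℝ => ((cel U z.1.1, cel U z.1.2), (cel U z.2.1, cel U z.2.2)))
    (t := {z ∈ (P.image (cel U) ×ˢ P.image (cel U)) ×ˢ (P'.image (cel U) ×ˢ P'.image (cel U)) |
        |((z.1.1 : ℝ) - z.1.2) - t * ((z.2.1 : ℝ) - z.2.2)| ≤ ρ + 5}), Nat.cast_sum, mul_comm (ν ^ 4),
    ← nsmul_eq_mul]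
  · refine Finset.sum_le_card_nsmul _ _ _ fun c _ => ?_
    have : #((inC W U c.1.1 ×ˢ inC W U c.1.2) ×ˢ (inC W U c.2.1 ×ˢ inC W U c.2.2)) ≤ ν ^ 4 := by
      simp only [Finset.card_product, Nat.cast_mul]
      exact (mul_le_mul (mul_le_mul (hν _) (hν _) (by positivity) ν0)
        (mul_le_mul (hν _) (hν _) (by positivity) ν0) (by positivity) (by positivity)).trans_eq (by ring)
    refine le_trans (Nat.cast_le.mpr (Finset.card_le_card fun z hz => ?_)) this
    obtain ⟨z1, rfl⟩ := Finset.mem_filter.mp hz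
    have z2 := (Finset.mem_filter.mp z1).1
    simp only [Finset.mem_product, mem_inC, and_true] at z2 ⊢
    exact ⟨⟨hP z2.1.1, hP z2.1.2⟩, hP' z2.2.1, hP' z2.2.2⟩
  · intro z hz
    obtain ⟨z2, z3⟩ := Finset.mem_filter.mp (Finset.mem_coe.mp hz)
    simp only [Finset.mem_product] at z2
    refine Finset.mem_coe.mpr (Finset.mem_filter.mpr ⟨?_, ?_⟩)
    · simp only [Finset.mem_product]
      exact ⟨⟨Finset.mem_image_of_mem _ z2.1.1, Finset.mem_image_of_mem _ z2.1.2⟩,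
        Finset.mem_image_of_mem _ z2.2.1, Finset.mem_image_of_mem _ z2.2.2⟩
    · simp only
      have a1 := cel_le hU z.1.1
      have a2 := lt_cel hU z.1.1
      have a3 := cel_le hU z.1.2
      have a4 := lt_cel hU z.1.2
      have b1 := mul_le_mul_of_nonneg_left (cel_le hU z.2.1) h0
      have b2 := mul_le_mul_of_nonneg_left (lt_cel hU z.2.1).le h0
      have b3 := mul_le_mul_of_nonneg_left (cel_le hU z.2.2) h0
      have b4 := mul_le_mul_of_nonneg_left (lt_cel hU z.2.2).le h0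
      have b5 := mul_le_mul_of_nonneg_right h4 hU.le
      rw [abs_le] at z3 ⊢
      constructor <;> refine le_of_mul_le_mul_right ?_ hU <;> linarith [z3.1, z3.2]

/-- the Frostman bound for the dilates -/
lemma World.frost {s j : ℕ} (h : World Δ s W n Λ) (hj : j ≤ 16 * s) (S : Finset ℤ)
    (hS : S ⊆ occ W ((Δ : ℝ) ^ j)) {c c' r : ℝ} (far : (Δ : ℝ) ^ (20 * s) ≤ (Δ : ℝ) ^ 60 * |c - c'|)
    (hr : (Δ : ℝ) ^ (16 * s) ≤ r * (Δ : ℝ) ^ (20 * s + 67)) (hr' : r * (Δ : ℝ) ^ 67 < 1)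
    (gd : ∀ k ∈ S, Λ ≤ k * (Δ : ℝ) ^ j - c' ∧ k * (Δ : ℝ) ^ j - c' ≤ 4 * Λ)
    (cl : ∀ k ∈ S, ∀ k' ∈ S, |(k * (Δ : ℝ) ^ j - c) / (k * (Δ : ℝ) ^ j - c') -
      (k' * (Δ : ℝ) ^ j - c) / (k' * (Δ : ℝ) ^ j - c')| ≤ 4 * r) :
    (#S : ℝ) ^ 2 ≤ (Δ : ℝ) ^ 71 * r * (#(occ W ((Δ : ℝ) ^ j)) : ℝ) ^ 2 := by
  have hD := h.D9
  have hD1 : (1 : ℝ) < Δ := by linarith
  have hD0 : (0 : ℝ) < Δ := by linarith
  have hΛ := h.lam_pos
  have r0 : 0 < r := (mul_pos_iff_of_pos_right (by positivity)).mp (lt_of_lt_of_le (by positivity) hr)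
  rcases Finset.eq_empty_or_nonempty S with rfl | ⟨k0, hk0⟩
  · simp only [Finset.card_empty, Nat.cast_zero, ne_eq, OfNat.ofNat_ne_zero, not_false_eq_true, zero_pow]
    exact mul_nonneg (mul_nonneg (pow_nonneg hD0.le _) r0.le) (sq_nonneg _)
  obtain ⟨m, m1, m2⟩ := exists_nat_pow_near ((one_le_pow₀ hD1.le).trans hr) hD1
  have m3 : 16 * s < m + 1 := (pow_lt_pow_iff_right₀ hD1).mp (hr.trans_lt m2)
  have m4 : m < 20 * s := by
    refine (pow_lt_pow_iff_right₀ hD1).mp (m1.trans_lt ?_)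
    rw [pow_add, mul_comm _ ((Δ : ℝ) ^ 67), ← mul_assoc]
    exact mul_lt_of_lt_one_left (by positivity) hr'
  have p1 := h.unif.pos j (by omega)
  have p2 := h.unif.pos (m + 1) (by omega)
  have a1 := h.unif.cells_le h.one_le (j := j) (i := m + 1) (by omega) (by omega)
    (k0 * (Δ : ℝ) ^ j - (Δ : ℝ) ^ (m + 1) / 2) S hS (by
      intro k hk
      obtain ⟨g1, g2⟩ := gd k hk
      obtain ⟨g3, g4⟩ := gd k0 hk0
      have g5 := cl k hk k0 hk0
      generalize k * (Δ : ℝ) ^ j = x at *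
      generalize k0 * (Δ : ℝ) ^ j = y at *
      have x0 : 0 < x - c' := by linarith
      have y0 : 0 < y - c' := by linarith
      have e : (x - c) / (x - c') - (y - c) / (y - c') = (c - c') * (x - y) / ((x - c') * (y - c')) := by
        field_simp; ring
      rw [e, abs_div, abs_mul, abs_of_pos (mul_pos x0 y0), div_le_iff₀ (mul_pos x0 y0)] at g5
      have g6 : (x - c') * (y - c') ≤ (4 * (Δ : ℝ) ^ (20 * s + 3)) * (4 * (Δ : ℝ) ^ (20 * s + 3)) :=
        mul_le_mul (by linarith [h.lamhi]) (by linarith [h.lamhi]) y0.le (by positivity)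
      have g7 : |x - y| ≤ 64 * (r * (Δ : ℝ) ^ (20 * s + 66)) := by
        refine le_of_mul_le_mul_left (a := (Δ : ℝ) ^ (20 * s)) ?_ (by positivity)
        calc _ ≤ (Δ : ℝ) ^ 60 * |c - c'| * |x - y| := mul_le_mul_of_nonneg_right far (abs_nonneg _)
          _ ≤ (Δ : ℝ) ^ 60 * (4 * r * ((4 * (Δ : ℝ) ^ (20 * s + 3)) * (4 * (Δ : ℝ) ^ (20 * s + 3)))) := by
              rw [mul_assoc]
              exact mul_le_mul_of_nonneg_left (g5.trans (mul_le_mul_of_nonneg_left g6 (by positivity)))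
                (by positivity)
          _ = _ := by ring
      have g8 := mul_le_mul_of_nonneg_right hD (show 0 ≤ r * (Δ : ℝ) ^ (20 * s + 66) by positivity)
      have g9 : r * (Δ : ℝ) ^ (20 * s + 67) = Δ * (r * (Δ : ℝ) ^ (20 * s + 66)) := by ring
      have g10 : 0 ≤ r * (Δ : ℝ) ^ (20 * s + 66) := by positivity
      rw [abs_le] at g7
      constructor <;> linarith [g7.1, g7.2])
  have a2 := h.fro (m + 1) (by omega) (by omega)
  have a3 := h.unif.le_occ (j := j) (by omega)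
  have a4 : n (m + 1) ^ 2 ≤ (#W : ℝ) ^ 2 * ((Δ : ℝ) ^ 70 * r) := by
    refine le_of_mul_le_mul_right (a := (Δ : ℝ) ^ (20 * s)) (a2.trans ?_) (by positivity)
    rw [mul_assoc]
    refine mul_le_mul_of_nonneg_left ?_ (by positivity)
    exact le_of_eq_of_le (by ring) ((mul_le_mul_of_nonneg_left m1
      (show 0 ≤ (Δ : ℝ) ^ 3 by positivity)).trans_eq (by ring))
  refine le_of_mul_le_mul_right (a := n j ^ 2) ?_ (by positivity)
  calc (#S : ℝ) ^ 2 * n j ^ 2 = (#S * n j) ^ 2 := by ring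
    _ ≤ (6 * n (m + 1)) ^ 2 := pow_le_pow_left₀ (by positivity) a1 2
    _ = 36 * n (m + 1) ^ 2 := by ring
    _ ≤ 36 * ((2 * n j * #(occ W ((Δ : ℝ) ^ j))) ^ 2 * ((Δ : ℝ) ^ 70 * r)) :=
        mul_le_mul_of_nonneg_left (a4.trans (mul_le_mul_of_nonneg_right
          (pow_le_pow_left₀ (by positivity) a3 2) (by positivity))) (by norm_num)
    _ = 144 * ((Δ : ℝ) ^ 70 * r * (#(occ W ((Δ : ℝ) ^ j)) : ℝ) ^ 2 * n j ^ 2) := by ring
    _ ≤ Δ * ((Δ : ℝ) ^ 70 * r * (#(occ W ((Δ : ℝ) ^ j)) : ℝ) ^ 2 * n j ^ 2) :=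
        mul_le_mul_of_nonneg_right (by linarith) (mul_nonneg (mul_nonneg
          (mul_nonneg (pow_nonneg hD0.le _) r0.le) (sq_nonneg _)) (sq_nonneg _))
    _ = _ := by ring

lemma le_mul_sqrt {c K r : ℝ} (hK : 0 ≤ K) (hr : 0 ≤ r) (h : c ^ 2 ≤ K ^ 2 * r) : c ≤ K * √r := by
  refine le_of_pow_le_pow_left₀ two_ne_zero (by positivity) ?_
  rwa [mul_pow, Real.sq_sqrt hr]

theorem World.false_aux (q : ℕ) (hq : 2112000 ≤ q) (hθ : 11 * q ≤ θ) (h : World Δ (300 * θ) W n Λ) :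
    False := by
  have hD := h.D9
  have hD1 : (1 : ℝ) < Δ := by linarith
  have hD0 : (0 : ℝ) < Δ := by linarith
  have pw : ∀ {a b : ℕ}, a ≤ b → (Δ : ℝ) ^ a ≤ (Δ : ℝ) ^ b := fun hab => pow_le_pow_right₀ hD1.le hab
  have pw9 : ∀ {a : ℕ}, 1 ≤ a → (10 : ℝ) ^ 9 ≤ (Δ : ℝ) ^ a := fun ha =>
    hD.trans ((pow_one _).symm.trans_le (pw ha))
  obtain ⟨j1, w, b1, b2, b3, b4, b5, b6, b7⟩ := h.scales (by omega)
  obtain ⟨i', hi'⟩ : ∃ i', j1 + w + i' = 6000 * θ := ⟨6000 * θ - (j1 + w), by omega⟩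
  obtain ⟨j, hj⟩ : ∃ j, j + j1 = 6000 * θ := ⟨6000 * θ - j1, by omega⟩
  obtain ⟨u, hu⟩ : ∃ u, u + 1 + 10 * θ = w := ⟨w - 10 * θ - 1, by omega⟩
  have sat := b7 i' j hi' hj
  have gr := b6 (j1 + (u + 1)) (by omega)
  obtain ⟨b, -, b', -, J0, hJ0, far, cJ, hk⟩ := h.window (by omega) (i := j1 + w) (j := j) (i' := i')
    (j' := j1) (w := w) (by omega) (by omega) rfl (by omega) (by omega) (by omega) (by omega)
  have p1 := h.unif.pos j1 (by omega)
  have p2 := h.unif.pos (j1 + w) (by omega)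
  have p3 := h.unif.pos j (by omega)
  have p4 := h.unif.pos i' (by omega)
  have hΛ := h.lam_pos
  have pJ : (0 : ℝ) < #(occ W ((Δ : ℝ) ^ j)) := by exact_mod_cast (h.ne.image _).card_pos
  have J0ne : J0.Nonempty := by
    rcases Finset.eq_empty_or_nonempty J0 with rfl | hne
    · simp only [Finset.card_empty, Nat.cast_zero, mul_zero] at cJ; linarith
    · exact hne
  set t : ℤ → ℝ := fun k => (k * (Δ : ℝ) ^ j - b * (Δ : ℝ) ^ (j1 + w)) /
    (k * (Δ : ℝ) ^ j - b' * (Δ : ℝ) ^ (j1 + w)) with ht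
  have tb : ∀ k ∈ J0, 1 / 4 ≤ t k ∧ t k ≤ 4 := by
    intro k hk'
    obtain ⟨⟨g1, g2⟩, ⟨g3, g4⟩, -⟩ := hk k hk'
    simp only [ht]
    rw [le_div_iff₀ (by linarith), div_le_iff₀ (by linarith)]
    constructor <;> linarith
  have img : ∀ c : ℤ, (#((inC W ((Δ : ℝ) ^ (j1 + w)) c).image (cel ((Δ : ℝ) ^ j1))) : ℝ) ≤
      2 * n (j1 + w) / n j1 := fun c => by
    rw [le_div_iff₀ (by linarith)]
    exact h.unif.image_le h.one_le (by omega) (by omega) c
  obtain ⟨X, hXA, J, hJJ, k0, hk0, cX, cJJ, hP, hG⟩ := good_of_energy _ _ J0 J0ne t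
    (2 * n (j1 + w) / n j1) ((Δ : ℝ) ^ 4 + 5) ((Δ : ℝ) ^ 64) (by positivity)
    (by have : 0 ≤ (Δ : ℝ) ^ 4 := by positivity
        linarith) (pw9 (by norm_num)) (img b) (img b') tb (by
      intro k hk'
      obtain ⟨-, -, g⟩ := hk k hk'
      have g2 := quad_le W (U := (Δ : ℝ) ^ j1) (ν := 2 * n j1) (t := t k) (ρ := (Δ : ℝ) ^ 4)
        (by positivity) (h.unif.hi j1 (by omega)) (inC W ((Δ : ℝ) ^ (j1 + w)) b)
        (inC W ((Δ : ℝ) ^ (j1 + w)) b') (Finset.filter_subset _ _) (Finset.filter_subset _ _)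
        (by linarith [(tb k hk').1]) (tb k hk').2
      rw [← pow_add, add_comm 4 j1] at g2
      have g3 := g.trans (mul_le_mul_of_nonneg_left g2 (by positivity))
      generalize (Finset.card _ : ℝ) = C at g3 ⊢
      have C0 : 0 ≤ C := by
        by_contra hc
        have : (Δ : ℝ) ^ (w + 26) * n i' * ((2 * n j1) ^ 4 * C) < 0 :=
          mul_neg_of_pos_of_neg (by positivity) (mul_neg_of_pos_of_neg (by positivity) (not_le.mp hc))
        have : 0 < n (j1 + w) ^ 4 * n j := by positivity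
        linarith
      have g4 : n (j1 + w) ^ 3 ≤ 16 * (Δ : ℝ) ^ 58 * n j1 ^ 3 * C := by
        refine le_of_mul_le_mul_right (a := n (j1 + w) * n j) ?_ (by positivity)
        have := mul_le_mul_of_nonneg_left sat (show 0 ≤ 16 * (Δ : ℝ) ^ 26 * n j1 ^ 3 * C by positivity)
        exact le_of_eq_of_le (by ring) (g3.trans (le_of_eq_of_le (by ring) (this.trans_eq (by ring))))
      have g5 : (2 * n (j1 + w) / n j1) ^ 3 ≤ 128 * (Δ : ℝ) ^ 58 * C := by
        rw [div_pow, div_le_iff₀ (by positivity)]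
        linarith
      have g6 : 125 * ((Δ : ℝ) ^ 4 + 5) * 128 ≤ (Δ : ℝ) ^ 6 := by
        have c1 := pw9 (a := 4) (by norm_num)
        have c2 := mul_le_mul_of_nonneg_left (pw9 (a := 2) (by norm_num))
          (show 0 ≤ (Δ : ℝ) ^ 4 by positivity)
        have c3 : (Δ : ℝ) ^ 6 = (Δ : ℝ) ^ 4 * (Δ : ℝ) ^ 2 := by ring
        linarith
      calc _ ≤ 125 * ((Δ : ℝ) ^ 4 + 5) * (128 * (Δ : ℝ) ^ 58 * C) :=
            mul_le_mul_of_nonneg_left g5 (by positivity)
        _ = 125 * ((Δ : ℝ) ^ 4 + 5) * 128 * ((Δ : ℝ) ^ 58 * C) := by ring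
        _ ≤ (Δ : ℝ) ^ 6 * ((Δ : ℝ) ^ 58 * C) := mul_le_mul_of_nonneg_right g6 (mul_nonneg (pow_nonneg hD0.le _) C0)
        _ = _ := by ring)
  have Xne : X.Nonempty := by
    rcases Finset.eq_empty_or_nonempty X with rfl | hne
    · simp only [Finset.card_empty, Nat.cast_zero, mul_zero] at cX
      have : 0 < 2 * n (j1 + w) / n j1 := by positivity
      linarith
    · exact hne
  have Jne : J.Nonempty := by
    rcases Finset.eq_empty_or_nonempty J with rfl | hne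
    · simp only [Finset.card_empty, Nat.cast_zero, mul_zero] at cJJ
      have : (0 : ℝ) < #J0 := by exact_mod_cast J0ne.card_pos
      linarith
    · exact hne
  obtain ⟨t1, t2⟩ := tb k0 hk0
  have t0 : 0 < t k0 := by linarith
  have hl : ∀ a ∈ J, 0 ≤ t a / t k0 ∧ t a / t k0 ≤ 16 := by
    intro a ha
    obtain ⟨t3, t4⟩ := tb a (hJJ ha)
    rw [div_le_iff₀ t0]
    exact ⟨div_nonneg (by linarith) t0.le, by linarith⟩
  obtain ⟨hC1, hC2⟩ := col_of_good X Xne J (fun k => t k / t k0) ((Δ : ℝ) ^ 64) (pw9 (by norm_num))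
    (fun a ha => by rw [abs_of_nonneg (hl a ha).1]; exact (hl a ha).2) hP hG
  have hQ : ((Δ : ℝ) ^ 64) ^ 33000 ≤ (Δ : ℝ) ^ q := by rw [← pow_mul]; exact pw (by omega)
  have Xocc : X ⊆ occ W ((Δ : ℝ) ^ j1) :=
    hXA.trans (Finset.image_subset_image (Finset.filter_subset _ _))
  have U0 : (0 : ℝ) < (Δ : ℝ) ^ j1 := by positivity
  have hXB : ∀ x ∈ X, b * (Δ : ℝ) ^ w ≤ (x : ℝ) ∧ (x : ℝ) ≤ b * (Δ : ℝ) ^ w + (Δ : ℝ) ^ w := by
    intro x hx
    obtain ⟨y, hy, rfl⟩ := Finset.mem_image.mp (hXA hx)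
    obtain ⟨c1, c2⟩ := inC_bounds (by positivity) hy
    rw [pow_add] at c1 c2
    constructor
    · have : b * (Δ : ℤ) ^ w ≤ cel ((Δ : ℝ) ^ j1) y := by
        refine Int.le_floor.mpr ?_
        rw [le_div_iff₀ U0]; push_cast; linarith
      exact_mod_cast this
    · have := cel_le U0 y
      exact le_of_mul_le_mul_right (by linarith) U0
  have cnt : ∀ m ≤ w, ∀ (z : ℝ) (S : Finset ℤ), S ⊆ X →
      (∀ x ∈ S, z ≤ (x : ℝ) ∧ (x : ℝ) ≤ z + (Δ : ℝ) ^ m) → #S * n j1 ≤ 6 * n (j1 + m) := by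
    intro m hm z S hS hz
    refine h.unif.cells_le h.one_le (by omega) (by omega) (z * (Δ : ℝ) ^ j1) S (hS.trans Xocc)
      fun x hx => ?_
    have c1 := mul_le_mul_of_nonneg_right (hz x hx).1 U0.le
    have c2 := mul_le_mul_of_nonneg_right (hz x hx).2 U0.le
    rw [pow_add]
    constructor <;> linarith
  have cnt2 : ∀ m ≤ w, ∀ (z r : ℝ) (S : Finset ℤ), S ⊆ X →
      (∀ x ∈ S, z ≤ (x : ℝ) ∧ (x : ℝ) ≤ z + (Δ : ℝ) ^ m) → (Δ : ℝ) ^ m ≤ Δ * r →
      (#S : ℝ) ^ 2 ≤ ((Δ : ℝ) ^ q) ^ 2 * r := by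
    intro m hm z r S hS hz hr
    have r0 : 0 < r := (mul_pos_iff_of_pos_left hD0).mp (lt_of_lt_of_le (by positivity) hr)
    have c1 := pow_le_pow_left₀ (by positivity) (cnt m hm z S hS hz) 2
    have c2 := b5 m hm
    have c3 : (#S : ℝ) ^ 2 ≤ 36 * (Δ : ℝ) ^ (m + 22) :=
      le_of_mul_le_mul_right (a := n j1 ^ 2) (by linarith) (by positivity)
    have c4 := mul_le_mul_of_nonneg_left hr (show 0 ≤ 36 * (Δ : ℝ) ^ 22 by positivity)
    have c5 := mul_le_mul_of_nonneg_right (show (36 : ℝ) ≤ Δ by linarith)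
      (show 0 ≤ (Δ : ℝ) ^ 23 * r by positivity)
    have c6 := mul_le_mul_of_nonneg_right (pw (show 24 ≤ q * 2 by omega)) r0.le
    rw [← pow_mul]
    exact c3.trans (le_of_eq_of_le (by ring) (c4.trans (le_of_eq_of_le (by ring)
      (c5.trans (le_of_eq_of_le (by ring) c6)))))
  refine core X Xne J Jne (fun k => t k / t k0) ((Δ : ℝ) ^ q) ((Δ : ℝ) ^ w) ((Δ : ℝ) ^ u)
    (le_trans (by norm_num) (pw9 (by omega))) (one_le_pow₀ hD1.le) (pw (by omega)) ?_
    (b * (Δ : ℝ) ^ w) hXB hl ?_ ?_ ?_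
    (fun a ha a' ha' c hc d hd e he f hf i hi => (hC1 a ha a' ha' c hc d hd e he f hf i hi).trans
      (mul_le_mul_of_nonneg_right hQ (by positivity)))
    (fun c hc d hd e he f hf => (hC2 c hc d hd e he f hf).trans
      (mul_le_mul_of_nonneg_right hQ (by positivity)))
  · refine le_of_pow_le_pow_left₀ two_ne_zero (by positivity) ?_
    rw [mul_pow, Real.sq_sqrt (by positivity), ← pow_mul, ← pow_mul, ← pow_mul, ← pow_add]
    exact pw (by omega)
  · intro z r hr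
    refine le_mul_sqrt (by positivity) (by linarith) ?_
    rcases lt_or_ge r ((Δ : ℝ) ^ w) with h1 | h1
    · obtain ⟨m, m1, m2⟩ := exists_nat_pow_near hr hD1
      have m3 : m < w := (pow_lt_pow_iff_right₀ hD1).mp (m1.trans_lt h1)
      refine cnt2 (m + 1) m3 z r _ (Finset.filter_subset _ _) (fun x hx => ?_) ?_
      · have := (Finset.mem_filter.mp hx).2
        exact ⟨this.1, by linarith [this.2]⟩
      · rw [pow_succ']; exact mul_le_mul_of_nonneg_left m1 hD0.le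
    · exact cnt2 w le_rfl _ r _ (Finset.filter_subset _ _)
        (fun x hx => hXB x (Finset.mem_filter.mp hx).1)
        (h1.trans (le_mul_of_one_le_left (by linarith) hD1.le))
  · have c1 : #{p ∈ X ×ˢ X | |(p.1 : ℝ) - p.2| ≤ (Δ : ℝ) ^ u} =
        ∑ x ∈ X, #(X.filter fun y : ℤ => |(x : ℝ) - y| ≤ (Δ : ℝ) ^ u) := by
      simp only [Finset.card_filter, Finset.sum_product]
    have c2 : (#{p ∈ X ×ˢ X | |(p.1 : ℝ) - p.2| ≤ (Δ : ℝ) ^ u} : ℝ) * n j1 ≤
        #X * (6 * n (j1 + (u + 1))) := by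
      rw [c1, Nat.cast_sum, Finset.sum_mul, ← nsmul_eq_mul]
      refine Finset.sum_le_card_nsmul _ _ _ fun x _ => ?_
      refine cnt (u + 1) (by omega) (x - (Δ : ℝ) ^ u) _ (Finset.filter_subset _ _) fun y hy => ?_
      have c3 := abs_le.mp (Finset.mem_filter.mp hy).2
      have c4 : 2 * (Δ : ℝ) ^ u ≤ (Δ : ℝ) ^ (u + 1) := by
        rw [pow_succ']; exact mul_le_mul_of_nonneg_right (by linarith) (by positivity)
      constructor <;> linarith [c3.1, c3.2]
    rw [div_le_iff₀ (by linarith), ← pow_mul] at cX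
    rw [← pow_mul]
    generalize (#{p ∈ X ×ˢ X | |(p.1 : ℝ) - p.2| ≤ (Δ : ℝ) ^ u}) = C at c2 ⊢
    have c3 : (Δ : ℝ) ^ (q * 10) * ((Δ : ℝ) ^ (64 * 2) * Δ) ≤ (Δ : ℝ) ^ θ := by
      rw [← pow_succ, ← pow_add]; exact pw (by omega)
    have c4 : (Δ : ℝ) ^ θ * C ≤ 3 * ((Δ : ℝ) ^ (64 * 2) * (#X : ℝ) ^ 2) := by
      refine le_of_mul_le_mul_right (a := n j1) ?_ (by linarith)
      have d1 := mul_le_mul_of_nonneg_left c2 (show 0 ≤ (Δ : ℝ) ^ θ by positivity)
      have d2 := mul_le_mul_of_nonneg_left gr (show (0 : ℝ) ≤ 6 * #X by positivity)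
      have d3 := mul_le_mul_of_nonneg_left cX (show (0 : ℝ) ≤ 3 * #X by positivity)
      generalize (Δ : ℝ) ^ (64 * 2) = E at *
      linarith
    have c5 := mul_le_mul_of_nonneg_right c3 (show (0 : ℝ) ≤ C by positivity)
    have c6 := mul_le_mul_of_nonneg_right (show (3 : ℝ) ≤ Δ by linarith)
      (show 0 ≤ (Δ : ℝ) ^ (64 * 2) * (#X : ℝ) ^ 2 by positivity)
    refine le_of_mul_le_mul_right (a := (Δ : ℝ) ^ (64 * 2) * Δ) ?_ (by positivity)
    generalize (Δ : ℝ) ^ (64 * 2) = E at *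
    generalize (Δ : ℝ) ^ (q * 10) = E' at *
    linarith
  · intro z r hr
    have r0 : 0 < r := lt_of_lt_of_le (by positivity) hr
    rw [mul_right_comm]
    refine le_mul_sqrt (by positivity) r0.le ?_
    rw [mul_pow, ← pow_mul]
    rcases lt_or_ge (r * (Δ : ℝ) ^ 67) 1 with h1 | h1
    · have fr := h.frost (j := j) (by omega) {a ∈ J | z ≤ t a / t k0 ∧ t a / t k0 ≤ z + r}
        ((Finset.filter_subset _ _).trans (hJJ.trans hJ0)) far (r := r) (by
          rw [div_le_iff₀ (by positivity)] at hr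
          refine le_of_mul_le_mul_right (a := 16 * (Δ : ℝ) ^ w) ?_ (by positivity)
          have d1 := mul_le_mul_of_nonneg_left hr
            (show 0 ≤ (Δ : ℝ) ^ (20 * (300 * θ) + 67) by positivity)
          have d2 := mul_le_mul_of_nonneg_right (show (16 : ℝ) ≤ Δ by linarith)
            (show 0 ≤ (Δ : ℝ) ^ (16 * (300 * θ)) * (Δ : ℝ) ^ w by positivity)
          have d3 : Δ * ((Δ : ℝ) ^ (16 * (300 * θ)) * (Δ : ℝ) ^ w) ≤ (Δ : ℝ) ^ (20 * (300 * θ) + 67) := by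
            rw [← pow_add, ← pow_succ']; exact pw (by omega)
          generalize (Δ : ℝ) ^ (20 * (300 * θ) + 67) = E at *
          generalize (Δ : ℝ) ^ (16 * (300 * θ)) = E' at *
          linarith) h1 (fun k hk' => (hk k (hJJ (Finset.mem_filter.mp hk').1)).2.1) (by
          intro k hk1 k' hk2
          obtain ⟨-, d1, d2⟩ := Finset.mem_filter.mp hk1
          obtain ⟨-, d3, d4⟩ := Finset.mem_filter.mp hk2
          have e : t k - t k' = (t k / t k0 - t k' / t k0) * t k0 := by field_simp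
          show |t k - t k'| ≤ 4 * r
          rw [e, abs_mul, abs_of_pos t0, mul_comm 4 r]
          exact mul_le_mul (abs_le.mpr ⟨by linarith, by linarith⟩) t2 t0.le r0.le)
      refine fr.trans ?_
      have d1 := pow_le_pow_left₀ pJ.le (cJ.trans (mul_le_mul_of_nonneg_left cJJ (by positivity))) 2
      rw [← pow_mul, ← mul_assoc, ← pow_add, mul_pow, ← pow_mul] at d1
      refine (mul_le_mul_of_nonneg_left d1 (by positivity)).trans ?_
      rw [mul_right_comm, ← mul_assoc, ← pow_add]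
      exact mul_le_mul_of_nonneg_right (mul_le_mul_of_nonneg_right (pw (by omega)) (by positivity)) r0.le
    · refine (pow_le_pow_left₀ (by positivity) (Nat.cast_le.mpr (Finset.card_filter_le _ _)) 2).trans ?_
      rw [mul_right_comm]
      refine le_mul_of_one_le_left (by positivity) (h1.trans ?_)
      rw [mul_comm]
      exact mul_le_mul_of_nonneg_right (pw (by omega)) r0.le

theorem World.false (hθ : 24200000 ≤ θ) (h : World Δ (300 * θ) W n Λ) : False :=
  h.false_aux 2200000 (by norm_num) (by omega)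

end Pool.Agent.MP_71ac24_nt.H14
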