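import Mathlib

/-! Common definitions for the proof that Montgomery's bound holds slightly beyond the square root barrier. -/

set_option autoImplicit false

namespace Pool.Agent.MP_71ac24_nt.H14

open Finset

/-- `e^{ix}` -/
noncomputable def ei (x : ℝ) : ℂ := Complex.exp (Complex.I * x)

lemma ei_add (x y : ℝ) : ei (x + y) = ei x * ei y := by
  simp only [ei, ← Complex.exp_add]; congr 1; push_cast; ring

lemma norm_ei (x : ℝ) : ‖ei x‖ = 1 := Complex.norm_exp_I_mul_ofReal _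

lemma ei_zero : ei 0 = 1 := by simp [ei]

lemma conj_ei (x : ℝ) : (starRingEnd ℂ) (ei x) = ei (-x) := by
  simp only [ei, ← Complex.exp_conj, map_mul, Complex.conj_I, Complex.conj_ofReal]
  congr 1; push_cast; ring

lemma norm_ei_sub (x y : ℝ) : ‖ei x - ei y‖ ≤ |x - y| := by
  have e : ei x - ei y = ei y * (ei (x - y) - 1) := by
    rw [mul_sub, ← ei_add, mul_one]; congr 2; ring
  rw [e, norm_mul, norm_ei, one_mul]
  exact Real.norm_exp_I_mul_ofReal_sub_one_le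

lemma continuous_ei : Continuous ei := by unfold ei; fun_prop

/-- 1-separated finite sets -/
def Sep (W : Finset ℝ) : Prop := ∀ t ∈ W, ∀ u ∈ W, t ≠ u → 1 ≤ |t - u|

lemma Sep.mono {W W' : Finset ℝ} (h : Sep W) (h' : W' ⊆ W) : Sep W' :=
  fun t ht u hu => h t (h' ht) u (h' hu)

/-- index of the cell of length `U` that contains `t` -/
noncomputable def cel (U t : ℝ) : ℤ := ⌊t / U⌋

/-- the points of `W` in the cell with index `k` -/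
noncomputable def inC (W : Finset ℝ) (U : ℝ) (k : ℤ) : Finset ℝ := W.filter (fun t => cel U t = k)

/-- the occupied cells -/
noncomputable def occ (W : Finset ℝ) (U : ℝ) : Finset ℤ := W.image (cel U)

lemma cel_le {U : ℝ} (hU : 0 < U) (t : ℝ) : cel U t * U ≤ t :=
  (le_div_iff₀ hU).mp (Int.floor_le _)

lemma lt_cel {U : ℝ} (hU : 0 < U) (t : ℝ) : t < cel U t * U + U := by
  have := (div_lt_iff₀ hU).mp (Int.lt_floor_add_one (t / U))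
  unfold cel; linarith

lemma mem_inC {W : Finset ℝ} {U : ℝ} {k : ℤ} {t : ℝ} : t ∈ inC W U k ↔ t ∈ W ∧ cel U t = k :=
  Finset.mem_filter

lemma inC_bounds {W : Finset ℝ} {U : ℝ} (hU : 0 < U) {k : ℤ} {t : ℝ} (h : t ∈ inC W U k) :
    k * U ≤ t ∧ t < k * U + U := by
  obtain ⟨-, rfl⟩ := mem_inC.mp h
  exact ⟨cel_le hU t, lt_cel hU t⟩

lemma sum_occ {M : Type*} [AddCommMonoid M] (W : Finset ℝ) (U : ℝ) (f : ℝ → M) :
    ∑ k ∈ occ W U, ∑ t ∈ inC W U k, f t = ∑ t ∈ W, f t :=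
  Finset.sum_fiberwise_of_maps_to (fun _ ht => Finset.mem_image_of_mem _ ht) f

/-- at every scale `Δ ^ j`, `j ≤ L`, all occupied cells hold between `n j` and `2 n j` points -/
structure Unif (W : Finset ℝ) (Δ L : ℕ) (n : ℕ → ℝ) : Prop where
  pos : ∀ j ≤ L, 1 ≤ n j
  lo : ∀ j ≤ L, ∀ k ∈ occ W ((Δ : ℝ) ^ j), n j ≤ #(inC W ((Δ : ℝ) ^ j) k)
  hi : ∀ j ≤ L, ∀ k : ℤ, (#(inC W ((Δ : ℝ) ^ j) k) : ℝ) ≤ 2 * n j

/-- the oscillatory integral that comes from the Fejér majorant -/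
noncomputable def kern (Λ u p q : ℝ) : ℂ := ∫ y in p..q, ei (u * y - Λ * Real.exp y)

/-- the sum with the pure phase `u log u` over cells of length `U` -/
noncomputable def PS (W : Finset ℝ) (β : ℝ → ℂ) (Λ U : ℝ) : ℝ :=
  ∑ k ∈ occ W U, ∑ x ∈ W.filter (fun x => Λ ≤ k * U - x ∧ k * U - x ≤ 3 * Λ),
    ‖∑ y ∈ inC W U k, β y * ei ((y - x) * Real.log (y - x))‖

/-- number of approximate solutions of `μ (x₁ - x₂) + ν (x₃ - x₄) = 0` -/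
noncomputable def Col (X : Finset ℤ) (μ ν : ℝ) : ℕ :=
  #{z ∈ (X ×ˢ X) ×ˢ (X ×ˢ X) | |μ * ((z.1.1 : ℝ) - z.1.2) + ν * ((z.2.1 : ℝ) - z.2.2)| ≤ 1}

/-- everything that is known about a counterexample after the analytic reductions -/
structure World (Δ s : ℕ) (W : Finset ℝ) (n : ℕ → ℝ) (Λ : ℝ) : Prop where
  big : 10 ^ 9 ≤ Δ
  unif : Unif W Δ (20 * s) n
  sep : Sep W
  ne : W.Nonempty
  rng : ∀ t ∈ W, 0 ≤ t ∧ t ≤ (Δ : ℝ) ^ (20 * s + 2)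
  card : (#W : ℝ) ≤ (Δ : ℝ) ^ (10 * s + 1)
  lamlo : (Δ : ℝ) ^ (20 * s) ≤ Λ
  lamhi : Λ ≤ (Δ : ℝ) ^ (20 * s + 3)
  fro : ∀ j, 16 * s ≤ j → j ≤ 20 * s →
    n j ^ 2 * (Δ : ℝ) ^ (20 * s) ≤ (#W : ℝ) ^ 2 * (Δ : ℝ) ^ (j + 2)
  ps : ∀ j ≤ 12 * s, ∃ β : ℝ → ℂ, (∀ t ∈ W, ‖β t‖ ≤ 1) ∧
    (Δ : ℝ) ^ (10 * s) * #W ≤ (Δ : ℝ) ^ 2 * PS W β Λ ((Δ : ℝ) ^ j)

end Pool.Agent.MP_71ac24_nt.H14

/-! Uniform subsets and counting in cells. -/

set_option autoImplicit false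

namespace Pool.Agent.MP_71ac24_nt.H14

open Finset

/-- HINT. `⌊t / Δ ^ j'⌋ = ⌊t / Δ ^ j⌋ / Δ ^ (j' - j)` (`Int.floor_div_natCast` or similar). -/
theorem cel_eq_of_le {Δ j j' : ℕ} (hΔ : 1 ≤ Δ) (h : j ≤ j') {t u : ℝ}
    (e : cel ((Δ : ℝ) ^ j) t = cel ((Δ : ℝ) ^ j) u) :
    cel ((Δ : ℝ) ^ j') t = cel ((Δ : ℝ) ^ j') u := by
  have key : ∀ x : ℝ, cel ((Δ : ℝ) ^ j') x = cel ((Δ : ℝ) ^ j) x / ((Δ ^ (j' - j) : ℕ) : ℤ) := by
    intro x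
    unfold cel
    rw [← Int.floor_div_natCast, div_div]
    congr 2
    push_cast
    rw [← pow_add, Nat.add_sub_cancel' h]
  rw [key, key, e]

lemma unif_step (W : Finset ℝ) (hne : W.Nonempty) (U : ℝ) (M : ℕ) (hM : #W ≤ M) :
    ∃ (W' : Finset ℝ) (i : ℕ), W' ⊆ W ∧ W'.Nonempty ∧ #W ≤ (Nat.log 2 M + 1) * #W' ∧
      (∀ t ∈ W', ∀ u ∈ W, cel U u = cel U t → u ∈ W') ∧
      ∀ t ∈ W', 2 ^ i ≤ #(inC W U (cel U t)) ∧ #(inC W U (cel U t)) ≤ 2 * 2 ^ i := by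
  classical
  let f : ℝ → ℕ := fun t => Nat.log 2 #(inC W U (cel U t))
  have hf : ∀ t ∈ W, f t ∈ Finset.range (Nat.log 2 M + 1) := fun t _ =>
    Finset.mem_range.mpr (Nat.lt_succ_of_le
      (Nat.log_mono_right ((Finset.card_filter_le _ _).trans hM)))
  obtain ⟨i, -, hi⟩ := Finset.exists_max_image (Finset.range (Nat.log 2 M + 1))
    (fun i => #{t ∈ W | f t = i}) ⟨0, by simp⟩
  have hc : #W ≤ (Nat.log 2 M + 1) * #{t ∈ W | f t = i} := by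
    rw [Finset.card_eq_sum_card_fiberwise hf]
    refine (Finset.sum_le_sum hi).trans ?_
    rw [Finset.sum_const, Finset.card_range, smul_eq_mul]
  refine ⟨{t ∈ W | f t = i}, i, Finset.filter_subset _ _, ?_, hc, ?_, ?_⟩
  · rw [← Finset.card_pos] at hne ⊢
    by_contra h0
    rw [Nat.eq_zero_of_not_pos h0, mul_zero] at hc
    omega
  · intro t ht u hu e
    refine Finset.mem_filter.mpr ⟨hu, ?_⟩
    rw [← (Finset.mem_filter.mp ht).2]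
    simp only [f, e]
  · intro t ht
    obtain ⟨htW, e⟩ := Finset.mem_filter.mp ht
    have hp : #(inC W U (cel U t)) ≠ 0 := (Finset.card_pos.mpr ⟨t, mem_inC.mpr ⟨htW, rfl⟩⟩).ne'
    have a1 := Nat.pow_log_le_self 2 hp
    have a2 := Nat.lt_pow_succ_log_self (by norm_num : 1 < 2) #(inC W U (cel U t))
    rw [← e]
    refine ⟨a1, ?_⟩
    rw [Nat.succ_eq_add_one, pow_succ] at a2
    simp only [f]
    omega

lemma unif_aux (W : Finset ℝ) (hne : W.Nonempty) (Δ : ℕ) (hΔ : 1 ≤ Δ) (m : ℕ) :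
    ∃ (W' : Finset ℝ) (n : ℕ → ℝ), W' ⊆ W ∧ W'.Nonempty ∧
      (∀ j < m, 1 ≤ n j ∧ (∀ k ∈ occ W' ((Δ : ℝ) ^ j), n j ≤ #(inC W' ((Δ : ℝ) ^ j) k)) ∧
        ∀ k : ℤ, (#(inC W' ((Δ : ℝ) ^ j) k) : ℝ) ≤ 2 * n j) ∧
      #W ≤ (Nat.log 2 #W + 1) ^ m * #W' := by
  induction m with
  | zero => exact ⟨W, fun _ => 1, subset_rfl, hne, fun j hj => absurd hj (Nat.not_lt_zero j), by simp⟩
  | succ m ih =>
    obtain ⟨W1, n, s1, ne1, u1, c1⟩ := ih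
    obtain ⟨W2, i, s2, ne2, c2, cl, bd⟩ :=
      unif_step W1 ne1 ((Δ : ℝ) ^ m) #W (Finset.card_le_card s1)
    have hsub : ∀ (U : ℝ) (k : ℤ), inC W2 U k ⊆ inC W1 U k := fun U k =>
      Finset.filter_subset_filter _ s2
    have heq : ∀ j ≤ m, ∀ t ∈ W2, inC W2 ((Δ : ℝ) ^ j) (cel ((Δ : ℝ) ^ j) t) =
        inC W1 ((Δ : ℝ) ^ j) (cel ((Δ : ℝ) ^ j) t) := by
      intro j hj t ht
      refine Finset.Subset.antisymm (hsub _ _) fun u hu => ?_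
      obtain ⟨a1, a2⟩ := mem_inC.mp hu
      exact mem_inC.mpr ⟨cl t ht u a1 (cel_eq_of_le hΔ hj a2), a2⟩
    refine ⟨W2, Function.update n m (2 ^ i), s2.trans s1, ne2, fun j hj => ?_, ?_⟩
    · rcases Nat.lt_succ_iff_lt_or_eq.mp hj with hj' | rfl
      · rw [Function.update_of_ne hj'.ne]
        obtain ⟨b1, b2, b3⟩ := u1 j hj'
        refine ⟨b1, fun k hk => ?_, fun k => le_trans ?_ (b3 k)⟩
        · obtain ⟨t, ht, rfl⟩ := Finset.mem_image.mp hk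
          rw [heq j hj'.le t ht]
          exact b2 _ (Finset.mem_image_of_mem _ (s2 ht))
        · exact_mod_cast Finset.card_le_card (hsub _ k)
      · rw [Function.update_self]
        refine ⟨one_le_pow₀ one_le_two, fun k hk => ?_, fun k => ?_⟩
        · obtain ⟨t, ht, rfl⟩ := Finset.mem_image.mp hk
          rw [heq j le_rfl t ht]
          exact_mod_cast (bd t ht).1
        · rcases (inC W2 ((Δ : ℝ) ^ j) k).eq_empty_or_nonempty with e | ⟨t, ht⟩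
          · rw [e, Finset.card_empty, Nat.cast_zero]
            positivity
          · obtain ⟨ht', e⟩ := mem_inC.mp ht
            rw [← e, heq j le_rfl t ht']
            exact_mod_cast (bd t ht').2
    · calc #W ≤ (Nat.log 2 #W + 1) ^ m * #W1 := c1
        _ ≤ (Nat.log 2 #W + 1) ^ m * ((Nat.log 2 #W + 1) * #W2) := Nat.mul_le_mul_left _ c2
        _ = _ := by ring

/-- HINT. Induction on `L`. One step at scale `j`: sort the points `t` of the current set `W1` by `Nat.log 2 #(inC W1 (Δ ^ j) (cel (Δ ^ j) t)) ≤ Nat.log 2 #W`, keep the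
largest class `i` (`Finset.exists_le_card_fiber_of_mul_le_card_of_maps_to` or a sum over fibres), `n j = 2 ^ i`. Whole cells of scale `j` are kept or dropped, so
by `cel_eq_of_le` every cell of a scale `≤ j` is unchanged or emptied. -/
theorem exists_unif (W : Finset ℝ) (hne : W.Nonempty) (Δ : ℕ) (hΔ : 1 ≤ Δ) (L : ℕ) :
    ∃ (W' : Finset ℝ) (n : ℕ → ℝ), W' ⊆ W ∧ W'.Nonempty ∧ Unif W' Δ L n ∧
      #W ≤ (Nat.log 2 #W + 1) ^ (L + 1) * #W' := by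
  obtain ⟨W', n, h1, h2, h3, h4⟩ := unif_aux W hne Δ hΔ (L + 1)
  exact ⟨W', n, h1, h2, ⟨fun j hj => (h3 j (Nat.lt_succ_of_le hj)).1,
    fun j hj => (h3 j (Nat.lt_succ_of_le hj)).2.1, fun j hj => (h3 j (Nat.lt_succ_of_le hj)).2.2⟩, h4⟩

variable {W : Finset ℝ} {Δ L : ℕ} {n : ℕ → ℝ}

lemma unif_cells (h : Unif W Δ L n) {j : ℕ} (hj : j ≤ L) (S : Finset ℤ)
    (hS : S ⊆ occ W ((Δ : ℝ) ^ j)) :
    #S * n j ≤ #{t ∈ W | cel ((Δ : ℝ) ^ j) t ∈ S} := by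
  have h1 : #{t ∈ W | cel ((Δ : ℝ) ^ j) t ∈ S} = ∑ k ∈ S, #(inC W ((Δ : ℝ) ^ j) k) :=
    (Finset.sum_card_fiberwise_eq_card_filter W S _).symm
  have h2 : ∑ _k ∈ S, n j ≤ ∑ k ∈ S, (#(inC W ((Δ : ℝ) ^ j) k) : ℝ) :=
    Finset.sum_le_sum fun k hk => h.lo j hj k (hS hk)
  rw [Finset.sum_const, nsmul_eq_mul] at h2
  rw [h1]
  push_cast
  exact h2

/-- HINT. The interval meets at most `k + 1` cells. -/
theorem Unif.count (h : Unif W Δ L n) (hΔ : 1 ≤ Δ) {j : ℕ} (hj : j ≤ L) (z : ℝ) (k : ℕ) :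
    (#{t ∈ W | z ≤ t ∧ t ≤ z + k * (Δ : ℝ) ^ j} : ℝ) ≤ 2 * (k + 1) * n j := by
  have hU : (0 : ℝ) < (Δ : ℝ) ^ j := pow_pos (by exact_mod_cast hΔ) _
  set U : ℝ := (Δ : ℝ) ^ j with hUdef
  have hsub : {t ∈ W | z ≤ t ∧ t ≤ z + k * U} ⊆
      (Finset.Icc (cel U z) (cel U z + k)).biUnion (fun c => inC W U c) := by
    intro t ht
    obtain ⟨htW, h1, h2⟩ := Finset.mem_filter.mp ht
    refine Finset.mem_biUnion.mpr ⟨cel U t, Finset.mem_Icc.mpr ⟨?_, ?_⟩, mem_inC.mpr ⟨htW, rfl⟩⟩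
    · exact Int.floor_le_floor (div_le_div_of_nonneg_right h1 hU.le)
    · unfold cel
      rw [← Int.floor_add_natCast]
      refine Int.floor_le_floor ?_
      rw [div_add' _ _ _ hU.ne']
      exact div_le_div_of_nonneg_right h2 hU.le
  have h1 := (Finset.card_le_card hsub).trans Finset.card_biUnion_le
  have h2 : (∑ c ∈ Finset.Icc (cel U z) (cel U z + k), (#(inC W U c) : ℝ)) ≤
      ∑ _c ∈ Finset.Icc (cel U z) (cel U z + k), 2 * n j :=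
    Finset.sum_le_sum fun c _ => h.hi j hj c
  rw [Finset.sum_const, Int.card_Icc, nsmul_eq_mul] at h2
  have h3 : (cel U z + k + 1 - cel U z).toNat = k + 1 := by omega
  rw [h3] at h2
  have h4 : (#{t ∈ W | z ≤ t ∧ t ≤ z + k * U} : ℝ) ≤
      ∑ c ∈ Finset.Icc (cel U z) (cel U z + k), (#(inC W U c) : ℝ) := by exact_mod_cast h1
  push_cast at h2
  linarith

theorem Unif.occ_le (h : Unif W Δ L n) {j : ℕ} (hj : j ≤ L) :
    #(occ W ((Δ : ℝ) ^ j)) * n j ≤ #W := by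
  refine (unif_cells h hj _ subset_rfl).trans ?_
  exact_mod_cast Finset.card_filter_le _ _

theorem Unif.le_occ (h : Unif W Δ L n) {j : ℕ} (hj : j ≤ L) :
    (#W : ℝ) ≤ 2 * n j * #(occ W ((Δ : ℝ) ^ j)) := by
  have h1 := sum_occ W ((Δ : ℝ) ^ j) (fun _ => (1 : ℝ))
  simp only [Finset.sum_const, nsmul_eq_mul, mul_one] at h1
  have h2 : (∑ c ∈ occ W ((Δ : ℝ) ^ j), (#(inC W ((Δ : ℝ) ^ j) c) : ℝ)) ≤
      ∑ _c ∈ occ W ((Δ : ℝ) ^ j), 2 * n j :=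
    Finset.sum_le_sum fun c _ => h.hi j hj c
  rw [Finset.sum_const, nsmul_eq_mul] at h2
  linarith

/-- HINT. The points of these cells lie in `[z, z + 2 Δ ^ i]`; use `lo` and `count`. -/
theorem Unif.cells_le (h : Unif W Δ L n) (hΔ : 1 ≤ Δ) {j i : ℕ} (hji : j ≤ i) (hi : i ≤ L) (z : ℝ)
    (S : Finset ℤ) (hS : S ⊆ occ W ((Δ : ℝ) ^ j))
    (hz : ∀ k ∈ S, z ≤ k * (Δ : ℝ) ^ j ∧ k * (Δ : ℝ) ^ j ≤ z + (Δ : ℝ) ^ i) :
    #S * n j ≤ 6 * n i := by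
  have h1 : (1 : ℝ) ≤ Δ := by exact_mod_cast hΔ
  have hU : (0 : ℝ) < (Δ : ℝ) ^ j := pow_pos (by linarith) _
  have hle : (Δ : ℝ) ^ j ≤ (Δ : ℝ) ^ i := pow_le_pow_right₀ h1 hji
  have h2 := h.count hΔ hi z 2
  have hsub : {t ∈ W | cel ((Δ : ℝ) ^ j) t ∈ S} ⊆
      {t ∈ W | z ≤ t ∧ t ≤ z + ((2 : ℕ) : ℝ) * (Δ : ℝ) ^ i} := by
    intro t ht
    obtain ⟨htW, htS⟩ := Finset.mem_filter.mp ht
    obtain ⟨a1, a2⟩ := hz _ htS
    have b1 := cel_le hU t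
    have b2 := lt_cel hU t
    refine Finset.mem_filter.mpr ⟨htW, by linarith, ?_⟩
    push_cast
    linarith
  have h3 : (#{t ∈ W | cel ((Δ : ℝ) ^ j) t ∈ S} : ℝ) ≤
      #{t ∈ W | z ≤ t ∧ t ≤ z + ((2 : ℕ) : ℝ) * (Δ : ℝ) ^ i} := by
    exact_mod_cast Finset.card_le_card hsub
  have h4 := unif_cells h (hji.trans hi) S hS
  push_cast at h2 h3
  linarith

/-- HINT. The cells of scale `j` that meet the given cell of scale `i` lie inside it. -/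
theorem Unif.image_le (h : Unif W Δ L n) (hΔ : 1 ≤ Δ) {j i : ℕ} (hji : j ≤ i) (hi : i ≤ L) (k : ℤ) :
    #((inC W ((Δ : ℝ) ^ i) k).image (cel ((Δ : ℝ) ^ j))) * n j ≤ 2 * n i := by
  have hS : (inC W ((Δ : ℝ) ^ i) k).image (cel ((Δ : ℝ) ^ j)) ⊆ occ W ((Δ : ℝ) ^ j) :=
    Finset.image_subset_image (Finset.filter_subset _ _)
  have hsub : {t ∈ W | cel ((Δ : ℝ) ^ j) t ∈ (inC W ((Δ : ℝ) ^ i) k).image (cel ((Δ : ℝ) ^ j))} ⊆
      inC W ((Δ : ℝ) ^ i) k := by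
    intro t ht
    obtain ⟨htW, htS⟩ := Finset.mem_filter.mp ht
    obtain ⟨u, hu, e⟩ := Finset.mem_image.mp htS
    exact mem_inC.mpr ⟨htW, (cel_eq_of_le hΔ hji e).symm.trans (mem_inC.mp hu).2⟩
  have h3 : (#{t ∈ W | cel ((Δ : ℝ) ^ j) t ∈ (inC W ((Δ : ℝ) ^ i) k).image (cel ((Δ : ℝ) ^ j))} : ℝ) ≤
      #(inC W ((Δ : ℝ) ^ i) k) := by
    exact_mod_cast Finset.card_le_card hsub
  exact ((unif_cells h (hji.trans hi) _ hS).trans h3).trans (h.hi i hi k)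

theorem Unif.mono (h : Unif W Δ L n) (hΔ : 1 ≤ Δ) (hne : W.Nonempty) {j i : ℕ} (hji : j ≤ i)
    (hi : i ≤ L) : n j ≤ 2 * n i := by
  obtain ⟨t, ht⟩ := hne
  have h1 := h.image_le hΔ hji hi (cel ((Δ : ℝ) ^ i) t)
  have h2 : 1 ≤ #((inC W ((Δ : ℝ) ^ i) (cel ((Δ : ℝ) ^ i) t)).image (cel ((Δ : ℝ) ^ j))) :=
    Finset.card_pos.mpr (Finset.Nonempty.image ⟨t, mem_inC.mpr ⟨ht, rfl⟩⟩ _)
  have h3 : (1 : ℝ) ≤ #((inC W ((Δ : ℝ) ^ i) (cel ((Δ : ℝ) ^ i) t)).image (cel ((Δ : ℝ) ^ j))) := by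
    exact_mod_cast h2
  have h4 : 0 ≤ n j := zero_le_one.trans (h.pos j (hji.trans hi))
  exact (le_mul_of_one_le_left h4 h3).trans h1

/-- HINT. A cell of scale `i` lies in `[z, z + Δ ^ (i - j) Δ ^ j]`; use `count`. -/
theorem Unif.lip (h : Unif W Δ L n) (hΔ : 1 ≤ Δ) (hne : W.Nonempty) {j i : ℕ} (hji : j ≤ i)
    (hi : i ≤ L) : n i ≤ 4 * (Δ : ℝ) ^ (i - j) * n j := by
  obtain ⟨t, ht⟩ := hne
  have h0 : (1 : ℝ) ≤ Δ := by exact_mod_cast hΔ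
  have hU : (0 : ℝ) < (Δ : ℝ) ^ i := pow_pos (by linarith) _
  have h1 := h.lo i hi (cel ((Δ : ℝ) ^ i) t) (Finset.mem_image_of_mem _ ht)
  have h2 := h.count hΔ (hji.trans hi) (cel ((Δ : ℝ) ^ i) t * (Δ : ℝ) ^ i) (Δ ^ (i - j))
  have e : (((Δ ^ (i - j) : ℕ)) : ℝ) * (Δ : ℝ) ^ j = (Δ : ℝ) ^ i := by
    push_cast
    rw [← pow_add, Nat.sub_add_cancel hji]
  rw [e] at h2
  have hsub : inC W ((Δ : ℝ) ^ i) (cel ((Δ : ℝ) ^ i) t) ⊆
      {u ∈ W | cel ((Δ : ℝ) ^ i) t * (Δ : ℝ) ^ i ≤ u ∧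
        u ≤ cel ((Δ : ℝ) ^ i) t * (Δ : ℝ) ^ i + (Δ : ℝ) ^ i} := by
    intro u hu
    obtain ⟨a1, a2⟩ := inC_bounds hU hu
    exact Finset.mem_filter.mpr ⟨(mem_inC.mp hu).1, a1, a2.le⟩
  have h3 : (#(inC W ((Δ : ℝ) ^ i) (cel ((Δ : ℝ) ^ i) t)) : ℝ) ≤
      #{u ∈ W | cel ((Δ : ℝ) ^ i) t * (Δ : ℝ) ^ i ≤ u ∧
        u ≤ cel ((Δ : ℝ) ^ i) t * (Δ : ℝ) ^ i + (Δ : ℝ) ^ i} := by
    exact_mod_cast Finset.card_le_card hsub
  have h4 : 0 ≤ n j := zero_le_one.trans (h.pos j (hji.trans hi))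
  have h5 : (1 : ℝ) ≤ (Δ : ℝ) ^ (i - j) := one_le_pow₀ h0
  have h6 : n j ≤ (Δ : ℝ) ^ (i - j) * n j := le_mul_of_one_le_left h4 h5
  push_cast at h2
  linarith

theorem Unif.zero_le (h : Unif W Δ L n) (hW : Sep W) (hne : W.Nonempty) : n 0 ≤ 1 := by
  obtain ⟨t, ht⟩ := hne
  have h1 := h.lo 0 (Nat.zero_le _) (cel ((Δ : ℝ) ^ 0) t) (Finset.mem_image_of_mem _ ht)
  have h2 : #(inC W ((Δ : ℝ) ^ 0) (cel ((Δ : ℝ) ^ 0) t)) ≤ 1 := by
    refine Finset.card_le_one.mpr fun a ha b hb => ?_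
    by_contra hab
    have h3 := hW a (mem_inC.mp ha).1 b (mem_inC.mp hb).1 hab
    have hU : (0 : ℝ) < (Δ : ℝ) ^ 0 := by rw [pow_zero]; exact one_pos
    obtain ⟨a1, a2⟩ := inC_bounds hU ha
    obtain ⟨b1, b2⟩ := inC_bounds hU hb
    have h4 : |a - b| < 1 := by
      have e : (Δ : ℝ) ^ 0 = 1 := pow_zero _
      rw [abs_lt]
      constructor <;> linarith
    linarith
  exact h1.trans (by exact_mod_cast h2)

end Pool.Agent.MP_71ac24_nt.H14
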