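import Pool.Agent.MP_71ac24_nt.H14.Defs

/-! The Balog-Szemerédi-Gowers theorem for two sets of integers. -/

set_option autoImplicit false

namespace Pool.Agent.MP_71ac24_nt.H14

open Finset Pointwise
open scoped Combinatorics.Additive

theorem bsg_dc {α β : Type*} (S : Finset α) (T : Finset β) (G : α → β → Prop)
    [∀ a b, Decidable (G a b)] :
    ∑ a ∈ S, (#{b ∈ T | G a b} : ℝ) = ∑ b ∈ T, (#{a ∈ S | G a b} : ℝ) := by
  simp only [card_filter]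
  push_cast
  exact sum_comm

theorem bsg_card_prod {α β : Type*} (S : Finset α) (T : Finset β) (G : α → β → Prop)
    [∀ a b, Decidable (G a b)] :
    (#{p ∈ S ×ˢ T | G p.1 p.2} : ℝ) = ∑ a ∈ S, (#{b ∈ T | G a b} : ℝ) := by
  simp only [card_filter]
  push_cast
  exact sum_product _ _ _

theorem bsg_sum_le {ι : Type*} (S : Finset ι) (f : ι → ℝ) (t : ℝ) (h : ∀ x ∈ S, f x ≤ t) :
    ∑ x ∈ S, f x ≤ #S * t := by
  simpa using sum_le_card_nsmul S f t h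

theorem bsg_le_sum {ι : Type*} (S : Finset ι) (f : ι → ℝ) (t : ℝ) (h : ∀ x ∈ S, t ≤ f x) :
    #S * t ≤ ∑ x ∈ S, f x := by
  simpa using card_nsmul_le_sum S f t h

theorem bsg_card_filter_le {ι : Type*} (S : Finset ι) (p : ι → Prop) [DecidablePred p] :
    (#{x ∈ S | p x} : ℝ) ≤ #S := by
  exact_mod_cast card_filter_le S p

/-- removing the small terms -/
theorem bsg_large {ι : Type*} (S : Finset ι) (f : ι → ℝ) {n t : ℝ} (ht : 0 ≤ t)
    (hS : (#S : ℝ) ≤ n) : ∑ x ∈ S, f x ≤ ∑ x ∈ S with t ≤ f x, f x + n * t := by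
  rw [← sum_filter_add_sum_filter_not S (fun x => t ≤ f x)]
  refine add_le_add le_rfl ((bsg_sum_le _ f t fun x hx => (not_le.1 (mem_filter.1 hx).2).le).trans ?_)
  exact mul_le_mul_of_nonneg_right ((bsg_card_filter_le _ _).trans hS) ht

/-- a neighbourhood with few bad pairs -/
theorem bsg_nbhd {α β : Type*} (A : Finset α) (B : Finset β) (G : α → β → Prop)
    [∀ a b, Decidable (G a b)] {n δ : ℝ} (hn : 0 < n) (hδ : 0 < δ) (hA : (#A : ℝ) ≤ n)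
    (hB : (#B : ℝ) ≤ n) (hG : δ * n ^ 2 ≤ ∑ a ∈ A, (#{b ∈ B | G a b} : ℝ)) :
    ∃ N ⊆ A, (∀ a ∈ N, δ * n / 2 ≤ #{b ∈ B | G a b}) ∧ δ * n / 3 ≤ #N ∧
      ∑ a ∈ N, (#{a' ∈ N | (#{b ∈ B | G a b ∧ G a' b} : ℝ) < δ ^ 3 / 128 * n} : ℝ) ≤
        δ / 16 * #N ^ 2 := by
  set A1 := {a ∈ A | δ * n / 2 ≤ (#{b ∈ B | G a b} : ℝ)} with hA1
  have h1 : δ * n ^ 2 / 2 ≤ ∑ b ∈ B, (#{a ∈ A1 | G a b} : ℝ) := by
    have := bsg_large A (fun a => (#{b ∈ B | G a b} : ℝ)) (t := δ * n / 2) (by positivity) hA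
    rw [← bsg_dc A1 B G]
    have e : n * (δ * n / 2) = δ * n ^ 2 / 2 := by ring
    linarith only [e, this, hG]
  have hBne : B.Nonempty := by
    rcases B.eq_empty_or_nonempty with rfl | h
    · have : 0 < δ * n ^ 2 / 2 := by positivity
      rw [sum_empty] at h1
      exact absurd h1 (not_le.2 this)
    · exact h
  have h2 : δ ^ 2 * n ^ 3 / 4 ≤ ∑ b ∈ B, (#{a ∈ A1 | G a b} : ℝ) ^ 2 := by
    have k1 := sq_sum_le_card_mul_sum_sq (s := B) (f := fun b => (#{a ∈ A1 | G a b} : ℝ))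
    have k2 : (δ * n ^ 2 / 2) ^ 2 ≤ (∑ b ∈ B, (#{a ∈ A1 | G a b} : ℝ)) ^ 2 :=
      pow_le_pow_left₀ (by positivity) h1 2
    have k3 : (#B : ℝ) * ∑ b ∈ B, (#{a ∈ A1 | G a b} : ℝ) ^ 2 ≤
        n * ∑ b ∈ B, (#{a ∈ A1 | G a b} : ℝ) ^ 2 :=
      mul_le_mul_of_nonneg_right hB (sum_nonneg fun _ _ => sq_nonneg _)
    have k4 : n * (δ ^ 2 * n ^ 3 / 4) = (δ * n ^ 2 / 2) ^ 2 := by ring
    exact le_of_mul_le_mul_left (k4.le.trans (k2.trans (k1.trans k3))) hn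
  set X := {p ∈ A ×ˢ A | (#{b ∈ B | G p.1 b ∧ G p.2 b} : ℝ) < δ ^ 3 / 128 * n} with hX
  have h3 : ∑ b ∈ B, (#{p ∈ X | G p.1 b ∧ G p.2 b} : ℝ) ≤ n ^ 2 * (δ ^ 3 / 128 * n) := by
    rw [← bsg_dc X B (fun p b => G p.1 b ∧ G p.2 b)]
    refine (bsg_sum_le X _ _ fun p hp => (mem_filter.1 hp).2.le).trans ?_
    refine mul_le_mul_of_nonneg_right ((bsg_card_filter_le _ _).trans ?_) (by positivity)
    rw [card_product, Nat.cast_mul, sq]
    exact mul_le_mul hA hA (by positivity) hn.le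
  have h4 : ∑ _b ∈ B, δ ^ 3 * n ^ 2 / 128 ≤
      ∑ b ∈ B, (δ / 16 * (#{a ∈ A1 | G a b} : ℝ) ^ 2 - #{p ∈ X | G p.1 b ∧ G p.2 b}) := by
    rw [sum_sub_distrib, ← mul_sum, sum_const, nsmul_eq_mul]
    have k1 : (#B : ℝ) * (δ ^ 3 * n ^ 2 / 128) ≤ n * (δ ^ 3 * n ^ 2 / 128) :=
      mul_le_mul_of_nonneg_right hB (by positivity)
    have k2 := mul_le_mul_of_nonneg_left h2 (show 0 ≤ δ / 16 by positivity)
    have k3 : δ / 16 * (δ ^ 2 * n ^ 3 / 4) - n ^ 2 * (δ ^ 3 / 128 * n) =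
        n * (δ ^ 3 * n ^ 2 / 128) := by ring
    exact k1.trans (k3.ge.trans (sub_le_sub k2 h3))
  obtain ⟨b0, -, hb0⟩ := exists_le_of_sum_le hBne h4
  refine ⟨{a ∈ A1 | G a b0}, (filter_subset _ _).trans (filter_subset _ _),
    fun a ha => (mem_filter.1 (mem_filter.1 ha).1).2, ?_, ?_⟩
  · have k1 : (0 : ℝ) ≤ #{p ∈ X | G p.1 b0 ∧ G p.2 b0} := by positivity
    have k2 : δ / 16 * (δ * n / 3) ^ 2 ≤ δ / 16 * (#{a ∈ A1 | G a b0} : ℝ) ^ 2 := by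
      have j1 : δ / 16 * (δ * n / 3) ^ 2 = δ ^ 3 * n ^ 2 / 144 := by ring
      have j2 : δ ^ 3 * n ^ 2 / 144 ≤ δ ^ 3 * n ^ 2 / 128 :=
        div_le_div_of_nonneg_left (by positivity) (by norm_num) (by norm_num)
      exact j1.le.trans (j2.trans (hb0.trans (sub_le_self _ k1)))
    exact (pow_le_pow_iff_left₀ (by positivity) (by positivity) two_ne_zero).1
      (le_of_mul_le_mul_left k2 (by positivity))
  · rw [← bsg_card_prod {a ∈ A1 | G a b0} {a ∈ A1 | G a b0}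
      (fun a a' => (#{b ∈ B | G a b ∧ G a' b} : ℝ) < δ ^ 3 / 128 * n)]
    have k1 : (#{p ∈ {a ∈ A1 | G a b0} ×ˢ {a ∈ A1 | G a b0} |
        (#{b ∈ B | G p.1 b ∧ G p.2 b} : ℝ) < δ ^ 3 / 128 * n} : ℝ) ≤
        #{p ∈ X | G p.1 b0 ∧ G p.2 b0} := by
      refine Nat.cast_le.2 (card_le_card fun p hp => ?_)
      obtain ⟨hp1, hp2⟩ := mem_filter.1 hp
      obtain ⟨hp3, hp4⟩ := mem_product.1 hp1
      obtain ⟨hp5, hp6⟩ := mem_filter.1 hp3
      obtain ⟨hp7, hp8⟩ := mem_filter.1 hp4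
      exact mem_filter.2 ⟨mem_filter.2 ⟨mem_product.2
        ⟨(mem_filter.1 hp5).1, (mem_filter.1 hp7).1⟩, hp2⟩, hp6, hp8⟩
    have k2 : 0 ≤ δ ^ 3 * n ^ 2 / 128 := by positivity
    exact k1.trans (sub_nonneg.1 (k2.trans hb0))

/-- many paths of length three -/
theorem bsg_paths {α β : Type*} (A : Finset α) (B : Finset β) (G : α → β → Prop)
    [∀ a b, Decidable (G a b)] {n δ : ℝ} (hn : 0 < n) (hδ : 0 < δ) (hA : (#A : ℝ) ≤ n)
    (hB : (#B : ℝ) ≤ n) (hG : δ * n ^ 2 ≤ ∑ a ∈ A, (#{b ∈ B | G a b} : ℝ)) :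
    ∃ A' ⊆ A, ∃ B' ⊆ B, δ * n / 6 ≤ #A' ∧ δ * n / 4 ≤ #B' ∧ ∀ a ∈ A', ∀ b ∈ B',
      δ ^ 5 * n ^ 2 / 3072 ≤ #{p ∈ A ×ˢ B | G a p.2 ∧ G p.1 p.2 ∧ G p.1 b} := by
  obtain ⟨N, hNA, hdeg, hN, hbad⟩ := bsg_nbhd A B G hn hδ hA hB hG
  have hN0 : (0 : ℝ) < #N := lt_of_lt_of_le (by positivity) hN
  refine ⟨{a ∈ N | (#{a' ∈ N | (#{b ∈ B | G a b ∧ G a' b} : ℝ) < δ ^ 3 / 128 * n} : ℝ) ≤
      δ / 8 * #N}, (filter_subset _ _).trans hNA,
    {b ∈ B | δ * #N / 4 ≤ (#{a ∈ N | G a b} : ℝ)}, filter_subset _ _, ?_, ?_, ?_⟩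
  · have k1 := card_filter_add_card_filter_not (s := N) (fun a =>
      (#{a' ∈ N | (#{b ∈ B | G a b ∧ G a' b} : ℝ) < δ ^ 3 / 128 * n} : ℝ) ≤ δ / 8 * #N)
    have k2 := bsg_le_sum {a ∈ N | ¬
      (#{a' ∈ N | (#{b ∈ B | G a b ∧ G a' b} : ℝ) < δ ^ 3 / 128 * n} : ℝ) ≤ δ / 8 * #N}
      (fun a => (#{a' ∈ N | (#{b ∈ B | G a b ∧ G a' b} : ℝ) < δ ^ 3 / 128 * n} : ℝ))
      (δ / 8 * #N) fun a ha => (not_le.1 (mem_filter.1 ha).2).le
    have k3 := (k2.trans (sum_le_sum_of_subset_of_nonneg (filter_subset _ _)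
      fun _ _ _ => by positivity)).trans hbad
    have k4 : δ / 16 * (#N : ℝ) ^ 2 = (#N / 2) * (δ / 8 * #N) := by ring
    rw [k4] at k3
    have k5 := le_of_mul_le_mul_right k3 (by positivity)
    have k6 := congrArg (Nat.cast : ℕ → ℝ) k1
    rw [Nat.cast_add] at k6
    linarith
  · have k1 := bsg_large B (fun b => (#{a ∈ N | G a b} : ℝ)) (t := δ * #N / 4) (by positivity) hB
    have k2 := bsg_le_sum N _ _ hdeg
    rw [bsg_dc N B G] at k2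
    have k3 := bsg_sum_le {b ∈ B | δ * #N / 4 ≤ (#{a ∈ N | G a b} : ℝ)}
      (fun b => (#{a ∈ N | G a b} : ℝ)) #N fun b _ => bsg_card_filter_le _ _
    have k4 : (#N : ℝ) * (δ * n / 2) - n * (δ * #N / 4) = δ * n / 4 * #N := by ring
    exact le_of_mul_le_mul_right (by linarith) hN0
  · intro a ha b hb
    have ha2 := (mem_filter.1 ha).2
    have hb2 := (mem_filter.1 hb).2
    set S := {a' ∈ N | G a' b ∧ δ ^ 3 / 128 * n ≤ (#{b ∈ B | G a b ∧ G a' b} : ℝ)} with hS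
    have k1 : (#{a ∈ N | G a b} : ℝ) ≤
        #S + #{a' ∈ N | (#{b ∈ B | G a b ∧ G a' b} : ℝ) < δ ^ 3 / 128 * n} := by
      classical
      rw [← Nat.cast_add]
      refine Nat.cast_le.2 ((card_le_card fun x hx => ?_).trans (card_union_le _ _))
      obtain ⟨hx1, hx2⟩ := mem_filter.1 hx
      rcases le_or_gt (δ ^ 3 / 128 * n) (#{b ∈ B | G a b ∧ G x b} : ℝ) with h | h
      · exact mem_union_left _ (mem_filter.2 ⟨hx1, hx2, h⟩)
      · exact mem_union_right _ (mem_filter.2 ⟨hx1, h⟩)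
    have k2 : δ * (δ * n / 3) / 8 ≤ #S := by
      have := mul_le_mul_of_nonneg_left hN hδ.le
      linarith
    rw [bsg_card_prod A B (fun a' b' => G a b' ∧ G a' b' ∧ G a' b)]
    have k3 := bsg_le_sum S (fun a' => (#{b' ∈ B | G a b' ∧ G a' b' ∧ G a' b} : ℝ))
      (δ ^ 3 / 128 * n) fun x hx => by
        obtain ⟨-, hx2, hx3⟩ := mem_filter.1 hx
        refine hx3.trans (Nat.cast_le.2 (card_le_card fun y hy => ?_))
        obtain ⟨hy1, hy2, hy3⟩ := mem_filter.1 hy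
        exact mem_filter.2 ⟨hy1, hy2, hy3, hx2⟩
    have k4 := mul_le_mul_of_nonneg_right k2 (show 0 ≤ δ ^ 3 / 128 * n by positivity)
    have k5 : δ * (δ * n / 3) / 8 * (δ ^ 3 / 128 * n) = δ ^ 5 * n ^ 2 / 3072 := by ring
    rw [← k5]
    exact (k4.trans k3).trans (sum_le_sum_of_subset_of_nonneg
      ((filter_subset _ _).trans hNA) fun _ _ _ => by positivity)

/-- popular sums -/
theorem bsg_popular (A B : Finset ℤ) {n δ : ℝ} (hn : 0 < n) (hδ : 0 < δ) (hA : (#A : ℝ) ≤ n)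
    (hB : (#B : ℝ) ≤ n) (hE : 2 * δ * n ^ 3 ≤ E[A, B]) :
    ∃ P : Finset ℤ, δ * #P ≤ n ∧ δ * n ^ 2 ≤ ∑ a ∈ A, (#{b ∈ B | a + b ∈ P} : ℝ) := by
  set r : ℤ → ℝ := fun c => (#{xy ∈ A ×ˢ B | xy.1 + xy.2 = c} : ℝ) with hr
  have hr0 : ∀ c, 0 ≤ r c := fun c => Nat.cast_nonneg _
  have hrn : ∀ c, r c ≤ n := fun c => by
    refine le_trans (Nat.cast_le.2 (card_le_card_of_injOn Prod.fst ?_ ?_)) hA
    · intro p hp
      exact (mem_product.1 (mem_filter.1 hp).1).1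
    · intro p hp q hq hpq
      have h1 := (mem_filter.1 hp).2
      have h2 := (mem_filter.1 hq).2
      refine Prod.ext hpq ?_
      have h3 : p.1 = q.1 := hpq
      linarith
  have hsum : ∀ P : Finset ℤ, ∑ c ∈ P, r c = #{xy ∈ A ×ˢ B | xy.1 + xy.2 ∈ P} := fun P => by
    rw [← sum_card_fiberwise_eq_card_filter, Nat.cast_sum]
  have hle : ∀ P : Finset ℤ, ∑ c ∈ P, r c ≤ n ^ 2 := fun P => by
    rw [hsum]
    refine (bsg_card_filter_le _ _).trans ?_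
    rw [card_product, Nat.cast_mul, sq]
    exact mul_le_mul hA hB (by positivity) hn.le
  have hEe : (E[A, B] : ℝ) = ∑ c ∈ A + B, r c ^ 2 := by
    rw [addEnergy_eq_sum_sq', Nat.cast_sum]
    simp only [hr, Nat.cast_pow]
  refine ⟨{c ∈ A + B | δ * n ≤ r c}, ?_, ?_⟩
  · have k1 := (bsg_le_sum {c ∈ A + B | δ * n ≤ r c} r (δ * n)
      fun c hc => (mem_filter.1 hc).2).trans (hle _)
    have k2 : (#{c ∈ A + B | δ * n ≤ r c} : ℝ) * (δ * n) =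
        δ * #{c ∈ A + B | δ * n ≤ r c} * n := by ring
    rw [k2, sq] at k1
    exact le_of_mul_le_mul_right k1 hn
  · rw [← bsg_card_prod A B (fun a b => a + b ∈ {c ∈ A + B | δ * n ≤ r c}), ← hsum]
    rw [hEe, ← sum_filter_add_sum_filter_not (A + B) (fun c => δ * n ≤ r c)] at hE
    have k1 : ∑ c ∈ A + B with δ * n ≤ r c, r c ^ 2 ≤ n * ∑ c ∈ A + B with δ * n ≤ r c, r c := by
      rw [mul_sum]
      refine sum_le_sum fun c _ => ?_
      rw [sq]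
      exact mul_le_mul_of_nonneg_right (hrn c) (hr0 c)
    have k2 : ∑ c ∈ A + B with ¬ δ * n ≤ r c, r c ^ 2 ≤ δ * n * n ^ 2 := by
      refine le_trans ?_ (mul_le_mul_of_nonneg_left (hle {c ∈ A + B | ¬ δ * n ≤ r c})
        (by positivity))
      rw [mul_sum]
      refine sum_le_sum fun c hc => ?_
      rw [sq]
      exact mul_le_mul_of_nonneg_right (not_le.1 (mem_filter.1 hc).2).le (hr0 c)
    have k3 : 2 * δ * n ^ 3 - δ * n * n ^ 2 = n * (δ * n ^ 2) := by ring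
    exact le_of_mul_le_mul_left (by linarith) hn

/-- HINT. `δ = 1 / (2 K)`, `r c = #{(a,b) | a + b = c} ≤ n`, `P = {c ∈ A + B | δ n ≤ r c}`, edges `G a b := a + b ∈ P`. From `E = ∑ r ^ 2` (`addEnergy_eq_sum_sq'`): `|G| ≥ δ n ^ 2`, `|P| ≤ n / δ`.
`A1` = vertices `a` of degree `≥ δ n / 2` (they carry `≥ δ n ^ 2 / 2` edges), `N b = {a ∈ A1 | G a b}`, `ε = δ / 16`, `τ = ε δ ^ 2 / 8`; a pair `(a,a')` is bad if it has
`< τ n` common neighbours. `∑ b, |N b| ^ 2 ≥ δ ^ 2 n ^ 3 / 4` and `∑ b, #(bad pairs in N b) ≤ τ n ^ 3`, so some `b0` has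
`|N| ^ 2 - card bad / ε ≥ δ ^ 2 n ^ 2 / 8` for `N = N b0`; hence `|N| ≥ δ n / 3`, `card bad ≤ ε |N| ^ 2`. `A' = {a ∈ N | at most 2 ε |N| bad partners in N}` has `|A'| ≥ |N| / 2`;
`B' = {b ∈ B | #{a ∈ N | G a b} ≥ δ |N| / 4}` has `|B'| ≥ δ n / 4`. For `a ∈ A'`, `b ∈ B'` there are `≥ (δ |N| / 8) (τ n) ≥ δ ^ 5 n ^ 2 / 3072` pairs `(a', b')` with `G a b'`, `G a' b'`, `G a' b`, and
`(a', b') ↦ (a + b', a' + b', a' + b)` is injective into the triples of `P` with `p1 - p2 + p3 = a + b`. `3072 * 256 ≤ 10 ^ 6`. -/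
theorem bsg (A B : Finset ℤ) (n K : ℝ) (hn : 0 < n) (hK : 1 ≤ K) (hA : (#A : ℝ) ≤ n)
    (hB : (#B : ℝ) ≤ n) (hE : n ^ 3 ≤ K * E[A, B]) :
    ∃ A' ⊆ A, ∃ B' ⊆ B, n ≤ 12 * K * #A' ∧ n ≤ 12 * K * #B' ∧
      (#(A' + B') : ℝ) ≤ 10 ^ 6 * K ^ 8 * n := by
  have hK0 : 0 < K := by linarith
  obtain ⟨δ, hδ, hδK⟩ : ∃ δ : ℝ, 0 < δ ∧ 2 * δ * K = 1 := ⟨1 / (2 * K), by positivity, by field_simp⟩
  have hE' : 2 * δ * n ^ 3 ≤ E[A, B] := by
    have k1 := mul_le_mul_of_nonneg_left hE (show 0 ≤ 2 * δ by positivity)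
    rwa [← mul_assoc, hδK, one_mul] at k1
  obtain ⟨P, hP, hG⟩ := bsg_popular A B hn hδ hA hB hE'
  obtain ⟨A', hA', B', hB', h1, h2, h3⟩ := bsg_paths A B (fun a b => a + b ∈ P) hn hδ hA hB hG
  have e1 : 12 * K * (δ * n / 6) = n := by linear_combination n * hδK
  refine ⟨A', hA', B', hB', ?_, ?_, ?_⟩
  · rw [← e1]
    exact mul_le_mul_of_nonneg_left h1 (by positivity)
  · rw [← e1]
    refine mul_le_mul_of_nonneg_left (le_trans ?_ h2) (by positivity)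
    have : 0 ≤ δ * n := by positivity
    linarith
  · have k1 : ∀ c ∈ A' + B', δ ^ 5 * n ^ 2 / 3072 ≤
        (#{t ∈ P ×ˢ P ×ˢ P | t.1 - t.2.1 + t.2.2 = c} : ℝ) := by
      intro c hc
      obtain ⟨a, ha, b, hb, rfl⟩ := mem_add.1 hc
      refine (h3 a ha b hb).trans (Nat.cast_le.2 (card_le_card_of_injOn
        (fun p => (a + p.2, p.1 + p.2, p.1 + b)) ?_ ?_))
      · intro p hp
        obtain ⟨-, hp1, hp2, hp3⟩ := mem_filter.1 hp
        exact mem_filter.2 ⟨mem_product.2 ⟨hp1, mem_product.2 ⟨hp2, hp3⟩⟩, by ring⟩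
      · intro p _ q _ hpq
        simp only [Prod.mk.injEq] at hpq
        exact Prod.ext (by linarith [hpq.2.2]) (by linarith [hpq.1])
    have k2 := bsg_le_sum _ _ _ k1
    rw [← Nat.cast_sum, sum_card_fiberwise_eq_card_filter] at k2
    have k3 := k2.trans (bsg_card_filter_le _ _)
    rw [card_product, card_product, Nat.cast_mul, Nat.cast_mul] at k3
    have k4 : (δ * #P) ^ 3 ≤ n ^ 3 := pow_le_pow_left₀ (by positivity) hP 3
    have k5 := mul_le_mul_of_nonneg_left k3 (show 0 ≤ δ ^ 3 by positivity)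
    have k6 : δ ^ 3 * ((#P : ℝ) * (#P * #P)) = (δ * #P) ^ 3 := by ring
    have k7 : δ ^ 3 * ((#(A' + B') : ℝ) * (δ ^ 5 * n ^ 2 / 3072)) =
        (δ ^ 8 * #(A' + B') / 3072) * n ^ 2 := by ring
    have k8 : δ ^ 8 * #(A' + B') / 3072 ≤ n := by
      refine le_of_mul_le_mul_right ?_ (show 0 < n ^ 2 by positivity)
      have : n * n ^ 2 = n ^ 3 := by ring
      linarith
    have k9 := mul_le_mul_of_nonneg_left k8 (show 0 ≤ 786432 * K ^ 8 by positivity)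
    have k10 : 786432 * K ^ 8 * (δ ^ 8 * #(A' + B') / 3072) = (2 * δ * K) ^ 8 * #(A' + B') := by
      ring
    rw [k10, hδK, one_pow, one_mul] at k9
    have k11 : 0 ≤ K ^ 8 * n := by positivity
    have k12 : 786432 * K ^ 8 * n = 786432 * (K ^ 8 * n) := by ring
    have k13 : (10 : ℝ) ^ 6 * K ^ 8 * n = 1000000 * (K ^ 8 * n) := by ring
    linarith

end Pool.Agent.MP_71ac24_nt.H14

/-! From large energies between a set and dilates of another set to an approximate ring of dilates. -/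

set_option autoImplicit false

namespace Pool.Agent.MP_71ac24_nt.H14

open Finset Pointwise

/-- `S` is covered by at most `K` translates of the `ρ`-neighbourhood of the `k`-fold sumset of `D` -/
def Cov (D : Finset ℤ) (S : Set ℝ) (k : ℕ) (K ρ : ℝ) : Prop :=
  ∃ T : Finset ℝ, (#T : ℝ) ≤ K ∧ ∀ x ∈ S, ∃ t ∈ T, ∃ d ∈ k • D, |x - t - (d : ℝ)| ≤ ρ

/-- the dilate of `D` by `l` is covered in this sense -/
def Good (D : Finset ℤ) (l : ℝ) (k : ℕ) (K ρ : ℝ) : Prop :=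
  Cov D {x | ∃ d ∈ D, x = l * (d : ℝ)} k K ρ

lemma dilate_cov_mono {D : Finset ℤ} {S S' : Set ℝ} {k : ℕ} {K K' ρ ρ' : ℝ}
    (h : Cov D S k K ρ) (hS : S' ⊆ S) (hK : K ≤ K') (hρ : ρ ≤ ρ') : Cov D S' k K' ρ' := by
  obtain ⟨T, hT, h⟩ := h
  refine ⟨T, hT.trans hK, fun x hx => ?_⟩
  obtain ⟨t, ht, d, hd, hx⟩ := h x (hS hx)
  exact ⟨t, ht, d, hd, hx.trans hρ⟩

lemma dilate_cov_nonneg {D : Finset ℤ} {S : Set ℝ} {k : ℕ} {K ρ : ℝ} (h : Cov D S k K ρ) :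
    0 ≤ K := by
  obtain ⟨T, hT, -⟩ := h
  exact (Nat.cast_nonneg _).trans hT

lemma dilate_cov_add {D : Finset ℤ} {S S' : Set ℝ} {k k' : ℕ} {K K' ρ ρ' : ℝ}
    (h : Cov D S k K ρ) (h' : Cov D S' k' K' ρ') :
    Cov D {x | ∃ a ∈ S, ∃ b ∈ S', x = a + b} (k + k') (K * K') (ρ + ρ') := by
  classical
  have hK := dilate_cov_nonneg h
  obtain ⟨T, hT, h⟩ := h
  obtain ⟨T', hT', h'⟩ := h'
  refine ⟨T + T', ?_, ?_⟩
  · have : (#(T + T') : ℝ) ≤ #T * #T' := by exact_mod_cast Finset.card_add_le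
    exact this.trans (mul_le_mul hT hT' (Nat.cast_nonneg _) hK)
  · rintro x ⟨a, ha, b, hb, rfl⟩
    obtain ⟨t, ht, d, hd, hx⟩ := h a ha
    obtain ⟨t', ht', d', hd', hx'⟩ := h' b hb
    refine ⟨t + t', Finset.add_mem_add ht ht', d + d', ?_, ?_⟩
    · rw [add_nsmul]; exact Finset.add_mem_add hd hd'
    · have e : a + b - (t + t') - ((d + d' : ℤ) : ℝ) = (a - t - d) + (b - t' - d') := by
        push_cast; ring
      rw [e]
      exact (abs_add_le _ _).trans (add_le_add hx hx')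

lemma dilate_good_add {D : Finset ℤ} {l m : ℝ} {k k' : ℕ} {K K' ρ ρ' : ℝ}
    (h : Good D l k K ρ) (h' : Good D m k' K' ρ') :
    Good D (l + m) (k + k') (K * K') (ρ + ρ') := by
  refine dilate_cov_mono (dilate_cov_add h h') ?_ le_rfl le_rfl
  rintro x ⟨d, hd, rfl⟩
  exact ⟨l * d, ⟨d, hd, rfl⟩, m * d, ⟨d, hd, rfl⟩, by ring⟩

lemma dilate_good_neg {X : Finset ℤ} {l : ℝ} {k : ℕ} {K ρ : ℝ}
    (h : Good (X - X) l k K ρ) : Good (X - X) (-l) k K ρ := by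
  refine dilate_cov_mono h ?_ le_rfl le_rfl
  rintro x ⟨d, hd, rfl⟩
  obtain ⟨a, ha, b, hb, rfl⟩ := Finset.mem_sub.mp hd
  exact ⟨b - a, Finset.sub_mem_sub hb ha, by push_cast; ring⟩

lemma dilate_good_sub {X : Finset ℤ} {l m : ℝ} {k k' : ℕ} {K K' ρ ρ' : ℝ}
    (h : Good (X - X) l k K ρ) (h' : Good (X - X) m k' K' ρ') :
    Good (X - X) (l - m) (k + k') (K * K') (ρ + ρ') := by
  rw [sub_eq_add_neg l m]; exact dilate_good_add h (dilate_good_neg h')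

lemma dilate_zero_mem {X : Finset ℤ} (hX : X.Nonempty) (k : ℕ) : (0 : ℤ) ∈ k • (X - X) := by
  obtain ⟨a, ha⟩ := hX
  have h0 : (0 : ℤ) ∈ X - X := Finset.mem_sub.mpr ⟨a, ha, a, ha, sub_self a⟩
  induction k with
  | zero => simp
  | succ k ih =>
    rw [succ_nsmul]
    simpa using Finset.add_mem_add ih h0

lemma dilate_good_zero {X : Finset ℤ} (hX : X.Nonempty) (k : ℕ) {K ρ : ℝ} (hK : 1 ≤ K)
    (hρ : 0 ≤ ρ) : Good (X - X) 0 k K ρ := by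
  refine ⟨{0}, by simpa using hK, ?_⟩
  rintro x ⟨d, -, rfl⟩
  exact ⟨0, by simp, 0, dilate_zero_mem hX k, by simpa using hρ⟩

lemma dilate_good_one (D : Finset ℤ) : Good D 1 1 1 0 := by
  refine ⟨{0}, by simp, ?_⟩
  rintro x ⟨d, hd, rfl⟩
  exact ⟨0, by simp, d, by simpa using hd, by simp⟩

lemma dilate_cov_nsmul {D : Finset ℤ} {l : ℝ} {k : ℕ} {K ρ : ℝ} (h : Good D l k K ρ) (j : ℕ) :
    Cov D {x | ∃ d ∈ j • D, x = l * (d : ℝ)} (j * k) (K ^ j) (j * ρ) := by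
  induction j with
  | zero =>
    refine ⟨{0}, by simp, ?_⟩
    rintro x ⟨d, hd, rfl⟩
    have hd0 : d = 0 := by simpa using hd
    exact ⟨0, by simp, 0, by simp, by simp [hd0]⟩
  | succ j ih =>
    have := dilate_cov_add ih h
    rw [add_mul, one_mul, pow_succ]
    refine dilate_cov_mono this ?_ le_rfl (le_of_eq (by push_cast; ring))
    rintro x ⟨d, hd, rfl⟩
    rw [succ_nsmul] at hd
    obtain ⟨a, ha, b, hb, rfl⟩ := Finset.mem_add.mp hd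
    exact ⟨l * a, ⟨a, ha, rfl⟩, l * b, ⟨b, hb, rfl⟩, by push_cast; ring⟩

lemma dilate_good_mul {D : Finset ℤ} {l m : ℝ} {k k' : ℕ} {K K' ρ ρ' : ℝ}
    (h : Good D l k K ρ) (h' : Good D m k' K' ρ') :
    Good D (l * m) (k' * k) (K' * K ^ k') (k' * ρ + |l| * ρ') := by
  classical
  obtain ⟨T, hT, hc⟩ := dilate_cov_nsmul h k'
  have hK' := dilate_cov_nonneg h'
  obtain ⟨T', hT', h'⟩ := h'
  refine ⟨T'.image (fun t => l * t) + T, ?_, ?_⟩
  · have h1 : (#(T'.image (fun t => l * t) + T) : ℝ) ≤ #(T'.image (fun t => l * t)) * #T := by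
      exact_mod_cast Finset.card_add_le
    have h2 : (#(T'.image (fun t => l * t)) : ℝ) ≤ #T' := by exact_mod_cast Finset.card_image_le
    exact h1.trans (mul_le_mul (h2.trans hT') hT (Nat.cast_nonneg _) hK')
  · rintro x ⟨d, hd, rfl⟩
    obtain ⟨t', ht', d', hd', hx'⟩ := h' (m * d) ⟨d, hd, rfl⟩
    obtain ⟨t, ht, e, he, hx⟩ := hc (l * d') ⟨d', hd', rfl⟩
    refine ⟨l * t' + t, Finset.add_mem_add (Finset.mem_image_of_mem _ ht') ht, e, he, ?_⟩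
    have e1 : l * m * d - (l * t' + t) - e = (l * d' - t - e) + l * (m * d - t' - d') := by ring
    rw [e1]
    refine (abs_add_le _ _).trans (add_le_add hx ?_)
    rw [abs_mul]
    exact mul_le_mul_of_nonneg_left hx' (abs_nonneg _)

/-- Cauchy-Schwarz for the collisions of a map -/
lemma dilate_cs {α β : Type*} [DecidableEq β] (A : Finset α) (f : α → β) :
    (#A : ℝ) ^ 2 ≤ #(A.image f) * #{z ∈ A ×ˢ A | f z.1 = f z.2} := by
  have h1 : (#A : ℝ) = ∑ v ∈ A.image f, (#{a ∈ A | f a = v} : ℝ) := by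
    exact_mod_cast Finset.card_eq_sum_card_image f A
  have h2 : (#{z ∈ A ×ˢ A | f z.1 = f z.2} : ℝ)
      = ∑ v ∈ A.image f, (#{a ∈ A | f a = v} : ℝ) ^ 2 := by
    have := Finset.card_eq_sum_card_fiberwise (f := fun z : α × α => f z.1)
      (s := {z ∈ A ×ˢ A | f z.1 = f z.2}) (t := A.image f) (by
        intro z hz
        have hz' := (Finset.mem_filter.mp hz).1
        exact Finset.mem_image_of_mem _ (Finset.mem_product.mp hz').1)
    rw [this]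
    push_cast
    refine Finset.sum_congr rfl fun v _ => ?_
    rw [sq, ← Nat.cast_mul, ← Finset.card_product]
    congr 2
    ext z
    simp only [Finset.mem_filter, Finset.mem_product]
    constructor
    · rintro ⟨⟨⟨h1, h2⟩, h3⟩, h4⟩
      exact ⟨⟨h1, h4⟩, h2, h3 ▸ h4⟩
    · rintro ⟨⟨h1, h4⟩, h2, h3⟩
      exact ⟨⟨⟨h1, h2⟩, h4.trans h3.symm⟩, h4⟩
  rw [h1, h2]
  exact sq_sum_le_card_mul_sum_sq

lemma dilate_col {X : Finset ℤ} (hX : X.Nonempty) {μ ν : ℝ} {k k' : ℕ} {K K' ρ ρ' : ℝ}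
    (h : Good (X - X) μ k K ρ) (h' : Good (X - X) ν k' K' ρ') (hρ : 0 ≤ ρ + ρ') :
    (#X : ℝ) ^ 4 ≤ K * K' * #((k + k') • (X - X)) * (2 * (ρ + ρ') + 2) * Col X μ ν := by
  classical
  obtain ⟨x0, hx0⟩ := hX
  obtain ⟨T, hT, hc⟩ := dilate_cov_add h h'
  set r := ρ + ρ' with hr
  set c : ℝ := (μ + ν) * x0 with hc0
  set f : ℤ × ℤ → ℤ := fun p => ⌊μ * p.1 + ν * p.2⌋ with hf
  have hcs := dilate_cs (X ×ˢ X) f
  have hA : (#(X ×ˢ X) : ℝ) ^ 2 = (#X : ℝ) ^ 4 := by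
    rw [Finset.card_product]; push_cast; ring
  have hcol : (#{z ∈ (X ×ˢ X) ×ˢ (X ×ˢ X) | f z.1 = f z.2} : ℝ) ≤ Col X μ ν := by
    unfold Col
    refine Nat.cast_le.mpr (Finset.card_le_card_of_injOn
      (fun z => ((z.1.1, z.2.1), (z.1.2, z.2.2))) ?_ ?_)
    · intro z hz
      obtain ⟨hz1, hz2⟩ := Finset.mem_filter.mp hz
      simp only [Finset.mem_product] at hz1
      refine Finset.mem_coe.mpr (Finset.mem_filter.mpr ⟨?_, ?_⟩)
      · simp only [Finset.mem_product]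
        exact ⟨⟨hz1.1.1, hz1.2.1⟩, hz1.1.2, hz1.2.2⟩
      · have := Int.abs_sub_lt_one_of_floor_eq_floor hz2
        refine le_of_lt (lt_of_eq_of_lt ?_ this)
        congr 1; ring
    · rintro ⟨⟨a, b⟩, ⟨a', b'⟩⟩ - ⟨⟨e, g⟩, ⟨e', g'⟩⟩ - hz
      simp only [Prod.mk.injEq] at hz ⊢
      tauto
  have him : (X ×ˢ X).image f ⊆ (T ×ˢ ((k + k') • (X - X))).biUnion
      (fun p => Finset.Icc (p.2 + ⌊p.1 + c - r⌋) (p.2 + ⌊p.1 + c + r⌋)) := by
    intro v hv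
    obtain ⟨⟨a, b⟩, hab, rfl⟩ := Finset.mem_image.mp hv
    obtain ⟨ha, hb⟩ := Finset.mem_product.mp hab
    obtain ⟨t, ht, d, hd, hx⟩ := hc (μ * ((a - x0 : ℤ) : ℝ) + ν * ((b - x0 : ℤ) : ℝ))
      ⟨_, ⟨a - x0, Finset.sub_mem_sub ha hx0, rfl⟩, _, ⟨b - x0, Finset.sub_mem_sub hb hx0, rfl⟩, rfl⟩
    refine Finset.mem_biUnion.mpr ⟨(t, d), Finset.mem_product.mpr ⟨ht, hd⟩, ?_⟩
    obtain ⟨h1, h2⟩ := abs_le.mp hx
    push_cast at h1 h2
    have e : μ * a + ν * b = μ * ((a : ℝ) - x0) + ν * ((b : ℝ) - x0) + c := by rw [hc0]; ring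
    simp only [hf, Finset.mem_Icc]
    rw [← Int.floor_intCast_add, ← Int.floor_intCast_add]
    exact ⟨Int.floor_mono (by linarith), Int.floor_mono (by linarith)⟩
  have hcard : (#((X ×ˢ X).image f) : ℝ) ≤ K * K' * #((k + k') • (X - X)) * (2 * r + 2) := by
    have h1 := Nat.cast_le (α := ℝ).mpr ((Finset.card_le_card him).trans Finset.card_biUnion_le)
    refine h1.trans ?_
    push_cast
    have h2 : ∀ p ∈ T ×ˢ ((k + k') • (X - X)),
        (#(Finset.Icc (p.2 + ⌊p.1 + c - r⌋) (p.2 + ⌊p.1 + c + r⌋)) : ℝ) ≤ 2 * r + 2 := by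
      intro p _
      rw [Int.card_Icc]
      have h3 : ⌊p.1 + c - r⌋ ≤ ⌊p.1 + c + r⌋ := Int.floor_mono (by linarith)
      have h4 : (((p.2 + ⌊p.1 + c + r⌋ + 1 - (p.2 + ⌊p.1 + c - r⌋)).toNat : ℤ) : ℝ)
          = ((p.2 + ⌊p.1 + c + r⌋ + 1 - (p.2 + ⌊p.1 + c - r⌋) : ℤ) : ℝ) := by
        rw [Int.toNat_of_nonneg (by omega)]
      rw [Int.cast_natCast] at h4
      rw [h4]
      push_cast
      have h5 := Int.floor_le (p.1 + c + r)
      have h6 := Int.lt_floor_add_one (p.1 + c - r)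
      linarith
    refine (Finset.sum_le_card_nsmul _ _ _ h2).trans ?_
    rw [nsmul_eq_mul, Finset.card_product]
    push_cast
    have h7 : (0 : ℝ) ≤ 2 * r + 2 := by linarith
    exact mul_le_mul_of_nonneg_right
      (mul_le_mul_of_nonneg_right hT (Nat.cast_nonneg _)) h7
  rw [← hA]
  refine hcs.trans (mul_le_mul hcard hcol (Nat.cast_nonneg _) ?_)
  exact (Nat.cast_nonneg _).trans hcard

lemma dilate_fin {X : Finset ℤ} (hX : X.Nonempty) {μ ν K : ℝ} (hK : 10 ^ 9 ≤ K)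
    (hP : ∀ k : ℕ, (#(k • X - k • X) : ℝ) ≤ K ^ (22 * k + 2) * #X)
    {k k' a a' : ℕ} {ρ ρ' : ℝ} (h : Good (X - X) μ k (K ^ a) ρ) (h' : Good (X - X) ν k' (K ^ a') ρ')
    (hρ : 0 ≤ ρ + ρ') (hρ' : ρ + ρ' ≤ 10 ^ 8) (hn : a + a' + (22 * (k + k') + 2) + 1 ≤ 33000) :
    (#X : ℝ) ^ 3 ≤ K ^ 33000 * Col X μ ν := by
  have h1 := dilate_col hX h h' hρ
  have hK1 : (1 : ℝ) ≤ K := le_trans (by norm_num) hK
  have hK0 : (0 : ℝ) ≤ K := by linarith
  have hXp : (0 : ℝ) < #X := by exact_mod_cast hX.card_pos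
  have h2 := hP (k + k')
  rw [← nsmul_sub] at h2
  have h3 : 2 * (ρ + ρ') + 2 ≤ K := by
    refine le_trans ?_ hK
    have : (2 : ℝ) * 10 ^ 8 + 2 ≤ 10 ^ 9 := by norm_num
    linarith
  have h4 : K ^ a * K ^ a' * #((k + k') • (X - X)) * (2 * (ρ + ρ') + 2)
      ≤ K ^ a * K ^ a' * (K ^ (22 * (k + k') + 2) * #X) * K := by
    refine mul_le_mul (mul_le_mul_of_nonneg_left h2 (by positivity)) h3 (by linarith) ?_
    positivity
  have h5 : K ^ a * K ^ a' * (K ^ (22 * (k + k') + 2) * #X) * K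
      = K ^ (a + a' + (22 * (k + k') + 2) + 1) * #X := by
    rw [pow_succ, pow_add, pow_add]; ring
  have h6 : K ^ (a + a' + (22 * (k + k') + 2) + 1) ≤ K ^ 33000 := pow_le_pow_right₀ hK1 hn
  generalize K ^ 33000 = M at h6 ⊢
  have h7 : (#X : ℝ) ^ 4 ≤ M * #X * Col X μ ν :=
    h1.trans (mul_le_mul_of_nonneg_right
      ((h4.trans_eq h5).trans (mul_le_mul_of_nonneg_right h6 hXp.le)) (Nat.cast_nonneg _))
  have h8 : (#X : ℝ) ^ 3 * #X ≤ M * Col X μ ν * #X := by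
    calc (#X : ℝ) ^ 3 * #X = (#X : ℝ) ^ 4 := by ring
      _ ≤ M * #X * Col X μ ν := h7
      _ = M * Col X μ ν * #X := by ring
  exact le_of_mul_le_mul_right h8 hXp

lemma dilate_add' {X : Finset ℤ} {l m K : ℝ} {k k' a a' : ℕ} {ρ ρ' : ℝ}
    (h : Good (X - X) l k (K ^ a) ρ) (h' : Good (X - X) m k' (K ^ a') ρ') :
    Good (X - X) (l + m) (k + k') (K ^ (a + a')) (ρ + ρ') := by
  rw [pow_add]; exact dilate_good_add h h'

lemma dilate_sub' {X : Finset ℤ} {l m K : ℝ} {k k' a a' : ℕ} {ρ ρ' : ℝ}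
    (h : Good (X - X) l k (K ^ a) ρ) (h' : Good (X - X) m k' (K ^ a') ρ') :
    Good (X - X) (l - m) (k + k') (K ^ (a + a')) (ρ + ρ') := by
  rw [pow_add]; exact dilate_good_sub h h'

lemma dilate_mul' {X : Finset ℤ} {l m K : ℝ} {k a : ℕ} {ρ : ℝ} (hl : |l| ≤ 16) (hρ : 0 ≤ ρ)
    (h : Good (X - X) l k (K ^ a) ρ) (h' : Good (X - X) m k (K ^ a) ρ) :
    Good (X - X) (l * m) (k * k) (K ^ (a + a * k)) (k * ρ + 16 * ρ) := by
  rw [pow_add, pow_mul]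
  refine dilate_cov_mono (dilate_good_mul h h') subset_rfl le_rfl ?_
  have := mul_le_mul_of_nonneg_right hl hρ
  linarith

/-- HINT. First the calculus of `Cov` and `Good` for `D = X - X` (symmetric, contains `0`): sums (`k + k'`, `K K'`, `ρ + ρ'`), negatives, monotonicity, `Good 1 1 1 0`, and products:
`Good l k K ρ → Good m k' K' ρ' → Good (l m) (k' k) (K' K ^ k') (k' ρ + |l| ρ')` (induction on `k'` for the dilate of `k' • D`). If `Good μ k1 K1 ρ1` and `Good ν k2 K2 ρ2` then, with a fixed `x0 ∈ X`, the map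
`(x1,x3) ↦ ⌊μ x1 + ν x3⌋` takes at most `K1 K2 #((k1 + k2) • D) (2 (ρ1 + ρ2) + 2)` values, so by Cauchy-Schwarz `#X ^ 4 ≤ that * Col X μ ν`.
Here `(k • D) = k • X - k • X`. The numbers: products `64, K ^ 2646, 864`; eight of them `512, K ^ 21168, 6912`. -/
theorem col_of_good {ι : Type*} (X : Finset ℤ) (hX : X.Nonempty) (J : Finset ι) (l : ι → ℝ) (K : ℝ)
    (hK : 10 ^ 9 ≤ K) (hl : ∀ a ∈ J, |l a| ≤ 16)
    (hP : ∀ k : ℕ, (#(k • X - k • X) : ℝ) ≤ K ^ (22 * k + 2) * #X)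
    (hG : ∀ a ∈ J, Good (X - X) (l a) 8 (K ^ 294) 36) :
    (∀ a ∈ J, ∀ a' ∈ J, ∀ c ∈ J, ∀ d ∈ J, ∀ e ∈ J, ∀ f ∈ J, ∀ i : ℝ, (i = 0 ∨ i = 1) →
      (#X : ℝ) ^ 3 ≤ K ^ 33000 *
        Col X 1 (2 * (l c - l d) * l a + (l e - l f + i * (l c - l d)) * l a')) ∧
    (∀ c ∈ J, ∀ d ∈ J, ∀ e ∈ J, ∀ f ∈ J,
      (#X : ℝ) ^ 3 ≤ K ^ 33000 * Col X (l c - l d) (l e - l f)) := by
  have hK1 : (1 : ℝ) ≤ K := le_trans (by norm_num) hK
  have hm : ∀ a ∈ J, ∀ b ∈ J,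
      Good (X - X) (l a * l b) (8 * 8) (K ^ (294 + 294 * 8)) ((8 : ℕ) * 36 + 16 * 36) :=
    fun a ha b hb => dilate_mul' (hl a ha) (by norm_num) (hG a ha) (hG b hb)
  refine ⟨fun a ha a' ha' c hc d hd e he f hf i hi => ?_, fun c hc d hd e he f hf => ?_⟩
  · have h1 : Good (X - X) 1 1 (K ^ 0) 0 := by rw [pow_zero]; exact dilate_good_one _
    have hA := dilate_sub' (hm c hc a ha) (hm d hd a ha)
    have hB := dilate_sub' (hm e he a' ha') (hm f hf a' ha')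
    have hC : Good (X - X) (i * (l c * l a' - l d * l a')) (8 * 8 + 8 * 8)
        (K ^ (294 + 294 * 8 + (294 + 294 * 8)))
        ((8 : ℕ) * 36 + 16 * 36 + ((8 : ℕ) * 36 + 16 * 36)) := by
      rcases hi with rfl | rfl
      · rw [zero_mul]
        exact dilate_good_zero hX _ (one_le_pow₀ hK1) (by norm_num)
      · rw [one_mul]
        exact dilate_sub' (hm c hc a' ha') (hm d hd a' ha')
    have hD := dilate_add' (dilate_add' hA hA) (dilate_add' hB hC)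
    have e1 : 2 * (l c - l d) * l a + (l e - l f + i * (l c - l d)) * l a'
        = l c * l a - l d * l a + (l c * l a - l d * l a)
          + (l e * l a' - l f * l a' + i * (l c * l a' - l d * l a')) := by ring
    rw [e1]
    exact dilate_fin hX hK hP h1 hD (by norm_num) (by norm_num) (by norm_num)
  · exact dilate_fin hX hK hP (dilate_sub' (hG c hc) (hG d hd)) (dilate_sub' (hG e he) (hG f hf))
      (by norm_num) (by norm_num) (by norm_num)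

end Pool.Agent.MP_71ac24_nt.H14
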