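import Pool.Agent.MP_71ac24_nt.H14.Defs

/-! The oscillatory integral `∫ exp (i (u y - Λ e ^ y)) dy`, and the reduction to the pure phase. -/

set_option autoImplicit false

namespace Pool.Agent.MP_71ac24_nt.H14

open Finset

/-- HINT. First derivative test. With `ψ y = u - Λ e ^ y` and `h y = 1 / ψ y`, the function `-I * h y * ei (u y - Λ e ^ y)` has derivative
`ei (..) - I * h' y * ei (..)`, `h' y = Λ e ^ y / ψ y ^ 2 ≥ 0`, so `∫ ‖h'‖ = h q - h p ≤ 2 / l`
(`intervalIntegral.integral_eq_sub_of_hasDerivAt`, `norm_integral_le_integral_norm`). -/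
theorem kern_fd {Λ u p q l : ℝ} (hΛ : 0 < Λ) (hpq : p ≤ q) (hl : 0 < l)
    (h : ∀ y, p ≤ y → y ≤ q → l ≤ |u - Λ * Real.exp y|) : ‖kern Λ u p q‖ ≤ 4 / l := by
  have hne : ∀ y ∈ Set.uIcc p q, u - Λ * Real.exp y ≠ 0 := fun y hy => by
    rw [Set.uIcc_of_le hpq] at hy
    exact abs_pos.1 (hl.trans_le (h y hy.1 hy.2))
  have d1 : ∀ y, HasDerivAt (fun y => u - Λ * Real.exp y) (-(Λ * Real.exp y)) y := fun y =>
    ((Real.hasDerivAt_exp y).const_mul Λ).const_sub u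
  have d2 : ∀ y ∈ Set.uIcc p q, HasDerivAt (fun y => (u - Λ * Real.exp y)⁻¹)
      (Λ * Real.exp y / (u - Λ * Real.exp y) ^ 2) y := fun y hy => by
    have := (d1 y).inv (hne y hy)
    rwa [neg_neg] at this
  have d3 : ∀ y : ℝ, HasDerivAt (fun y => ei (u * y - Λ * Real.exp y))
      (ei (u * y - Λ * Real.exp y) * (Complex.I * ((u - Λ * Real.exp y : ℝ) : ℂ))) y := fun y => by
    have a : HasDerivAt (fun y => u * y - Λ * Real.exp y) (u - Λ * Real.exp y) y := by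
      have := ((hasDerivAt_id y).const_mul u).sub ((Real.hasDerivAt_exp y).const_mul Λ)
      rwa [mul_one] at this
    exact (a.ofReal_comp.const_mul Complex.I).cexp
  have c1 : ContinuousOn (fun y => Λ * Real.exp y / (u - Λ * Real.exp y) ^ 2) (Set.uIcc p q) :=
    ContinuousOn.div (by fun_prop) (by fun_prop) fun y hy => pow_ne_zero _ (hne y hy)
  have c2 : Continuous fun y => ei (u * y - Λ * Real.exp y) := continuous_ei.comp (by fun_prop)
  have c3 : ContinuousOn (fun y => Complex.I * ((Λ * Real.exp y / (u - Λ * Real.exp y) ^ 2 : ℝ) : ℂ) *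
      ei (u * y - Λ * Real.exp y)) (Set.uIcc p q) :=
    (continuousOn_const.mul (Complex.continuous_ofReal.comp_continuousOn c1)).mul c2.continuousOn
  have d4 : ∀ y ∈ Set.uIcc p q, HasDerivAt
      (fun y => -Complex.I * (((u - Λ * Real.exp y)⁻¹ : ℝ) : ℂ) * ei (u * y - Λ * Real.exp y))
      (ei (u * y - Λ * Real.exp y) - Complex.I * ((Λ * Real.exp y / (u - Λ * Real.exp y) ^ 2 : ℝ) : ℂ) *
        ei (u * y - Λ * Real.exp y)) y := fun y hy => by
    have := (((d2 y hy).ofReal_comp.const_mul (-Complex.I)).mul (d3 y))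
    refine this.congr_deriv ?_
    have h0 : ((u - Λ * Real.exp y : ℝ) : ℂ) ≠ 0 := Complex.ofReal_ne_zero.2 (hne y hy)
    rw [Complex.ofReal_inv]
    generalize ((u - Λ * Real.exp y : ℝ) : ℂ) = w at h0 ⊢
    have : w⁻¹ * w = 1 := inv_mul_cancel₀ h0
    linear_combination (-(Complex.I ^ 2) * ei (u * y - Λ * Real.exp y)) * this -
      ei (u * y - Λ * Real.exp y) * Complex.I_sq
  have e1 := intervalIntegral.integral_eq_sub_of_hasDerivAt d4
    ((c2.intervalIntegrable _ _).sub c3.intervalIntegrable)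
  rw [intervalIntegral.integral_sub (c2.intervalIntegrable _ _) c3.intervalIntegrable,
    sub_eq_iff_eq_add] at e1
  have e2 := intervalIntegral.integral_eq_sub_of_hasDerivAt d2 c1.intervalIntegrable
  have b1 : ∀ y, p ≤ y → y ≤ q → |(u - Λ * Real.exp y)⁻¹| ≤ 1 / l := fun y h1 h2 => by
    rw [abs_inv, one_div]; exact inv_anti₀ hl (h y h1 h2)
  have b2 : ∀ y, p ≤ y → y ≤ q →
      ‖-Complex.I * (((u - Λ * Real.exp y)⁻¹ : ℝ) : ℂ) * ei (u * y - Λ * Real.exp y)‖ ≤ 1 / l :=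
    fun y h1 h2 => by
      rw [norm_mul, norm_mul, norm_ei, norm_neg, Complex.norm_I, Complex.norm_real, one_mul, mul_one]
      exact b1 y h1 h2
  have b3 : ‖∫ y in p..q, Complex.I * ((Λ * Real.exp y / (u - Λ * Real.exp y) ^ 2 : ℝ) : ℂ) *
      ei (u * y - Λ * Real.exp y)‖ ≤ 1 / l + 1 / l := by
    refine (intervalIntegral.norm_integral_le_integral_norm hpq).trans ?_
    have : ∀ y : ℝ, ‖Complex.I * ((Λ * Real.exp y / (u - Λ * Real.exp y) ^ 2 : ℝ) : ℂ) *
        ei (u * y - Λ * Real.exp y)‖ = Λ * Real.exp y / (u - Λ * Real.exp y) ^ 2 := fun y => by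
      rw [norm_mul, norm_mul, norm_ei, Complex.norm_I, Complex.norm_real, one_mul, mul_one,
        Real.norm_of_nonneg (by positivity)]
    simp only [this]
    rw [e2]
    have a1 := abs_le.1 (b1 p le_rfl hpq)
    have a2 := abs_le.1 (b1 q hpq le_rfl)
    linarith [a1.1, a2.2]
  rw [kern, e1]
  have a1 := b2 p le_rfl hpq
  have a2 := b2 q hpq le_rfl
  refine (norm_add_le _ _).trans ((add_le_add (norm_sub_le _ _) b3).trans ?_)
  have : 4 / l = 1 / l + 1 / l + (1 / l + 1 / l) := by ring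
  linarith

theorem kern_add (Λ u p q r : ℝ) : kern Λ u p q + kern Λ u q r = kern Λ u p r := by
  have c2 : Continuous fun y => ei (u * y - Λ * Real.exp y) := continuous_ei.comp (by fun_prop)
  exact intervalIntegral.integral_add_adjacent_intervals (c2.intervalIntegrable _ _)
    (c2.intervalIntegrable _ _)

theorem kern_triv (Λ u p q : ℝ) : ‖kern Λ u p q‖ ≤ |q - p| := by
  have := intervalIntegral.norm_integral_le_of_norm_le_const (a := p) (b := q) (C := 1)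
    (f := fun y => ei (u * y - Λ * Real.exp y)) fun y _ => (norm_ei _).le
  rwa [one_mul] at this

theorem kern_exp_log {Λ u : ℝ} (hΛ : 0 < Λ) (hu : 0 < u) (z : ℝ) :
    Λ * Real.exp (Real.log (u / Λ) + z) = u * Real.exp z := by
  rw [Real.exp_add, Real.exp_log (div_pos hu hΛ)]
  field_simp

/-- away from the stationary point -/
theorem kern_out {Λ u ζ p q : ℝ} (hΛ : 0 < Λ) (hu : 0 < u) (hζ : 0 < ζ) (hζ1 : ζ ≤ 1) (hpq : p ≤ q)
    (h : p = q ∨ q ≤ Real.log (u / Λ) - ζ ∨ Real.log (u / Λ) + ζ ≤ p) :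
    ‖kern Λ u p q‖ ≤ 8 / (u * ζ) := by
  rcases h with h | h
  · rw [h, kern, intervalIntegral.integral_same, norm_zero]; positivity
  have e : 8 / (u * ζ) = 4 / (u * ζ / 2) := by field_simp; norm_num
  rw [e]
  refine kern_fd hΛ hpq (by positivity) fun y h1 h2 => ?_
  have e1 := kern_exp_log hΛ hu (y - Real.log (u / Λ))
  rw [add_sub_cancel] at e1
  rw [e1]
  rcases h with h | h
  · have a1 : Real.exp (y - Real.log (u / Λ)) ≤ Real.exp (-ζ) := Real.exp_le_exp.2 (by linarith)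
    have a2 : Real.exp (-ζ) ≤ 1 - ζ / 2 := by
      rw [Real.exp_neg, inv_le_iff_one_le_mul₀ (Real.exp_pos _)]
      have := Real.add_one_le_exp ζ
      nlinarith
    refine le_trans ?_ (le_abs_self _)
    nlinarith
  · have a1 := Real.add_one_le_exp (y - Real.log (u / Λ))
    refine le_trans ?_ (neg_le_abs _)
    have a2 : 1 + ζ ≤ Real.exp (y - Real.log (u / Λ)) := by linarith
    nlinarith

/-- HINT. `y0 = log (u / Λ)`. For `|y - y0| ≥ ζ` one has `|u - Λ e ^ y| = u |1 - e ^ (y - y0)| ≥ u ζ / 2`. Split `[0,1]` at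
`c1 = max 0 (min 1 (y0 - ζ))` and `c2 = max 0 (min 1 (y0 + ζ))`; the outer pieces are empty or `kern_fd` applies. -/
theorem kern_le {Λ u ζ : ℝ} (hΛ : 0 < Λ) (hu : Λ / 2 ≤ u) (hζ : 0 < ζ) (hζ1 : ζ ≤ 1) :
    ‖kern Λ u 0 1‖ ≤ 2 * ζ + 32 / (Λ * ζ) := by
  have hu0 : 0 < u := by linarith
  set y0 := Real.log (u / Λ) with hy0
  set c1 := max 0 (min 1 (y0 - ζ)) with hc1
  set c2 := max 0 (min 1 (y0 + ζ)) with hc2
  have a1 : ‖kern Λ u 0 c1‖ ≤ 8 / (u * ζ) := by
    refine kern_out hΛ hu0 hζ hζ1 (le_max_left _ _) ?_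
    rcases le_total 0 (min 1 (y0 - ζ)) with h | h
    · exact Or.inr (Or.inl (by rw [hc1, max_eq_right h]; exact min_le_right _ _))
    · exact Or.inl (max_eq_left h).symm
  have a2 : ‖kern Λ u c2 1‖ ≤ 8 / (u * ζ) := by
    refine kern_out hΛ hu0 hζ hζ1 (max_le zero_le_one (min_le_left _ _)) ?_
    rcases le_total 1 (y0 + ζ) with h | h
    · exact Or.inl (by rw [hc2, min_eq_left h, max_eq_right zero_le_one])
    · exact Or.inr (Or.inr (by rw [hc2, min_eq_right h]; exact le_max_right _ _))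
  have a3 : ‖kern Λ u c1 c2‖ ≤ 2 * ζ := by
    refine (kern_triv _ _ _ _).trans ?_
    rw [hc1, hc2, abs_le]
    simp only [max_def, min_def]
    split_ifs <;> constructor <;> linarith
  have a4 : 8 / (u * ζ) ≤ 16 / (Λ * ζ) := by
    rw [div_le_div_iff₀ (by positivity) (by positivity)]
    nlinarith
  rw [← kern_add Λ u 0 c1 1, ← kern_add Λ u c1 c2 1]
  refine (norm_add_le _ _).trans ((add_le_add le_rfl (norm_add_le _ _)).trans ?_)
  have : 32 / (Λ * ζ) = 16 / (Λ * ζ) + 16 / (Λ * ζ) := by ring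
  linarith

theorem kern_mid {Λ u ζ : ℝ} (hΛ : 0 < Λ) (hζ : 0 < ζ) (hζ1 : ζ ≤ 1 / 2)
    (hu : Λ * (1 + 2 * ζ) ≤ u ∧ u ≤ Real.exp 1 * Λ * (1 - ζ)) :
    ‖kern Λ u 0 1 * ei (-(u * Real.log (u / Λ) - u)) -
      ∫ z in -ζ..ζ, ei (u * (1 + z - Real.exp z))‖ ≤ 16 / (Λ * ζ) := by
  have hΛu : Λ ≤ u := by nlinarith [hu.1]
  have hu0 : 0 < u := by linarith
  set y0 := Real.log (u / Λ) with hy0
  have b1 : ζ ≤ y0 := by
    rw [hy0, Real.le_log_iff_exp_le (div_pos hu0 hΛ), le_div_iff₀ hΛ]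
    have := (abs_le.1 (Real.abs_exp_sub_one_le (x := ζ) (by rw [abs_of_pos hζ]; linarith))).2
    rw [abs_of_pos hζ] at this
    nlinarith [hu.1]
  have b2 : y0 + ζ ≤ 1 := by
    rw [← le_sub_iff_add_le, hy0, Real.log_le_iff_le_exp (div_pos hu0 hΛ), div_le_iff₀ hΛ,
      sub_eq_add_neg, Real.exp_add]
    have a := Real.add_one_le_exp (-ζ)
    have := mul_le_mul_of_nonneg_left a (mul_pos (Real.exp_pos 1) hΛ).le
    nlinarith [hu.2]
  have a1 : ‖kern Λ u 0 (y0 - ζ)‖ ≤ 8 / (u * ζ) :=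
    kern_out hΛ hu0 hζ (by linarith) (by linarith) (Or.inr (Or.inl le_rfl))
  have a2 : ‖kern Λ u (y0 + ζ) 1‖ ≤ 8 / (u * ζ) :=
    kern_out hΛ hu0 hζ (by linarith) b2 (Or.inr (Or.inr le_rfl))
  have a3 : kern Λ u (y0 - ζ) (y0 + ζ) * ei (-(u * y0 - u)) =
      ∫ z in -ζ..ζ, ei (u * (1 + z - Real.exp z)) := by
    rw [kern, sub_eq_add_neg y0, ← intervalIntegral.integral_comp_add_left
      (fun y => ei (u * y - Λ * Real.exp y)), ← intervalIntegral.integral_mul_const]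
    refine intervalIntegral.integral_congr fun z _ => ?_
    rw [← ei_add, hy0, kern_exp_log hΛ hu0]
    congr 1
    ring
  have a4 : 8 / (u * ζ) ≤ 8 / (Λ * ζ) := by gcongr
  rw [← a3, ← kern_add Λ u 0 (y0 - ζ) 1, ← kern_add Λ u (y0 - ζ) (y0 + ζ) 1, ← sub_mul, norm_mul,
    norm_ei, mul_one, add_comm (kern Λ u (y0 - ζ) (y0 + ζ)), ← add_assoc, add_sub_cancel_right]
  refine (norm_add_le _ _).trans ?_
  have : 16 / (Λ * ζ) = 8 / (Λ * ζ) + 8 / (Λ * ζ) := by ring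
  linarith

/-- HINT. Here `0 ≤ y0 - ζ` and `y0 + ζ ≤ 1` (`e ^ ζ ≤ 1 + 2 ζ`, `1 - ζ ≤ e ^ (-ζ)`). The middle piece times the phase factor is
`∫ z in -ζ..ζ, ei (u * (1 + z - e ^ z))` (`intervalIntegral.integral_comp_add_left`, `Λ e ^ y0 = u`), and `|1 + z - e ^ z| ≤ z ^ 2`
(`Real.abs_exp_sub_one_sub_id_le`); use `norm_ei_sub`. Each of the four outer pieces is at most `8 / (Λ ζ)`. -/
theorem kern_near {Λ u u' ζ : ℝ} (hΛ : 0 < Λ) (hζ : 0 < ζ) (hζ1 : ζ ≤ 1 / 2)
    (hu : Λ * (1 + 2 * ζ) ≤ u ∧ u ≤ Real.exp 1 * Λ * (1 - ζ))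
    (hu' : Λ * (1 + 2 * ζ) ≤ u' ∧ u' ≤ Real.exp 1 * Λ * (1 - ζ)) :
    ‖kern Λ u 0 1 * ei (-(u * Real.log (u / Λ) - u)) -
      kern Λ u' 0 1 * ei (-(u' * Real.log (u' / Λ) - u'))‖ ≤
      32 / (Λ * ζ) + 2 * ζ ^ 3 * |u - u'| := by
  have a1 := kern_mid hΛ hζ hζ1 hu
  have a2 := kern_mid hΛ hζ hζ1 hu'
  have c : ∀ v : ℝ, Continuous fun z => ei (v * (1 + z - Real.exp z)) := fun v =>
    continuous_ei.comp (by fun_prop)
  have a3 : ‖(∫ z in -ζ..ζ, ei (u * (1 + z - Real.exp z))) -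
      ∫ z in -ζ..ζ, ei (u' * (1 + z - Real.exp z))‖ ≤ 2 * ζ ^ 3 * |u - u'| := by
    rw [← intervalIntegral.integral_sub ((c u).intervalIntegrable _ _) ((c u').intervalIntegrable _ _)]
    refine (intervalIntegral.norm_integral_le_of_norm_le_const (C := |u - u'| * ζ ^ 2)
      fun z hz => ?_).trans (le_of_eq ?_)
    · rw [Set.uIoc_of_le (by linarith)] at hz
      have hz' : |z| ≤ ζ := abs_le.2 ⟨hz.1.le, hz.2⟩
      refine (norm_ei_sub _ _).trans ?_
      rw [← sub_mul, abs_mul]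
      refine mul_le_mul_of_nonneg_left ?_ (abs_nonneg _)
      have := Real.abs_exp_sub_one_sub_id_le (x := z) (by linarith)
      rw [show 1 + z - Real.exp z = -(Real.exp z - 1 - z) by ring, abs_neg]
      refine this.trans ?_
      rw [← sq_abs z]
      gcongr
    · rw [sub_neg_eq_add, abs_of_pos (by linarith : 0 < ζ + ζ)]; ring
  have := norm_sub_le_norm_sub_add_norm_sub (kern Λ u 0 1 * ei (-(u * Real.log (u / Λ) - u)))
    (∫ z in -ζ..ζ, ei (u * (1 + z - Real.exp z)))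
    (kern Λ u' 0 1 * ei (-(u' * Real.log (u' / Λ) - u')))
  have b := norm_sub_le_norm_sub_add_norm_sub (∫ z in -ζ..ζ, ei (u * (1 + z - Real.exp z)))
    (∫ z in -ζ..ζ, ei (u' * (1 + z - Real.exp z)))
    (kern Λ u' 0 1 * ei (-(u' * Real.log (u' / Λ) - u')))
  rw [norm_sub_rev] at a2
  have e : 32 / (Λ * ζ) = 16 / (Λ * ζ) + 16 / (Λ * ζ) := by ring
  linarith

end Pool.Agent.MP_71ac24_nt.H14

/-! Reduction to the pure phase. -/

set_option autoImplicit false

namespace Pool.Agent.MP_71ac24_nt.H14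

open Finset

/-- the slowly varying amplitude of the kernel -/
noncomputable def phase_amp (Λ u : ℝ) : ℂ := kern Λ u 0 1 * ei (-(u * Real.log (u / Λ) - u))

lemma phase_norm_amp (Λ u : ℝ) : ‖phase_amp Λ u‖ = ‖kern Λ u 0 1‖ := by
  rw [phase_amp, norm_mul, norm_ei, mul_one]

lemma phase_kern_eq {Λ u : ℝ} (hΛ : 0 < Λ) (hu : 0 < u) :
    kern Λ u 0 1 = phase_amp Λ u * ei (u * Real.log u - u * (Real.log Λ + 1)) := by
  rw [phase_amp, mul_assoc, ← ei_add, Real.log_div hu.ne' hΛ.ne']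
  have : -(u * (Real.log u - Real.log Λ) - u) + (u * Real.log u - u * (Real.log Λ + 1)) = 0 := by
    ring
  rw [this, ei_zero, mul_one]

/-- the pairs (cell, point) for which the stationary phase comparison applies -/
def phase_good (Λ U E : ℝ) (k : ℤ) (x : ℝ) : Prop :=
  Λ + E ≤ k * U - x ∧ k * U - x + U ≤ Real.exp 1 * Λ - E

/-- the differences close to an end point of the range of the derivative -/
def phase_mid (Λ E x y : ℝ) : Prop :=
  (x + Λ - E ≤ y ∧ y ≤ x + Λ - E + 3 * E) ∨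
    (x + Real.exp 1 * Λ - 2 * E ≤ y ∧ y ≤ x + Real.exp 1 * Λ - 2 * E + 3 * E)

open Classical in
/-- the main part of the kernel -/
noncomputable def phase_main (Λ U E : ℝ) (k : ℤ) (x y : ℝ) : ℂ :=
  if phase_good Λ U E k x then
    phase_amp Λ (k * U - x) * ei ((y - x) * Real.log (y - x) - (y - x) * (Real.log Λ + 1))
  else 0

lemma phase_e_lt : Real.exp 1 ≤ 3 := by
  have := Real.exp_one_lt_d9
  linarith

lemma phase_e_gt : 2 ≤ Real.exp 1 := by
  have := Real.exp_one_gt_d9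
  linarith

open Classical in
lemma phase_err {Λ ζ U E A : ℝ}
    (hΛ : 0 < Λ) (hζ : 0 < ζ) (hU : 0 < U) (hUE : U ≤ E) (hE : 3 * ζ * Λ ≤ E) (hEΛ : 2 * E ≤ Λ)
    (hA : ∀ u, Λ / 2 ≤ u → ‖kern Λ u 0 1‖ ≤ A) (k : ℤ) (x y : ℝ)
    (h1 : k * U ≤ y) (h2 : y < k * U + U) :
    ‖kern Λ (y - x) 0 1 - phase_main Λ U E k x y‖ ≤
      (32 / (Λ * ζ) + 2 * ζ ^ 3 * U + 4 / E) + (if phase_mid Λ E x y then A else 0) := by
  have hE0 : 0 < E := lt_of_lt_of_le hU hUE
  have hA0 : 0 ≤ A := (norm_nonneg _).trans (hA Λ (by linarith))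
  have hp1 : 0 ≤ 32 / (Λ * ζ) := by positivity
  have hp2 : 0 ≤ 2 * ζ ^ 3 * U := by positivity
  have hp3 : 0 ≤ 4 / E := by positivity
  have hp4 : 0 ≤ (if phase_mid Λ E x y then A else 0) := by split_ifs <;> simp [hA0]
  have he3 := phase_e_lt
  have he2 := phase_e_gt
  have hζΛ : 0 < ζ * Λ := mul_pos hζ hΛ
  have heΛ : 2 * Λ ≤ Real.exp 1 * Λ := mul_le_mul_of_nonneg_right he2 hΛ.le
  by_cases hg : phase_good Λ U E k x
  · have hg' := hg
    obtain ⟨g1, g2⟩ := hg'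
    have hζ1 : ζ ≤ 1 / 2 := by
      by_contra hc
      push Not at hc
      have : 1 / 2 * Λ < ζ * Λ := mul_lt_mul_of_pos_right hc hΛ
      linarith
    have heζ : Real.exp 1 * (ζ * Λ) ≤ 3 * (ζ * Λ) := mul_le_mul_of_nonneg_right he3 hζΛ.le
    have hin : ∀ u, k * U - x ≤ u → u ≤ k * U - x + U →
        Λ * (1 + 2 * ζ) ≤ u ∧ u ≤ Real.exp 1 * Λ * (1 - ζ) := by
      intro u hu1 hu2
      constructor
      · have : Λ * (1 + 2 * ζ) = Λ + 2 * (ζ * Λ) := by ring
        linarith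
      · have : Real.exp 1 * Λ * (1 - ζ) = Real.exp 1 * Λ - Real.exp 1 * (ζ * Λ) := by ring
        linarith
    have hn := kern_near hΛ hζ hζ1 (hin (y - x) (by linarith) (by linarith))
      (hin (k * U - x) le_rfl (by linarith))
    have habs : |y - x - (k * U - x)| ≤ U := by
      rw [abs_le]; constructor <;> linarith
    have hpos : 0 < y - x := by linarith
    rw [phase_main, if_pos hg, phase_kern_eq hΛ hpos, ← sub_mul, norm_mul, norm_ei, mul_one]
    have h3 : 2 * ζ ^ 3 * |y - x - (k * U - x)| ≤ 2 * ζ ^ 3 * U :=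
      mul_le_mul_of_nonneg_left habs (by positivity)
    have hn' : ‖phase_amp Λ (y - x) - phase_amp Λ (k * U - x)‖ ≤
        32 / (Λ * ζ) + 2 * ζ ^ 3 * |y - x - (k * U - x)| := hn
    linarith
  · rw [phase_main, if_neg hg, sub_zero]
    by_cases hm : phase_mid Λ E x y
    · rw [if_pos hm]
      have : Λ / 2 ≤ y - x := by
        rcases hm with ⟨m1, -⟩ | ⟨m1, -⟩ <;> linarith
      have := hA _ this
      linarith
    · have hfd : ‖kern Λ (y - x) 0 1‖ ≤ 4 / E := by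
        apply kern_fd hΛ zero_le_one hE0
        intro s hs0 hs1
        have hs2 : Λ ≤ Λ * Real.exp s := by
          have := Real.one_le_exp hs0
          exact le_mul_of_one_le_right hΛ.le this
        have hs3 : Λ * Real.exp s ≤ Real.exp 1 * Λ := by
          rw [mul_comm]
          exact mul_le_mul_of_nonneg_right (Real.exp_le_exp.mpr hs1) hΛ.le
        unfold phase_good at hg
        unfold phase_mid at hm
        push Not at hg hm
        obtain ⟨m1, m2⟩ := hm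
        rw [le_abs]
        by_cases c1 : Λ + E ≤ k * U - x
        · have g := hg c1
          have := m2 (by linarith)
          left; linarith
        · push Not at c1
          by_cases c2 : x + Λ - E ≤ y
          · have := m1 c2
            linarith
          · push Not at c2
            right; linarith
      linarith

open Classical in
lemma phase_mid_card (W : Finset ℝ) {Λ E ν : ℝ}
    (hν : ∀ z : ℝ, (#{t ∈ W | z ≤ t ∧ t ≤ z + 3 * E} : ℝ) ≤ ν) (x : ℝ) :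
    (#{y ∈ W | phase_mid Λ E x y} : ℝ) ≤ 2 * ν := by
  have hsub : {y ∈ W | phase_mid Λ E x y} ⊆
      {t ∈ W | x + Λ - E ≤ t ∧ t ≤ x + Λ - E + 3 * E} ∪
        {t ∈ W | x + Real.exp 1 * Λ - 2 * E ≤ t ∧ t ≤ x + Real.exp 1 * Λ - 2 * E + 3 * E} := by
    intro y hy
    rw [mem_filter] at hy
    rw [mem_union, mem_filter, mem_filter]
    rcases hy.2 with h | h
    · exact Or.inl ⟨hy.1, h⟩
    · exact Or.inr ⟨hy.1, h⟩
  have h1 := (card_le_card hsub).trans (card_union_le _ _)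
  have h2 := hν (x + Λ - E)
  have h3 := hν (x + Real.exp 1 * Λ - 2 * E)
  have h4 : (#{y ∈ W | phase_mid Λ E x y} : ℝ) ≤
      (#{t ∈ W | x + Λ - E ≤ t ∧ t ≤ x + Λ - E + 3 * E} : ℝ) +
        (#{t ∈ W | x + Real.exp 1 * Λ - 2 * E ≤ t ∧ t ≤ x + Real.exp 1 * Λ - 2 * E + 3 * E} : ℝ) := by
    exact_mod_cast h1
  linarith

open Classical in
lemma phase_main_cell (W : Finset ℝ) (β : ℝ → ℂ) (hβ : ∀ t ∈ W, ‖β t‖ ≤ 1) {Λ U E A : ℝ}
    (hΛ : 0 < Λ) (hU : 0 < U) (hUE : U ≤ E)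
    (hA : ∀ u, Λ / 2 ≤ u → ‖kern Λ u 0 1‖ ≤ A) (k : ℤ) :
    ‖∑ y ∈ inC W U k, ∑ x ∈ W, β y * (starRingEnd ℂ) (β x) * phase_main Λ U E k x y‖ ≤
      A * ∑ x ∈ W.filter (fun x => Λ ≤ k * U - x ∧ k * U - x ≤ 3 * Λ),
        ‖∑ y ∈ inC W U k, β y * ei (-(y * (Real.log Λ + 1))) *
          ei ((y - x) * Real.log (y - x))‖ := by
  have hE0 : 0 < E := lt_of_lt_of_le hU hUE
  have hA0 : 0 ≤ A := (norm_nonneg _).trans (hA Λ (by linarith))
  have he3 : Real.exp 1 * Λ ≤ 3 * Λ := mul_le_mul_of_nonneg_right phase_e_lt hΛ.le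
  rw [sum_comm, sum_filter, mul_sum]
  refine (norm_sum_le _ _).trans (sum_le_sum fun x hx => ?_)
  by_cases hg : phase_good Λ U E k x
  · have hc : Λ ≤ k * U - x ∧ k * U - x ≤ 3 * Λ := by
      obtain ⟨g1, g2⟩ := hg
      constructor <;> linarith
    rw [if_pos hc]
    have e : ∑ y ∈ inC W U k, β y * (starRingEnd ℂ) (β x) * phase_main Λ U E k x y =
        ((starRingEnd ℂ) (β x) * ei (x * (Real.log Λ + 1)) * phase_amp Λ (k * U - x)) *
          ∑ y ∈ inC W U k, β y * ei (-(y * (Real.log Λ + 1))) *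
            ei ((y - x) * Real.log (y - x)) := by
      rw [mul_sum]
      refine sum_congr rfl fun y _ => ?_
      rw [phase_main, if_pos hg]
      have : (y - x) * Real.log (y - x) - (y - x) * (Real.log Λ + 1) =
          x * (Real.log Λ + 1) + (-(y * (Real.log Λ + 1)) + (y - x) * Real.log (y - x)) := by
        ring
      rw [this, ei_add, ei_add]
      ring
    rw [e, norm_mul]
    refine mul_le_mul_of_nonneg_right ?_ (norm_nonneg _)
    rw [norm_mul, norm_mul, norm_ei, mul_one, phase_norm_amp, Complex.norm_conj]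
    have h1 := hA (k * U - x) (by linarith [hc.1])
    calc ‖β x‖ * ‖kern Λ (k * U - x) 0 1‖ ≤ 1 * A :=
          mul_le_mul (hβ x hx) h1 (norm_nonneg _) zero_le_one
      _ = A := one_mul A
  · have e : ∑ y ∈ inC W U k, β y * (starRingEnd ℂ) (β x) * phase_main Λ U E k x y = 0 := by
      refine sum_eq_zero fun y _ => ?_
      rw [phase_main, if_neg hg, mul_zero]
    rw [e, norm_zero]
    refine mul_nonneg hA0 ?_
    split_ifs
    · exact norm_nonneg _
    · exact le_rfl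

/-- HINT. Write the double sum as `∑ k ∈ occ W U, ∑ x ∈ W, conj (β x) * ∑ y ∈ inC W U k, β y * kern Λ (y - x) 0 1` (`sum_occ`). Call `(k, x)`
good if `Λ + E ≤ k U - x` and `k U - x + U ≤ e Λ - E`. For good pairs put `u0 = k U - x`, `a u = kern Λ u 0 1 * ei (-(u log (u/Λ) - u))`, so
`kern Λ u 0 1 = a u * ei (u log u) * ei (-u (log Λ + 1))`, replace `a (y - x)` by `a u0` (`kern_near`, `‖a u0‖ ≤ A`); good pairs occur in `PS`.
For the other pairs each `u = y - x` has `u ≤ Λ - E` or `u ≥ e Λ + E` (`kern_fd` with `l = E`), or lies in `[Λ - E, Λ + 2 E]` or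
`[e Λ - 2 E, e Λ + E]` (at most `2 ν` values of `y` for each `x`, use `hA`). -/
theorem phase_bound (W : Finset ℝ) (β : ℝ → ℂ) (hβ : ∀ t ∈ W, ‖β t‖ ≤ 1) {Λ ζ U E A ν : ℝ}
    (hΛ : 0 < Λ) (hζ : 0 < ζ) (hU : 0 < U) (hUE : U ≤ E) (hE : 3 * ζ * Λ ≤ E) (hEΛ : 2 * E ≤ Λ)
    (hA : ∀ u, Λ / 2 ≤ u → ‖kern Λ u 0 1‖ ≤ A)
    (hν : ∀ z : ℝ, (#{t ∈ W | z ≤ t ∧ t ≤ z + 3 * E} : ℝ) ≤ ν) :
    ‖∑ t ∈ W, ∑ t' ∈ W, β t * (starRingEnd ℂ) (β t') * kern Λ (t - t') 0 1‖ ≤
      A * PS W (fun y => β y * ei (-(y * (Real.log Λ + 1)))) Λ U +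
        (#W : ℝ) ^ 2 * (32 / (Λ * ζ) + 2 * ζ ^ 3 * U + 4 / E) + 2 * #W * ν * A := by
  classical
  have hA0 : 0 ≤ A := (norm_nonneg _).trans (hA Λ (by linarith))
  set D : ℝ := 32 / (Λ * ζ) + 2 * ζ ^ 3 * U + 4 / E with hD
  have hsplit : ∑ t ∈ W, ∑ t' ∈ W, β t * (starRingEnd ℂ) (β t') * kern Λ (t - t') 0 1 =
      ∑ y ∈ W, ∑ x ∈ W, β y * (starRingEnd ℂ) (β x) * phase_main Λ U E (cel U y) x y +
        ∑ y ∈ W, ∑ x ∈ W, β y * (starRingEnd ℂ) (β x) *
          (kern Λ (y - x) 0 1 - phase_main Λ U E (cel U y) x y) := by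
    rw [← sum_add_distrib]
    refine sum_congr rfl fun y _ => ?_
    rw [← sum_add_distrib]
    refine sum_congr rfl fun x _ => ?_
    ring
  have hmain : ‖∑ y ∈ W, ∑ x ∈ W, β y * (starRingEnd ℂ) (β x) * phase_main Λ U E (cel U y) x y‖ ≤
      A * PS W (fun y => β y * ei (-(y * (Real.log Λ + 1)))) Λ U := by
    rw [← sum_occ W U, PS, mul_sum]
    refine (norm_sum_le _ _).trans (sum_le_sum fun k _ => ?_)
    have e : ∑ y ∈ inC W U k, ∑ x ∈ W,
          β y * (starRingEnd ℂ) (β x) * phase_main Λ U E (cel U y) x y =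
        ∑ y ∈ inC W U k, ∑ x ∈ W, β y * (starRingEnd ℂ) (β x) * phase_main Λ U E k x y := by
      refine sum_congr rfl fun y hy => ?_
      rw [(mem_inC.mp hy).2]
    rw [e]
    exact phase_main_cell W β hβ hΛ hU hUE hA k
  have herr : ‖∑ y ∈ W, ∑ x ∈ W, β y * (starRingEnd ℂ) (β x) *
        (kern Λ (y - x) 0 1 - phase_main Λ U E (cel U y) x y)‖ ≤
      (#W : ℝ) ^ 2 * D + 2 * #W * ν * A := by
    rw [sum_comm]
    have h1 : ∀ x ∈ W, ‖∑ y ∈ W, β y * (starRingEnd ℂ) (β x) *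
        (kern Λ (y - x) 0 1 - phase_main Λ U E (cel U y) x y)‖ ≤ #W * D + 2 * ν * A := by
      intro x hx
      have h2 : ∀ y ∈ W, ‖β y * (starRingEnd ℂ) (β x) *
          (kern Λ (y - x) 0 1 - phase_main Λ U E (cel U y) x y)‖ ≤
          D + (if phase_mid Λ E x y then A else 0) := by
        intro y hy
        rw [norm_mul, norm_mul, Complex.norm_conj]
        have h3 : ‖β y‖ * ‖β x‖ ≤ 1 := mul_le_one₀ (hβ y hy) (norm_nonneg _) (hβ x hx)
        have h4 := phase_err hΛ hζ hU hUE hE hEΛ hA (cel U y) x y (cel_le hU y) (lt_cel hU y)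
        exact (mul_le_of_le_one_left (norm_nonneg _) h3).trans h4
      refine (norm_sum_le _ _).trans ((sum_le_sum h2).trans ?_)
      rw [sum_add_distrib, sum_const, nsmul_eq_mul, ← sum_filter, sum_const, nsmul_eq_mul]
      have h5 := mul_le_mul_of_nonneg_right (phase_mid_card W (Λ := Λ) hν x) hA0
      linarith
    refine (norm_sum_le _ _).trans ((sum_le_sum h1).trans ?_)
    rw [sum_const, nsmul_eq_mul]
    apply le_of_eq
    ring
  rw [hsplit]
  refine (norm_add_le _ _).trans ?_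
  linarith

end Pool.Agent.MP_71ac24_nt.H14
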