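import Pool.Agent.MP_71ac24_nt.H14.LS
import Pool.Agent.MP_71ac24_nt.H14.Kern
import Pool.Agent.MP_71ac24_nt.H14.Defs

/-! Halász's inequality with a Fejér majorant, and the consequence of flat coefficients. -/

set_option autoImplicit false

namespace Pool.Agent.MP_71ac24_nt.H14

open Finset Real

lemma hf_re_ei (x : ℝ) : (ei x).re = Real.cos x := by
  unfold ei
  rw [mul_comm, Complex.exp_ofReal_mul_I_re]

lemma hf_normsq {ι : Type*} (s : Finset ι) (c : ι → ℂ) :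
    ((‖∑ t ∈ s, c t‖ ^ 2 : ℝ) : ℂ) = ∑ t ∈ s, ∑ t' ∈ s, c t * (starRingEnd ℂ) (c t') := by
  rw [← Finset.sum_mul_sum, ← map_sum, Complex.mul_conj, Complex.normSq_eq_norm_sq]

lemma hf_fejer {ι : Type*} (s : Finset ι) (a : ι → ℝ) :
    ‖∑ j ∈ s, ei (a j)‖ ^ 2 = ∑ j ∈ s, ∑ j' ∈ s, Real.cos (a j - a j') := by
  have h := congrArg Complex.re (hf_normsq s fun j => ei (a j))
  rw [Complex.ofReal_re] at h
  rw [h, Complex.re_sum]
  refine Finset.sum_congr rfl fun j _ => ?_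
  rw [Complex.re_sum]
  refine Finset.sum_congr rfl fun j' _ => ?_
  rw [conj_ei, ← ei_add, hf_re_ei, sub_eq_add_neg]

lemma hf_low (M m : ℕ) (hM : 1 ≤ M) (v : ℝ) (h0 : (m : ℝ) ≤ v) (h1 : v ≤ m + 1 / (7 * M)) :
    (M : ℝ) ^ 2 / 4 ≤ ‖∑ j ∈ range M, ei (2 * π * j * v)‖ ^ 2 := by
  have hM' : (0 : ℝ) < M := by exact_mod_cast hM
  have key : ∀ j ∈ range M, (1 / 2 : ℝ) ≤ (ei (2 * π * j * v)).re := by
    intro j hj
    have hj' : (j : ℝ) ≤ M := by exact_mod_cast (Finset.mem_range.1 hj).le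
    have hj0 : (0 : ℝ) ≤ j := Nat.cast_nonneg j
    have e : 2 * π * j * v = 2 * π * (j * (v - m)) + ((j * m : ℕ) : ℝ) * (2 * π) := by
      push_cast; ring
    rw [hf_re_ei, e, Real.cos_add_nat_mul_two_pi]
    have a0 : 0 ≤ (j : ℝ) * (v - m) := mul_nonneg hj0 (by linarith)
    have a1 : (j : ℝ) * (v - m) ≤ 1 / 7 := by
      calc (j : ℝ) * (v - m) ≤ M * (1 / (7 * M)) :=
            mul_le_mul hj' (by linarith) (by linarith) hM'.le
        _ = 1 / 7 := by field_simp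
    have b0 : 0 ≤ 2 * π * (j * (v - m)) := by positivity
    have b1 : 2 * π * (j * (v - m)) ≤ 1 := by
      calc 2 * π * (j * (v - m)) ≤ 2 * 3.15 * (1 / 7) :=
            mul_le_mul (by linarith [Real.pi_lt_d2]) a1 a0 (by norm_num)
        _ ≤ 1 := by norm_num
    have c := Real.one_sub_sq_div_two_le_cos (x := 2 * π * (j * (v - m)))
    have d : (2 * π * (j * (v - m))) ^ 2 ≤ 1 := pow_le_one₀ b0 b1
    linarith
  have s1 : (M : ℝ) / 2 ≤ (∑ j ∈ range M, ei (2 * π * j * v)).re := by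
    rw [Complex.re_sum]
    have := Finset.sum_le_sum key
    simp only [Finset.sum_const, Finset.card_range, nsmul_eq_mul] at this
    linarith
  have s2 := s1.trans (Complex.re_le_norm _)
  calc (M : ℝ) ^ 2 / 4 = (M / 2) ^ 2 := by ring
    _ ≤ _ := pow_le_pow_left₀ (by positivity) s2 2

lemma hf_cont (W : Finset ℝ) (β : ℝ → ℂ) : Continuous fun x : ℝ => ∑ t ∈ W, β t * ei (t * x) :=
  continuous_finsetSum _ fun _ _ =>
    continuous_const.mul (continuous_ei.comp (continuous_const.mul continuous_id))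

lemma hf_kern (W : Finset ℝ) (β : ℝ → ℂ) (Λ p q : ℝ) :
    ∫ x in p..q, Real.cos (Λ * Real.exp x) * ‖∑ t ∈ W, β t * ei (t * x)‖ ^ 2 ≤
      ‖∑ t ∈ W, ∑ t' ∈ W, β t * (starRingEnd ℂ) (β t') * kern Λ (t - t') p q‖ := by
  have hc : ∀ t t' : ℝ, Continuous fun y : ℝ =>
      β t * (starRingEnd ℂ) (β t') * ei ((t - t') * y - Λ * Real.exp y) := fun t t' =>
    continuous_const.mul (continuous_ei.comp (by fun_prop))
  have hG := hf_cont W β
  have e1 : ∑ t ∈ W, ∑ t' ∈ W, β t * (starRingEnd ℂ) (β t') * kern Λ (t - t') p q =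
      ∫ x in p..q, ((‖∑ t ∈ W, β t * ei (t * x)‖ ^ 2 : ℝ) : ℂ) * ei (-(Λ * Real.exp x)) := by
    have e2 : ∀ x : ℝ, ((‖∑ t ∈ W, β t * ei (t * x)‖ ^ 2 : ℝ) : ℂ) * ei (-(Λ * Real.exp x)) =
        ∑ t ∈ W, ∑ t' ∈ W,
          β t * (starRingEnd ℂ) (β t') * ei ((t - t') * x - Λ * Real.exp x) := by
      intro x
      rw [hf_normsq, Finset.sum_mul]
      refine Finset.sum_congr rfl fun t _ => ?_
      rw [Finset.sum_mul]
      refine Finset.sum_congr rfl fun t' _ => ?_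
      have : (t - t') * x - Λ * Real.exp x = t * x + -(t' * x) + -(Λ * Real.exp x) := by ring
      rw [this, ei_add, ei_add, map_mul, conj_ei]
      ring
    simp only [e2]
    rw [intervalIntegral.integral_finsetSum fun t _ =>
      (continuous_finsetSum _ fun t' _ => hc t t').intervalIntegrable _ _]
    refine Finset.sum_congr rfl fun t _ => ?_
    rw [intervalIntegral.integral_finsetSum fun t' _ =>
      (hc t t').intervalIntegrable _ _]
    refine Finset.sum_congr rfl fun t' _ => ?_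
    rw [intervalIntegral.integral_const_mul, kern]
  rw [e1]
  refine le_trans (le_of_eq ?_) (Complex.re_le_norm _)
  have hi : IntervalIntegrable (fun x : ℝ => ((‖∑ t ∈ W, β t * ei (t * x)‖ ^ 2 : ℝ) : ℂ) *
      ei (-(Λ * Real.exp x))) MeasureTheory.volume p q :=
    ((Complex.continuous_ofReal.comp (hG.norm.pow 2)).mul
      (continuous_ei.comp (by fun_prop))).intervalIntegrable _ _
  have := Complex.reCLM.intervalIntegral_comp_comm hi
  simp only [Complex.reCLM_apply] at this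
  rw [← this]
  refine intervalIntegral.integral_congr fun x _ => ?_
  simp only [Complex.re_ofReal_mul, hf_re_ei, Real.cos_neg]
  ring

lemma hf_expand (N M : ℕ) (W : Finset ℝ) (β : ℝ → ℂ) (p q Bd : ℝ) (hB : 0 ≤ Bd)
    (hk : ∀ m : ℕ, 1 ≤ m → m < M → ‖∑ t ∈ W, ∑ t' ∈ W,
        β t * (starRingEnd ℂ) (β t') * kern (2 * π * m * N) (t - t') p q‖ ≤ Bd) :
    ∫ x in p..q, ‖∑ j ∈ range M, ei (2 * π * j * (N * Real.exp x))‖ ^ 2 *
        ‖∑ t ∈ W, β t * ei (t * x)‖ ^ 2 ≤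
      M * ((∫ y in p..q, ‖∑ t ∈ W, β t * ei (t * y)‖ ^ 2) + M * Bd) := by
  have hG := (hf_cont W β).norm.pow 2
  have hc : ∀ j j' : ℕ, Continuous fun x : ℝ =>
      Real.cos (2 * π * j * (N * Real.exp x) - 2 * π * j' * (N * Real.exp x)) *
        ‖∑ t ∈ W, β t * ei (t * x)‖ ^ 2 := fun j j' => Continuous.mul (by fun_prop) hG
  simp only [hf_fejer, Finset.sum_mul]
  rw [intervalIntegral.integral_finsetSum fun j _ =>
    (continuous_finsetSum _ fun j' _ => hc j j').intervalIntegrable _ _]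
  have one : ∀ j j' : ℕ, j' < j → j < M → ∫ x in p..q,
      Real.cos (2 * π * j * (N * Real.exp x) - 2 * π * j' * (N * Real.exp x)) *
        ‖∑ t ∈ W, β t * ei (t * x)‖ ^ 2 ≤ Bd := by
    intro j j' h1 h2
    refine le_trans (le_of_eq ?_)
      ((hf_kern W β _ p q).trans (hk (j - j') (by omega) (by omega)))
    refine intervalIntegral.integral_congr fun x _ => ?_
    simp only [Nat.cast_sub h1.le]
    congr 2
    ring
  have row : ∀ j ∈ range M, ∫ x in p..q, ∑ j' ∈ range M,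
      Real.cos (2 * π * j * (N * Real.exp x) - 2 * π * j' * (N * Real.exp x)) *
        ‖∑ t ∈ W, β t * ei (t * x)‖ ^ 2 ≤
      (∫ y in p..q, ‖∑ t ∈ W, β t * ei (t * y)‖ ^ 2) + M * Bd := by
    intro j hj
    rw [intervalIntegral.integral_finsetSum fun j' _ => (hc j j').intervalIntegrable _ _,
      ← Finset.add_sum_erase _ _ hj]
    refine add_le_add (le_of_eq ?_) ?_
    · simp only [sub_self, Real.cos_zero, one_mul]
    · refine (Finset.sum_le_card_nsmul _ _ Bd fun j' hj' => ?_).trans ?_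
      · obtain ⟨h1, h2⟩ := Finset.mem_erase.1 hj'
        rcases lt_or_gt_of_ne h1 with h | h
        · exact one j j' h (Finset.mem_range.1 hj)
        · refine le_trans (le_of_eq ?_) (one j' j h (Finset.mem_range.1 h2))
          refine intervalIntegral.integral_congr fun x _ => ?_
          rw [← Real.cos_neg, neg_sub]
      · rw [nsmul_eq_mul]
        refine mul_le_mul_of_nonneg_right ?_ hB
        have := Finset.card_erase_le (s := range M) (a := j)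
        rw [Finset.card_range] at this
        exact_mod_cast this
  have := Finset.sum_le_card_nsmul _ _ _ row
  rwa [Finset.card_range, nsmul_eq_mul] at this

lemma hf_gap (N a b : ℕ) (hN : 1 ≤ N) (ha : N < a) (hab : a < b) (hb : b ≤ 2 * N) :
    Real.log ((a : ℝ) / N) + 1 / (2 * N) ≤ Real.log ((b : ℝ) / N) := by
  have hN' : (0 : ℝ) < N := by exact_mod_cast hN
  have ha' : (0 : ℝ) < a := by exact_mod_cast (by omega : 0 < a)
  have hb' : (0 : ℝ) < b := by exact_mod_cast (by omega : 0 < b)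
  have h1 : (a : ℝ) + 1 ≤ b := by exact_mod_cast hab
  have h2 : (b : ℝ) ≤ 2 * N := by exact_mod_cast hb
  have h3 := Real.log_le_sub_one_of_pos (div_pos ha' hb')
  have h4 : (a : ℝ) / b - 1 ≤ -(1 / b) := by
    have : (a : ℝ) / b ≤ (b - 1) / b := div_le_div_of_nonneg_right (by linarith) hb'.le
    rw [sub_div, div_self hb'.ne'] at this
    linarith
  have h5 : 1 / (2 * (N : ℝ)) ≤ 1 / b := one_div_le_one_div_of_le hb' h2
  rw [Real.log_div ha'.ne' hb'.ne'] at h3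
  rw [Real.log_div ha'.ne' hN'.ne', Real.log_div hb'.ne' hN'.ne']
  linarith

lemma hf_win (N M m : ℕ) (hN : 1 ≤ N) (hM : 1 ≤ M) (h1 : N < m) (h2 : m ≤ 2 * N) (x : ℝ)
    (hx0 : Real.log ((m : ℝ) / N) ≤ x) (hx1 : x ≤ Real.log ((m : ℝ) / N) + 1 / (28 * M * N)) :
    (m : ℝ) ≤ N * Real.exp x ∧ N * Real.exp x ≤ m + 1 / (7 * M) := by
  have hN' : (1 : ℝ) ≤ N := by exact_mod_cast hN
  have hM' : (1 : ℝ) ≤ M := by exact_mod_cast hM
  have hm' : (0 : ℝ) < m := by exact_mod_cast (by omega : 0 < m)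
  have h2' : (m : ℝ) ≤ 2 * N := by exact_mod_cast h2
  have e : (N : ℝ) * Real.exp (Real.log ((m : ℝ) / N)) = m := by
    rw [Real.exp_log (by positivity)]
    field_simp
  constructor
  · rw [← e]
    exact mul_le_mul_of_nonneg_left (Real.exp_le_exp.2 hx0) (by positivity)
  · have hη0 : (0 : ℝ) ≤ 1 / (28 * M * N) := by positivity
    have hMN : (1 : ℝ) ≤ M * N := one_le_mul_of_one_le_of_one_le hM' hN'
    have hη1 : (1 : ℝ) / (28 * M * N) ≤ 1 := by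
      rw [div_le_one (by positivity)]
      linarith
    have hb := Real.abs_exp_sub_one_le (x := 1 / (28 * M * N)) (by rwa [abs_of_nonneg hη0])
    rw [abs_of_nonneg hη0] at hb
    have hb' : Real.exp (1 / (28 * M * N)) ≤ 1 + 2 * (1 / (28 * M * N)) := by
      linarith [le_abs_self (Real.exp (1 / (28 * M * N)) - 1)]
    calc N * Real.exp x ≤ N * Real.exp (Real.log ((m : ℝ) / N) + 1 / (28 * M * N)) :=
          mul_le_mul_of_nonneg_left (Real.exp_le_exp.2 hx1) (by positivity)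
      _ = m * Real.exp (1 / (28 * M * N)) := by rw [Real.exp_add, ← mul_assoc, e]
      _ ≤ m * (1 + 2 * (1 / (28 * M * N))) := mul_le_mul_of_nonneg_left hb' hm'.le
      _ = m + m * (2 * (1 / (28 * M * N))) := by ring
      _ ≤ m + 2 * N * (2 * (1 / (28 * M * N))) := by gcongr
      _ = m + 1 / (7 * M) := by field_simp; ring

/-- HINT. `η = 1 / (28 M N)`; apply `avg_rep` to the coefficients `β t * ei (t * log N)` at the points `y m = log (m / N)`. On the window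
`[y m, y m + η]` one has `m ≤ N e ^ y ≤ m + 1 / (7 M)`, so `Φ y = ‖∑ j ∈ range M, ei (2 π j N e ^ y)‖ ^ 2 ≥ M ^ 2 / 4` (real part, `cos x ≥ 1 - x ^ 2 / 2`,
`ei (2 π j m) = 1`). The windows are disjoint (`overlap` with `ν = 1`: `log m' - log m ≥ 1 / (2 N) > η`). Expand `Φ` as a double sum over `j, j'`; the `M`
diagonal terms give the integral, and each other term is the double sum with `kern (2 π |j - j'| N)` or its conjugate. -/
theorem hf (N M : ℕ) (hN : 1 ≤ N) (hM : 1 ≤ M) (W : Finset ℝ) (hr : ∀ t ∈ W, 0 ≤ t ∧ t ≤ M * N)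
    (β : ℝ → ℂ) (hβ : ∀ t ∈ W, ‖β t‖ ≤ 1) :
    ∃ β' : ℝ → ℂ, (∀ t ∈ W, ‖β' t‖ ≤ 1) ∧ ∀ (p q Bd : ℝ) (S : Finset ℕ), p ≤ q → 0 ≤ Bd →
      (∀ m ∈ S, N < m ∧ m ≤ 2 * N ∧ p ≤ Real.log ((m : ℝ) / N) ∧
        Real.log ((m : ℝ) / N) + 1 / (28 * M * N) ≤ q) →
      (∀ m : ℕ, 1 ≤ m → m < M → ‖∑ t ∈ W, ∑ t' ∈ W,
        β' t * (starRingEnd ℂ) (β' t') * kern (2 * π * m * N) (t - t') p q‖ ≤ Bd) →
      ∑ m ∈ S, ‖∑ t ∈ W, β t * ei (t * Real.log m)‖ ^ 2 ≤
        448 * N * ((∫ y in p..q, ‖∑ t ∈ W, β' t * ei (t * y)‖ ^ 2) + M * Bd) := by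
  have hN' : (0 : ℝ) < N := by exact_mod_cast hN
  have hM' : (0 : ℝ) < M := by exact_mod_cast hM
  have hη : (0 : ℝ) < 1 / (28 * M * N) := by positivity
  obtain ⟨β', hβ', hav⟩ := avg_rep W (fun t => t) (fun t => β t * ei (t * Real.log N))
    (fun t ht => by rw [norm_mul, norm_ei, mul_one]; exact hβ t ht) _ hη fun t ht => by
      rw [abs_of_nonneg (hr t ht).1, mul_one_div, div_le_one (by positivity)]
      have := (hr t ht).2
      have : (0 : ℝ) < M * N := by positivity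
      linarith
  refine ⟨β', hβ', fun p q Bd S hpq hB hS hk => ?_⟩
  have hG := (hf_cont W β').norm.pow 2
  have hF : Continuous fun x : ℝ => ‖∑ j ∈ range M, ei (2 * π * j * (N * Real.exp x))‖ ^ 2 *
      ‖∑ t ∈ W, β' t * ei (t * x)‖ ^ 2 :=
    ((continuous_finsetSum _ fun j _ => continuous_ei.comp (by fun_prop)).norm.pow 2).mul hG
  have hov := overlap S (fun m => Real.log ((m : ℝ) / N)) (1 / (28 * M * N)) p q 1 _ hF
    (fun x => by positivity) hη.le hpq (fun m hm => (hS m hm).2.2) fun z => by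
      have hlt : (1 : ℝ) / (28 * M * N) < 1 / (2 * N) := by
        refine one_div_lt_one_div_of_lt (by positivity) ?_
        have : (1 : ℝ) ≤ M := by exact_mod_cast hM
        exact mul_lt_mul_of_pos_right (by linarith) hN'
      refine Nat.cast_le_one.2 (Finset.card_le_one.2 fun a ha b hb => ?_)
      obtain ⟨ha, ha1, ha2⟩ := Finset.mem_filter.1 ha
      obtain ⟨hb, hb1, hb2⟩ := Finset.mem_filter.1 hb
      rcases lt_trichotomy a b with h | h | h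
      · have := hf_gap N a b hN (hS a ha).1 h (hS b hb).2.1
        linarith
      · exact h
      · have := hf_gap N b a hN (hS b hb).1 h (hS a ha).2.1
        linarith
  have pt : ∀ m ∈ S, ‖∑ t ∈ W, β t * ei (t * Real.log m)‖ ^ 2 ≤ 448 * N / M *
      ∫ x in Real.log ((m : ℝ) / N)..(Real.log ((m : ℝ) / N) + 1 / (28 * M * N)),
        ‖∑ j ∈ range M, ei (2 * π * j * (N * Real.exp x))‖ ^ 2 *
          ‖∑ t ∈ W, β' t * ei (t * x)‖ ^ 2 := by
    intro m hm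
    obtain ⟨h1, h2, -⟩ := hS m hm
    have hm' : (0 : ℝ) < m := by exact_mod_cast (by omega : 0 < m)
    have e : ∑ t ∈ W, β t * ei (t * Real.log m) =
        ∑ t ∈ W, β t * ei (t * Real.log N) * ei (t * Real.log ((m : ℝ) / N)) := by
      refine Finset.sum_congr rfl fun t _ => ?_
      rw [mul_assoc, ← ei_add, Real.log_div hm'.ne' hN'.ne']
      congr 2
      ring
    rw [e]
    refine (hav _).trans ?_
    have hi := intervalIntegral.integral_mono_on (μ := MeasureTheory.volume)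
      (a := Real.log ((m : ℝ) / N)) (b := Real.log ((m : ℝ) / N) + 1 / (28 * M * N))
      (f := fun x : ℝ => (M : ℝ) ^ 2 / 4 * ‖∑ t ∈ W, β' t * ei (t * x)‖ ^ 2) (by linarith)
      ((continuous_const.mul hG).intervalIntegrable _ _) (hF.intervalIntegrable _ _)
      fun x hx => by
        obtain ⟨w1, w2⟩ := hf_win N M m hN hM h1 h2 x hx.1 hx.2
        exact mul_le_mul_of_nonneg_right (hf_low M m hM _ w1 w2) (by positivity)
    rw [intervalIntegral.integral_const_mul] at hi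
    refine le_trans (le_of_eq ?_) (mul_le_mul_of_nonneg_left hi (by positivity))
    field_simp
    ring
  refine (Finset.sum_le_sum pt).trans ?_
  rw [← Finset.mul_sum]
  rw [one_mul] at hov
  refine (mul_le_mul_of_nonneg_left (hov.trans (hf_expand N M W β' p q Bd hB hk))
    (by positivity)).trans (le_of_eq ?_)
  field_simp

end Pool.Agent.MP_71ac24_nt.H14

/-! Consequences of flat coefficients. -/

set_option autoImplicit false

namespace Pool.Agent.MP_71ac24_nt.H14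

open Finset Real

lemma flat_count (S : Finset ℕ) (c r : ℝ) (hr : 0 ≤ r) :
    (#(S.filter fun m : ℕ => |(m : ℝ) - c| ≤ r) : ℝ) ≤ 2 * r + 1 := by
  have h1 : #(S.filter fun m : ℕ => |(m : ℝ) - c| ≤ r) ≤ #(Icc ⌈c - r⌉ ⌊c + r⌋) := by
    refine card_le_card_of_injOn (fun m : ℕ => (m : ℤ)) ?_ ?_
    · intro m hm
      obtain ⟨-, h⟩ := mem_filter.mp hm
      rw [abs_le] at h
      simp only [coe_Icc, Set.mem_Icc]
      constructor
      · rw [Int.ceil_le]; push_cast; linarith [h.1]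
      · rw [Int.le_floor]; push_cast; linarith [h.2]
    · intro a _ b _ h; exact Int.ofNat_inj.mp h
  have h2 : (#(Icc ⌈c - r⌉ ⌊c + r⌋) : ℝ) ≤ 2 * r + 1 := by
    rw [Int.card_Icc]
    have h3 := Int.le_ceil (c - r)
    have h4 := Int.floor_le (c + r)
    rcases le_total 0 (⌊c + r⌋ + 1 - ⌈c - r⌉) with h | h
    · have : ((⌊c + r⌋ + 1 - ⌈c - r⌉).toNat : ℝ) = ((⌊c + r⌋ + 1 - ⌈c - r⌉ : ℤ) : ℝ) := by
        exact_mod_cast Int.toNat_of_nonneg h
      rw [this]; push_cast; linarith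
    · rw [Int.toNat_eq_zero.mpr h]; push_cast; linarith
  exact le_trans (by exact_mod_cast h1) h2

lemma flat_int {W : Finset ℝ} (hW : Sep W) (β : ℝ → ℂ) (hβ : ∀ t ∈ W, ‖β t‖ ≤ 1) {Y : ℝ}
    (hY : 1 ≤ Y) :
    ∫ y in (0 : ℝ)..Y, ‖∑ t ∈ W, β t * ei (t * y)‖ ^ 2 ≤ 1020 * Y * #W := by
  have h := int_ls W (fun t => t) β hβ 0 Y (by linarith)
  rw [zero_add] at h
  have hY1 : 1 / Y ≤ 1 := by rw [div_le_one (by linarith)]; exact hY
  have h2 : #{p ∈ W ×ˢ W | |p.1 - p.2| ≤ 1 / Y} ≤ 3 * #W := by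
    refine le_trans (card_le_card ?_) hW.pairs_le
    intro p hp
    rw [mem_filter] at hp ⊢
    exact ⟨hp.1, hp.2.trans hY1⟩
  have h3 : (#{p ∈ W ×ˢ W | |p.1 - p.2| ≤ 1 / Y} : ℝ) ≤ 3 * #W := by exact_mod_cast h2
  refine h.trans ?_
  calc 340 * Y * (#{p ∈ W ×ˢ W | |p.1 - p.2| ≤ 1 / Y} : ℝ) ≤ 340 * Y * (3 * #W) :=
        mul_le_mul_of_nonneg_left h3 (by linarith)
    _ = 1020 * Y * #W := by ring

lemma flat_dsum (W : Finset ℝ) (β : ℝ → ℂ) (hβ : ∀ t ∈ W, ‖β t‖ ≤ 1) (k : ℝ → ℝ → ℂ) (B : ℝ)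
    (hk : ∀ t ∈ W, ∀ t' ∈ W, ‖k t t'‖ ≤ B) :
    ‖∑ t ∈ W, ∑ t' ∈ W, β t * (starRingEnd ℂ) (β t') * k t t'‖ ≤ (#W : ℝ) ^ 2 * B := by
  calc ‖∑ t ∈ W, ∑ t' ∈ W, β t * (starRingEnd ℂ) (β t') * k t t'‖
      ≤ ∑ t ∈ W, ∑ t' ∈ W, B := by
        refine (norm_sum_le _ _).trans (sum_le_sum fun t ht => ?_)
        refine (norm_sum_le _ _).trans (sum_le_sum fun t' ht' => ?_)
        rw [norm_mul, norm_mul, Complex.norm_conj]
        have h1 := hβ t ht
        have h2 := hβ t' ht'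
        have h3 : ‖β t‖ * ‖β t'‖ ≤ 1 := mul_le_one₀ h1 (norm_nonneg _) h2
        calc ‖β t‖ * ‖β t'‖ * ‖k t t'‖ ≤ 1 * ‖k t t'‖ :=
              mul_le_mul_of_nonneg_right h3 (norm_nonneg _)
          _ ≤ B := by rw [one_mul]; exact hk t ht t' ht'
    _ = (#W : ℝ) ^ 2 * B := by simp only [sum_const, nsmul_eq_mul]; ring

lemma flat_log {N m : ℕ} (hN : 1 ≤ N) (hm : m ∈ Ioc N (2 * N)) :
    0 ≤ Real.log ((m : ℝ) / N) ∧ Real.log ((m : ℝ) / N) ≤ 7 / 10 := by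
  obtain ⟨h1, h2⟩ := mem_Ioc.mp hm
  have hN0 : (0 : ℝ) < N := by exact_mod_cast hN
  have h1' : (N : ℝ) ≤ m := by exact_mod_cast h1.le
  have h2' : (m : ℝ) ≤ 2 * N := by exact_mod_cast h2
  constructor
  · exact Real.log_nonneg (by rw [le_div_iff₀ hN0]; linarith)
  · have : Real.log ((m : ℝ) / N) ≤ Real.log 2 :=
      Real.log_le_log (div_pos (by linarith) hN0) (by rw [div_le_iff₀ hN0]; linarith)
    linarith [Real.log_two_lt_d9]

/-- a block is good if the phase of the kernel has no stationary point near it -/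
def flat_good (N M : ℕ) (W : Finset ℝ) (U : ℝ) (i : ℕ) : Prop :=
  ∀ t ∈ W, ∀ t' ∈ W, ∀ j : ℕ, 1 ≤ j → j < M → ∀ y : ℝ, i * (U / N) ≤ y →
    y ≤ i * (U / N) + 2 * (U / N) → U ≤ |t - t' - 2 * π * j * N * Real.exp y|

/-- the block of `m` -/
noncomputable def flat_blk (N : ℕ) (U : ℝ) (m : ℕ) : ℕ := ⌊Real.log ((m : ℝ) / N) / (U / N)⌋₊

lemma flat_blk_spec {N m : ℕ} (hN : 1 ≤ N) {U : ℝ} (hU : 0 < U) (hm : m ∈ Ioc N (2 * N)) :
    flat_blk N U m * (U / N) ≤ Real.log ((m : ℝ) / N) ∧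
      Real.log ((m : ℝ) / N) ≤ flat_blk N U m * (U / N) + U / N := by
  have hN0 : (0 : ℝ) < N := by exact_mod_cast hN
  have hδ : 0 < U / N := div_pos hU hN0
  have h0 := (flat_log hN hm).1
  constructor
  · exact (le_div_iff₀ hδ).mp (Nat.floor_le (div_nonneg h0 hδ.le))
  · have := (div_lt_iff₀ hδ).mp (Nat.lt_floor_add_one (Real.log ((m : ℝ) / N) / (U / N)))
    unfold flat_blk
    linarith

open Classical in
lemma flat_good_sum (N M : ℕ) (hN : 1 ≤ N) (hM : 1 ≤ M) (W : Finset ℝ) (hW : Sep W)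
    (hr : ∀ t ∈ W, 0 ≤ t ∧ t ≤ M * N) (β : ℝ → ℂ) (hβ : ∀ t ∈ W, ‖β t‖ ≤ 1) (U : ℝ)
    (hU1 : 1 ≤ U) (hUN : U ≤ N) (hU : (M : ℝ) * #W * N ≤ U ^ 2) :
    ∑ m ∈ Ioc N (2 * N) with flat_good N M W U (flat_blk N U m),
      ‖∑ t ∈ W, β t * ei (t * Real.log m)‖ ^ 2 ≤ 4200000 * N * #W := by
  obtain ⟨β', hβ', H⟩ := hf N M hN hM W hr β hβ
  have hN0 : (0 : ℝ) < N := by exact_mod_cast hN
  have hM1 : (1 : ℝ) ≤ M := by exact_mod_cast hM
  have hU0 : 0 < U := by linarith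
  have hδ : 0 < U / N := div_pos hU0 hN0
  have hδ1 : U / N ≤ 1 := (div_le_one hN0).mpr hUN
  set δ := U / N with hδdef
  set G : ℝ → ℝ := fun y => ‖∑ t ∈ W, β' t * ei (t * y)‖ ^ 2 with hG
  have hGc : Continuous G := by
    have : ∀ t : ℝ, Continuous fun y : ℝ => β' t * ei (t * y) := fun t =>
      continuous_const.mul (continuous_ei.comp (continuous_const.mul continuous_id))
    exact ((continuous_finsetSum _ fun t _ => this t).norm).pow 2
  set P : Finset ℕ := {i ∈ range (⌊1 / δ⌋₊ + 1) | flat_good N M W U i} with hP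
  have hPi : ∀ i ∈ P, (i : ℝ) * δ ≤ 1 := by
    intro i hi
    have h1 : i ≤ ⌊1 / δ⌋₊ := Nat.lt_succ_iff.mp (mem_range.mp (mem_filter.mp hi).1)
    have h2 : (i : ℝ) ≤ 1 / δ :=
      le_trans (by exact_mod_cast h1) (Nat.floor_le (by positivity))
    exact (le_div_iff₀ hδ).mp h2
  have hPc : (#P : ℝ) * δ ≤ 2 := by
    have h1 : #P ≤ ⌊1 / δ⌋₊ + 1 := by
      exact (card_le_card (filter_subset _ _)).trans (card_range _).le
    have h2 : (#P : ℝ) ≤ 1 / δ + 1 := by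
      have : (#P : ℝ) ≤ (⌊1 / δ⌋₊ : ℝ) + 1 := by exact_mod_cast h1
      linarith [Nat.floor_le (show 0 ≤ 1 / δ by positivity)]
    calc (#P : ℝ) * δ ≤ (1 / δ + 1) * δ := mul_le_mul_of_nonneg_right h2 hδ.le
      _ = 1 + δ := by field_simp
      _ ≤ 2 := by linarith
  have hmaps : ∀ m ∈ (Ioc N (2 * N)).filter (fun m => flat_good N M W U (flat_blk N U m)),
      flat_blk N U m ∈ P := by
    intro m hm
    obtain ⟨hm, hg⟩ := mem_filter.mp hm
    refine mem_filter.mpr ⟨mem_range.mpr (Nat.lt_succ_iff.mpr ?_), hg⟩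
    refine Nat.floor_le_floor (div_le_div_of_nonneg_right ?_ hδ.le)
    linarith [(flat_log hN hm).2]
  rw [← sum_fiberwise_of_maps_to hmaps]
  have hη : 1 / (28 * (M : ℝ) * N) ≤ δ := by
    rw [hδdef, div_le_div_iff₀ (by positivity) hN0]
    have : (1 : ℝ) ≤ U * (28 * M) := one_le_mul_of_one_le_of_one_le hU1 (by linarith)
    calc 1 * (N : ℝ) ≤ U * (28 * M) * N := mul_le_mul_of_nonneg_right this hN0.le
      _ = U * (28 * M * N) := by ring
  have hblock : ∀ i ∈ P, ∑ m ∈ (Ioc N (2 * N)).filter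
      (fun m => flat_good N M W U (flat_blk N U m)) with flat_blk N U m = i,
      ‖∑ t ∈ W, β t * ei (t * Real.log m)‖ ^ 2 ≤
      448 * N * ((∫ y in (i * δ)..(i * δ + 2 * δ), G y) + M * ((#W : ℝ) ^ 2 * (4 / U))) := by
    intro i hi
    refine H (i * δ) (i * δ + 2 * δ) _ _ (by linarith) (by positivity) ?_ ?_
    · intro m hm
      obtain ⟨hm1, e⟩ := mem_filter.mp hm
      have hm2 := (mem_filter.mp hm1).1
      obtain ⟨h1, h2⟩ := flat_blk_spec hN hU0 hm2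
      rw [e] at h1 h2
      refine ⟨(mem_Ioc.mp hm2).1, (mem_Ioc.mp hm2).2, h1, ?_⟩
      linarith
    · intro j hj1 hjM
      refine flat_dsum W β' hβ' _ _ fun t ht t' ht' => ?_
      have hj0 : (0 : ℝ) < j := by exact_mod_cast hj1
      exact kern_fd (by positivity) (by linarith) hU0
        fun y h1 h2 => (mem_filter.mp hi).2 t ht t' ht' j hj1 hjM y h1 h2
  refine (sum_le_sum hblock).trans ?_
  rw [← mul_sum, sum_add_distrib, sum_const, nsmul_eq_mul]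
  have hov := overlap P (fun i => (i : ℝ) * δ) (2 * δ) 0 3 3 G hGc (fun x => sq_nonneg _)
    (by linarith) (by norm_num)
    (fun i hi => ⟨by positivity, by linarith [hPi i hi]⟩)
    (fun z => by
      have h := flat_count P (z / δ + 1) 1 zero_le_one
      refine le_trans ?_ (h.trans (by norm_num))
      refine Nat.cast_le.mpr (card_le_card fun i hi => ?_)
      rw [mem_filter] at hi ⊢
      refine ⟨hi.1, abs_le.mpr ⟨?_, ?_⟩⟩
      · have := (div_le_iff₀ hδ).mpr hi.2.1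
        linarith
      · have : (i : ℝ) - 2 ≤ z / δ := (le_div_iff₀ hδ).mpr (by linarith [hi.2.2])
        linarith)
  have hint := flat_int hW β' hβ' (Y := 3) (by norm_num)
  have hR : (0 : ℝ) ≤ #W := Nat.cast_nonneg _
  have hrest : (#P : ℝ) * (M * ((#W : ℝ) ^ 2 * (4 / U))) ≤ 8 * #W := by
    have e : (#P : ℝ) * (M * ((#W : ℝ) ^ 2 * (4 / U))) =
        (#P * δ) * (M * #W * N / U ^ 2) * (4 * #W) := by
      rw [hδdef]; field_simp
    have h1 : (M : ℝ) * #W * N / U ^ 2 ≤ 1 := (div_le_one (by positivity)).mpr hU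
    rw [e]
    have h2 : (#P * δ) * (M * #W * N / U ^ 2) ≤ 2 * 1 :=
      mul_le_mul hPc h1 (by positivity) (by norm_num)
    calc _ ≤ 2 * 1 * (4 * (#W : ℝ)) := mul_le_mul_of_nonneg_right h2 (by positivity)
      _ = 8 * #W := by ring
  calc 448 * (N : ℝ) * (∑ i ∈ P, (∫ y in (i * δ)..(i * δ + 2 * δ), G y) +
        #P * (M * ((#W : ℝ) ^ 2 * (4 / U)))) ≤ 448 * N * (9188 * #W) := by
        refine mul_le_mul_of_nonneg_left ?_ (by positivity)
        have : ∫ y in (0 : ℝ)..3, G y ≤ 1020 * 3 * #W := hint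
        linarith
    _ = 4116224 * (N * #W) := by ring
    _ ≤ 4200000 * (N * #W) := mul_le_mul_of_nonneg_right (by norm_num) (by positivity)
    _ = 4200000 * N * #W := by ring

open Classical in
lemma flat_bad_card (N M : ℕ) (hN : 1 ≤ N) (W : Finset ℝ) (U : ℝ) (hU1 : 1 ≤ U)
    (hUN : 2 ≤ M → 4 * U ≤ N) :
    (#{m ∈ Ioc N (2 * N) | ¬ flat_good N M W U (flat_blk N U m)} : ℝ) ≤
      19 * (#(occ W U) : ℝ) ^ 2 * M * U := by
  have hN0 : (0 : ℝ) < N := by exact_mod_cast hN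
  have hU0 : 0 < U := by linarith
  set T := (occ W U ×ˢ occ W U) ×ˢ range M with hT
  set f : (ℤ × ℤ) × ℕ → Finset ℕ := fun z =>
    {m ∈ Ioc N (2 * N) | |(m : ℝ) - (z.1.1 - z.1.2) * U / (2 * π * z.2)| ≤ 9 * U} with hf
  have hsub : {m ∈ Ioc N (2 * N) | ¬ flat_good N M W U (flat_blk N U m)} ⊆ T.biUnion f := by
    intro m hm
    obtain ⟨hm, hb⟩ := mem_filter.mp hm
    unfold flat_good at hb
    push Not at hb
    obtain ⟨t, ht, t', ht', j, hj1, hjM, y, hy1, hy2, hlt⟩ := hb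
    refine mem_biUnion.mpr ⟨((cel U t, cel U t'), j), ?_, mem_filter.mpr ⟨hm, ?_⟩⟩
    · exact mem_product.mpr ⟨mem_product.mpr ⟨mem_image_of_mem _ ht, mem_image_of_mem _ ht'⟩,
        mem_range.mpr hjM⟩
    have h4 := hUN (by omega)
    have hδ : U / N ≤ 1 / 4 := by rw [div_le_iff₀ hN0]; linarith
    obtain ⟨h1, h2⟩ := flat_blk_spec hN hU0 hm
    have hm0 : (0 : ℝ) < m := by exact_mod_cast lt_of_le_of_lt (Nat.zero_le _) (mem_Ioc.mp hm).1
    have hm2 : (m : ℝ) ≤ 2 * N := by exact_mod_cast (mem_Ioc.mp hm).2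
    have hδ0 : 0 < U / N := div_pos hU0 hN0
    have hs : |y - Real.log ((m : ℝ) / N)| ≤ 2 * (U / N) := abs_le.mpr ⟨by linarith, by linarith⟩
    have he := Real.abs_exp_sub_one_le (x := y - Real.log ((m : ℝ) / N)) (by linarith)
    have e1 : (N : ℝ) * Real.exp y - m = m * (Real.exp (y - Real.log ((m : ℝ) / N)) - 1) := by
      rw [Real.exp_sub, Real.exp_log (div_pos hm0 hN0)]; field_simp
    have h5 : |(N : ℝ) * Real.exp y - m| ≤ 8 * U := by
      rw [e1, abs_mul, abs_of_pos hm0]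
      calc (m : ℝ) * |Real.exp (y - Real.log ((m : ℝ) / N)) - 1| ≤ (2 * N) * (4 * (U / N)) :=
            mul_le_mul hm2 (by linarith) (abs_nonneg _) (by positivity)
        _ = 8 * U := by field_simp; norm_num
    have hj0 : (1 : ℝ) ≤ j := by exact_mod_cast hj1
    have hc : 2 ≤ 2 * π * j := by nlinarith [Real.pi_gt_three]
    have h6 : |((cel U t : ℝ) - cel U t') * U - 2 * π * j * N * Real.exp y| ≤ 2 * U := by
      have a1 := cel_le hU0 t
      have a2 := lt_cel hU0 t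
      have a3 := cel_le hU0 t'
      have a4 := lt_cel hU0 t'
      rw [abs_lt] at hlt
      rw [sub_mul]
      exact abs_le.mpr ⟨by linarith [hlt.1], by linarith [hlt.2]⟩
    have h7 : |(N : ℝ) * Real.exp y - ((cel U t : ℝ) - cel U t') * U / (2 * π * j)| ≤ U := by
      have e2 : (N : ℝ) * Real.exp y - ((cel U t : ℝ) - cel U t') * U / (2 * π * j) =
          -(((cel U t : ℝ) - cel U t') * U - 2 * π * j * N * Real.exp y) / (2 * π * j) := by
        field_simp; ring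
      rw [e2, abs_div, abs_neg, abs_of_pos (by linarith : 0 < 2 * π * j),
        div_le_iff₀ (by linarith)]
      calc _ ≤ U * 2 := by linarith
        _ ≤ U * (2 * π * j) := mul_le_mul_of_nonneg_left hc hU0.le
    rw [abs_le] at h5 h7
    exact abs_le.mpr ⟨by simp only; linarith [h5.2, h7.1], by simp only; linarith [h5.1, h7.2]⟩
  have h1 : (#{m ∈ Ioc N (2 * N) | ¬ flat_good N M W U (flat_blk N U m)} : ℝ) ≤
      ∑ z ∈ T, (#(f z) : ℝ) := by
    exact_mod_cast (card_le_card hsub).trans card_biUnion_le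
  refine h1.trans ?_
  calc ∑ z ∈ T, (#(f z) : ℝ) ≤ ∑ z ∈ T, 19 * U := by
        exact sum_le_sum fun z _ => (flat_count _ _ (9 * U) (by positivity)).trans (by linarith)
    _ = 19 * (#(occ W U) : ℝ) ^ 2 * M * U := by
        rw [sum_const, nsmul_eq_mul, hT, card_product, card_product, card_range]
        push_cast; ring

/-- HINT. `δ = U / N ≤ 1`, block of `m` := `i = ⌊log (m / N) / δ⌋₊ ≤ N / U`. Block `i` is good if `U ≤ |t - t' - 2 π m N e ^ y|` for all `t, t' ∈ W`, `1 ≤ m < M`,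
`y ∈ [i δ, i δ + 2 δ]`. For a good block `hf` with `p = i δ`, `q = i δ + 2 δ`, `Bd = 4 R ^ 2 / U` (`kern_fd`); sum over the at most `2 N / U` blocks, `overlap` (`η = 2 δ`, `ν = 3`, `[0,3]`),
`int_ls` with `Y = 3` and `Sep.pairs_le`: the good `m` have `∑ ‖F m‖ ^ 2 ≤ 448 N (9180 R + 8 R) ≤ 4200000 N R`.
A bad block comes from occupied cells `k, k'` and `m` with `|(k - k') U - 2 π m N e ^ y| < 2 U`; such `y ≥ 0` lie in a set of diameter `< δ`, so
each triple spoils at most 4 blocks; a block holds at most `5 U` integers `m ≤ 2 N`. So there are at most `20 K ^ 2 M U` bad `m`; use Cauchy-Schwarz and `mvt_dual` for them. -/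
theorem flat (N M : ℕ) (hN : 1 ≤ N) (hM : 1 ≤ M) (W : Finset ℝ) (hW : Sep W) (hne : W.Nonempty)
    (hr : ∀ t ∈ W, 0 ≤ t ∧ t ≤ M * N) (β : ℝ → ℂ) (hβ : ∀ t ∈ W, ‖β t‖ ≤ 1) (U : ℝ) (hU1 : 1 ≤ U)
    (hUN : U ≤ N) (hU : (M : ℝ) * #W * N ≤ U ^ 2)
    (hbig : 10 ^ 8 * (N : ℝ) ^ 2 * #W ≤
      (∑ m ∈ Ioc N (2 * N), ‖∑ t ∈ W, β t * ei (t * Real.log m)‖) ^ 2) :
    (N : ℝ) ≤ (#(occ W U) : ℝ) ^ 2 * (M : ℝ) ^ 2 * U := by
  classical
  by_contra hlt
  rw [not_le] at hlt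
  have hN0 : (0 : ℝ) < N := by exact_mod_cast hN
  have hM1 : (1 : ℝ) ≤ M := by exact_mod_cast hM
  have hR : (0 : ℝ) < #W := by exact_mod_cast hne.card_pos
  have hK : (1 : ℝ) ≤ #(occ W U) := by exact_mod_cast (hne.image (cel U)).card_pos
  have hUN4 : 2 ≤ M → 4 * U ≤ N := by
    intro h2
    have h2' : (2 : ℝ) ≤ M := by exact_mod_cast h2
    have a1 : (1 : ℝ) ≤ (#(occ W U) : ℝ) ^ 2 := one_le_pow₀ hK
    have a2 : (4 : ℝ) ≤ (M : ℝ) ^ 2 := by nlinarith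
    have a3 : (1 : ℝ) * 4 ≤ (#(occ W U) : ℝ) ^ 2 * (M : ℝ) ^ 2 :=
      mul_le_mul a1 a2 (by norm_num) (by positivity)
    have a4 := mul_le_mul_of_nonneg_right a3 (show 0 ≤ U by linarith)
    linarith
  set F : ℕ → ℝ := fun m => ‖∑ t ∈ W, β t * ei (t * Real.log m)‖ with hF
  set g : ℕ → Prop := fun m => flat_good N M W U (flat_blk N U m) with hg
  have hgood : (∑ m ∈ Ioc N (2 * N) with g m, F m) ^ 2 ≤ 4200000 * ((N : ℝ) ^ 2 * #W) := by
    refine sq_sum_le_card_mul_sum_sq.trans ?_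
    have a1 : (#{m ∈ Ioc N (2 * N) | g m} : ℝ) ≤ N := by
      have := card_le_card (filter_subset g (Ioc N (2 * N)))
      rw [Nat.card_Ioc] at this
      exact_mod_cast this.trans (by omega)
    have a2 := flat_good_sum N M hN hM W hW hr β hβ U hU1 hUN hU
    calc _ ≤ (N : ℝ) * (4200000 * N * #W) :=
          mul_le_mul a1 a2 (sum_nonneg fun _ _ => sq_nonneg _) hN0.le
      _ = _ := by ring
  have hbad : (∑ m ∈ Ioc N (2 * N) with ¬ g m, F m) ^ 2 ≤ 684000 * ((N : ℝ) ^ 2 * #W) := by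
    refine sq_sum_le_card_mul_sum_sq.trans ?_
    have a1 := flat_bad_card N M hN W U hU1 hUN4
    have a2 : ∑ m ∈ Ioc N (2 * N) with ¬ g m, F m ^ 2 ≤ 36000 * M * N * #W :=
      le_trans (sum_le_sum_of_subset_of_nonneg (filter_subset _ _) fun _ _ _ => sq_nonneg _)
        (mvt_dual N M hN hM W hW hr β hβ)
    calc _ ≤ (19 * (#(occ W U) : ℝ) ^ 2 * M * U) * (36000 * M * N * #W) :=
          mul_le_mul a1 a2 (sum_nonneg fun _ _ => sq_nonneg _) (by positivity)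
      _ = ((#(occ W U) : ℝ) ^ 2 * (M : ℝ) ^ 2 * U) * (684000 * N * #W) := by ring
      _ ≤ N * (684000 * N * #W) := mul_le_mul_of_nonneg_right hlt.le (by positivity)
      _ = _ := by ring
  rw [← sum_filter_add_sum_filter_not (Ioc N (2 * N)) g, mul_assoc] at hbig
  have hpos : 0 < (N : ℝ) ^ 2 * #W := by positivity
  have hsq := sq_nonneg ((∑ m ∈ Ioc N (2 * N) with g m, F m) -
    ∑ m ∈ Ioc N (2 * N) with ¬ g m, F m)
  generalize (∑ m ∈ Ioc N (2 * N) with g m, F m) = a at *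
  generalize (∑ m ∈ Ioc N (2 * N) with ¬ g m, F m) = b at *
  generalize (N : ℝ) ^ 2 * #W = X at *
  have e : (a + b) ^ 2 + (a - b) ^ 2 = 2 * a ^ 2 + 2 * b ^ 2 := by ring
  norm_num at hbig
  linarith

/-- HINT. `hf` with `p = 0`, `q = 1`, `S = Ioc N (2 N)`, `Bd = R / M`, Cauchy-Schwarz, `int_ls` with `Y = 1`, `Sep.pairs_le`. -/
theorem exists_big (N M : ℕ) (hN : 1 ≤ N) (hM : 1 ≤ M) (W : Finset ℝ) (hW : Sep W) (hne : W.Nonempty)
    (hr : ∀ t ∈ W, 0 ≤ t ∧ t ≤ M * N) (β : ℝ → ℂ) (hβ : ∀ t ∈ W, ‖β t‖ ≤ 1)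
    (hbig : 10 ^ 8 * (N : ℝ) ^ 2 * #W ≤
      (∑ m ∈ Ioc N (2 * N), ‖∑ t ∈ W, β t * ei (t * Real.log m)‖) ^ 2) :
    ∃ (β' : ℝ → ℂ) (m : ℕ), (∀ t ∈ W, ‖β' t‖ ≤ 1) ∧ 1 ≤ m ∧ m < M ∧
      (#W : ℝ) / M ≤ ‖∑ t ∈ W, ∑ t' ∈ W,
        β' t * (starRingEnd ℂ) (β' t') * kern (2 * π * m * N) (t - t') 0 1‖ := by
  obtain ⟨β', hβ', H⟩ := hf N M hN hM W hr β hβ
  by_contra hcon
  have hN0 : (0 : ℝ) < N := by exact_mod_cast hN
  have hM1 : (1 : ℝ) ≤ M := by exact_mod_cast hM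
  have hN1 : (1 : ℝ) ≤ N := by exact_mod_cast hN
  have hR : (0 : ℝ) < #W := by exact_mod_cast hne.card_pos
  have hη : 1 / (28 * (M : ℝ) * N) ≤ 1 / 28 := by
    refine one_div_le_one_div_of_le (by norm_num) ?_
    have := one_le_mul_of_one_le_of_one_le hM1 hN1
    linarith [mul_assoc (28 : ℝ) M N]
  have h1 := H 0 1 (#W / M) (Ioc N (2 * N)) zero_le_one (by positivity)
    (fun m hm => ⟨(mem_Ioc.mp hm).1, (mem_Ioc.mp hm).2, (flat_log hN hm).1,
      by linarith [(flat_log hN hm).2]⟩)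
    (fun m h1 h2 => by
      by_contra h
      exact hcon ⟨β', m, hβ', h1, h2, (not_le.mp h).le⟩)
  have h2 := flat_int hW β' hβ' (Y := 1) le_rfl
  have e : (M : ℝ) * (#W / M) = #W := by field_simp
  rw [e] at h1
  have h3 : (∑ m ∈ Ioc N (2 * N), ‖∑ t ∈ W, β t * ei (t * Real.log m)‖) ^ 2 ≤
      457408 * ((N : ℝ) ^ 2 * #W) := by
    refine sq_sum_le_card_mul_sum_sq.trans ?_
    have a1 : (#(Ioc N (2 * N)) : ℝ) = N := by
      rw [Nat.card_Ioc]; congr 1; omega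
    rw [a1]
    calc _ ≤ (N : ℝ) * (448 * N * (1021 * #W)) := by
          refine mul_le_mul_of_nonneg_left (h1.trans ?_) hN0.le
          exact mul_le_mul_of_nonneg_left (by linarith) (by positivity)
      _ = _ := by ring
  have hpos : 0 < (N : ℝ) ^ 2 * #W := by positivity
  rw [mul_assoc] at hbig
  generalize (N : ℝ) ^ 2 * #W = X at *
  norm_num at hbig
  linarith

end Pool.Agent.MP_71ac24_nt.H14

/-! The analytic reduction to `World`, level sets and dyadic blocks. -/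

set_option autoImplicit false

namespace Pool.Agent.MP_71ac24_nt.H14

open Finset

theorem level_big {N : ℕ} (W : Finset ℝ) (a : ℕ → ℂ) (ha : ∀ m, ‖a m‖ ≤ 1) (V : ℝ)
    (hD : ∀ t ∈ W, V ≤ ‖∑ m ∈ Ioc N (2 * N), a m * ei (t * Real.log m)‖) :
    ∃ β : ℝ → ℂ, (∀ t ∈ W, ‖β t‖ ≤ 1) ∧
      #W * V ≤ ∑ m ∈ Ioc N (2 * N), ‖∑ t ∈ W, β t * ei (t * Real.log m)‖ := by
  have h1 : ∀ z : ℂ, ∃ b : ℂ, ‖b‖ ≤ 1 ∧ b * z = ‖z‖ := by
    intro z
    by_cases hz : z = 0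
    · exact ⟨0, by simp, by simp [hz]⟩
    · have h2 : (‖z‖ : ℂ) ≠ 0 := by simpa using hz
      refine ⟨(starRingEnd ℂ) z / ‖z‖, ?_, ?_⟩
      · rw [norm_div, Complex.norm_conj, Complex.norm_real, norm_norm]
        exact div_self_le_one _
      · rw [div_mul_eq_mul_div, Complex.conj_mul', div_eq_iff h2, sq]
  choose b hb1 hb2 using h1
  refine ⟨fun t => b (∑ m ∈ Ioc N (2 * N), a m * ei (t * Real.log m)), fun t _ => hb1 _, ?_⟩
  set β : ℝ → ℂ := fun t => b (∑ m ∈ Ioc N (2 * N), a m * ei (t * Real.log m)) with hβ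
  have h2 : ((∑ t ∈ W, ‖∑ m ∈ Ioc N (2 * N), a m * ei (t * Real.log m)‖ : ℝ) : ℂ) =
      ∑ m ∈ Ioc N (2 * N), a m * ∑ t ∈ W, β t * ei (t * Real.log m) := by
    rw [Complex.ofReal_sum]
    simp only [Finset.mul_sum]
    rw [Finset.sum_comm]
    refine Finset.sum_congr rfl fun t _ => ?_
    rw [← hb2, Finset.mul_sum]
    refine Finset.sum_congr rfl fun m _ => ?_
    simp only [hβ]
    ring
  calc #W * V = ∑ _t ∈ W, V := by rw [Finset.sum_const, nsmul_eq_mul]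
    _ ≤ ∑ t ∈ W, ‖∑ m ∈ Ioc N (2 * N), a m * ei (t * Real.log m)‖ := Finset.sum_le_sum hD
    _ ≤ ‖((∑ t ∈ W, ‖∑ m ∈ Ioc N (2 * N), a m * ei (t * Real.log m)‖ : ℝ) : ℂ)‖ := by
        rw [Complex.norm_real]
        exact le_abs_self _
    _ ≤ _ := by
        rw [h2]
        refine (norm_sum_le _ _).trans (Finset.sum_le_sum fun m _ => ?_)
        rw [norm_mul]
        exact mul_le_of_le_one_left (norm_nonneg _) (ha m)

theorem level_err {D X R Λ U : ℝ} (hD : 10 ^ 9 ≤ D) (hX : D ^ 5 ≤ X) (hR0 : 0 ≤ R)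
    (hR : R ≤ X ^ 10 * D) (hΛ : X ^ 20 ≤ Λ) (hU : U ≤ X ^ 12) :
    R ^ 2 * (32 / (Λ * (1 / X ^ 9)) + 2 * (1 / X ^ 9) ^ 3 * U + 4 / X ^ 18) +
      2 * R * (8 * (R * D / X)) * (34 / X ^ 10) ≤ R / (2 * D) := by
  have hD1 : 1 ≤ D := le_trans (by norm_num) hD
  have hD0 : 0 < D := by linarith
  have hX1 : 1 ≤ X := (one_le_pow₀ hD1).trans hX
  have hX0 : 0 < X := by linarith
  have h1 : 32 / (Λ * (1 / X ^ 9)) ≤ 32 / X ^ 11 := by
    refine div_le_div_of_nonneg_left (by norm_num) (by positivity) ?_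
    rw [mul_one_div, le_div_iff₀ (by positivity), ← pow_add]
    exact hΛ
  have h2 : 2 * (1 / X ^ 9) ^ 3 * U ≤ 2 / X ^ 11 := by
    have h3 : X ^ 12 * X ^ 11 ≤ (X ^ 9) ^ 3 := by
      rw [← pow_add, ← pow_mul]
      exact pow_le_pow_right₀ hX1 (by norm_num)
    have h4 : U * X ^ 11 ≤ (X ^ 9) ^ 3 :=
      (mul_le_mul_of_nonneg_right hU (by positivity)).trans h3
    rw [one_div, inv_pow, mul_assoc, inv_mul_eq_div, ← mul_div_assoc,
      div_le_div_iff₀ (by positivity) (by positivity)]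
    linarith
  have h3 : 4 / X ^ 18 ≤ 4 / X ^ 11 :=
    div_le_div_of_nonneg_left (by norm_num) (by positivity) (pow_le_pow_right₀ hX1 (by norm_num))
  have h4 : R / X ^ 10 ≤ D := by
    rw [div_le_iff₀ (by positivity), mul_comm]
    exact hR
  have h5 : R ^ 2 * (32 / (Λ * (1 / X ^ 9)) + 2 * (1 / X ^ 9) ^ 3 * U + 4 / X ^ 18) ≤
      R * (38 * D / X) := by
    calc _ ≤ R ^ 2 * (32 / X ^ 11 + 2 / X ^ 11 + 4 / X ^ 11) :=
          mul_le_mul_of_nonneg_left (add_le_add (add_le_add h1 h2) h3) (by positivity)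
      _ = R * (38 * (R / X ^ 10) / X) := by
          field_simp
          norm_num
      _ ≤ _ := by gcongr
  have h6 : 2 * R * (8 * (R * D / X)) * (34 / X ^ 10) ≤ R * (544 * D * D / X) := by
    calc _ = R * (544 * D * (R / X ^ 10) / X) := by ring
      _ ≤ _ := by gcongr
  have h7 : 38 * D / X + 544 * D * D / X ≤ 1 / (2 * D) := by
    rw [← add_div, div_le_div_iff₀ hX0 (by positivity), one_mul]
    refine le_trans ?_ hX
    have h8 : D * D ≤ D * D * D := le_mul_of_one_le_right (by positivity) hD1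
    have h9 : 1164 ≤ D * D := by nlinarith
    have h10 := mul_le_mul_of_nonneg_right h9 (show 0 ≤ D * D * D by positivity)
    calc (38 * D + 544 * D * D) * (2 * D) = 76 * (D * D) + 1088 * (D * D * D) := by ring
      _ ≤ D * D * (D * D * D) := by linarith
      _ = D ^ 5 := by ring
  calc _ ≤ R * (38 * D / X) + R * (544 * D * D / X) := add_le_add h5 h6
    _ = R * (38 * D / X + 544 * D * D / X) := by ring
    _ ≤ R * (1 / (2 * D)) := mul_le_mul_of_nonneg_left h7 hR0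
    _ = R / (2 * D) := mul_one_div _ _

theorem level_fin {D X R P e : ℝ} (hD : 10 ^ 9 ≤ D) (hX : 0 < X) (hP : 0 ≤ P)
    (h : R / D ≤ 34 / X * P + e) (he : e ≤ R / (2 * D)) : X * R ≤ D ^ 2 * P := by
  have hD0 : 0 < D := lt_of_lt_of_le (by norm_num) hD
  have h1 : R / (2 * D) ≤ 34 / X * P := by
    have h2 : R / D = R / (2 * D) + R / (2 * D) := by
      field_simp
      norm_num
    linarith
  rw [div_mul_eq_mul_div, div_le_div_iff₀ (by positivity) hX] at h1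
  have h3 : 68 * (D * P) ≤ D * (D * P) :=
    mul_le_mul_of_nonneg_right (le_trans (by norm_num) hD) (by positivity)
  calc X * R = R * X := mul_comm _ _
    _ ≤ 34 * P * (2 * D) := h1
    _ = 68 * (D * P) := by ring
    _ ≤ D * (D * P) := h3
    _ = D ^ 2 * P := by ring

theorem level_PS_nonneg (W : Finset ℝ) (β : ℝ → ℂ) (Λ U : ℝ) : 0 ≤ PS W β Λ U :=
  Finset.sum_nonneg fun _ _ => Finset.sum_nonneg fun _ _ => norm_nonneg _

theorem level_ps {Δ s : ℕ} (hs : 5 ≤ s) (hΔ : 10 ^ 9 ≤ Δ) (W : Finset ℝ)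
    (hc : (#W : ℝ) ≤ (Δ : ℝ) ^ (10 * s + 1)) (n : ℕ → ℝ) (hu : Unif W Δ (20 * s) n) {Λ : ℝ}
    (hlo : (Δ : ℝ) ^ (20 * s) ≤ Λ) (hhi : Λ ≤ (Δ : ℝ) ^ (20 * s + 3))
    (hfro : n (18 * s) ^ 2 * (Δ : ℝ) ^ (20 * s) ≤ (#W : ℝ) ^ 2 * (Δ : ℝ) ^ (18 * s + 2))
    (β : ℝ → ℂ) (hβ : ∀ t ∈ W, ‖β t‖ ≤ 1)
    (hb : (#W : ℝ) / Δ ≤ ‖∑ t ∈ W, ∑ t' ∈ W, β t * (starRingEnd ℂ) (β t') * kern Λ (t - t') 0 1‖)
    (j : ℕ) (hj : j ≤ 12 * s) :
    ∃ β : ℝ → ℂ, (∀ t ∈ W, ‖β t‖ ≤ 1) ∧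
      (Δ : ℝ) ^ (10 * s) * #W ≤ (Δ : ℝ) ^ 2 * PS W β Λ ((Δ : ℝ) ^ j) := by
  have hD : (10 : ℝ) ^ 9 ≤ Δ := by exact_mod_cast hΔ
  have hΔ1 : 1 ≤ Δ := le_trans (by norm_num) hΔ
  have hD1 : (1 : ℝ) ≤ Δ := by exact_mod_cast hΔ1
  have hD0 : (0 : ℝ) < Δ := by linarith
  obtain ⟨X, hXd⟩ : ∃ X : ℝ, X = (Δ : ℝ) ^ s := ⟨_, rfl⟩
  have hp : ∀ k : ℕ, (Δ : ℝ) ^ (k * s) = X ^ k := fun k => by rw [hXd, ← pow_mul, mul_comm]
  have hX5 : (Δ : ℝ) ^ 5 ≤ X := by
    rw [hXd]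
    exact pow_le_pow_right₀ hD1 hs
  have hX1 : 1 ≤ X := (one_le_pow₀ hD1).trans hX5
  have hX0 : 0 < X := by linarith
  have hX3 : 3 ≤ X := by
    have h1 : (Δ : ℝ) ^ 1 ≤ (Δ : ℝ) ^ 5 := pow_le_pow_right₀ hD1 (by norm_num)
    rw [pow_one] at h1
    have h2 : (3 : ℝ) ≤ Δ := le_trans (by norm_num) hD
    linarith
  have hU : (Δ : ℝ) ^ j ≤ X ^ 12 := by
    rw [← hp]
    exact pow_le_pow_right₀ hD1 hj
  rw [pow_succ, hp] at hc
  rw [hp] at hlo
  rw [pow_add, hp] at hhi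
  rw [pow_add, hp, hp] at hfro
  have hΛ0 : 0 < Λ := lt_of_lt_of_le (by positivity) hlo
  have hn : n (18 * s) ≤ #W * Δ / X := by
    rw [le_div_iff₀ hX0]
    refine le_of_sq_le_sq ?_ (by positivity)
    refine le_of_mul_le_mul_right ?_ (show 0 < X ^ 18 by positivity)
    calc (n (18 * s) * X) ^ 2 * X ^ 18 = n (18 * s) ^ 2 * X ^ 20 := by ring
      _ ≤ _ := hfro
      _ = _ := by ring
  have hA : ∀ u, Λ / 2 ≤ u → ‖kern Λ u 0 1‖ ≤ 34 / X ^ 10 := by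
    intro u hu
    have h1 := kern_le (ζ := 1 / X ^ 10) hΛ0 hu (by positivity)
      (by rw [div_le_one (by positivity)]; exact one_le_pow₀ hX1)
    have h2 : 32 / (Λ * (1 / X ^ 10)) ≤ 32 / X ^ 10 := by
      refine div_le_div_of_nonneg_left (by norm_num) (by positivity) ?_
      rw [mul_one_div, le_div_iff₀ (by positivity), ← pow_add]
      exact hlo
    have h3 : 34 / X ^ 10 = 2 * (1 / X ^ 10) + 32 / X ^ 10 := by ring
    linarith
  have hν : ∀ z : ℝ, (#{t ∈ W | z ≤ t ∧ t ≤ z + 3 * X ^ 18} : ℝ) ≤ 8 * (#W * Δ / X) := by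
    intro z
    have h1 := hu.count hΔ1 (j := 18 * s) (by omega) z 3
    rw [hp] at h1
    simp only [Nat.cast_ofNat] at h1
    linarith
  have hE : 3 * (1 / X ^ 9) * Λ ≤ X ^ 18 := by
    have h1 : (Δ : ℝ) ^ 3 ≤ X := (pow_le_pow_right₀ hD1 (by norm_num)).trans hX5
    have h2 : Λ ≤ X ^ 20 * X := hhi.trans (mul_le_mul_of_nonneg_left h1 (by positivity))
    rw [mul_one_div, div_mul_eq_mul_div, div_le_iff₀ (by positivity)]
    calc 3 * Λ ≤ X * (X ^ 20 * X) := mul_le_mul hX3 h2 hΛ0.le hX0.le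
      _ = X ^ 22 := by ring
      _ ≤ X ^ 27 := pow_le_pow_right₀ hX1 (by norm_num)
      _ = X ^ 18 * X ^ 9 := by ring
  have hEΛ : 2 * X ^ 18 ≤ Λ := by
    calc 2 * X ^ 18 ≤ X * X ^ 18 := mul_le_mul_of_nonneg_right (by linarith) (by positivity)
      _ = X ^ 19 := by ring
      _ ≤ X ^ 20 := pow_le_pow_right₀ hX1 (by norm_num)
      _ ≤ Λ := hlo
  have hph := phase_bound W β hβ (ζ := 1 / X ^ 9) (U := (Δ : ℝ) ^ j) (E := X ^ 18) hΛ0
    (by positivity) (by positivity) (hU.trans (pow_le_pow_right₀ hX1 (by norm_num))) hE hEΛ hA hν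
  refine ⟨fun y => β y * ei (-(y * (Real.log Λ + 1))), fun t ht => ?_, ?_⟩
  · rw [norm_mul, norm_ei, mul_one]
    exact hβ t ht
  · rw [hp]
    rw [add_assoc] at hph
    exact level_fin hD (by positivity) (level_PS_nonneg _ _ _ _) (hb.trans hph)
      (level_err hD hX5 (Nat.cast_nonneg _) hc hlo hU)

/-- HINT. Suppose not. `β t = conj (D t) / ‖D t‖` (or `0`), so `#W * V ≤ ∑ t, ‖D t‖ = ‖∑ m, a m * F m‖ ≤ ∑ m, ‖F m‖` with `F m = ∑ t, β t * ei (t log m)`; this gives the hypothesis `hbig` of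
`flat` and `exists_big` with `M = Δ`. Build a `World` with `Λ = 2 π m N`. `fro`: `flat` with `U = Δ ^ j` (`Δ * Δ ^ (10 s + 1) * Δ ^ (20 s + 1) ≤ Δ ^ (32 s)`) and `Unif.occ_le`.
`ps`: `phase_bound` with `ζ = 1 / Δ ^ (9 s)`, `E = Δ ^ (18 s)`, `U = Δ ^ j`, `ν = 8 n (18 s) ≤ 8 R Δ / Δ ^ s` (`Unif.count`, `fro`), `A = 34 / sqrt Λ ≤ 14 / Δ ^ (10 s)` (`kern_le` with `ζ = 1 / sqrt Λ`,
`Λ ≥ 6 N`); the error terms are at most `R / (2 Δ)`, so `R / (2 Δ) ≤ 14 PS / Δ ^ (10 s)`. -/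
theorem level_unif {Δ s N : ℕ} (hs : 5 ≤ s) (hW0 : ∀ (W : Finset ℝ) (n : ℕ → ℝ) (Λ : ℝ), ¬ World Δ s W n Λ)
    (hΔ : 10 ^ 9 ≤ Δ) (hN1 : Δ ^ (20 * s) ≤ N) (hN2 : N ≤ Δ ^ (20 * s + 1)) (W : Finset ℝ)
    (hW : Sep W) (hr : ∀ t ∈ W, 0 ≤ t ∧ t ≤ Δ * N) (hc : (#W : ℝ) ≤ (Δ : ℝ) ^ (10 * s + 1))
    (n : ℕ → ℝ) (hu : Unif W Δ (20 * s) n) (a : ℕ → ℂ) (ha : ∀ m, ‖a m‖ ≤ 1) (V : ℝ) (hV : 0 ≤ V)
    (hD : ∀ t ∈ W, V ≤ ‖∑ m ∈ Ioc N (2 * N), a m * ei (t * Real.log m)‖) :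
    #W * V ^ 2 ≤ 10 ^ 8 * (N : ℝ) ^ 2 := by
  by_contra hcon
  rw [not_le] at hcon
  have hΔ1 : 1 ≤ Δ := le_trans (by norm_num) hΔ
  have hD9 : (10 : ℝ) ^ 9 ≤ Δ := by exact_mod_cast hΔ
  have hD1 : (1 : ℝ) ≤ Δ := by exact_mod_cast hΔ1
  have hD0 : (0 : ℝ) < Δ := by linarith
  have hN : 1 ≤ N := (Nat.one_le_pow _ _ hΔ1).trans hN1
  have hN1' : (Δ : ℝ) ^ (20 * s) ≤ N := by exact_mod_cast hN1
  have hN2' : (N : ℝ) ≤ (Δ : ℝ) ^ (20 * s + 1) := by exact_mod_cast hN2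
  have hN0 : (0 : ℝ) ≤ N := Nat.cast_nonneg _
  have hne : W.Nonempty := by
    rw [Finset.nonempty_iff_ne_empty]
    rintro rfl
    rw [Finset.card_empty, Nat.cast_zero, zero_mul] at hcon
    exact absurd hcon (not_lt.2 (by positivity))
  obtain ⟨β, hβ, hb⟩ := level_big W a ha V hD
  have hR0 : (0 : ℝ) ≤ #W := Nat.cast_nonneg _
  have hbig : 10 ^ 8 * (N : ℝ) ^ 2 * #W ≤
      (∑ m ∈ Ioc N (2 * N), ‖∑ t ∈ W, β t * ei (t * Real.log m)‖) ^ 2 := by
    calc 10 ^ 8 * (N : ℝ) ^ 2 * #W ≤ #W * V ^ 2 * #W := mul_le_mul_of_nonneg_right hcon.le hR0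
      _ = (#W * V) ^ 2 := by ring
      _ ≤ _ := pow_le_pow_left₀ (mul_nonneg hR0 hV) hb 2
  obtain ⟨β', m, hβ', hm1, hm2, hb'⟩ := exists_big N Δ hN hΔ1 W hW hne hr β hβ hbig
  have hm1' : (1 : ℝ) ≤ m := by exact_mod_cast hm1
  have hm2' : (m : ℝ) ≤ Δ := by exact_mod_cast hm2.le
  have hpi3 := Real.pi_gt_three
  have hpi4 := Real.pi_lt_four
  have hlo : (Δ : ℝ) ^ (20 * s) ≤ 2 * Real.pi * m * N := by
    refine hN1'.trans (le_mul_of_one_le_left hN0 ?_)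
    exact one_le_mul_of_one_le_of_one_le (by linarith) hm1'
  have hhi : 2 * Real.pi * m * N ≤ (Δ : ℝ) ^ (20 * s + 3) := by
    have h1 : 2 * Real.pi ≤ Δ := le_trans (by linarith) (le_trans (show (8 : ℝ) ≤ 10 ^ 9 by norm_num) hD9)
    calc 2 * Real.pi * m * N ≤ Δ * Δ * (Δ : ℝ) ^ (20 * s + 1) :=
          mul_le_mul (mul_le_mul h1 hm2' (by linarith) hD0.le) hN2' hN0 (by positivity)
      _ = _ := by ring
  have hfro : ∀ j, 16 * s ≤ j → j ≤ 20 * s →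
      n j ^ 2 * (Δ : ℝ) ^ (20 * s) ≤ (#W : ℝ) ^ 2 * (Δ : ℝ) ^ (j + 2) := by
    intro j hj1 hj2
    have h1 : (Δ : ℝ) * #W * N ≤ ((Δ : ℝ) ^ j) ^ 2 := by
      calc (Δ : ℝ) * #W * N ≤ Δ * (Δ : ℝ) ^ (10 * s + 1) * (Δ : ℝ) ^ (20 * s + 1) :=
            mul_le_mul (mul_le_mul_of_nonneg_left hc hD0.le) hN2' hN0 (by positivity)
        _ = (Δ : ℝ) ^ (30 * s + 3) := by ring
        _ ≤ (Δ : ℝ) ^ (j * 2) := pow_le_pow_right₀ hD1 (by omega)
        _ = _ := pow_mul _ _ _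
    have h2 := flat N Δ hN hΔ1 W hW hne hr β hβ ((Δ : ℝ) ^ j) (one_le_pow₀ hD1)
      ((pow_le_pow_right₀ hD1 hj2).trans hN1') h1 hbig
    have h3 := hu.occ_le hj2
    have h4 : 0 ≤ n j := le_trans zero_le_one (hu.pos j hj2)
    calc n j ^ 2 * (Δ : ℝ) ^ (20 * s)
        ≤ n j ^ 2 * ((#(occ W ((Δ : ℝ) ^ j)) : ℝ) ^ 2 * (Δ : ℝ) ^ 2 * (Δ : ℝ) ^ j) :=
          mul_le_mul_of_nonneg_left (hN1'.trans h2) (by positivity)
      _ = ((#(occ W ((Δ : ℝ) ^ j)) : ℝ) * n j) ^ 2 * (Δ : ℝ) ^ (j + 2) := by ring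
      _ ≤ _ := mul_le_mul_of_nonneg_right (pow_le_pow_left₀ (by positivity) h3 2) (by positivity)
  refine hW0 W n (2 * Real.pi * m * N) ⟨hΔ, hu, hW, hne, fun t ht => ⟨(hr t ht).1, ?_⟩, hc, hlo,
    hhi, hfro, fun j hj => level_ps hs hΔ W hc n hu hlo hhi
      (hfro (18 * s) (by omega) (by omega)) β' hβ' hb' j hj⟩
  calc t ≤ Δ * N := (hr t ht).2
    _ ≤ Δ * (Δ : ℝ) ^ (20 * s + 1) := mul_le_mul_of_nonneg_left hN2' hD0.le
    _ = _ := by ring

end Pool.Agent.MP_71ac24_nt.H14
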