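import Pool.Agent.MP_71ac24_nt.Cells
import Pool.Agent.MP_71ac24_nt.H14.Defs

/-! Large sieve inequalities with close pairs of frequencies. -/

set_option autoImplicit false

namespace Pool.Agent.MP_71ac24_nt.H14

open Finset

lemma ls_cont {ι : Type*} (Q : Finset ι) (ζ : ι → ℝ) (γ : ι → ℂ) :
    Continuous fun x : ℝ => ∑ q ∈ Q, γ q * ei (ζ q * x) :=
  continuous_finsetSum _ fun _ _ =>
    continuous_const.mul (continuous_ei.comp (continuous_const.mul continuous_id))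

lemma ls_cont_sq {ι : Type*} (Q : Finset ι) (ζ : ι → ℝ) (γ : ι → ℂ) :
    Continuous fun x : ℝ => ‖∑ q ∈ Q, γ q * ei (ζ q * x)‖ ^ 2 :=
  (ls_cont Q ζ γ).norm.pow 2

lemma ls_exists_R {ι : Type*} (Q : Finset ι) (ζ : ι → ℝ) (Y : ℝ) (hY : 0 < Y) :
    ∃ R : ℕ, 4 ≤ R ∧ ∀ q ∈ Q, ∀ q' ∈ Q, |ζ q - ζ q'| * Y ≤ R / 2 := by
  obtain ⟨R, hR⟩ := exists_nat_ge (4 * (∑ q ∈ Q, |ζ q|) * Y + 4)
  have h0 : 0 ≤ ∑ q ∈ Q, |ζ q| := Finset.sum_nonneg fun _ _ => abs_nonneg _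
  have h0' : 0 ≤ (∑ q ∈ Q, |ζ q|) * Y := mul_nonneg h0 hY.le
  refine ⟨R, ?_, fun q hq q' hq' => ?_⟩
  · have : (4 : ℝ) ≤ R := by linarith
    exact_mod_cast this
  · have h1 : |ζ q| ≤ ∑ q ∈ Q, |ζ q| :=
      Finset.single_le_sum (f := fun q => |ζ q|) (fun _ _ => abs_nonneg _) hq
    have h2 : |ζ q'| ≤ ∑ q ∈ Q, |ζ q| :=
      Finset.single_le_sum (f := fun q => |ζ q|) (fun _ _ => abs_nonneg _) hq'
    have h3 : |ζ q - ζ q'| ≤ 2 * ∑ q ∈ Q, |ζ q| := (abs_sub _ _).trans (by linarith)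
    have h4 := mul_le_mul_of_nonneg_right h3 hY.le
    linarith

lemma ls_point {ι : Type*} (Q : Finset ι) (ζ : ι → ℝ) (γ : ι → ℂ) (hγ : ∀ q ∈ Q, ‖γ q‖ ≤ 1)
    (Y : ℝ) (hY : 0 < Y) (R : ℕ) (hR : 4 ≤ R) (hQ : ∀ q ∈ Q, ∀ q' ∈ Q, |ζ q - ζ q'| * Y ≤ R / 2)
    (c : ℝ) :
    ∑ j ∈ range R, ‖∑ q ∈ Q, γ q * ei (ζ q * (c + j * (2 * Real.pi * Y / R)))‖ ^ 2 ≤
      54 * R * #{p ∈ Q ×ˢ Q | |ζ p.1 - ζ p.2| ≤ 1 / Y} := by
  classical
  have hR4 : (4 : ℝ) ≤ R := by exact_mod_cast hR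
  have hR0 : (0 : ℝ) < R := by linarith
  have h := Pool.Agent.MP_71ac24_nt.fejer Q (fun q => ζ q * Y / R) (fun q => γ q * ei (ζ q * c))
    (fun q hq => by rw [norm_mul, norm_ei, mul_one]; exact hγ q hq) R hR
  have e : ∀ j ∈ range R, ‖∑ q ∈ Q, γ q * ei (ζ q * (c + j * (2 * Real.pi * Y / R)))‖ ^ 2 =
      ‖∑ q ∈ Q, γ q * ei (ζ q * c) * ee (j * (ζ q * Y / R))‖ ^ 2 := by
    intro j _
    congr 2
    refine Finset.sum_congr rfl fun q _ => ?_
    have : ee (j * (ζ q * Y / R)) = ei (ζ q * (j * (2 * Real.pi * Y / R))) := by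
      unfold ee ei
      congr 3
      ring
    rw [this, mul_assoc (γ q), ← ei_add, mul_add]
  rw [Finset.sum_congr rfl e]
  refine h.trans (mul_le_mul_of_nonneg_left ?_ (by positivity))
  refine Nat.cast_le.2 (Finset.card_le_card fun p hp => ?_)
  rw [Finset.mem_filter] at hp ⊢
  obtain ⟨hp, k, hk⟩ := hp
  refine ⟨hp, ?_⟩
  obtain ⟨h1, h2⟩ := Finset.mem_product.1 hp
  have h3 := hQ _ h1 _ h2
  have e2 : ζ p.1 * Y / R - ζ p.2 * Y / R = (ζ p.1 - ζ p.2) * Y / R := by ring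
  rw [e2] at hk
  have h4 : |(ζ p.1 - ζ p.2) * Y / R| = |ζ p.1 - ζ p.2| * Y / R := by
    rw [abs_div, abs_mul, abs_of_pos hY, abs_of_pos hR0]
  have h5 : |(ζ p.1 - ζ p.2) * Y / R| ≤ 1 / 2 := by
    rw [h4, div_le_iff₀ hR0]; linarith
  have h6 : (1 : ℝ) / R ≤ 1 / 4 := one_div_le_one_div_of_le (by norm_num) hR4
  have h7 : |(k : ℝ)| < 1 := by
    have := abs_sub_abs_le_abs_sub (k : ℝ) ((ζ p.1 - ζ p.2) * Y / R)
    rw [abs_sub_comm] at hk
    linarith
  have hk0 : k = 0 := by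
    have : |k| < 1 := by exact_mod_cast h7
    exact Int.abs_lt_one_iff.1 this
  rw [hk0, Int.cast_zero, sub_zero, h4, div_le_div_iff_of_pos_right hR0] at hk
  rw [le_div_iff₀ hY]
  exact hk

/-- HINT. Enlarge the interval to `[a, a + 2 π Y]`. Pick `R ≥ 4` so large that `|ζ q - ζ q'| * Y / R < 1 / 2` on `Q`,
put `η = 2 π Y / R`, write the integral as `∑ j < R, ∫ s in 0..η, f (a + j η + s)` (`intervalIntegral.sum_integral_adjacent_intervals`,
`integral_finset_sum`) and apply `Pool.Agent.MP_71ac24_nt.fejer` for each `s` with `θ q = ζ q * Y / R` and the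
coefficients `γ q * ei (ζ q * (a + s))`; the integer `k` there must vanish. `54 * 2 π ≤ 340`. -/
theorem int_ls {ι : Type*} (Q : Finset ι) (ζ : ι → ℝ) (γ : ι → ℂ) (hγ : ∀ q ∈ Q, ‖γ q‖ ≤ 1)
    (a Y : ℝ) (hY : 0 < Y) :
    ∫ x in a..(a + Y), ‖∑ q ∈ Q, γ q * ei (ζ q * x)‖ ^ 2 ≤
      340 * Y * #{p ∈ Q ×ˢ Q | |ζ p.1 - ζ p.2| ≤ 1 / Y} := by
  obtain ⟨R, hR, hQ⟩ := ls_exists_R Q ζ Y hY
  have hR4 : (4 : ℝ) ≤ R := by exact_mod_cast hR
  have hR0 : (0 : ℝ) < R := by linarith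
  set f : ℝ → ℝ := fun x => ‖∑ q ∈ Q, γ q * ei (ζ q * x)‖ ^ 2 with hf
  have hc : Continuous f := ls_cont_sq Q ζ γ
  have h0 : ∀ x, 0 ≤ f x := fun x => by simp only [hf]; positivity
  have hπ := Real.pi_gt_three
  have hπ' := Real.pi_lt_d4
  set η : ℝ := 2 * Real.pi * Y / R with hη
  have hη0 : 0 < η := by positivity
  have hRη : R * η = 2 * Real.pi * Y := by rw [hη]; field_simp
  have hYY : Y ≤ R * η := by rw [hRη]; nlinarith
  have h1 : ∫ x in a..(a + Y), f x ≤ ∫ x in a..(a + R * η), f x :=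
    intervalIntegral.integral_mono_interval le_rfl (by linarith) (by linarith)
      (Filter.Eventually.of_forall h0) (hc.intervalIntegrable _ _)
  have h2 : ∑ j ∈ range R, ∫ x in (a + (j : ℕ) * η)..(a + ((j + 1 : ℕ) : ℝ) * η), f x =
      ∫ x in a..(a + R * η), f x := by
    have := intervalIntegral.sum_integral_adjacent_intervals (f := f) (μ := MeasureTheory.volume)
      (a := fun j : ℕ => a + j * η) (n := R) (fun j _ => hc.intervalIntegrable _ _)
    simpa using this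
  have h3 : ∀ j ∈ range R, ∫ x in (a + (j : ℕ) * η)..(a + ((j + 1 : ℕ) : ℝ) * η), f x =
      ∫ s in (0 : ℝ)..η, f (a + s + j * η) := by
    intro j _
    have := intervalIntegral.integral_comp_add_right (f := f) (a := 0) (b := η) (a + j * η)
    rw [show (fun s => f (a + s + j * η)) = fun s => f (s + (a + j * η)) from
      funext fun s => by congr 1; ring, this]
    congr 1
    · ring
    · push_cast; ring
  have hcj : ∀ j : ℕ, Continuous fun s : ℝ => f (a + s + j * η) := fun j => hc.comp (by fun_prop)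
  have h4 : ∑ j ∈ range R, ∫ s in (0 : ℝ)..η, f (a + s + j * η) =
      ∫ s in (0 : ℝ)..η, ∑ j ∈ range R, f (a + s + j * η) :=
    (intervalIntegral.integral_finsetSum fun j _ => (hcj j).intervalIntegrable _ _).symm
  have h5 : ∫ s in (0 : ℝ)..η, ∑ j ∈ range R, f (a + s + j * η) ≤
      ∫ _ in (0 : ℝ)..η, (54 * R * #{p ∈ Q ×ˢ Q | |ζ p.1 - ζ p.2| ≤ 1 / Y} : ℝ) :=
    intervalIntegral.integral_mono_on hη0.le
      ((continuous_finsetSum _ fun j _ => hcj j).intervalIntegrable _ _)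
      intervalIntegrable_const fun s _ => ls_point Q ζ γ hγ Y hY R hR hQ (a + s)
  rw [intervalIntegral.integral_const, sub_zero, smul_eq_mul] at h5
  rw [← h2, Finset.sum_congr rfl h3, h4] at h1
  refine (h1.trans h5).trans ?_
  rw [← mul_assoc]
  refine mul_le_mul_of_nonneg_right ?_ (by positivity)
  have : η * (54 * R) = 108 * Real.pi * Y := by rw [mul_comm η, mul_assoc, hRη]; ring
  rw [this]
  exact mul_le_mul_of_nonneg_right (by linarith) hY.le

lemma ls_mean_ge {z η : ℝ} (hη : 0 < η) (hz : |z| * η ≤ 1) :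
    η / 2 ≤ ‖∫ s in (0 : ℝ)..η, ei (z * s)‖ := by
  have hc : Continuous fun s : ℝ => ei (z * s) := continuous_ei.comp (by fun_prop)
  refine le_trans ?_ (Complex.re_le_norm _)
  have e : (∫ s in (0 : ℝ)..η, ei (z * s)).re = ∫ s in (0 : ℝ)..η, (ei (z * s)).re :=
    (Complex.reCLM.intervalIntegral_comp_comm (hc.intervalIntegrable _ _)).symm
  rw [e]
  have h : ∫ _ in (0 : ℝ)..η, (1 / 2 : ℝ) ≤ ∫ s in (0 : ℝ)..η, (ei (z * s)).re := by
    refine intervalIntegral.integral_mono_on hη.le intervalIntegrable_const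
      ((Complex.continuous_re.comp hc).intervalIntegrable _ _) fun s hs => ?_
    have e2 : (ei (z * s)).re = Real.cos (z * s) := by
      unfold ei
      rw [mul_comm Complex.I, Complex.exp_ofReal_mul_I_re]
    rw [e2]
    have h1 : |z * s| ≤ 1 := by
      rw [abs_mul, abs_of_nonneg hs.1]
      exact (mul_le_mul_of_nonneg_left hs.2 (abs_nonneg _)).trans hz
    have h2 : (z * s) ^ 2 ≤ 1 := by
      rw [← sq_abs]; exact pow_le_one₀ (abs_nonneg _) h1
    have := Real.one_sub_sq_div_two_le_cos (x := z * s)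
    linarith
  rw [intervalIntegral.integral_const, sub_zero, smul_eq_mul] at h
  linarith

lemma ls_cs {g : ℝ → ℝ} (hg : Continuous g) (y η : ℝ) (hη : 0 < η) :
    (∫ x in y..(y + η), g x) ^ 2 ≤ η * ∫ x in y..(y + η), g x ^ 2 := by
  set I := ∫ x in y..(y + η), g x with hI
  set m := I / η with hm
  have h : ∫ x in y..(y + η), 2 * m * g x ≤ ∫ x in y..(y + η), (m ^ 2 + g x ^ 2) :=
    intervalIntegral.integral_mono_on (by linarith)
      ((continuous_const.mul hg).intervalIntegrable _ _)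
      ((continuous_const.add (hg.pow 2)).intervalIntegrable _ _)
      fun x _ => by nlinarith [sq_nonneg (m - g x)]
  have hg2 : Continuous fun x => g x ^ 2 := hg.pow 2
  rw [intervalIntegral.integral_const_mul, intervalIntegral.integral_add intervalIntegrable_const
    (hg2.intervalIntegrable _ _), intervalIntegral.integral_const, add_sub_cancel_left,
    smul_eq_mul, ← hI] at h
  have e : I = m * η := by rw [hm]; field_simp
  rw [e] at h ⊢
  have h2 : m ^ 2 * η ≤ ∫ x in y..(y + η), g x ^ 2 := by linarith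
  calc (m * η) ^ 2 = η * (m ^ 2 * η) := by ring
    _ ≤ _ := mul_le_mul_of_nonneg_left h2 hη.le

/-- HINT. `c q = (1 / η) ∫ s in 0..η, ei (ζ q * s)` has real part `≥ 1 / 2` (`cos x ≥ 1 - x ^ 2 / 2`). Put `γ' q = γ q / (2 * c q)`. Then
`∑ γ q * ei (ζ q * y) = (2 / η) ∫ x in y..(y + η), ∑ γ' q * ei (ζ q * x)`; Cauchy-Schwarz (for instance integrate
`2 m ‖G x‖ ≤ m ^ 2 + ‖G x‖ ^ 2` with `m` the mean of `‖G‖`). -/
theorem avg_rep {ι : Type*} (Q : Finset ι) (ζ : ι → ℝ) (γ : ι → ℂ) (hγ : ∀ q ∈ Q, ‖γ q‖ ≤ 1)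
    (η : ℝ) (hη : 0 < η) (hζ : ∀ q ∈ Q, |ζ q| * η ≤ 1) :
    ∃ γ' : ι → ℂ, (∀ q ∈ Q, ‖γ' q‖ ≤ 1) ∧ ∀ y : ℝ, ‖∑ q ∈ Q, γ q * ei (ζ q * y)‖ ^ 2 ≤
      4 / η * ∫ x in y..(y + η), ‖∑ q ∈ Q, γ' q * ei (ζ q * x)‖ ^ 2 := by
  set I : ι → ℂ := fun q => ∫ s in (0 : ℝ)..η, ei (ζ q * s) with hI
  have hI2 : ∀ q ∈ Q, η / 2 ≤ ‖I q‖ := fun q hq => ls_mean_ge hη (hζ q hq)
  have hI0 : ∀ q ∈ Q, I q ≠ 0 := fun q hq h => by
    have := hI2 q hq
    rw [h, norm_zero] at this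
    linarith
  refine ⟨fun q => γ q * (η / 2 : ℝ) / I q, fun q hq => ?_, fun y => ?_⟩
  · rw [norm_div, norm_mul, Complex.norm_real, Real.norm_of_nonneg (by positivity)]
    refine div_le_one_of_le₀ ?_ (norm_nonneg _)
    exact (mul_le_of_le_one_left (by positivity) (hγ q hq)).trans (hI2 q hq)
  set G : ℝ → ℂ := fun x => ∑ q ∈ Q, γ q * (η / 2 : ℝ) / I q * ei (ζ q * x) with hG
  have hGc : Continuous G := ls_cont Q ζ _
  have e1 : ∫ x in y..(y + η), G x = ((η / 2 : ℝ) : ℂ) * ∑ q ∈ Q, γ q * ei (ζ q * y) := by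
    simp only [hG]
    have hq : ∀ q, Continuous fun x : ℝ => γ q * (η / 2 : ℝ) / I q * ei (ζ q * x) := fun q =>
      continuous_const.mul (continuous_ei.comp (continuous_const.mul continuous_id))
    rw [intervalIntegral.integral_finsetSum fun q _ => (hq q).intervalIntegrable _ _,
      Finset.mul_sum]
    refine Finset.sum_congr rfl fun q hq => ?_
    have e2 : ∫ x in y..(y + η), ei (ζ q * x) = ei (ζ q * y) * I q := by
      have := intervalIntegral.integral_comp_add_left (f := fun x => ei (ζ q * x))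
        (a := 0) (b := η) y
      rw [add_zero] at this
      rw [← this, hI, ← intervalIntegral.integral_const_mul]
      congr 1
      funext s
      rw [← ei_add, mul_add]
    rw [intervalIntegral.integral_const_mul, e2]
    have := hI0 q hq
    field_simp
  have h1 : η / 2 * ‖∑ q ∈ Q, γ q * ei (ζ q * y)‖ ≤ ∫ x in y..(y + η), ‖G x‖ := by
    have := intervalIntegral.norm_integral_le_integral_norm (f := G) (μ := MeasureTheory.volume)
      (a := y) (b := y + η) (by linarith)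
    rwa [e1, norm_mul, Complex.norm_real, Real.norm_of_nonneg (by positivity)] at this
  have h2 := (pow_le_pow_left₀ (by positivity) h1 2).trans (ls_cs hGc.norm y η hη)
  rw [div_mul_eq_mul_div, le_div_iff₀ hη]
  refine le_of_mul_le_mul_left ?_ hη
  calc η * (‖∑ q ∈ Q, γ q * ei (ζ q * y)‖ ^ 2 * η)
      = 4 * (η / 2 * ‖∑ q ∈ Q, γ q * ei (ζ q * y)‖) ^ 2 := by ring
    _ ≤ 4 * (η * ∫ x in y..(y + η), ‖G x‖ ^ 2) := by linarith
    _ = _ := by ring

/-- HINT. Write each integral as the integral over `Ioc a b` of the indicator of `Ioc (y p) (y p + η)` times `f`; a point `x`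
lies in at most `ν` of these intervals (take `z = x - η`). -/
theorem overlap {κ : Type*} (P : Finset κ) (y : κ → ℝ) (η a b ν : ℝ) (f : ℝ → ℝ)
    (hf : Continuous f) (h0 : ∀ x, 0 ≤ f x) (hη : 0 ≤ η) (hab : a ≤ b)
    (hy : ∀ p ∈ P, a ≤ y p ∧ y p + η ≤ b)
    (hν : ∀ z : ℝ, (#{p ∈ P | z ≤ y p ∧ y p ≤ z + η} : ℝ) ≤ ν) :
    ∑ p ∈ P, ∫ x in (y p)..(y p + η), f x ≤ ν * ∫ x in a..b, f x := by
  classical
  have hint : MeasureTheory.IntegrableOn f (Set.Ioc a b) :=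
    (hf.intervalIntegrable a b).1
  have e : ∀ p ∈ P, ∫ x in (y p)..(y p + η), f x =
      ∫ x in Set.Ioc a b, (Set.Ioc (y p) (y p + η)).indicator f x := by
    intro p hp
    rw [MeasureTheory.setIntegral_indicator measurableSet_Ioc,
      intervalIntegral.integral_of_le (by linarith),
      Set.inter_eq_right.2 (Set.Ioc_subset_Ioc (hy p hp).1 (hy p hp).2)]
  rw [Finset.sum_congr rfl e, intervalIntegral.integral_of_le hab,
    ← MeasureTheory.integral_finsetSum _ fun p _ => hint.indicator measurableSet_Ioc,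
    ← MeasureTheory.integral_const_mul]
  refine MeasureTheory.integral_mono
    (MeasureTheory.integrable_finsetSum _ fun p _ => hint.indicator measurableSet_Ioc)
    (hint.const_mul ν) fun x => ?_
  have h1 : ∑ p ∈ P, (Set.Ioc (y p) (y p + η)).indicator f x ≤
      ∑ p ∈ P, if x - η ≤ y p ∧ y p ≤ x - η + η then f x else 0 := by
    refine Finset.sum_le_sum fun p _ => ?_
    by_cases hx : x ∈ Set.Ioc (y p) (y p + η)
    · rw [Set.indicator_of_mem hx, if_pos ⟨by linarith [hx.2], by linarith [hx.1]⟩]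
    · rw [Set.indicator_of_notMem hx]
      split_ifs
      · exact h0 x
      · exact le_rfl
  refine h1.trans ?_
  rw [← Finset.sum_filter, Finset.sum_const, nsmul_eq_mul]
  exact mul_le_mul_of_nonneg_right (hν (x - η)) (h0 x)

/-- HINT. Replace `ζ` by `ζ - b` (the factor `ei (b * y p)` has norm one), then `avg_rep` with `η = 1 / Ξ ≤ Y`, `overlap` on `[a, a + 2 Y]`,
`int_ls` with `2 Y`. -/
theorem ls {ι κ : Type*} (P : Finset κ) (y : κ → ℝ) (Q : Finset ι) (ζ : ι → ℝ) (γ : ι → ℂ)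
    (hγ : ∀ q ∈ Q, ‖γ q‖ ≤ 1) (a b Y Ξ ν : ℝ) (hY : 0 < Y) (hΞ : 0 < Ξ) (h1 : 1 ≤ Y * Ξ)
    (hy : ∀ p ∈ P, a ≤ y p ∧ y p ≤ a + Y) (hζ : ∀ q ∈ Q, |ζ q - b| ≤ Ξ)
    (hν : ∀ z : ℝ, (#{p ∈ P | z ≤ y p ∧ y p ≤ z + 1 / Ξ} : ℝ) ≤ ν) :
    ∑ p ∈ P, ‖∑ q ∈ Q, γ q * ei (ζ q * y p)‖ ^ 2 ≤
      3000 * ν * (Y * Ξ) * #{p ∈ Q ×ˢ Q | |ζ p.1 - ζ p.2| ≤ 1 / Y} := by
  have hη : 0 < 1 / Ξ := by positivity
  have hηY : 1 / Ξ ≤ Y := by rw [div_le_iff₀ hΞ]; exact h1
  have hν0 : 0 ≤ ν := le_trans (Nat.cast_nonneg _) (hν 0)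
  obtain ⟨γ', hγ', hrep⟩ := avg_rep Q (fun q => ζ q - b) γ hγ (1 / Ξ) hη fun q hq => by
    rw [mul_one_div, div_le_one hΞ]; exact hζ q hq
  have e : ∀ p ∈ P, ‖∑ q ∈ Q, γ q * ei (ζ q * y p)‖ ^ 2 =
      ‖∑ q ∈ Q, γ q * ei ((ζ q - b) * y p)‖ ^ 2 := by
    intro p _
    have : ∑ q ∈ Q, γ q * ei (ζ q * y p) =
        (∑ q ∈ Q, γ q * ei ((ζ q - b) * y p)) * ei (b * y p) := by
      rw [Finset.sum_mul]
      refine Finset.sum_congr rfl fun q _ => ?_
      rw [mul_assoc, ← ei_add]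
      congr 2
      ring
    rw [this, norm_mul, norm_ei, mul_one]
  rw [Finset.sum_congr rfl e]
  refine (Finset.sum_le_sum fun p _ => hrep (y p)).trans ?_
  rw [← Finset.mul_sum]
  have h2 := overlap P y (1 / Ξ) a (a + 2 * Y) ν
    (fun x => ‖∑ q ∈ Q, γ' q * ei ((ζ q - b) * x)‖ ^ 2) (ls_cont_sq Q (fun q => ζ q - b) γ')
    (fun x => by positivity) hη.le (by linarith)
    (fun p hp => ⟨(hy p hp).1, by linarith [(hy p hp).2]⟩) hν
  have h3 := int_ls Q (fun q => ζ q - b) γ' hγ' a (2 * Y) (by positivity)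
  have h4 : (#{p ∈ Q ×ˢ Q | |ζ p.1 - b - (ζ p.2 - b)| ≤ 1 / (2 * Y)} : ℝ) ≤
      #{p ∈ Q ×ˢ Q | |ζ p.1 - ζ p.2| ≤ 1 / Y} := by
    refine Nat.cast_le.2 (Finset.card_le_card fun p hp => ?_)
    rw [Finset.mem_filter] at hp ⊢
    refine ⟨hp.1, ?_⟩
    have h5 := hp.2
    rw [sub_sub_sub_cancel_right] at h5
    exact h5.trans (one_div_le_one_div_of_le hY (by linarith))
  have h5 := h3.trans (mul_le_mul_of_nonneg_left h4 (by positivity))
  have h6 := h2.trans (mul_le_mul_of_nonneg_left h5 hν0)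
  have h7 := mul_le_mul_of_nonneg_left h6 (show 0 ≤ 4 / (1 / Ξ) by positivity)
  refine h7.trans ?_
  have e2 : 4 / (1 / Ξ) * (ν * (340 * (2 * Y) * (#{p ∈ Q ×ˢ Q | |ζ p.1 - ζ p.2| ≤ 1 / Y} : ℝ))) =
      2720 * (ν * (Y * Ξ) * #{p ∈ Q ×ˢ Q | |ζ p.1 - ζ p.2| ≤ 1 / Y}) := by
    field_simp
    ring
  rw [e2]
  have h8 : 0 ≤ ν * (Y * Ξ) * #{p ∈ Q ×ˢ Q | |ζ p.1 - ζ p.2| ≤ 1 / Y} := by positivity
  calc _ ≤ 3000 * (ν * (Y * Ξ) * #{p ∈ Q ×ˢ Q | |ζ p.1 - ζ p.2| ≤ 1 / Y}) := by linarith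
    _ = _ := by ring

end Pool.Agent.MP_71ac24_nt.H14

/-! Separated sets and mean value theorems. -/

set_option autoImplicit false

namespace Pool.Agent.MP_71ac24_nt.H14

open Finset

/-- HINT. `t ↦ ⌊t - z⌋` is injective on `W` with values in `Icc 0 k`. -/
theorem Sep.card_le {W : Finset ℝ} (h : Sep W) (z : ℝ) (k : ℕ) :
    #{t ∈ W | z ≤ t ∧ t ≤ z + k} ≤ k + 1 := by
  rw [← Finset.card_range (k + 1)]
  refine Finset.card_le_card_of_injOn (fun t => ⌊t - z⌋₊) ?_ ?_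
  · intro t ht
    simp only [coe_filter, Set.mem_ofPred_eq] at ht
    simp only [coe_range, Set.mem_Iio]
    rw [Nat.floor_lt (by linarith [ht.2.1])]
    push_cast
    linarith [ht.2.2]
  · intro t ht u hu htu
    simp only [coe_filter, Set.mem_ofPred_eq] at ht hu
    by_contra hne
    have h1 := h t ht.1 u hu.1 hne
    have ht0 : 0 ≤ t - z := by linarith [ht.2.1]
    have hu0 : 0 ≤ u - z := by linarith [hu.2.1]
    have a1 := Nat.floor_le ht0
    have a2 := Nat.lt_floor_add_one (t - z)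
    have a3 := Nat.floor_le hu0
    have a4 := Nat.lt_floor_add_one (u - z)
    simp only at htu
    rw [htu] at a1 a2
    have : |t - u| < 1 := by rw [abs_lt]; constructor <;> linarith
    linarith

theorem Sep.pairs_le {W : Finset ℝ} (h : Sep W) :
    #{p ∈ W ×ˢ W | |p.1 - p.2| ≤ 1} ≤ 3 * #W := by
  rw [Finset.card_filter, Finset.sum_product, mul_comm, ← smul_eq_mul, ← Finset.sum_const]
  refine Finset.sum_le_sum fun t _ => ?_
  rw [← Finset.card_filter]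
  refine le_trans (Finset.card_le_card ?_) (h.card_le (t - 1) 2)
  intro u hu
  simp only [mem_filter] at hu ⊢
  have := abs_le.1 hu.2
  refine ⟨hu.1, by linarith [this.2], ?_⟩
  push_cast
  linarith [this.1]

lemma mvt_close {N m m' : ℕ} (hN : 1 ≤ N) (hm : m ∈ Ioc N (2 * N)) (hm' : m' ∈ Ioc N (2 * N))
    (h : Real.log m' - Real.log m ≤ 1 / N) : m' ≤ m + 2 := by
  rw [mem_Ioc] at hm hm'
  have hN0 : (0 : ℝ) < N := by exact_mod_cast hN
  have hm0 : (0 : ℝ) < m := by exact_mod_cast (by omega : 0 < m)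
  have hm1 : (0 : ℝ) < m' := by exact_mod_cast (by omega : 0 < m')
  have h2 : (m' : ℝ) ≤ 2 * N := by exact_mod_cast hm'.2
  have h3 := Real.one_sub_inv_le_log_of_pos (div_pos hm1 hm0)
  rw [Real.log_div hm1.ne' hm0.ne', inv_div] at h3
  have h4 : 1 - (m : ℝ) / m' ≤ 1 / N := h3.trans h
  have h5 : ((m' : ℝ) - m) / m' ≤ 1 / N := by
    rw [sub_div, div_self hm1.ne']; exact h4
  rw [div_le_div_iff₀ hm1 hN0] at h5
  have h6 : ((m' : ℝ) - m) * N ≤ 2 * N := by linarith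
  have h7 : (m' : ℝ) - m ≤ 2 := le_of_mul_le_mul_right h6 hN0
  have h8 : (m' : ℝ) ≤ m + 2 := by linarith
  exact_mod_cast h8

lemma mvt_log_range {N m : ℕ} (hN : 1 ≤ N) (hm : m ∈ Ioc N (2 * N)) :
    Real.log N ≤ Real.log m ∧ Real.log m ≤ Real.log N + 1 := by
  rw [mem_Ioc] at hm
  have hN0 : (0 : ℝ) < N := by exact_mod_cast hN
  have hm0 : (0 : ℝ) < m := by exact_mod_cast (by omega : 0 < m)
  refine ⟨Real.log_le_log hN0 (by exact_mod_cast hm.1.le), ?_⟩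
  have h2 : (m : ℝ) ≤ 2 * N := by exact_mod_cast hm.2
  have h3 := Real.log_le_log hm0 h2
  rw [Real.log_mul (by norm_num) hN0.ne'] at h3
  have h4 := Real.log_le_sub_one_of_pos (by norm_num : (0 : ℝ) < 2)
  linarith

lemma mvt_nu {N : ℕ} (hN : 1 ≤ N) (z η : ℝ) (hη : η ≤ 1 / N) :
    #((Ioc N (2 * N)).filter fun m : ℕ => z ≤ Real.log m ∧ Real.log m ≤ z + η) ≤ 4 := by
  set S : Finset ℕ := (Ioc N (2 * N)).filter fun m : ℕ => z ≤ Real.log m ∧ Real.log m ≤ z + η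
    with hS
  rcases S.eq_empty_or_nonempty with h | h
  · rw [h]; simp
  · have h0 := S.min'_mem h
    have hsub : S ⊆ Icc (S.min' h) (S.min' h + 2) := by
      intro m hm
      rw [mem_Icc]
      refine ⟨S.min'_le m hm, ?_⟩
      have h1 := mem_filter.1 hm
      have h2 := mem_filter.1 h0
      exact mvt_close hN h2.1 h1.1 (by linarith [h1.2.2, h2.2.1])
    have := card_le_card hsub
    rw [Nat.card_Icc] at this
    omega

lemma mvt_pairs {N : ℕ} (hN : 1 ≤ N) (η : ℝ) (hη : η ≤ 1 / N) :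
    #{p ∈ (Ioc N (2 * N) ×ˢ Ioc N (2 * N) : Finset (ℕ × ℕ)) |
      |Real.log p.1 - Real.log p.2| ≤ η} ≤ 5 * N := by
  have hc : #(Ioc N (2 * N)) = N := by rw [Nat.card_Ioc]; omega
  rw [Finset.card_filter, Finset.sum_product]
  calc _ ≤ ∑ _m ∈ Ioc N (2 * N), 5 := by
        refine Finset.sum_le_sum fun m hm => ?_
        rw [← Finset.card_filter]
        have hsub : ((Ioc N (2 * N)).filter fun m' : ℕ => |Real.log m - Real.log m'| ≤ η) ⊆
            Icc (m - 2) (m + 2) := by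
          intro m' hm'
          have h1 := mem_filter.1 hm'
          have h2 := abs_le.1 h1.2
          have h3 := mvt_close hN hm h1.1 (by linarith [h2.1])
          have h4 := mvt_close hN h1.1 hm (by linarith [h2.2])
          rw [mem_Icc]; omega
        refine (card_le_card hsub).trans ?_
        rw [Nat.card_Icc]
        omega
    _ = 5 * N := by rw [sum_const, hc, smul_eq_mul, mul_comm]

/-- HINT. `ls` with points `log n ∈ [log N, log N + 1]`, `Y = 1`, frequencies `t`, `b = 0`, `Ξ = M N`, `ν = 4`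
(if `log n' - log n ≤ 1 / N` and `n ≤ n' ≤ 2 N` then `n' - n ≤ 2`, from `1 - 1 / x ≤ log x`). -/
theorem mvt_dual (N M : ℕ) (hN : 1 ≤ N) (hM : 1 ≤ M) (W : Finset ℝ) (hW : Sep W)
    (hr : ∀ t ∈ W, 0 ≤ t ∧ t ≤ M * N) (β : ℝ → ℂ) (hβ : ∀ t ∈ W, ‖β t‖ ≤ 1) :
    ∑ m ∈ Ioc N (2 * N), ‖∑ t ∈ W, β t * ei (t * Real.log m)‖ ^ 2 ≤ 36000 * M * N * #W := by
  have hN0 : (1 : ℝ) ≤ N := by exact_mod_cast hN
  have hM0 : (1 : ℝ) ≤ M := by exact_mod_cast hM
  have hMN : (N : ℝ) ≤ M * N := le_mul_of_one_le_left (by linarith) hM0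
  have h := ls (Ioc N (2 * N)) (fun m : ℕ => Real.log m) W (fun t => t) β hβ (Real.log N) 0 1
    (M * N) 4 one_pos (by linarith) (by linarith) (fun m hm => mvt_log_range hN hm)
    (fun t ht => by rw [sub_zero, abs_of_nonneg (hr t ht).1]; exact (hr t ht).2)
    (fun z => by
      have := mvt_nu hN z (1 / (M * N)) (one_div_le_one_div_of_le (by linarith) hMN)
      exact_mod_cast this)
  have h2 : (#{p ∈ W ×ˢ W | |p.1 - p.2| ≤ 1 / 1} : ℝ) ≤ 3 * #W := by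
    rw [div_one]; exact_mod_cast hW.pairs_le
  refine h.trans ?_
  calc _ ≤ 3000 * 4 * (1 * ((M : ℝ) * N)) * (3 * #W) :=
        mul_le_mul_of_nonneg_left h2 (by positivity)
    _ = _ := by ring

/-- HINT. `ls` with points `t`, frequencies `log n`, `b = log N`, `Ξ = 1`, `ν = 2`; close pairs have `|n - n'| ≤ 2`. -/
theorem mvt (N : ℕ) (hN : 1 ≤ N) (Y : ℝ) (hY : (N : ℝ) ≤ Y) (W : Finset ℝ) (hW : Sep W)
    (hr : ∀ t ∈ W, 0 ≤ t ∧ t ≤ Y) (a : ℕ → ℂ) (ha : ∀ m, ‖a m‖ ≤ 1) :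
    ∑ t ∈ W, ‖∑ m ∈ Ioc N (2 * N), a m * ei (t * Real.log m)‖ ^ 2 ≤ 30000 * Y * N := by
  have hN0 : (1 : ℝ) ≤ N := by exact_mod_cast hN
  have h := ls W (fun t => t) (Ioc N (2 * N)) (fun m : ℕ => Real.log m) a (fun m _ => ha m) 0
    (Real.log N) Y 1 2 (by linarith) one_pos (by linarith)
    (fun t ht => by rw [zero_add]; exact hr t ht)
    (fun m hm => by
      have := mvt_log_range hN hm
      rw [abs_le]; constructor <;> linarith [this.1, this.2])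
    (fun z => by
      have h1 := hW.card_le z 1
      rw [Nat.cast_one] at h1
      rw [div_one]
      exact_mod_cast h1)
  have h2 : (#{p ∈ (Ioc N (2 * N) ×ˢ Ioc N (2 * N) : Finset (ℕ × ℕ)) |
      |Real.log p.1 - Real.log p.2| ≤ 1 / Y} : ℝ) ≤ 5 * N := by
    have := mvt_pairs hN (1 / Y) (one_div_le_one_div_of_le (by linarith) hY)
    exact_mod_cast this
  have hY0 : 0 ≤ Y := by linarith
  calc _ = ∑ t ∈ W, ‖∑ m ∈ Ioc N (2 * N), a m * ei (Real.log m * t)‖ ^ 2 := by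
        simp only [mul_comm (Real.log _)]
    _ ≤ _ := h
    _ ≤ 3000 * 2 * (Y * 1) * (5 * N) := mul_le_mul_of_nonneg_left h2 (by positivity)
    _ = _ := by ring

end Pool.Agent.MP_71ac24_nt.H14
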