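import Pool.Agent.MP_71ac24_nt.H14.LS
import Pool.Agent.MP_71ac24_nt.H14.Defs

/-! Linearisation of the phase on rectangles; the uncertainty inequality; large energies. -/

set_option autoImplicit false

namespace Pool.Agent.MP_71ac24_nt.H14

open Finset

lemma rect_log1 {x : ℝ} (hx : 0 ≤ x) : |Real.log (1 + x) - x| ≤ x ^ 2 := by
  have h1 := Real.log_le_sub_one_of_pos (show 0 < 1 + x by linarith)
  have h2 := Real.one_sub_inv_le_log_of_pos (show 0 < 1 + x by linarith)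
  have h3 : x - x ^ 2 ≤ 1 - (1 + x)⁻¹ := by
    have e : 1 - (1 + x)⁻¹ = x / (1 + x) := by field_simp; ring
    rw [e, le_div_iff₀ (by linarith)]
    have : 0 ≤ x ^ 3 := by positivity
    nlinarith
  rw [abs_le]; constructor <;> nlinarith

/-- the mixed second difference of `u log u` -/
lemma rect_phase {Λ u u0 h : ℝ} (hΛ : 0 < Λ) (hu : Λ ≤ u) (hu0 : u ≤ u0) (hh : 0 ≤ h) :
    |(u + h) * Real.log (u + h) - (u * Real.log u + ((u0 + h) * Real.log (u0 + h) - u0 * Real.log u0) +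
      h * (Real.log u - Real.log u0))| ≤ h ^ 2 * (u0 - u) / Λ ^ 2 := by
  have key : ∀ v ∈ Set.Icc u u0, HasDerivWithinAt
      (fun v => (v + h) * Real.log (v + h) - v * Real.log v - h * Real.log v)
      (Real.log (1 + h / v) - h / v) (Set.Icc u u0) v := by
    intro v hv
    have hv0 : 0 < v := by linarith [hv.1]
    have a1 : HasDerivAt (fun v => v + h) 1 v := (hasDerivAt_id v).add_const h
    have a2 := (a1.mul (a1.log (by linarith : v + h ≠ 0)))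
    have a3 := (hasDerivAt_id v).mul (Real.hasDerivAt_log hv0.ne')
    have a4 := (Real.hasDerivAt_log hv0.ne').const_mul h
    refine (((a2.sub a3).sub a4).congr_deriv ?_).hasDerivWithinAt
    have e : 1 + h / v = (v + h) / v := by field_simp
    rw [e, Real.log_div (by linarith) hv0.ne']
    simp only [id]
    field_simp
    ring
  have bd : ∀ v ∈ Set.Ico u u0, ‖Real.log (1 + h / v) - h / v‖ ≤ h ^ 2 / Λ ^ 2 := by
    intro v hv
    have hv0 : 0 < v := by linarith [hv.1]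
    refine (rect_log1 (div_nonneg hh hv0.le)).trans ?_
    rw [div_pow]
    exact div_le_div_of_nonneg_left (by positivity) (by positivity)
      (pow_le_pow_left₀ hΛ.le (by linarith [hv.1]) 2)
  have := norm_image_sub_le_of_norm_deriv_le_segment' key bd u0 ⟨hu0, le_rfl⟩
  rw [Real.norm_eq_abs, abs_sub_comm] at this
  refine le_of_eq_of_le ?_ (this.trans_eq (by ring))
  congr 1; ring

lemma rect_log2 {Λ u u0 : ℝ} (hΛ : 0 < Λ) (hu : Λ ≤ u) (hu0 : u ≤ u0) :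
    (u0 - u) / u0 ≤ Real.log u0 - Real.log u ∧ Real.log u0 - Real.log u ≤ (u0 - u) / u := by
  have h0 : 0 < u := by linarith
  have h1 : 0 < u0 := by linarith
  rw [← Real.log_div h1.ne' h0.ne']
  constructor
  · have := Real.one_sub_inv_le_log_of_pos (div_pos h1 h0)
    rw [inv_div] at this
    refine le_of_eq_of_le ?_ this
    field_simp
  · have := Real.log_le_sub_one_of_pos (div_pos h1 h0)
    refine this.trans_eq ?_
    field_simp

/-- changing the phases by at most `e` -/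
lemma rect_perturb {ι : Type*} (Y : Finset ι) (b : ι → ℂ) (hb : ∀ y ∈ Y, ‖b y‖ ≤ 1) (φ ψ : ι → ℝ)
    (c e : ℝ) (h : ∀ y ∈ Y, |φ y - (c + ψ y)| ≤ e) :
    ‖∑ y ∈ Y, b y * ei (φ y)‖ ≤ ‖∑ y ∈ Y, b y * ei (ψ y)‖ + #Y * e := by
  have e1 : ∑ y ∈ Y, b y * ei (φ y) =
      ei c * ∑ y ∈ Y, b y * ei (ψ y) + ∑ y ∈ Y, b y * (ei (φ y) - ei (c + ψ y)) := by
    rw [Finset.mul_sum, ← Finset.sum_add_distrib]
    exact Finset.sum_congr rfl fun y _ => by rw [ei_add]; ring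
  rw [e1]
  refine (norm_add_le _ _).trans (add_le_add (by rw [norm_mul, norm_ei, one_mul]) ?_)
  refine (norm_sum_le _ _).trans ?_
  rw [← nsmul_eq_mul, ← Finset.sum_const]
  refine Finset.sum_le_sum fun y hy => ?_
  rw [norm_mul]
  exact (mul_le_of_le_one_left (norm_nonneg _) (hb y hy)).trans ((norm_ei_sub _ _).trans (h y hy))

lemma rect_dual {ι κ : Type*} (X : Finset κ) (Y : Finset ι) (b : ι → ℂ) (hb : ∀ y ∈ Y, ‖b y‖ ≤ 1)
    (φ : κ → ℝ) (g : ι → ℝ) :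
    ∑ x ∈ X, ‖∑ y ∈ Y, b y * ei (φ x * g y)‖ ^ 2 ≤
      ∑ p ∈ Y ×ˢ Y, ‖∑ x ∈ X, ei (φ x * (g p.1 - g p.2))‖ := by
  have h1 : ((∑ x ∈ X, ‖∑ y ∈ Y, b y * ei (φ x * g y)‖ ^ 2 : ℝ) : ℂ) =
      ∑ p ∈ Y ×ˢ Y, b p.1 * (starRingEnd ℂ) (b p.2) * ∑ x ∈ X, ei (φ x * (g p.1 - g p.2)) := by
    push_cast
    simp only [← Complex.mul_conj', map_sum, map_mul, conj_ei, Finset.sum_mul_sum]
    simp only [Finset.mul_sum, Finset.sum_product]
    rw [Finset.sum_comm]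
    refine Finset.sum_congr rfl fun y _ => ?_
    rw [Finset.sum_comm]
    refine Finset.sum_congr rfl fun y' _ => Finset.sum_congr rfl fun x _ => ?_
    have : ei (φ x * g y) * ei (-(φ x * g y')) = ei (φ x * (g y - g y')) := by
      rw [← ei_add]; congr 1; ring
    linear_combination b y * (starRingEnd ℂ) (b y') * this
  have h2 := congrArg norm h1
  rw [Complex.norm_real, Real.norm_of_nonneg (by positivity)] at h2
  rw [h2]
  refine (norm_sum_le _ _).trans (Finset.sum_le_sum fun p hp => ?_)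
  obtain ⟨h3, h4⟩ := Finset.mem_product.mp hp
  rw [norm_mul, norm_mul, Complex.norm_conj]
  exact mul_le_of_le_one_left (by positivity) (mul_le_one₀ (hb _ h3) (norm_nonneg _) (hb _ h4))

variable {Δ s : ℕ} {W : Finset ℝ} {n : ℕ → ℝ} {Λ : ℝ}

lemma World.D9 (h : World Δ s W n Λ) : (10 : ℝ) ^ 9 ≤ Δ := by exact_mod_cast h.big

lemma World.D1 (h : World Δ s W n Λ) : (1 : ℝ) ≤ Δ := le_trans (by norm_num) h.D9

lemma World.one_le (h : World Δ s W n Λ) : 1 ≤ Δ := le_trans (by norm_num) h.big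

lemma World.lam_pos (h : World Δ s W n Λ) : 0 < Λ :=
  lt_of_lt_of_le (pow_pos (lt_of_lt_of_le one_pos h.D1) _) h.lamlo

lemma World.R_pos (h : World Δ s W n Λ) : (0 : ℝ) < #W := by exact_mod_cast h.ne.card_pos

lemma Unif.pairs {L : ℕ} (h : Unif W Δ L n) (hΔ : 1 ≤ Δ) {m : ℕ} (hm : m ≤ L) (S : Finset ℝ)
    (hS : S ⊆ W) : (#{p ∈ S ×ˢ S | |p.1 - p.2| ≤ (Δ : ℝ) ^ m} : ℝ) ≤ #S * (6 * n m) := by
  have h1 : #{p ∈ S ×ˢ S | |p.1 - p.2| ≤ (Δ : ℝ) ^ m} =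
      ∑ x ∈ S, #{y ∈ S | |x - y| ≤ (Δ : ℝ) ^ m} := by
    simp only [Finset.card_filter, Finset.sum_product]
  rw [h1, Nat.cast_sum, ← nsmul_eq_mul, ← Finset.sum_const]
  refine Finset.sum_le_sum fun x _ => ?_
  refine le_trans ?_ ((h.count hΔ hm (x - (Δ : ℝ) ^ m) 2).trans_eq (by norm_num))
  refine Nat.cast_le.mpr (Finset.card_le_card fun y hy => ?_)
  obtain ⟨h2, h3⟩ := Finset.mem_filter.mp hy
  rw [abs_le] at h3
  exact Finset.mem_filter.mpr ⟨hS h2, by linarith [h3.2], by push_cast; linarith [h3.1]⟩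

theorem World.card_lo (h : World Δ s W n Λ) : (Δ : ℝ) ^ (10 * s) ≤ (Δ : ℝ) ^ 2 * #W := by
  obtain ⟨β, hβ, h1⟩ := h.ps 0 (Nat.zero_le _)
  have h2 : PS W β Λ ((Δ : ℝ) ^ 0) ≤ #W * #W := by
    unfold PS
    calc _ ≤ ∑ k ∈ occ W ((Δ : ℝ) ^ 0), ∑ _y ∈ inC W ((Δ : ℝ) ^ 0) k, (#W : ℝ) := by
          refine Finset.sum_le_sum fun k _ => ?_
          calc _ ≤ ∑ _x ∈ W.filter (fun x => Λ ≤ k * (Δ : ℝ) ^ 0 - x ∧ k * (Δ : ℝ) ^ 0 - x ≤ 3 * Λ),
                (#(inC W ((Δ : ℝ) ^ 0) k) : ℝ) := by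
                refine Finset.sum_le_sum fun x _ => (norm_sum_le _ _).trans ?_
                rw [Finset.card_eq_sum_ones, Nat.cast_sum]
                refine Finset.sum_le_sum fun y hy => ?_
                rw [norm_mul, norm_ei, mul_one, Nat.cast_one]
                exact hβ y (mem_inC.mp hy).1
            _ ≤ _ := by
                rw [Finset.sum_const, Finset.sum_const, nsmul_eq_mul, nsmul_eq_mul, mul_comm]
                exact mul_le_mul_of_nonneg_left (Nat.cast_le.mpr (Finset.card_filter_le _ _))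
                  (by positivity)
      _ = _ := by rw [sum_occ W _ (fun _ => (#W : ℝ)), Finset.sum_const, nsmul_eq_mul]
  have h3 := h1.trans (mul_le_mul_of_nonneg_left h2 (by positivity))
  rw [← mul_assoc] at h3
  exact le_of_mul_le_mul_right h3 h.R_pos

/-- the points of the cell `kI` that are at distance about `Λ` from the cell `k` -/
noncomputable def gdS (W : Finset ℝ) (Λ Ui Uj : ℝ) (k kI : ℤ) : Finset ℝ :=
  (inC W Ui kI).filter (fun x => Λ ≤ k * Uj - x ∧ k * Uj - x ≤ 3 * Λ)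

lemma World.sum_T (h : World Δ s W n Λ) {i j : ℕ} (hi : i ≤ 20 * s) (hj : j ≤ 20 * s) (β : ℝ → ℂ)
    (h1 : (Δ : ℝ) ^ (10 * s) * #W ≤ (Δ : ℝ) ^ 2 * PS W β Λ ((Δ : ℝ) ^ j)) (T : ℤ → ℤ → ℝ)
    (hT : ∀ k ∈ occ W ((Δ : ℝ) ^ j), ∀ kI ∈ occ W ((Δ : ℝ) ^ i),
      ∑ x ∈ gdS W Λ ((Δ : ℝ) ^ i) ((Δ : ℝ) ^ j) k kI,
        ‖∑ y ∈ inC W ((Δ : ℝ) ^ j) k, β y * ei ((y - x) * Real.log (y - x))‖ ≤
        T k kI + 8 / (Δ : ℝ) ^ 5 * (n i * n j)) :
    (#W : ℝ) ^ 2 ≤ 2 * (Δ : ℝ) ^ 3 *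
      ∑ k ∈ occ W ((Δ : ℝ) ^ j), ∑ kI ∈ occ W ((Δ : ℝ) ^ i), T k kI := by
  have hD := h.D9
  have hD0 : (0 : ℝ) < Δ := by linarith
  have h2 : PS W β Λ ((Δ : ℝ) ^ j) ≤ ∑ k ∈ occ W ((Δ : ℝ) ^ j), ∑ kI ∈ occ W ((Δ : ℝ) ^ i),
      (T k kI + 8 / (Δ : ℝ) ^ 5 * (n i * n j)) := by
    unfold PS
    refine Finset.sum_le_sum fun k hk => ?_
    rw [Finset.sum_filter, ← sum_occ W ((Δ : ℝ) ^ i)]
    refine Finset.sum_le_sum fun kI hkI => ?_
    rw [← Finset.sum_filter]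
    exact hT k hk kI hkI
  simp only [Finset.sum_add_distrib, Finset.sum_const, nsmul_eq_mul] at h2
  set S0 := ∑ k ∈ occ W ((Δ : ℝ) ^ j), ∑ kI ∈ occ W ((Δ : ℝ) ^ i), T k kI
  have a1 := h.unif.occ_le hi
  have a2 := h.unif.occ_le hj
  have p1 := h.unif.pos i hi
  have p2 := h.unif.pos j hj
  have a3 : (#(occ W ((Δ : ℝ) ^ j)) * n j) * (#(occ W ((Δ : ℝ) ^ i)) * n i) ≤ #W * #W :=
    mul_le_mul a2 a1 (by positivity) (by positivity)
  have h3 : PS W β Λ ((Δ : ℝ) ^ j) ≤ S0 + 8 / (Δ : ℝ) ^ 5 * (#W * #W) := by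
    refine h2.trans (add_le_add le_rfl ?_)
    refine le_of_eq_of_le (by ring) (mul_le_mul_of_nonneg_left a3 (by positivity))
  have h4 : (#W : ℝ) * #W ≤ (Δ : ℝ) ^ 3 * PS W β Λ ((Δ : ℝ) ^ j) := by
    calc (#W : ℝ) * #W ≤ (Δ : ℝ) ^ (10 * s + 1) * #W := mul_le_mul_of_nonneg_right h.card (by positivity)
      _ = Δ * ((Δ : ℝ) ^ (10 * s) * #W) := by ring
      _ ≤ Δ * ((Δ : ℝ) ^ 2 * PS W β Λ ((Δ : ℝ) ^ j)) := mul_le_mul_of_nonneg_left h1 hD0.le
      _ = _ := by ring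
  have h5 : (Δ : ℝ) ^ 3 * (8 / (Δ : ℝ) ^ 5) ≤ 1 / 2 := by
    have e : (Δ : ℝ) ^ 3 * (8 / (Δ : ℝ) ^ 5) = 8 / (Δ : ℝ) ^ 2 := by field_simp
    rw [e, div_le_iff₀ (by positivity)]
    nlinarith
  have h6 := mul_le_mul_of_nonneg_left h3 (show (0 : ℝ) ≤ (Δ : ℝ) ^ 3 by positivity)
  have h7 := mul_le_mul_of_nonneg_right h5 (show (0 : ℝ) ≤ #W * #W by positivity)
  have h8 : (Δ : ℝ) ^ 3 * (S0 + 8 / (Δ : ℝ) ^ 5 * (#W * #W)) =
      (Δ : ℝ) ^ 3 * S0 + (Δ : ℝ) ^ 3 * (8 / (Δ : ℝ) ^ 5) * (#W * #W) := by ring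
  rw [sq]
  linarith

lemma World.err (h : World Δ s W n Λ) {m : ℕ} (hm : m + 5 ≤ 40 * s) :
    (Δ : ℝ) ^ m / Λ ^ 2 ≤ 1 / (Δ : ℝ) ^ 5 := by
  have hD := h.D1
  have hΛ := h.lam_pos
  rw [div_le_div_iff₀ (by positivity) (by positivity), one_mul, ← pow_add]
  calc (Δ : ℝ) ^ (m + 5) ≤ (Δ : ℝ) ^ (40 * s) := pow_le_pow_right₀ hD hm
    _ = ((Δ : ℝ) ^ (20 * s)) ^ 2 := by ring
    _ ≤ _ := pow_le_pow_left₀ (by positivity) h.lamlo 2

/-- linearisation in `y` -/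
lemma World.semi (h : World Δ s W n Λ) {i j : ℕ} (hj : j ≤ 20 * s) (hlin : 2 * j + i + 5 ≤ 40 * s)
    (β : ℝ → ℂ) (hβ : ∀ t ∈ W, ‖β t‖ ≤ 1) (k kI : ℤ) {x : ℝ}
    (hx : x ∈ gdS W Λ ((Δ : ℝ) ^ i) ((Δ : ℝ) ^ j) k kI) :
    ‖∑ y ∈ inC W ((Δ : ℝ) ^ j) k, β y * ei ((y - x) * Real.log (y - x))‖ ≤
      ‖∑ y ∈ inC W ((Δ : ℝ) ^ j) k,
        (β y * ei ((y - kI * (Δ : ℝ) ^ i) * Real.log (y - kI * (Δ : ℝ) ^ i))) *
          ei ((y - k * (Δ : ℝ) ^ j) *
            (Real.log (k * (Δ : ℝ) ^ j - x) - Real.log (k * (Δ : ℝ) ^ j - kI * (Δ : ℝ) ^ i)))‖ +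
      2 * n j * (1 / (Δ : ℝ) ^ 5) := by
  have hD := h.D1
  have hΛ := h.lam_pos
  obtain ⟨hx1, hx2, hx3⟩ := Finset.mem_filter.mp hx
  obtain ⟨b1, b2⟩ := inC_bounds (by positivity) hx1
  set cI := kI * (Δ : ℝ) ^ i
  set cJ := k * (Δ : ℝ) ^ j
  have key := rect_perturb (inC W ((Δ : ℝ) ^ j) k) β (fun y hy => hβ y (mem_inC.mp hy).1)
    (fun y => (y - x) * Real.log (y - x))
    (fun y => (y - cI) * Real.log (y - cI) + (y - cJ) * (Real.log (cJ - x) - Real.log (cJ - cI)))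
    ((cJ - x) * Real.log (cJ - x) - (cJ - cI) * Real.log (cJ - cI)) (1 / (Δ : ℝ) ^ 5) (by
      intro y hy
      obtain ⟨c1, c2⟩ := inC_bounds (by positivity) hy
      have := rect_phase hΛ hx2 (show cJ - x ≤ cJ - cI by linarith) (show 0 ≤ y - cJ by linarith)
      rw [show cJ - x + (y - cJ) = y - x by ring, show cJ - cI + (y - cJ) = y - cI by ring] at this
      refine le_trans (le_of_eq_of_le (by congr 1; ring) this) (le_trans ?_ (h.err hlin))
      refine div_le_div_of_nonneg_right ?_ (by positivity)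
      rw [pow_add, mul_comm 2 j, pow_mul]
      exact mul_le_mul (pow_le_pow_left₀ (by linarith) (by linarith) 2) (by linarith) (by linarith)
        (by positivity))
  refine key.trans (add_le_add (le_of_eq ?_)
    (mul_le_mul_of_nonneg_right (h.unif.hi j hj k) (by positivity)))
  congr 1
  exact Finset.sum_congr rfl fun y _ => by rw [ei_add, mul_assoc]

/-- the uncertainty inequality on rectangles of size `Δ ^ i × Δ ^ j`; `i' = L - i`, `j' = L - j` -/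
theorem World.rect (h : World Δ s W n Λ) {i j i' j' w : ℕ} (hi : i + i' = 20 * s)
    (hj : j + j' = 20 * s) (hw : i = j' + w) (hj12 : j ≤ 12 * s) (hlin : 2 * j + i + 5 ≤ 40 * s) :
    n i * n j ≤ (Δ : ℝ) ^ (w + 11) * (n j' * n i') := by
  have hD := h.D9
  have hD1 := h.D1
  have hD0 : (0 : ℝ) < Δ := by linarith
  have hΛ := h.lam_pos
  have p1 := h.unif.pos i (by omega)
  have p2 := h.unif.pos j (by omega)
  have p3 := h.unif.pos i' (by omega)
  have p4 := h.unif.pos j' (by omega)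
  obtain ⟨β, hβ, h1⟩ := h.ps j hj12
  set B0 : ℝ := 2 * n i * (3000 * (4 * (Δ : ℝ) ^ 4 * n j') * (Δ : ℝ) ^ w * (2 * n j * (6 * n i')))
    with hB0
  have key := h.sum_T (i := i) (j := j) (by omega) (by omega) β h1 (fun _ _ => √B0) (by
    intro k _ kI _
    have hG : (#(gdS W Λ ((Δ : ℝ) ^ i) ((Δ : ℝ) ^ j) k kI) : ℝ) ≤ 2 * n i :=
      le_trans (Nat.cast_le.mpr (Finset.card_filter_le _ _)) (h.unif.hi i (by omega) kI)
    refine (Finset.sum_le_sum fun x hx => h.semi (by omega) hlin β hβ k kI hx).trans ?_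
    rw [Finset.sum_add_distrib, Finset.sum_const, nsmul_eq_mul]
    refine add_le_add (Real.le_sqrt_of_sq_le ?_) ?_
    · refine sq_sum_le_card_mul_sum_sq.trans ?_
      refine mul_le_mul hG ?_ (by positivity) (by positivity)
      set cI := kI * (Δ : ℝ) ^ i
      set cJ := k * (Δ : ℝ) ^ j
      have e1 : 1 / (Δ : ℝ) ^ i' * (Δ : ℝ) ^ j = (Δ : ℝ) ^ w := by
        rw [show j = i' + w by omega, pow_add]; field_simp
      have l := ls (gdS W Λ ((Δ : ℝ) ^ i) ((Δ : ℝ) ^ j) k kI)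
        (fun x => Real.log (cJ - x) - Real.log (cJ - cI)) (inC W ((Δ : ℝ) ^ j) k) (fun y => y - cJ)
        (fun y => β y * ei ((y - cI) * Real.log (y - cI)))
        (fun y hy => by rw [norm_mul, norm_ei, mul_one]; exact hβ y (mem_inC.mp hy).1)
        (-(1 / (Δ : ℝ) ^ i')) 0 (1 / (Δ : ℝ) ^ i') ((Δ : ℝ) ^ j) (4 * (Δ : ℝ) ^ 4 * n j')
        (by positivity) (by positivity) (by rw [e1]; exact one_le_pow₀ hD1) (by
          intro x hx
          obtain ⟨hx1, hx2, hx3⟩ := Finset.mem_filter.mp hx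
          obtain ⟨b1, b2⟩ := inC_bounds (by positivity) hx1
          obtain ⟨c1, c2⟩ := rect_log2 hΛ hx2 (show cJ - x ≤ cJ - cI by linarith)
          have c3 : 0 ≤ (cJ - cI - (cJ - x)) / (cJ - cI) := div_nonneg (by linarith) (by linarith)
          have c4 : (cJ - cI - (cJ - x)) / (cJ - x) ≤ 1 / (Δ : ℝ) ^ i' := by
            rw [div_le_div_iff₀ (by linarith) (by positivity), one_mul]
            calc (cJ - cI - (cJ - x)) * (Δ : ℝ) ^ i' ≤ (Δ : ℝ) ^ i * (Δ : ℝ) ^ i' :=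
                  mul_le_mul_of_nonneg_right (by linarith) (by positivity)
              _ = (Δ : ℝ) ^ (20 * s) := by rw [← pow_add, hi]
              _ ≤ _ := h.lamlo.trans hx2
          constructor <;> linarith) (by
          intro y hy
          obtain ⟨c1, c2⟩ := inC_bounds (by positivity) hy
          rw [sub_zero, abs_le]; constructor <;> linarith) (by
          intro z
          rcases Finset.eq_empty_or_nonempty {x ∈ gdS W Λ ((Δ : ℝ) ^ i) ((Δ : ℝ) ^ j) k kI |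
            z ≤ Real.log (cJ - x) - Real.log (cJ - cI) ∧
              Real.log (cJ - x) - Real.log (cJ - cI) ≤ z + 1 / (Δ : ℝ) ^ j} with he | ⟨x0, hx0⟩
          · rw [he]; simp only [Finset.card_empty, Nat.cast_zero]; positivity
          have cnt := h.unif.count h.one_le (j := j') (by omega)
            (x0 - 3 * (Δ : ℝ) ^ 3 * (Δ : ℝ) ^ j') (6 * Δ ^ 3)
          refine le_trans (Nat.cast_le.mpr (Finset.card_le_card fun x hx => ?_)) (cnt.trans ?_)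
          · obtain ⟨hxa, z1, z2⟩ := Finset.mem_filter.mp hx
            obtain ⟨hxb, z3, z4⟩ := Finset.mem_filter.mp hx0
            obtain ⟨hx1, hx2, hx3⟩ := Finset.mem_filter.mp hxa
            obtain ⟨-, hx2', hx3'⟩ := Finset.mem_filter.mp hxb
            have e2 : 3 * Λ * (1 / (Δ : ℝ) ^ j) ≤ 3 * (Δ : ℝ) ^ 3 * (Δ : ℝ) ^ j' := by
              rw [mul_one_div, div_le_iff₀ (by positivity)]
              calc 3 * Λ ≤ 3 * (Δ : ℝ) ^ (20 * s + 3) := by linarith [h.lamhi]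
                _ = _ := by rw [← hj]; ring
            have gap : ∀ u u0 : ℝ, Λ ≤ u → u ≤ u0 → u0 ≤ 3 * Λ →
                Real.log u0 - Real.log u ≤ 1 / (Δ : ℝ) ^ j →
                u0 - u ≤ 3 * (Δ : ℝ) ^ 3 * (Δ : ℝ) ^ j' := by
              intro u u0 a1 a2 a3 a4
              have a5 := (rect_log2 hΛ a1 a2).1.trans a4
              rw [div_le_iff₀ (by linarith)] at a5
              refine a5.trans (le_trans ?_ e2)
              rw [mul_comm]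
              exact mul_le_mul_of_nonneg_right a3 (by positivity)
            have pos : 0 ≤ 3 * (Δ : ℝ) ^ 3 * (Δ : ℝ) ^ j' := by positivity
            refine Finset.mem_filter.mpr ⟨(mem_inC.mp hx1).1, ?_⟩
            push_cast
            rcases le_total x x0 with hle | hle
            · have := gap (cJ - x0) (cJ - x) hx2' (by linarith) hx3 (by linarith)
              constructor <;> linarith
            · have := gap (cJ - x) (cJ - x0) hx2 (by linarith) hx3' (by linarith)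
              constructor <;> linarith
          · refine mul_le_mul_of_nonneg_right ?_ (by linarith)
            push_cast
            have a1 : (1 : ℝ) ≤ (Δ : ℝ) ^ 3 := one_le_pow₀ hD1
            have a2 : 10 ^ 9 * (Δ : ℝ) ^ 3 ≤ Δ * (Δ : ℝ) ^ 3 :=
              mul_le_mul_of_nonneg_right hD (by positivity)
            have a3 : (Δ : ℝ) ^ 4 = Δ * (Δ : ℝ) ^ 3 := by ring
            linarith)
      rw [e1] at l
      refine l.trans (mul_le_mul_of_nonneg_left ?_ (by positivity))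
      refine le_trans ?_ ((h.unif.pairs h.one_le (m := i') (by omega) (inC W ((Δ : ℝ) ^ j) k)
        (Finset.filter_subset _ _)).trans
        (mul_le_mul_of_nonneg_right (h.unif.hi j (by omega) k) (by positivity)))
      refine Nat.cast_le.mpr (Finset.card_le_card fun p hp => ?_)
      obtain ⟨q1, q2⟩ := Finset.mem_filter.mp hp
      refine Finset.mem_filter.mpr ⟨q1, ?_⟩
      rwa [one_div_one_div, sub_sub_sub_cancel_right] at q2
    · calc _ ≤ 2 * n i * (2 * n j * (1 / (Δ : ℝ) ^ 5)) :=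
            mul_le_mul_of_nonneg_right hG (by positivity)
        _ = 4 / (Δ : ℝ) ^ 5 * (n i * n j) := by ring
        _ ≤ _ := by gcongr; norm_num)
  simp only [Finset.sum_const, nsmul_eq_mul] at key
  have a1 := h.unif.occ_le (j := i) (by omega)
  have a2 := h.unif.occ_le (j := j) (by omega)
  have a3 : (#(occ W ((Δ : ℝ) ^ j)) * n j) * (#(occ W ((Δ : ℝ) ^ i)) * n i) ≤ #W * #W :=
    mul_le_mul a2 a1 (by positivity) (by positivity)
  have hR := h.R_pos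
  have k2 : n i * n j ≤ 2 * (Δ : ℝ) ^ 3 * √B0 := by
    refine le_of_mul_le_mul_left (a := (#W : ℝ) ^ 2) ?_ (by positivity)
    calc (#W : ℝ) ^ 2 * (n i * n j) ≤ 2 * (Δ : ℝ) ^ 3 *
          (#(occ W ((Δ : ℝ) ^ j)) * (#(occ W ((Δ : ℝ) ^ i)) * √B0)) * (n i * n j) :=
          mul_le_mul_of_nonneg_right key (by positivity)
      _ = 2 * (Δ : ℝ) ^ 3 * √B0 *
          ((#(occ W ((Δ : ℝ) ^ j)) * n j) * (#(occ W ((Δ : ℝ) ^ i)) * n i)) := by ring
      _ ≤ 2 * (Δ : ℝ) ^ 3 * √B0 * (#W * #W) := mul_le_mul_of_nonneg_left a3 (by positivity)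
      _ = _ := by ring
  have k3 := pow_le_pow_left₀ (by positivity) k2 2
  rw [mul_pow (2 * (Δ : ℝ) ^ 3), Real.sq_sqrt (by positivity), hB0] at k3
  refine le_of_mul_le_mul_left (a := n i * n j) ?_ (by positivity)
  calc n i * n j * (n i * n j) = (n i * n j) ^ 2 := by ring
    _ ≤ _ := k3
    _ = 1152000 * (n i * n j * ((Δ : ℝ) ^ (w + 10) * (n j' * n i'))) := by ring
    _ ≤ Δ * (n i * n j * ((Δ : ℝ) ^ (w + 10) * (n j' * n i'))) :=
        mul_le_mul_of_nonneg_right (by linarith) (by positivity)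
    _ = _ := by ring

end Pool.Agent.MP_71ac24_nt.H14

/-! Large energies between two cells and many dilates. -/

set_option autoImplicit false

namespace Pool.Agent.MP_71ac24_nt.H14

open Finset

lemma pick {α κ : Type*} (I : Finset α) (Jo : Finset κ) (Φ : κ → α → α → ℝ) (far : α → α → Prop)
    [DecidableRel far] (Z μ : ℝ) (hZ : 0 < Z) (hμ : 0 < μ) (hI : I.Nonempty) (hJ : Jo.Nonempty)
    (h1 : ∀ k ∈ Jo, ∀ a ∈ I, ∀ b ∈ I, Φ k a b ≤ 64 * Z)
    (hc : ∀ a ∈ I, 256 * (#{b ∈ I | ¬ far a b} : ℝ) ≤ μ * #I)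
    (hS : μ * (#I : ℝ) ^ 2 * #Jo * Z ≤ ∑ k ∈ Jo, ∑ a ∈ I, ∑ b ∈ I, Φ k a b) :
    ∃ a ∈ I, ∃ b ∈ I, far a b ∧ ∃ J ⊆ Jo, μ * #Jo ≤ 256 * #J ∧ ∀ k ∈ J, μ * Z / 4 ≤ Φ k a b := by
  suffices H : ∃ a ∈ I, ∃ b ∈ I, far a b ∧ μ * #Jo ≤ 256 * #{k ∈ Jo | μ * Z / 4 ≤ Φ k a b} by
    obtain ⟨a, ha, b, hb, f, H⟩ := H
    exact ⟨a, ha, b, hb, f, _, Finset.filter_subset _ _, H, fun k hk => (Finset.mem_filter.mp hk).2⟩
  by_contra hcon
  push Not at hcon
  have pI : (0 : ℝ) < #I := by exact_mod_cast hI.card_pos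
  have pJ : (0 : ℝ) < #Jo := by exact_mod_cast hJ.card_pos
  have k1 : ∀ a ∈ I, ∀ b ∈ I, ∑ k ∈ Jo, Φ k a b ≤
      μ * Z * #Jo / 2 + if ¬ far a b then 64 * Z * #Jo else 0 := by
    intro a ha b hb
    by_cases hf : far a b
    · simp only [hf, not_true, if_false, add_zero]
      have := (hcon a ha b hb hf).le
      calc _ ≤ ∑ k ∈ Jo, (μ * Z / 4 + if μ * Z / 4 ≤ Φ k a b then 64 * Z else 0) := by
            refine Finset.sum_le_sum fun k hk => ?_
            have := h1 k hk a ha b hb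
            have : 0 < μ * Z := by positivity
            split_ifs with h2
            · linarith
            · linarith
        _ = #Jo * (μ * Z / 4) + #{k ∈ Jo | μ * Z / 4 ≤ Φ k a b} * (64 * Z) := by
            rw [Finset.sum_add_distrib, ← Finset.sum_filter, Finset.sum_const, Finset.sum_const,
              nsmul_eq_mul, nsmul_eq_mul]
        _ ≤ _ := by nlinarith
    · simp only [hf, not_false_eq_true, if_true]
      have : ∑ k ∈ Jo, Φ k a b ≤ ∑ _k ∈ Jo, 64 * Z := Finset.sum_le_sum fun k hk => h1 k hk a ha b hb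
      rw [Finset.sum_const, nsmul_eq_mul] at this
      have : 0 < μ * Z * #Jo := by positivity
      linarith
  have k2 : ∀ a ∈ I, ∑ b ∈ I, ∑ k ∈ Jo, Φ k a b ≤ 3 / 4 * (μ * Z * #Jo * #I) := by
    intro a ha
    refine (Finset.sum_le_sum (k1 a ha)).trans ?_
    rw [Finset.sum_add_distrib, ← Finset.sum_filter, Finset.sum_const, Finset.sum_const,
      nsmul_eq_mul, nsmul_eq_mul]
    have := mul_le_mul_of_nonneg_right (hc a ha) (show 0 ≤ Z * #Jo by positivity)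
    linarith
  have k3 := Finset.sum_le_sum k2
  rw [Finset.sum_const, nsmul_eq_mul] at k3
  rw [Finset.sum_comm] at hS
  have k4 : ∑ a ∈ I, ∑ k ∈ Jo, ∑ b ∈ I, Φ k a b = ∑ a ∈ I, ∑ b ∈ I, ∑ k ∈ Jo, Φ k a b :=
    Finset.sum_congr rfl fun _ _ => Finset.sum_comm
  have : 0 < μ * (#I : ℝ) ^ 2 * #Jo * Z := by positivity
  nlinarith

/-- power means -/
lemma means {α κ γ : Type*} (I : Finset α) (Jo : Finset κ) (P : κ → Finset γ) (T : κ → α → ℝ)
    (g : κ → α → γ → ℝ) (a m : ℝ) (hm : 0 ≤ m) (g0 : ∀ k b p, 0 ≤ g k b p)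
    (hP : ∀ k ∈ Jo, (#(P k) : ℝ) ≤ m)
    (hT : ∀ k ∈ Jo, ∀ b ∈ I, T k b ^ 2 ≤ a * ∑ p ∈ P k, g k b p) :
    (∑ k ∈ Jo, ∑ b ∈ I, T k b) ^ 8 ≤ (#Jo * #I * a) ^ 4 * (#Jo * m) ^ 3 * (#I : ℝ) ^ 2 *
      ∑ k ∈ Jo, ∑ b ∈ I, ∑ b' ∈ I, ∑ p ∈ P k, g k b p ^ 2 * g k b' p ^ 2 := by
  classical
  set G := ∑ k ∈ Jo, ∑ p ∈ P k, ∑ b ∈ I, g k b p with hG
  have k1 : (∑ k ∈ Jo, ∑ b ∈ I, T k b) ^ 2 ≤ #Jo * #I * a * G := by
    refine sq_sum_le_card_mul_sum_sq.trans ?_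
    rw [mul_assoc, mul_assoc]
    refine mul_le_mul_of_nonneg_left ?_ (by positivity)
    rw [hG, Finset.mul_sum, Finset.mul_sum]
    refine Finset.sum_le_sum fun k hk => sq_sum_le_card_mul_sum_sq.trans ?_
    refine mul_le_mul_of_nonneg_left ?_ (by positivity)
    rw [Finset.sum_comm, Finset.mul_sum]
    exact Finset.sum_le_sum (hT k hk)
  have k2 : G ^ 4 ≤ (#Jo * m) ^ 3 * ∑ k ∈ Jo, ∑ p ∈ P k, (∑ b ∈ I, g k b p) ^ 4 := by
    rw [hG, Finset.sum_sigma' Jo P, Finset.sum_sigma' Jo P]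
    refine (pow_sum_le_card_mul_sum_pow (fun x _ => Finset.sum_nonneg fun b _ => g0 _ _ _) 3).trans ?_
    refine mul_le_mul_of_nonneg_right (pow_le_pow_left₀ (by positivity) ?_ 3)
      (Finset.sum_nonneg fun x _ => pow_nonneg (Finset.sum_nonneg fun b _ => g0 _ _ _) _)
    rw [Finset.card_sigma, Nat.cast_sum, ← nsmul_eq_mul, ← Finset.sum_const]
    exact Finset.sum_le_sum hP
  have k3 : ∑ k ∈ Jo, ∑ p ∈ P k, (∑ b ∈ I, g k b p) ^ 4 ≤ (#I : ℝ) ^ 2 *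
      ∑ k ∈ Jo, ∑ b ∈ I, ∑ b' ∈ I, ∑ p ∈ P k, g k b p ^ 2 * g k b' p ^ 2 := by
    rw [Finset.mul_sum]
    refine Finset.sum_le_sum fun k _ => ?_
    have e : ∑ b ∈ I, ∑ b' ∈ I, ∑ p ∈ P k, g k b p ^ 2 * g k b' p ^ 2 =
        ∑ p ∈ P k, (∑ b ∈ I, g k b p ^ 2) ^ 2 := by
      simp only [sq (∑ b ∈ I, g k b _ ^ 2), Finset.sum_mul_sum]
      rw [Finset.sum_comm (s := P k)]
      exact Finset.sum_congr rfl fun _ _ => Finset.sum_comm
    rw [e, Finset.mul_sum]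
    refine Finset.sum_le_sum fun p _ => ?_
    rw [← mul_pow, show 4 = 2 * 2 from rfl, pow_mul]
    exact pow_le_pow_left₀ (by positivity) sq_sum_le_card_mul_sum_sq 2
  calc _ = ((∑ k ∈ Jo, ∑ b ∈ I, T k b) ^ 2) ^ 4 := by ring
    _ ≤ (#Jo * #I * a * G) ^ 4 := pow_le_pow_left₀ (by positivity) k1 4
    _ = (#Jo * #I * a) ^ 4 * G ^ 4 := by ring
    _ ≤ (#Jo * #I * a) ^ 4 * ((#Jo * m) ^ 3 * ((#I : ℝ) ^ 2 * _)) :=
        mul_le_mul_of_nonneg_left (k2.trans (mul_le_mul_of_nonneg_left k3 (by positivity)))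
          (by positivity)
    _ = _ := by ring

variable {Δ s : ℕ} {W : Finset ℝ} {n : ℕ → ℝ} {Λ : ℝ}

/-- the exponential sum over a cell with the linear phase -/
noncomputable def gI (W : Finset ℝ) (Λ Ui Uj : ℝ) (k kI : ℤ) (t : ℝ) : ℝ :=
  if Λ ≤ k * Uj - kI * Ui ∧ k * Uj - kI * Ui ≤ 4 * Λ then
    ‖∑ x ∈ inC W Ui kI, ei (-(x - kI * Ui) / (k * Uj - kI * Ui) * t)‖ else 0

lemma gI_nonneg (W : Finset ℝ) (Λ Ui Uj : ℝ) (k kI : ℤ) (t : ℝ) : 0 ≤ gI W Λ Ui Uj k kI t := by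
  unfold gI; split_ifs <;> positivity

lemma gI_le (W : Finset ℝ) (Λ Ui Uj : ℝ) (k kI : ℤ) (t : ℝ) :
    gI W Λ Ui Uj k kI t ≤ #(inC W Ui kI) := by
  unfold gI; split_ifs
  · refine (norm_sum_le _ _).trans ?_
    simp only [norm_ei, Finset.sum_const, nsmul_eq_mul, mul_one, le_refl]
  · positivity

lemma World.lower (h : World Δ s W n Λ) {i j : ℕ} (hi : i ≤ 20 * s) (hj12 : j ≤ 12 * s)
    (hlin : 2 * j + i + 5 ≤ 40 * s) (hlin' : 2 * i + j + 5 ≤ 40 * s) :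
    1 / (2 ^ 18 * (Δ : ℝ) ^ 24) * (#(occ W ((Δ : ℝ) ^ i)) : ℝ) ^ 2 * #(occ W ((Δ : ℝ) ^ j)) *
      (n i ^ 4 * n j ^ 2) ≤
      ∑ k ∈ occ W ((Δ : ℝ) ^ j), ∑ b ∈ occ W ((Δ : ℝ) ^ i), ∑ b' ∈ occ W ((Δ : ℝ) ^ i),
        ∑ p ∈ inC W ((Δ : ℝ) ^ j) k ×ˢ inC W ((Δ : ℝ) ^ j) k,
          gI W Λ ((Δ : ℝ) ^ i) ((Δ : ℝ) ^ j) k b (p.1 - p.2) ^ 2 *
            gI W Λ ((Δ : ℝ) ^ i) ((Δ : ℝ) ^ j) k b' (p.1 - p.2) ^ 2 := by
  have hD1 := h.D1
  have hD0 : (0 : ℝ) < Δ := by linarith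
  have hΛ := h.lam_pos
  have hj : j ≤ 20 * s := by omega
  have p1 := h.unif.pos i hi
  have p2 := h.unif.pos j hj
  obtain ⟨β, hβ, h1⟩ := h.ps j hj12
  set Ui := (Δ : ℝ) ^ i with hUi
  set Uj := (Δ : ℝ) ^ j with hUj
  have Ui0 : 0 < Ui := by positivity
  have Uj0 : 0 < Uj := by positivity
  have UiΛ : Ui ≤ Λ := (pow_le_pow_right₀ hD1 hi).trans h.lamlo
  have hb : ∀ k kI : ℤ, ∀ y ∈ inC W Uj k, ‖β y * ei ((y - kI * Ui) * Real.log (y - kI * Ui))‖ ≤ 1 :=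
    fun k kI y hy => by rw [norm_mul, norm_ei, mul_one]; exact hβ y (mem_inC.mp hy).1
  set T : ℤ → ℤ → ℝ := fun k kI => if Λ ≤ k * Uj - kI * Ui ∧ k * Uj - kI * Ui ≤ 4 * Λ then
    ∑ x ∈ inC W Ui kI, ‖∑ y ∈ inC W Uj k, (β y * ei ((y - kI * Ui) * Real.log (y - kI * Ui))) *
      ei (-(x - kI * Ui) / (k * Uj - kI * Ui) * (y - k * Uj))‖ else 0 with hT
  have key := h.sum_T hi hj β h1 T (by
    intro k _ kI _
    rcases Finset.eq_empty_or_nonempty (gdS W Λ Ui Uj k kI) with he | ⟨x0, hx0⟩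
    · rw [he, Finset.sum_empty]
      have : 0 ≤ T k kI := by simp only [hT]; split_ifs <;> positivity
      positivity
    have gd : Λ ≤ k * Uj - kI * Ui ∧ k * Uj - kI * Ui ≤ 4 * Λ := by
      obtain ⟨hx1, hx2, hx3⟩ := Finset.mem_filter.mp hx0
      obtain ⟨b1, b2⟩ := inC_bounds Ui0 hx1
      constructor <;> linarith
    have hG : (#(gdS W Λ Ui Uj k kI) : ℝ) ≤ 2 * n i :=
      le_trans (Nat.cast_le.mpr (Finset.card_filter_le _ _)) (h.unif.hi i hi kI)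
    simp only [hT, if_pos gd]
    calc _ ≤ ∑ x ∈ gdS W Λ Ui Uj k kI,
          (‖∑ y ∈ inC W Uj k, (β y * ei ((y - kI * Ui) * Real.log (y - kI * Ui))) *
            ei (-(x - kI * Ui) / (k * Uj - kI * Ui) * (y - k * Uj))‖ + 4 * n j * (1 / (Δ : ℝ) ^ 5)) := by
          refine Finset.sum_le_sum fun x hx => (h.semi hj hlin β hβ k kI hx).trans ?_
          obtain ⟨hx1, hx2, hx3⟩ := Finset.mem_filter.mp hx
          obtain ⟨b1, b2⟩ := inC_bounds Ui0 hx1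
          have per := rect_perturb (inC W Uj k) _ (hb k kI)
            (fun y => (y - k * Uj) * (Real.log (k * Uj - x) - Real.log (k * Uj - kI * Ui)))
            (fun y => -(x - kI * Ui) / (k * Uj - kI * Ui) * (y - k * Uj)) 0 (1 / (Δ : ℝ) ^ 5) (by
              intro y hy
              obtain ⟨c1, c2⟩ := inC_bounds Uj0 hy
              obtain ⟨d1, d2⟩ := rect_log2 hΛ hx2 (show k * Uj - x ≤ k * Uj - kI * Ui by linarith)
              set u := k * Uj - x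
              set u0 := k * Uj - kI * Ui
              have e0 : x - kI * Ui = u0 - u := by simp only [u, u0]; ring
              have u1 : 0 < u := by linarith
              have u2 : 0 < u0 := by linarith [gd.1]
              have e1 : (u0 - u) / u - (u0 - u) / u0 ≤ Ui ^ 2 / Λ ^ 2 := by
                have : (u0 - u) / u - (u0 - u) / u0 = (u0 - u) ^ 2 / (u * u0) := by field_simp
                rw [this]
                refine div_le_div₀ (by positivity) (pow_le_pow_left₀ (by linarith) (by linarith) 2)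
                  (by positivity) ?_
                rw [sq]; exact mul_le_mul hx2 gd.1 hΛ.le u1.le
              have e2 : (y - k * Uj) * (Real.log u - Real.log u0) - (0 + -(x - kI * Ui) / u0 * (y - k * Uj)) =
                  -((y - k * Uj) * (Real.log u0 - Real.log u - (u0 - u) / u0)) := by rw [e0]; ring
              rw [e2, abs_neg, abs_of_nonneg (mul_nonneg (by linarith) (by linarith))]
              refine le_trans ?_ (h.err hlin')
              calc _ ≤ Uj * (Ui ^ 2 / Λ ^ 2) :=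
                    mul_le_mul (by linarith) (by linarith) (by linarith) Uj0.le
                _ = _ := by rw [hUi, hUj]; ring)
          have := mul_le_mul_of_nonneg_right (h.unif.hi j hj k) (show 0 ≤ 1 / (Δ : ℝ) ^ 5 by positivity)
          linarith
      _ ≤ _ := by
          rw [Finset.sum_add_distrib, Finset.sum_const, nsmul_eq_mul]
          refine add_le_add (Finset.sum_le_sum_of_subset_of_nonneg (Finset.filter_subset _ _)
            fun _ _ _ => norm_nonneg _) ?_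
          exact (mul_le_mul_of_nonneg_right hG (by positivity)).trans_eq (by ring))
  have mn := means (occ W Ui) (occ W Uj) (fun k => inC W Uj k ×ˢ inC W Uj k) T
    (fun k b p => gI W Λ Ui Uj k b (p.1 - p.2)) (2 * n i) (4 * n j ^ 2) (by positivity)
    (fun _ _ _ => gI_nonneg _ _ _ _ _ _ _) (by
      intro k _
      rw [Finset.card_product, Nat.cast_mul]
      have := h.unif.hi j hj k
      exact (mul_le_mul this this (by positivity) (by positivity)).trans_eq (by ring)) (by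
      intro k _ b _
      simp only [hT, gI]
      split_ifs
      · refine sq_sum_le_card_mul_sum_sq.trans (mul_le_mul (h.unif.hi i hi b) ?_ (by positivity)
          (by positivity))
        refine (rect_dual _ _ _ (hb k b) (fun x => -(x - b * Ui) / (k * Uj - b * Ui))
          (fun y => y - k * Uj)).trans_eq ?_
        simp only [sub_sub_sub_cancel_right]
      · simp)
  set S := ∑ k ∈ occ W Uj, ∑ b ∈ occ W Ui, ∑ b' ∈ occ W Ui, ∑ p ∈ inC W Uj k ×ˢ inC W Uj k,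
    gI W Λ Ui Uj k b (p.1 - p.2) ^ 2 * gI W Λ Ui Uj k b' (p.1 - p.2) ^ 2
  have a1 := h.unif.occ_le hi
  have a2 := h.unif.occ_le hj
  have pI : (0 : ℝ) < #(occ W Ui) := by exact_mod_cast (h.ne.image _).card_pos
  have pJ : (0 : ℝ) < #(occ W Uj) := by exact_mod_cast (h.ne.image _).card_pos
  rw [← hUi] at a1
  rw [← hUj] at a2
  generalize (#(occ W Ui) : ℝ) = cI at *
  generalize (#(occ W Uj) : ℝ) = cJ at *
  have a3 : (cJ * n j) * (cI * n i) ≤ (#W : ℝ) ^ 2 := by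
    rw [sq]; exact mul_le_mul a2 a1 (by positivity) (by positivity)
  have a4 := pow_le_pow_left₀ (by positivity) (a3.trans key) 8
  rw [mul_pow (2 * (Δ : ℝ) ^ 3)] at a4
  have a5 := a4.trans (mul_le_mul_of_nonneg_left mn (by positivity))
  rw [one_div, mul_assoc, mul_assoc, inv_mul_le_iff₀ (by positivity)]
  refine le_of_mul_le_mul_left (a := cI ^ 6 * cJ ^ 7 * n i ^ 4 * n j ^ 6) ?_ (by positivity)
  exact le_of_eq_of_le (by ring) (a5.trans_eq (by ring))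

lemma World.upper (h : World Δ s W n Λ) {i j i' j' w : ℕ} (hi : i + i' = 20 * s)
    (hj : j + j' = 20 * s) (hw : i = j' + w) {k b b' : ℤ}
    (g1 : Λ ≤ k * (Δ : ℝ) ^ j - b * (Δ : ℝ) ^ i ∧ k * (Δ : ℝ) ^ j - b * (Δ : ℝ) ^ i ≤ 4 * Λ)
    (g2 : Λ ≤ k * (Δ : ℝ) ^ j - b' * (Δ : ℝ) ^ i ∧ k * (Δ : ℝ) ^ j - b' * (Δ : ℝ) ^ i ≤ 4 * Λ) :
    ∑ p ∈ inC W ((Δ : ℝ) ^ j) k ×ˢ inC W ((Δ : ℝ) ^ j) k,
      gI W Λ ((Δ : ℝ) ^ i) ((Δ : ℝ) ^ j) k b (p.1 - p.2) ^ 2 *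
        gI W Λ ((Δ : ℝ) ^ i) ((Δ : ℝ) ^ j) k b' (p.1 - p.2) ^ 2 ≤
      2 * n j * (3000 * (4 * n i') * (Δ : ℝ) ^ w *
        #{z ∈ (inC W ((Δ : ℝ) ^ i) b ×ˢ inC W ((Δ : ℝ) ^ i) b) ×ˢ
            (inC W ((Δ : ℝ) ^ i) b' ×ˢ inC W ((Δ : ℝ) ^ i) b') |
          |(z.1.1 - z.1.2) - (k * (Δ : ℝ) ^ j - b * (Δ : ℝ) ^ i) / (k * (Δ : ℝ) ^ j - b' * (Δ : ℝ) ^ i) *
            (z.2.1 - z.2.2)| ≤ (Δ : ℝ) ^ (j' + 4)}) := by
  have hD := h.D9
  have hD1 := h.D1
  have hD0 : (0 : ℝ) < Δ := by linarith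
  have hΛ := h.lam_pos
  have p3 := h.unif.pos i' (by omega)
  have e1 : (Δ : ℝ) ^ j * (1 / (Δ : ℝ) ^ i') = (Δ : ℝ) ^ w := by
    rw [show j = i' + w by omega, pow_add]; field_simp
  have e2 : (Δ : ℝ) ^ i * (Δ : ℝ) ^ i' ≤ Λ := by rw [← pow_add, hi]; exact h.lamlo
  have e3 : 4 * Λ ≤ (Δ : ℝ) ^ (j' + 4) * (Δ : ℝ) ^ j := by
    have : 4 * (Δ : ℝ) ^ (20 * s + 3) ≤ Δ * (Δ : ℝ) ^ (20 * s + 3) :=
      mul_le_mul_of_nonneg_right (by linarith) (by positivity)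
    calc 4 * Λ ≤ Δ * (Δ : ℝ) ^ (20 * s + 3) := by linarith [h.lamhi]
      _ = _ := by rw [← hj]; ring
  have hhi := h.unif.hi j (by omega) k
  have cnt := fun z => h.unif.count h.one_le (j := i') (by omega) z 1
  set Ui := (Δ : ℝ) ^ i with hUi
  set Uj := (Δ : ℝ) ^ j with hUj
  set Ui' := (Δ : ℝ) ^ i' with hUi'
  have Ui0 : 0 < Ui := by positivity
  have Uj0 : 0 < Uj := by positivity
  have Ui'0 : 0 < Ui' := by positivity
  simp only [gI, if_pos g1, if_pos g2]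
  set d := k * Uj - b * Ui
  set d' := k * Uj - b' * Ui
  have d0 : 0 < d := by linarith [g1.1]
  have d0' : 0 < d' := by linarith [g2.1]
  have ph : ∀ (c : ℤ) (e : ℝ), Λ ≤ e → ∀ x ∈ inC W Ui c,
      -(1 / Ui') ≤ -(x - c * Ui) / e ∧ -(x - c * Ui) / e ≤ 0 := by
    intro c e he x hx
    obtain ⟨b1, b2⟩ := inC_bounds Ui0 hx
    have e0 : 0 < e := by linarith
    rw [neg_div]
    refine ⟨neg_le_neg ?_, neg_nonpos.mpr (div_nonneg (by linarith) e0.le)⟩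
    rw [div_le_div_iff₀ e0 Ui'0, one_mul]
    exact (mul_le_mul_of_nonneg_right (by linarith) Ui'0.le).trans (e2.trans he)
  rw [Finset.sum_product_right]
  refine (Finset.sum_le_card_nsmul _ _ _ fun y' _ => ?_).trans (by
    rw [nsmul_eq_mul]; exact mul_le_mul_of_nonneg_right hhi (by positivity))
  have l := ls (inC W Uj k) (fun y => y - y') (inC W Ui b ×ˢ inC W Ui b')
    (fun q => -(q.1 - b * Ui) / d + -(q.2 - b' * Ui) / d') (fun _ => 1) (fun _ _ => by simp)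
    (k * Uj - y') (-(1 / Ui')) Uj (1 / Ui') (4 * n i') Uj0 (by positivity)
    (by rw [e1]; exact one_le_pow₀ hD1) (by
      intro y hy
      obtain ⟨c1, c2⟩ := inC_bounds Uj0 hy
      constructor <;> linarith) (by
      intro q hq
      obtain ⟨q1, q2⟩ := Finset.mem_product.mp hq
      obtain ⟨c1, c2⟩ := ph b d g1.1 _ q1
      obtain ⟨c3, c4⟩ := ph b' d' g2.1 _ q2
      rw [abs_le]; constructor <;> linarith) (by
      intro z
      refine le_trans (Nat.cast_le.mpr (Finset.card_le_card fun y hy => ?_))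
        ((cnt (z + y')).trans_eq (by norm_num))
      obtain ⟨y1, y2, y3⟩ := Finset.mem_filter.mp hy
      rw [one_div_one_div] at y3
      exact Finset.mem_filter.mpr ⟨(mem_inC.mp y1).1, by linarith, by push_cast; linarith⟩)
  rw [e1] at l
  refine le_trans (le_of_eq ?_) (l.trans (mul_le_mul_of_nonneg_left (Nat.cast_le.mpr ?_) (by positivity)))
  · refine Finset.sum_congr rfl fun y _ => ?_
    rw [← mul_pow, ← norm_mul, Finset.sum_mul_sum, Finset.sum_product]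
    simp only [one_mul, add_mul, ei_add]
  · refine Finset.card_le_card_of_injOn (fun p => ((p.1.1, p.2.1), (p.2.2, p.1.2))) ?_ ?_
    · intro p hp
      obtain ⟨q1, q2⟩ := Finset.mem_filter.mp (Finset.mem_coe.mp hp)
      simp only [Finset.mem_product] at q1
      refine Finset.mem_coe.mpr (Finset.mem_filter.mpr ⟨?_, ?_⟩)
      · simp only [Finset.mem_product]; tauto
      · have e4 : (p.1.1 - p.2.1) - d / d' * (p.2.2 - p.1.2) = -d * (-(p.1.1 - b * Ui) / d +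
            -(p.1.2 - b' * Ui) / d' - (-(p.2.1 - b * Ui) / d + -(p.2.2 - b' * Ui) / d')) := by
          field_simp; ring
        simp only
        rw [e4, abs_mul, abs_neg, abs_of_pos d0]
        refine (mul_le_mul g1.2 q2 (abs_nonneg _) (by positivity)).trans ?_
        rwa [mul_one_div, div_le_iff₀ Uj0]
    · rintro ⟨⟨a1, a2⟩, a3, a4⟩ - ⟨⟨c1, c2⟩, c3, c4⟩ - e
      simp only [Prod.mk.injEq] at e ⊢
      tauto

theorem World.window (h : World Δ s W n Λ) (hs : 20 ≤ s) {i j i' j' w : ℕ} (hi : i + i' = 20 * s)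
    (hj : j + j' = 20 * s) (hw : i = j' + w) (hj12 : j ≤ 12 * s) (hlin : 2 * j + i + 5 ≤ 40 * s)
    (hlin' : 2 * i + j + 5 ≤ 40 * s) (hi60 : i + 60 ≤ 20 * s) :
    ∃ kI ∈ occ W ((Δ : ℝ) ^ i), ∃ kI' ∈ occ W ((Δ : ℝ) ^ i), ∃ J ⊆ occ W ((Δ : ℝ) ^ j),
      (Δ : ℝ) ^ (20 * s) ≤ (Δ : ℝ) ^ 60 * |(kI : ℝ) * (Δ : ℝ) ^ i - kI' * (Δ : ℝ) ^ i| ∧
      (#(occ W ((Δ : ℝ) ^ j)) : ℝ) ≤ (Δ : ℝ) ^ 25 * #J ∧
      ∀ k ∈ J, (Λ ≤ k * (Δ : ℝ) ^ j - kI * (Δ : ℝ) ^ i ∧ k * (Δ : ℝ) ^ j - kI * (Δ : ℝ) ^ i ≤ 4 * Λ) ∧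
        (Λ ≤ k * (Δ : ℝ) ^ j - kI' * (Δ : ℝ) ^ i ∧ k * (Δ : ℝ) ^ j - kI' * (Δ : ℝ) ^ i ≤ 4 * Λ) ∧
        n i ^ 4 * n j ≤ (Δ : ℝ) ^ (w + 26) * n i' *
          #{z ∈ (inC W ((Δ : ℝ) ^ i) kI ×ˢ inC W ((Δ : ℝ) ^ i) kI) ×ˢ
              (inC W ((Δ : ℝ) ^ i) kI' ×ˢ inC W ((Δ : ℝ) ^ i) kI') |
            |(z.1.1 - z.1.2) - (k * (Δ : ℝ) ^ j - kI * (Δ : ℝ) ^ i) /
              (k * (Δ : ℝ) ^ j - kI' * (Δ : ℝ) ^ i) * (z.2.1 - z.2.2)| ≤ (Δ : ℝ) ^ (j' + 4)} := by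
  have hD := h.D9
  have hD1 := h.D1
  have hD0 : (0 : ℝ) < Δ := by linarith
  have hiL : i ≤ 20 * s := by omega
  have hjL : j ≤ 20 * s := by omega
  have p1 := h.unif.pos i hiL
  have p2 := h.unif.pos j hjL
  have p3 := h.unif.pos i' (by omega)
  have D2 : (10 : ℝ) ^ 18 ≤ (Δ : ℝ) ^ 2 := (pow_le_pow_left₀ (by positivity) hD 2).trans_eq' (by norm_num)
  obtain ⟨m, hm⟩ : ∃ m, 20 * s = m + 60 := ⟨20 * s - 60, by omega⟩
  have fr : n (m + 1) * (Δ : ℝ) ^ 28 ≤ #W := by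
    have f1 := h.fro (m + 1) (by omega) (by omega)
    have p4 := h.unif.pos (m + 1) (by omega)
    refine (pow_le_pow_iff_left₀ (by positivity) (by positivity) two_ne_zero).mp ?_
    refine le_of_mul_le_mul_right (a := (Δ : ℝ) ^ (m + 1 + 2)) (le_trans ?_ f1) (by positivity)
    rw [mul_pow, mul_assoc, ← pow_mul, ← pow_add]
    exact mul_le_mul_of_nonneg_left (pow_le_pow_right₀ hD1 (by omega)) (by positivity)
  obtain ⟨b, hb, b', hb', far, J, hJ0, hJ, hJ1⟩ := pick (occ W ((Δ : ℝ) ^ i)) (occ W ((Δ : ℝ) ^ j)) _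
    (fun b b' : ℤ => (Δ : ℝ) ^ (20 * s) ≤ (Δ : ℝ) ^ 60 * |(b : ℝ) * (Δ : ℝ) ^ i - b' * (Δ : ℝ) ^ i|)
    (n i ^ 4 * n j ^ 2) (1 / (2 ^ 18 * (Δ : ℝ) ^ 24)) (by positivity) (by positivity) (h.ne.image _)
    (h.ne.image _) (by
      intro k _ b _ b' _
      have c1 := (gI_le W Λ _ ((Δ : ℝ) ^ j) k b · |>.trans (h.unif.hi i hiL b))
      have c2 := (gI_le W Λ _ ((Δ : ℝ) ^ j) k b' · |>.trans (h.unif.hi i hiL b'))
      refine (Finset.sum_le_card_nsmul _ _ ((2 * n i) ^ 2 * (2 * n i) ^ 2) fun p _ =>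
        mul_le_mul (pow_le_pow_left₀ (gI_nonneg _ _ _ _ _ _ _) (c1 _) 2)
          (pow_le_pow_left₀ (gI_nonneg _ _ _ _ _ _ _) (c2 _) 2) (by positivity) (by positivity)).trans ?_
      rw [Finset.card_product, nsmul_eq_mul, Nat.cast_mul]
      have := h.unif.hi j hjL k
      exact (mul_le_mul_of_nonneg_right (mul_le_mul this this (by positivity) (by positivity))
        (by positivity)).trans_eq (by ring)) (by
      intro b _
      have c1 := h.unif.cells_le h.one_le (j := i) (i := m + 1) (by omega) (by omega)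
        (b * (Δ : ℝ) ^ i - (Δ : ℝ) ^ m) _ (Finset.filter_subset (fun b' : ℤ => ¬ (Δ : ℝ) ^ (20 * s) ≤
          (Δ : ℝ) ^ 60 * |(b : ℝ) * (Δ : ℝ) ^ i - b' * (Δ : ℝ) ^ i|) _) (by
          intro b' hb'
          have c2 := not_le.mp (Finset.mem_filter.mp hb').2
          rw [hm, pow_add, mul_comm] at c2
          have c3 := abs_lt.mp (lt_of_mul_lt_mul_right c2 (by positivity))
          have c4 : 2 * (Δ : ℝ) ^ m ≤ (Δ : ℝ) ^ (m + 1) := by
            rw [pow_succ']; exact mul_le_mul_of_nonneg_right (by linarith) (by positivity)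
          constructor <;> linarith)
      have c2 := h.unif.le_occ hiL
      generalize (#(occ W ((Δ : ℝ) ^ i)) : ℝ) = cI at *
      set c := (#((occ W ((Δ : ℝ) ^ i)).filter (fun b' : ℤ => ¬ (Δ : ℝ) ^ (20 * s) ≤
          (Δ : ℝ) ^ 60 * |(b : ℝ) * (Δ : ℝ) ^ i - b' * (Δ : ℝ) ^ i|)) : ℝ)
      have c0 : 0 ≤ c := by positivity
      have c3 : c * (Δ : ℝ) ^ 28 ≤ 12 * cI := by
        refine le_of_mul_le_mul_right (a := n i) ?_ (by positivity)
        have := mul_le_mul_of_nonneg_right c1 (show 0 ≤ (Δ : ℝ) ^ 28 by positivity)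
        linarith
      rw [one_div, le_inv_mul_iff₀ (by positivity)]
      have c4 : 12 * 2 ^ 26 ≤ (Δ : ℝ) ^ 4 :=
        le_trans (by linarith) (pow_le_pow_right₀ hD1 (show 2 ≤ 4 by norm_num))
      have := mul_le_mul_of_nonneg_left c4 (show 0 ≤ c * (Δ : ℝ) ^ 24 by positivity)
      have e : c * (Δ : ℝ) ^ 24 * (Δ : ℝ) ^ 4 = c * (Δ : ℝ) ^ 28 := by ring
      linarith) (h.lower hiL hj12 hlin hlin')
  refine ⟨b, hb, b', hb', J, hJ0, far, ?_, fun k hk => ?_⟩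
  · rw [one_div, inv_mul_le_iff₀ (by positivity)] at hJ
    refine hJ.trans ?_
    rw [← mul_assoc]
    refine mul_le_mul_of_nonneg_right ?_ (by positivity)
    rw [pow_succ _ 24, mul_comm (2 ^ 18 : ℝ), mul_assoc]
    exact mul_le_mul_of_nonneg_left (by linarith) (by positivity)
  · have hΦ := hJ1 k hk
    have pos : 0 < 1 / (2 ^ 18 * (Δ : ℝ) ^ 24) * (n i ^ 4 * n j ^ 2) / 4 := by positivity
    have g1 : Λ ≤ k * (Δ : ℝ) ^ j - b * (Δ : ℝ) ^ i ∧ k * (Δ : ℝ) ^ j - b * (Δ : ℝ) ^ i ≤ 4 * Λ := by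
      by_contra hc
      simp only [gI, if_neg hc, ne_eq, OfNat.ofNat_ne_zero, not_false_eq_true, zero_pow, zero_mul,
        Finset.sum_const_zero] at hΦ
      linarith
    have g2 : Λ ≤ k * (Δ : ℝ) ^ j - b' * (Δ : ℝ) ^ i ∧ k * (Δ : ℝ) ^ j - b' * (Δ : ℝ) ^ i ≤ 4 * Λ := by
      by_contra hc
      simp only [gI, if_neg hc, ne_eq, OfNat.ofNat_ne_zero, not_false_eq_true, zero_pow, mul_zero,
        Finset.sum_const_zero] at hΦ
      linarith
    refine ⟨g1, g2, ?_⟩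
    have u := hΦ.trans (h.upper hi hj hw g1 g2)
    generalize (#{z ∈ (inC W ((Δ : ℝ) ^ i) b ×ˢ inC W ((Δ : ℝ) ^ i) b) ×ˢ
              (inC W ((Δ : ℝ) ^ i) b' ×ˢ inC W ((Δ : ℝ) ^ i) b') |
            |(z.1.1 - z.1.2) - (k * (Δ : ℝ) ^ j - b * (Δ : ℝ) ^ i) /
              (k * (Δ : ℝ) ^ j - b' * (Δ : ℝ) ^ i) * (z.2.1 - z.2.2)| ≤ (Δ : ℝ) ^ (j' + 4)}) = C at u ⊢
    rw [one_div, div_le_iff₀ (by norm_num), inv_mul_le_iff₀ (by positivity)] at u
    refine le_of_mul_le_mul_left (a := n j) ?_ (by positivity)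
    have := mul_le_mul_of_nonneg_left (show (2 : ℝ) ^ 20 * 24000 ≤ (Δ : ℝ) ^ 2 by linarith)
      (show 0 ≤ (Δ : ℝ) ^ 24 * (Δ : ℝ) ^ w * n j * n i' * C by positivity)
    exact le_of_eq_of_le (by ring) (u.trans (le_of_eq_of_le (by ring) (this.trans_eq (by ring))))

end Pool.Agent.MP_71ac24_nt.H14
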