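import Pool.Agent.MP_71ac24_nt.H14.Flat
import Pool.Agent.MP_71ac24_nt.H14.Assemble

/-! Level sets and dyadic blocks. -/

set_option autoImplicit false

namespace Pool.Agent.MP_71ac24_nt.H14

open Finset

theorem top_log (k : ℕ) (ε : ℝ) (hε : 0 < ε) : ∃ C : ℝ, 0 < C ∧ ∀ N : ℕ, 1 ≤ N →
    ((Nat.log 2 N : ℝ) + 1) ^ k ≤ C * (N : ℝ) ^ ε := by
  obtain ⟨δ, hδ, hk⟩ : ∃ δ : ℝ, 0 < δ ∧ δ * k ≤ ε := by
    refine ⟨ε / (k + 1), by positivity, ?_⟩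
    rw [div_mul_eq_mul_div, div_le_iff₀ (by positivity)]
    nlinarith
  refine ⟨(2 / δ + 1) ^ k, by positivity, fun N hN => ?_⟩
  have hN1 : (1 : ℝ) ≤ N := by exact_mod_cast hN
  have h1 : (Nat.log 2 N : ℝ) * Real.log 2 ≤ Real.log N := by
    rw [← Real.log_pow]
    apply Real.log_le_log (by positivity)
    exact_mod_cast Nat.pow_log_le_self 2 (by omega : N ≠ 0)
  have h2 : Real.log N ≤ (N : ℝ) ^ δ / δ := Real.log_le_rpow_div (by positivity) hδ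
  have h3 : (1 : ℝ) ≤ (N : ℝ) ^ δ := Real.one_le_rpow hN1 hδ.le
  have h4 : (1 / 2 : ℝ) ≤ Real.log 2 := by have := Real.log_two_gt_d9; linarith
  have h5 : (Nat.log 2 N : ℝ) + 1 ≤ (2 / δ + 1) * (N : ℝ) ^ δ := by
    have h6 : (Nat.log 2 N : ℝ) * (1 / 2) ≤ (Nat.log 2 N : ℝ) * Real.log 2 :=
      mul_le_mul_of_nonneg_left h4 (by positivity)
    have h7 : (2 / δ + 1) * (N : ℝ) ^ δ = 2 * ((N : ℝ) ^ δ / δ) + (N : ℝ) ^ δ := by ring
    linarith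
  calc ((Nat.log 2 N : ℝ) + 1) ^ k ≤ ((2 / δ + 1) * (N : ℝ) ^ δ) ^ k :=
        pow_le_pow_left₀ (by positivity) h5 k
    _ = (2 / δ + 1) ^ k * (N : ℝ) ^ (δ * k) := by
        rw [mul_pow, Real.rpow_mul (by positivity), Real.rpow_natCast]
    _ ≤ (2 / δ + 1) ^ k * (N : ℝ) ^ ε :=
        mul_le_mul_of_nonneg_left (Real.rpow_le_rpow_of_exponent_le hN1 hk) (by positivity)

theorem top_delta (L M N : ℕ) (hL : 1 ≤ L) (hM : 2 ^ L ≤ M) (hN : M ^ L ≤ N) :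
    ∃ Δ : ℕ, M ≤ Δ ∧ Δ ^ L ≤ N ∧ N ≤ Δ ^ (L + 1) := by
  have hex : ∃ Δ : ℕ, N < (Δ + 1) ^ L :=
    ⟨N, lt_of_lt_of_le (Nat.lt_succ_self N) (Nat.le_self_pow (by omega) _)⟩
  classical
  have h1 := Nat.find_spec hex
  have h2 : M ≤ Nat.find hex := by
    by_contra h
    have := Nat.pow_le_pow_left (show Nat.find hex + 1 ≤ M by omega) L
    omega
  have hM1 : 1 ≤ M := le_trans Nat.one_le_two_pow hM
  refine ⟨Nat.find hex, h2, ?_, ?_⟩
  · have h3 := Nat.find_min hex (show Nat.find hex - 1 < Nat.find hex by omega)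
    rw [show Nat.find hex - 1 + 1 = Nat.find hex by omega] at h3
    omega
  · generalize Nat.find hex = Δ at h1 h2
    calc N ≤ (Δ + 1) ^ L := h1.le
      _ ≤ (2 * Δ) ^ L := Nat.pow_le_pow_left (by omega) L
      _ = Δ ^ L * 2 ^ L := by rw [mul_pow, mul_comm]
      _ ≤ Δ ^ L * Δ := Nat.mul_le_mul_left _ (hM.trans h2)
      _ = Δ ^ (L + 1) := (pow_succ _ _).symm

theorem top_sum (W : Finset ℝ) (f : ℝ → ℝ) (N : ℕ) (B : ℝ) (hf : ∀ t ∈ W, 0 ≤ f t ∧ f t ≤ N)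
    (hB : ∀ V : ℝ, 0 ≤ V → (#{t ∈ W | V ≤ f t} : ℝ) * V ^ 2 ≤ B) :
    ∑ t ∈ W, f t ^ 2 ≤ #W + 4 * ((Nat.log 2 N : ℝ) + 1) * B := by
  have key : ∀ t ∈ W, f t ^ 2 ≤ 1 + ∑ i ∈ range (Nat.log 2 N + 1),
      if (2 : ℝ) ^ i ≤ f t then 4 * ((2 : ℝ) ^ i) ^ 2 else 0 := by
    intro t ht
    obtain ⟨h0, h1⟩ := hf t ht
    have hnn : ∀ i ∈ range (Nat.log 2 N + 1),
        (0 : ℝ) ≤ if (2 : ℝ) ^ i ≤ f t then 4 * ((2 : ℝ) ^ i) ^ 2 else 0 := by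
      intro i _
      split_ifs <;> positivity
    rcases lt_or_ge (f t) 1 with h | h
    · have := sum_nonneg hnn
      nlinarith
    · have hfl : 1 ≤ ⌊f t⌋₊ := Nat.le_floor (by simpa using h)
      have hi : Nat.log 2 ⌊f t⌋₊ ∈ range (Nat.log 2 N + 1) := by
        rw [mem_range, Nat.lt_succ_iff]
        exact Nat.log_mono_right (Nat.floor_le_of_le h1)
      have h2 := single_le_sum hnn hi
      have h3 : (2 : ℝ) ^ Nat.log 2 ⌊f t⌋₊ ≤ f t := by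
        refine le_trans ?_ (Nat.floor_le h0)
        exact_mod_cast Nat.pow_log_le_self 2 (by omega : ⌊f t⌋₊ ≠ 0)
      have h4 : f t ≤ 2 * (2 : ℝ) ^ Nat.log 2 ⌊f t⌋₊ := by
        refine (Nat.lt_floor_add_one (f t)).le.trans ?_
        have := Nat.lt_pow_succ_log_self (b := 2) (by norm_num) ⌊f t⌋₊
        rw [pow_succ, mul_comm] at this
        exact_mod_cast this
      rw [if_pos h3] at h2
      have h5 := pow_le_pow_left₀ h0 h4 2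
      rw [mul_pow] at h5
      linarith
  refine (sum_le_sum key).trans ?_
  rw [sum_add_distrib, sum_comm, sum_const, nsmul_eq_mul, mul_one]
  have h2 : ∀ i ∈ range (Nat.log 2 N + 1),
      (∑ t ∈ W, if (2 : ℝ) ^ i ≤ f t then 4 * ((2 : ℝ) ^ i) ^ 2 else 0) ≤ 4 * B := by
    intro i _
    rw [← sum_filter, sum_const, nsmul_eq_mul]
    have := hB ((2 : ℝ) ^ i) (by positivity)
    linarith
  have h3 := sum_le_sum h2
  rw [sum_const, card_range, nsmul_eq_mul] at h3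
  push_cast at h3
  linarith

theorem top_triv (N : ℕ) (a : ℕ → ℂ) (ha : ∀ m, ‖a m‖ ≤ 1) (t : ℝ) :
    ‖∑ m ∈ Ioc N (2 * N), a m * ei (t * Real.log m)‖ ≤ N := by
  refine (norm_sum_le _ _).trans ?_
  have h : ∀ m ∈ Ioc N (2 * N), ‖a m * ei (t * Real.log m)‖ ≤ 1 := by
    intro m _
    rw [norm_mul, norm_ei, mul_one]
    exact ha m
  refine (sum_le_sum h).trans ?_
  rw [sum_const, Nat.card_Ioc, nsmul_eq_mul, mul_one, show 2 * N - N = N by omega]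

theorem top_split (g : ℕ → ℂ) (K : ℕ) : ∑ m ∈ Icc 1 (2 ^ K), g m =
    g 1 + ∑ i ∈ range K, ∑ m ∈ Ioc (2 ^ i) (2 * 2 ^ i), g m := by
  induction K with
  | zero => simp
  | succ K ih =>
    rw [sum_range_succ, ← add_assoc, ← ih, ← sum_union]
    · congr 1
      ext m
      have : 1 ≤ 2 ^ K := Nat.one_le_two_pow
      simp only [mem_Icc, mem_union, mem_Ioc, pow_succ]
      omega
    · rw [disjoint_left]
      intro m h1 h2
      simp only [mem_Icc, mem_Ioc] at h1 h2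
      omega

theorem top_cs (x : ℂ) (y : ℕ → ℂ) (K : ℕ) :
    ‖x + ∑ i ∈ range K, y i‖ ^ 2 ≤ 2 * ‖x‖ ^ 2 + 2 * K * ∑ i ∈ range K, ‖y i‖ ^ 2 := by
  have h1 : ‖x + ∑ i ∈ range K, y i‖ ≤ ‖x‖ + ∑ i ∈ range K, ‖y i‖ :=
    (norm_add_le _ _).trans (add_le_add_right (norm_sum_le _ _) _)
  have h2 := pow_le_pow_left₀ (norm_nonneg _) h1 2
  have h3 : (∑ i ∈ range K, ‖y i‖) ^ 2 ≤ #(range K) * ∑ i ∈ range K, ‖y i‖ ^ 2 :=
    sq_sum_le_card_mul_sum_sq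
  rw [card_range] at h3
  nlinarith [sq_nonneg (‖x‖ - ∑ i ∈ range K, ‖y i‖)]

/-- HINT. `L = 20 s`, `c = 1 / (2 L + 2)`. For `N ≥ N0` there is `Δ ≥ 10 ^ 9` with `Δ ^ L ≤ N ≤ Δ ^ (L + 1)` (take the largest `Δ` with `Δ ^ L ≤ N`; `(Δ + 1) ^ L ≤ Δ ^ (L + 1)` once `Δ ≥ 2 ^ L`);
then `N ^ c ≤ Δ ^ (1/2)`. Points with `‖D t‖ < 1` contribute `≤ #W ≤ N`; the others are sorted by `i = Nat.log 2 ⌊‖D t‖⌋₊ ≤ Nat.log 2 N`; for each class use `exists_unif` and `level_unif` with `V = 2 ^ i`.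
`(Nat.log 2 N + 1) ^ (L + 2) ≤ C N ^ ε`. For `N < N0` use `‖D t‖ ≤ N`, `#W ≤ N0`. -/
theorem dyadic {s : ℕ} (hs : 5 ≤ s)
    (hW0 : ∀ (Δ : ℕ) (W : Finset ℝ) (n : ℕ → ℝ) (Λ : ℝ), ¬ World Δ s W n Λ) :
    ∃ c : ℝ, 0 < c ∧ c ≤ 1 / 2 ∧ ∀ ε : ℝ, 0 < ε → ∃ C : ℝ, 0 < C ∧ ∀ N : ℕ, 1 ≤ N →
      ∀ a : ℕ → ℂ, (∀ m, ‖a m‖ ≤ 1) → ∀ W : Finset ℝ, Sep W →
        (∀ t ∈ W, 0 ≤ t ∧ t ≤ (N : ℝ) ^ (1 + c)) → (#W : ℝ) ≤ (N : ℝ) ^ (1 / 2 + c) →
        ∑ t ∈ W, ‖∑ m ∈ Ioc N (2 * N), a m * ei (t * Real.log m)‖ ^ 2 ≤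
          C * (N : ℝ) ^ ε * (N : ℝ) ^ 2 := by
  obtain ⟨M, hM1, hM2⟩ : ∃ M : ℕ, 10 ^ 9 ≤ M ∧ 2 ^ (20 * s) ≤ M :=
    ⟨max (10 ^ 9) (2 ^ (20 * s)), le_max_left _ _, le_max_right _ _⟩
  obtain ⟨N0, hN0⟩ : ∃ N0 : ℕ, N0 = M ^ (20 * s) := ⟨_, rfl⟩
  obtain ⟨c, hc0, hc1, hc2⟩ : ∃ c : ℝ, 0 < c ∧ c ≤ 1 / 2 ∧ ((20 * s + 1 : ℕ) : ℝ) * c = 1 / 2 := by
    refine ⟨1 / (2 * ((20 * s + 1 : ℕ) : ℝ)), by positivity, ?_, by field_simp⟩
    apply one_div_le_one_div_of_le (by norm_num)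
    have : (1 : ℝ) ≤ ((20 * s + 1 : ℕ) : ℝ) := by exact_mod_cast Nat.le_add_left 1 _
    linarith
  refine ⟨c, hc0, hc1, fun ε hε => ?_⟩
  obtain ⟨C1, hC1, hlog⟩ := top_log (20 * s + 2) ε hε
  refine ⟨N0 + 1 + 4 * 10 ^ 8 * C1, by positivity, fun N hN a ha W hW hr hc => ?_⟩
  have hN1 : (1 : ℝ) ≤ N := by exact_mod_cast hN
  have hNe : (1 : ℝ) ≤ (N : ℝ) ^ ε := Real.one_le_rpow hN1 hε.le
  have hWN : (#W : ℝ) ≤ N := by
    refine hc.trans ?_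
    conv_rhs => rw [← Real.rpow_one (N : ℝ)]
    exact Real.rpow_le_rpow_of_exponent_le hN1 (by linarith)
  have hpos : (0 : ℝ) ≤ (N : ℝ) ^ ε * (N : ℝ) ^ 2 := by positivity
  have hN2 : (N : ℝ) ^ 2 ≤ (N : ℝ) ^ ε * (N : ℝ) ^ 2 := le_mul_of_one_le_left (by positivity) hNe
  rcases lt_or_ge N N0 with hlt | hge
  · have h1 : ∑ t ∈ W, ‖∑ m ∈ Ioc N (2 * N), a m * ei (t * Real.log m)‖ ^ 2
        ≤ ∑ _t ∈ W, (N : ℝ) ^ 2 :=
      sum_le_sum fun t _ => pow_le_pow_left₀ (norm_nonneg _) (top_triv N a ha t) 2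
    rw [sum_const, nsmul_eq_mul] at h1
    have h2 : (#W : ℝ) ≤ N0 + 1 + 4 * 10 ^ 8 * C1 := by
      have : (N : ℝ) ≤ N0 := by exact_mod_cast hlt.le
      have : (0 : ℝ) ≤ 4 * 10 ^ 8 * C1 := by positivity
      linarith
    rw [mul_assoc]
    exact h1.trans (mul_le_mul h2 hN2 (by positivity) (by positivity))
  · obtain ⟨Δ, hΔ, hD1, hD2⟩ := top_delta (20 * s) M N (by omega) hM2 (hN0 ▸ hge)
    have hΔ9 : 10 ^ 9 ≤ Δ := hM1.trans hΔ
    have hΔ1 : 1 ≤ Δ := le_trans (by norm_num) hΔ9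
    have hΔ1' : (1 : ℝ) ≤ Δ := by exact_mod_cast hΔ1
    have hD2' : (N : ℝ) ≤ (Δ : ℝ) ^ ((20 * s + 1 : ℕ) : ℝ) := by
      rw [Real.rpow_natCast]
      exact_mod_cast hD2
    have hpw : ∀ e : ℝ, 0 ≤ e → (N : ℝ) ^ e ≤ (Δ : ℝ) ^ (((20 * s + 1 : ℕ) : ℝ) * e) := by
      intro e he
      rw [Real.rpow_mul (by positivity)]
      exact Real.rpow_le_rpow (by positivity) hD2' he
    have hr' : ∀ t ∈ W, 0 ≤ t ∧ t ≤ Δ * N := by
      intro t ht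
      refine ⟨(hr t ht).1, (hr t ht).2.trans ?_⟩
      rw [Real.rpow_add (by positivity), Real.rpow_one, mul_comm]
      refine mul_le_mul_of_nonneg_right ((hpw c hc0.le).trans ?_) (by positivity)
      rw [hc2]
      conv_rhs => rw [← Real.rpow_one (Δ : ℝ)]
      exact Real.rpow_le_rpow_of_exponent_le hΔ1' (by norm_num)
    have hc' : (#W : ℝ) ≤ (Δ : ℝ) ^ (10 * s + 1) := by
      refine hc.trans ((hpw _ (by positivity)).trans (le_of_eq ?_))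
      rw [← Real.rpow_natCast, mul_add, hc2]
      congr 1
      push_cast
      ring
    have hB : ∀ V : ℝ, 0 ≤ V →
        (#{t ∈ W | V ≤ ‖∑ m ∈ Ioc N (2 * N), a m * ei (t * Real.log m)‖} : ℝ) * V ^ 2
          ≤ ((Nat.log 2 N : ℝ) + 1) ^ (20 * s + 1) * (10 ^ 8 * (N : ℝ) ^ 2) := by
      intro V hV
      obtain ⟨W1, hW1⟩ : ∃ W1, W1 =
        {t ∈ W | V ≤ ‖∑ m ∈ Ioc N (2 * N), a m * ei (t * Real.log m)‖} := ⟨_, rfl⟩
      rw [← hW1]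
      have hsub : W1 ⊆ W := hW1 ▸ filter_subset _ _
      rcases W1.eq_empty_or_nonempty with h | h
      · rw [h, card_empty, Nat.cast_zero, zero_mul]
        positivity
      obtain ⟨W', n, h1, -, h3, h4⟩ := exists_unif W1 h Δ hΔ1 (20 * s)
      have h5 := level_unif hs (hW0 Δ) hΔ9 hD1 hD2 W' (hW.mono (h1.trans hsub))
        (fun t ht => hr' t (hsub (h1 ht)))
        (le_trans (by exact_mod_cast card_le_card (h1.trans hsub)) hc') n h3 a ha V hV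
        (fun t ht => by
          have h9 := h1 ht
          rw [hW1, mem_filter] at h9
          exact h9.2)
      have h6 : #W1 ≤ N := by
        have : #W ≤ N := by exact_mod_cast hWN
        exact (card_le_card hsub).trans this
      have h7 : #W1 ≤ (Nat.log 2 N + 1) ^ (20 * s + 1) * #W' :=
        h4.trans (Nat.mul_le_mul_right _
          (Nat.pow_le_pow_left (Nat.succ_le_succ (Nat.log_mono_right h6)) _))
      have h8 : (#W1 : ℝ) ≤ ((Nat.log 2 N : ℝ) + 1) ^ (20 * s + 1) * #W' := by exact_mod_cast h7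
      calc (#W1 : ℝ) * V ^ 2 ≤ ((Nat.log 2 N : ℝ) + 1) ^ (20 * s + 1) * #W' * V ^ 2 :=
            mul_le_mul_of_nonneg_right h8 (by positivity)
        _ = ((Nat.log 2 N : ℝ) + 1) ^ (20 * s + 1) * (#W' * V ^ 2) := mul_assoc _ _ _
        _ ≤ _ := mul_le_mul_of_nonneg_left h5 (by positivity)
    have h1 := top_sum W (fun t => ‖∑ m ∈ Ioc N (2 * N), a m * ei (t * Real.log m)‖) N _
      (fun t _ => ⟨norm_nonneg _, top_triv N a ha t⟩) hB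
    refine h1.trans ?_
    have h2 := hlog N hN
    rw [pow_succ] at h2
    generalize ((Nat.log 2 N : ℝ) + 1) ^ (20 * s + 1) = P at h2 ⊢
    have h3 : 4 * ((Nat.log 2 N : ℝ) + 1) * (P * (10 ^ 8 * (N : ℝ) ^ 2))
        = 4 * 10 ^ 8 * (N : ℝ) ^ 2 * (P * ((Nat.log 2 N : ℝ) + 1)) := by ring
    have h4 := mul_le_mul_of_nonneg_left h2 (show (0 : ℝ) ≤ 4 * 10 ^ 8 * (N : ℝ) ^ 2 by positivity)
    have h5 : (N : ℝ) ≤ (N : ℝ) ^ 2 := le_self_pow₀ hN1 (by norm_num)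
    have h6 : ((N0 : ℝ) + 1 + 4 * 10 ^ 8 * C1) * (N : ℝ) ^ ε * (N : ℝ) ^ 2
        = N0 * ((N : ℝ) ^ ε * (N : ℝ) ^ 2) + (N : ℝ) ^ ε * (N : ℝ) ^ 2
          + 4 * 10 ^ 8 * (N : ℝ) ^ 2 * (C1 * (N : ℝ) ^ ε) := by ring
    have h7 : (0 : ℝ) ≤ N0 * ((N : ℝ) ^ ε * (N : ℝ) ^ 2) := by positivity
    rw [h3, h6]
    linarith

/-- HINT. Take `c0` from `dyadic` (with `s = 300 * 24200000`, `World.false`) and `c = c0 / 4`. With `a' m = if m ≤ N then a m else 0`, the sum over `Icc 1 N` is `a 1` plus the blocks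
`Ioc (2 ^ i) (2 * 2 ^ i)`, `i ≤ Nat.log 2 N`; Cauchy-Schwarz. If `2 ^ i ≤ N ^ (1 - c)` use `mvt` with `Y = N ^ (1 + c)`; otherwise `N ^ (1 + c) ≤ (2 ^ i) ^ (1 + c0)` and
`N ^ (1/2 + c) ≤ (2 ^ i) ^ (1/2 + c0)` and `dyadic` applies. -/
theorem main : ∃ c : ℝ, 0 < c ∧ ∀ ε : ℝ, 0 < ε → ∃ C : ℝ, 0 < C ∧ ∀ N : ℕ, 1 ≤ N →
    ∀ a : ℕ → ℂ, (∀ m, ‖a m‖ ≤ 1) → ∀ W : Finset ℝ, Sep W →
      (∀ t ∈ W, 0 ≤ t ∧ t ≤ (N : ℝ) ^ (1 + c)) → (#W : ℝ) ≤ (N : ℝ) ^ (1 / 2 + c) →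
      ∑ t ∈ W, ‖∑ m ∈ Icc 1 N, a m * ei (t * Real.log m)‖ ^ 2 ≤
        C * (N : ℝ) ^ ε * (N : ℝ) ^ 2 := by
  obtain ⟨c0, h0, h1, hd⟩ := dyadic (s := 300 * 24200000) (by norm_num)
    (fun Δ W n Λ h => World.false (θ := 24200000) le_rfl h)
  refine ⟨c0 / 4, by positivity, fun ε hε => ?_⟩
  obtain ⟨C0, hC0, hd⟩ := hd (ε / 2) (by positivity)
  obtain ⟨C1, hC1, hlog⟩ := top_log 2 (ε / 2) (by positivity)
  refine ⟨2 + 2 * C1 * (30000 + C0), by positivity, fun N hN a ha W hW hr hc => ?_⟩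
  have hN1 : (1 : ℝ) ≤ N := by exact_mod_cast hN
  have hNp : (0 : ℝ) < N := by positivity
  have hNe : (1 : ℝ) ≤ (N : ℝ) ^ (ε / 2) := Real.one_le_rpow hN1 (by positivity)
  have hNe' : (1 : ℝ) ≤ (N : ℝ) ^ ε := Real.one_le_rpow hN1 hε.le
  have hWN : (#W : ℝ) ≤ N := by
    refine hc.trans ?_
    conv_rhs => rw [← Real.rpow_one (N : ℝ)]
    exact Real.rpow_le_rpow_of_exponent_le hN1 (by linarith)
  obtain ⟨b, hb⟩ : ∃ b : ℕ → ℂ, b = fun m => if m ≤ N then a m else 0 := ⟨_, rfl⟩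
  have hb1 : ∀ m, ‖b m‖ ≤ 1 := by
    intro m
    rw [hb]
    dsimp only
    split_ifs
    · exact ha m
    · simp
  have hK : N ≤ 2 ^ (Nat.log 2 N + 1) := (Nat.lt_pow_succ_log_self (by norm_num) N).le
  have hsplit : ∀ t : ℝ, ∑ m ∈ Icc 1 N, a m * ei (t * Real.log m) =
      b 1 * ei (t * Real.log (1 : ℕ)) + ∑ i ∈ range (Nat.log 2 N + 1),
        ∑ m ∈ Ioc (2 ^ i) (2 * 2 ^ i), b m * ei (t * Real.log m) := by
    intro t
    rw [← top_split (fun m => b m * ei (t * Real.log m))]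
    rw [← sum_subset (Icc_subset_Icc_right hK)]
    · refine sum_congr rfl fun m hm => ?_
      rw [hb]
      dsimp only
      rw [if_pos (mem_Icc.1 hm).2]
    · intro m hm hm'
      rw [hb]
      dsimp only
      rw [if_neg, zero_mul]
      intro h
      exact hm' (mem_Icc.2 ⟨(mem_Icc.1 hm).1, h⟩)
  have hblock : ∀ i ∈ range (Nat.log 2 N + 1),
      ∑ t ∈ W, ‖∑ m ∈ Ioc (2 ^ i) (2 * 2 ^ i), b m * ei (t * Real.log m)‖ ^ 2
        ≤ (30000 + C0) * ((N : ℝ) ^ (ε / 2) * (N : ℝ) ^ 2) := by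
    intro i hi
    have hM : 2 ^ i ≤ N :=
      (Nat.pow_le_pow_right (by norm_num) (Nat.lt_succ_iff.1 (mem_range.1 hi))).trans
        (Nat.pow_log_le_self 2 (by omega))
    have hM1 : 1 ≤ 2 ^ i := Nat.one_le_two_pow
    generalize 2 ^ i = M at hM hM1
    have hM' : (M : ℝ) ≤ N := by exact_mod_cast hM
    have hM1' : (1 : ℝ) ≤ M := by exact_mod_cast hM1
    have hX : (N : ℝ) ^ 2 ≤ (N : ℝ) ^ (ε / 2) * (N : ℝ) ^ 2 :=
      le_mul_of_one_le_left (by positivity) hNe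
    have hX0 : (0 : ℝ) ≤ (N : ℝ) ^ (ε / 2) * (N : ℝ) ^ 2 := by positivity
    rcases le_or_gt (M : ℝ) ((N : ℝ) ^ (1 - c0 / 4)) with h | h
    · have hY : (M : ℝ) ≤ (N : ℝ) ^ (1 + c0 / 4) :=
        h.trans (Real.rpow_le_rpow_of_exponent_le hN1 (by linarith))
      refine (mvt M hM1 _ hY W hW hr b hb1).trans ?_
      have h2 : (N : ℝ) ^ (1 + c0 / 4) * M ≤ (N : ℝ) ^ 2 := by
        refine (mul_le_mul_of_nonneg_left h (by positivity)).trans (le_of_eq ?_)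
        rw [← Real.rpow_add hNp, ← Real.rpow_natCast]
        congr 1
        push_cast
        ring
      have h3 := mul_nonneg hC0.le hX0
      rw [mul_assoc, add_mul]
      linarith
    · have hpw : ∀ e e' : ℝ, 0 ≤ e' → e ≤ (1 - c0 / 4) * e' → (N : ℝ) ^ e ≤ (M : ℝ) ^ e' := by
        intro e e' he' hee
        refine (Real.rpow_le_rpow_of_exponent_le hN1 hee).trans ?_
        rw [Real.rpow_mul hNp.le]
        exact Real.rpow_le_rpow (by positivity) h.le he'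
      have h2 := hd M hM1 b hb1 W hW
        (fun t ht => ⟨(hr t ht).1, (hr t ht).2.trans (hpw _ _ (by linarith) (by nlinarith))⟩)
        (hc.trans (hpw _ _ (by linarith) (by nlinarith)))
      refine h2.trans ?_
      have h3 : (M : ℝ) ^ (ε / 2) * (M : ℝ) ^ 2 ≤ (N : ℝ) ^ (ε / 2) * (N : ℝ) ^ 2 :=
        mul_le_mul (Real.rpow_le_rpow (by positivity) hM' (by positivity))
          (pow_le_pow_left₀ (by positivity) hM' 2) (by positivity) (by positivity)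
      have h4 := mul_le_mul_of_nonneg_left h3 hC0.le
      rw [mul_assoc, add_mul]
      linarith
  have hpt : ∀ t ∈ W, ‖∑ m ∈ Icc 1 N, a m * ei (t * Real.log m)‖ ^ 2 ≤
      2 + 2 * ((Nat.log 2 N : ℝ) + 1) * ∑ i ∈ range (Nat.log 2 N + 1),
        ‖∑ m ∈ Ioc (2 ^ i) (2 * 2 ^ i), b m * ei (t * Real.log m)‖ ^ 2 := by
    intro t _
    rw [hsplit t]
    refine (top_cs _ _ _).trans ?_
    have h2 : ‖b 1 * ei (t * Real.log (1 : ℕ))‖ ^ 2 ≤ 1 := by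
      rw [norm_mul, norm_ei, mul_one]
      exact pow_le_one₀ (norm_nonneg _) (hb1 1)
    push_cast at h2 ⊢
    linarith
  refine (sum_le_sum hpt).trans ?_
  rw [sum_add_distrib, sum_const, nsmul_eq_mul, ← mul_sum, sum_comm]
  have h2 := sum_le_sum hblock
  rw [sum_const, card_range, nsmul_eq_mul] at h2
  push_cast at h2
  have h3 := mul_le_mul_of_nonneg_left h2
    (show (0 : ℝ) ≤ 2 * ((Nat.log 2 N : ℝ) + 1) by positivity)
  have h4 := mul_le_mul_of_nonneg_left (hlog N hN)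
    (show (0 : ℝ) ≤ 2 * ((30000 + C0) * ((N : ℝ) ^ (ε / 2) * (N : ℝ) ^ 2)) by positivity)
  have h5 : (N : ℝ) ^ ε = (N : ℝ) ^ (ε / 2) * (N : ℝ) ^ (ε / 2) := by
    rw [← Real.rpow_add hNp, add_halves]
  have h6 : (N : ℝ) ≤ (N : ℝ) ^ ε * (N : ℝ) ^ 2 :=
    (le_self_pow₀ hN1 (by norm_num)).trans (le_mul_of_one_le_left (by positivity) hNe')
  have h7 : (2 + 2 * C1 * (30000 + C0)) * (N : ℝ) ^ ε * (N : ℝ) ^ 2
      = 2 * ((N : ℝ) ^ ε * (N : ℝ) ^ 2) + 2 * ((30000 + C0) * ((N : ℝ) ^ (ε / 2) * (N : ℝ) ^ 2))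
        * (C1 * (N : ℝ) ^ (ε / 2)) := by
    rw [h5]
    ring
  have h8 : 2 * ((Nat.log 2 N : ℝ) + 1) * (((Nat.log 2 N : ℝ) + 1) *
      ((30000 + C0) * ((N : ℝ) ^ (ε / 2) * (N : ℝ) ^ 2)))
      = 2 * ((30000 + C0) * ((N : ℝ) ^ (ε / 2) * (N : ℝ) ^ 2)) * ((Nat.log 2 N : ℝ) + 1) ^ 2 := by
    ring
  rw [h7]
  linarith

lemma sum_le_of_small {α : Type*} (g : α → ℝ) (M : ℕ) (hM : 1 ≤ M) (B : ℝ) (hB : 0 ≤ B) (S : Finset α)
    (h : ∀ S' ⊆ S, #S' ≤ M → ∑ t ∈ S', g t ≤ B) : ∑ t ∈ S, g t ≤ B * (#S / M + 1) := by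
  classical
  have M0 : (0 : ℝ) < M := by exact_mod_cast hM
  induction hk : #S using Nat.strong_induction_on generalizing S with
  | _ k ih =>
    subst hk
    rcases le_or_gt #S M with h1 | h1
    · exact (h S subset_rfl h1).trans (le_mul_of_one_le_right hB (le_add_of_nonneg_left (by positivity)))
    · obtain ⟨S', h2, h3⟩ := Finset.exists_subset_card_eq h1.le
      have h4 : #(S \ S') + M = #S := by rw [← h3]; exact Finset.card_sdiff_add_card_eq_card h2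
      have h5 := ih _ (by omega) (S \ S') (fun T hT => h T (hT.trans Finset.sdiff_subset)) rfl
      rw [← Finset.sum_sdiff h2, ← h4]
      refine (add_le_add h5 (h S' h2 h3.le)).trans_eq ?_
      push_cast
      field_simp

/-- subdivision: arbitrary ranges and arbitrary sets -/
theorem general : ∃ c : ℝ, 0 < c ∧ ∀ ε : ℝ, 0 < ε → ∃ C : ℝ, 0 < C ∧ ∀ N : ℕ, 1 ≤ N → ∀ T : ℝ, 0 ≤ T →
    ∀ a : ℕ → ℂ, (∀ m, ‖a m‖ ≤ 1) → ∀ W : Finset ℝ, Sep W → (∀ t ∈ W, 0 ≤ t ∧ t ≤ T) →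
      ∑ t ∈ W, ‖∑ m ∈ Icc 1 N, a m * ei (t * Real.log m)‖ ^ 2 ≤
        C * (N : ℝ) ^ ε * (N + T / (N : ℝ) ^ c + #W * (N : ℝ) ^ (1 / 2 - c)) * N := by
  obtain ⟨c, hc, H⟩ := main
  refine ⟨c, hc, fun ε hε => ?_⟩
  obtain ⟨C, hC, H⟩ := H ε hε
  refine ⟨2 * C, by positivity, fun N hN T hT a ha W hW hr => ?_⟩
  have N1 : (1 : ℝ) ≤ N := by exact_mod_cast hN
  have N0 : (0 : ℝ) < N := by linarith
  set U := (N : ℝ) ^ (1 + c) with hU
  have U0 : 0 < U := by positivity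
  set V := (N : ℝ) ^ (1 / 2 + c) with hV
  have V1 : 1 ≤ V := Real.one_le_rpow N1 (by linarith)
  have M1 : 1 ≤ ⌊V⌋₊ := Nat.le_floor (by exact_mod_cast V1)
  have M2 : V ≤ 2 * ⌊V⌋₊ := by
    have h1 := Nat.lt_floor_add_one V
    have h2 : (1 : ℝ) ≤ ⌊V⌋₊ := by exact_mod_cast M1
    linarith
  set B := C * (N : ℝ) ^ ε * (N : ℝ) ^ 2 with hB
  have B0 : 0 ≤ B := by positivity
  have cell : ∀ k : ℤ, ∑ t ∈ inC W U k, ‖∑ m ∈ Icc 1 N, a m * ei (t * Real.log m)‖ ^ 2 ≤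
      B * (#(inC W U k) / ⌊V⌋₊ + 1) := by
    intro k
    refine sum_le_of_small _ _ M1 B B0 _ fun S hS hc => ?_
    have inj : Set.InjOn (fun t : ℝ => t - k * U) S := fun _ _ _ _ e => sub_left_injective e
    have key := H N hN (fun m => a m * ei (k * U * Real.log m))
      (fun m => by rw [norm_mul, norm_ei, mul_one]; exact ha m) (S.image fun t => t - k * U) (by
        intro x hx y hy hxy
        obtain ⟨t, ht, rfl⟩ := Finset.mem_image.mp hx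
        obtain ⟨u, hu, rfl⟩ := Finset.mem_image.mp hy
        rw [sub_sub_sub_cancel_right]
        exact hW t (mem_inC.mp (hS ht)).1 u (mem_inC.mp (hS hu)).1 fun e => hxy (by rw [e])) (by
        intro x hx
        obtain ⟨t, ht, rfl⟩ := Finset.mem_image.mp hx
        obtain ⟨b1, b2⟩ := inC_bounds U0 (hS ht)
        constructor <;> linarith) (by
        rw [Finset.card_image_of_injOn inj]
        exact (Nat.cast_le.mpr hc).trans (Nat.floor_le (by linarith)))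
    rw [Finset.sum_image inj] at key
    refine le_of_eq_of_le (Finset.sum_congr rfl fun t _ => ?_) key
    congr 2
    refine Finset.sum_congr rfl fun m _ => ?_
    rw [mul_assoc, ← ei_add]
    congr 2
    ring
  have oc : (#(occ W U) : ℝ) ≤ T / U + 1 := by
    have h1 : occ W U ⊆ Icc 0 (⌊T / U⌋₊ : ℤ) := by
      intro k hk
      obtain ⟨t, ht, rfl⟩ := Finset.mem_image.mp hk
      obtain ⟨h1, h2⟩ := hr t ht
      rw [Int.natCast_floor_eq_floor (by positivity)]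
      exact Finset.mem_Icc.mpr ⟨Int.floor_nonneg.mpr (by positivity),
        Int.floor_le_floor (div_le_div_of_nonneg_right h2 U0.le)⟩
    have h2 := Finset.card_le_card h1
    rw [Int.card_Icc, sub_zero, show (⌊T / U⌋₊ : ℤ) + 1 = (⌊T / U⌋₊ + 1 : ℕ) by push_cast; rfl,
      Int.toNat_natCast] at h2
    have h3 : (#(occ W U) : ℝ) ≤ ⌊T / U⌋₊ + 1 := by exact_mod_cast h2
    linarith [Nat.floor_le (show 0 ≤ T / U by positivity)]
  rw [← sum_occ W U]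
  refine (Finset.sum_le_sum fun k _ => cell k).trans ?_
  have e1 : ∑ k ∈ occ W U, (#(inC W U k) : ℝ) = #W := by
    simpa using sum_occ W U (fun _ => (1 : ℝ))
  rw [← Finset.mul_sum, Finset.sum_add_distrib, ← Finset.sum_div, e1, Finset.sum_const, nsmul_eq_mul,
    mul_one]
  have e2 : T / (N : ℝ) ^ c = N * (T / U) := by
    rw [hU, Real.rpow_add N0, Real.rpow_one]; field_simp
  have e3 : (N : ℝ) ^ (1 / 2 - c) = N / V := by
    rw [hV, eq_div_iff (by positivity), ← Real.rpow_add N0]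
    rw [show 1 / 2 - c + (1 / 2 + c) = 1 by ring, Real.rpow_one]
  have e4 : (#W : ℝ) / ⌊V⌋₊ ≤ 2 * (#W / V) := by
    rw [← mul_div_assoc, div_le_div_iff₀ (by exact_mod_cast M1) (by linarith)]
    have := mul_le_mul_of_nonneg_left M2 (show (0 : ℝ) ≤ #W by positivity)
    linarith
  have e5 : 0 ≤ T / U := by positivity
  rw [e2, e3]
  calc _ ≤ B * (2 * (1 + T / U + #W / V)) := mul_le_mul_of_nonneg_left (by linarith) B0
    _ = _ := by rw [hB]; ring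

end Pool.Agent.MP_71ac24_nt.H14
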